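import Mathlib
set_option autoImplicit false
set_option linter.unusedSectionVars false
set_option linter.style.haveILetI false
set_option linter.unusedVariables false
open scoped ZeroAtInfty BoundedContinuousFunction ComplexOrder Topology Pointwise
open MeasureTheory Filter Set

namespace Pool.Agent.Helper550.Rad
noncomputable section

universe u
variable {G : Type u} [AddCommGroup G] [TopologicalSpace G] [IsTopologicalAddGroup G]
  [T2Space G] [LocallyCompactSpace G]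

/-- The translate `(T_x f)(y) = f (x + y)` of a function in `C₀(G)`. -/
def tr (x : G) (f : C₀(G, ℂ)) : C₀(G, ℂ) :=
  f.comp (Homeomorph.toCocompactMap (Homeomorph.addLeft x))

@[simp] theorem tr_apply (x y : G) (f : C₀(G, ℂ)) : tr x f y = f (x + y) := rfl

theorem c0_norm_le {f : C₀(G, ℂ)} {C : ℝ} (hC : 0 ≤ C) : ‖f‖ ≤ C ↔ ∀ x, ‖f x‖ ≤ C := by
  rw [← ZeroAtInftyContinuousMap.norm_toBCF_eq_norm, BoundedContinuousFunction.norm_le hC]
  rfl

theorem c0_apply_le (f : C₀(G, ℂ)) (x : G) : ‖f x‖ ≤ ‖f‖ :=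
  (c0_norm_le (norm_nonneg f)).1 le_rfl x

theorem tr_zero (f : C₀(G, ℂ)) : tr 0 f = f := by
  ext y; simp

theorem tr_tr (x y : G) (f : C₀(G, ℂ)) : tr x (tr y f) = tr (x + y) f := by
  ext z; simp [add_assoc, add_left_comm]

theorem tr_add (x : G) (f g : C₀(G, ℂ)) : tr x (f + g) = tr x f + tr x g := by
  ext z; simp

theorem tr_sub (x : G) (f g : C₀(G, ℂ)) : tr x (f - g) = tr x f - tr x g := by
  ext z; simp

theorem tr_smul (x : G) (c : ℂ) (f : C₀(G, ℂ)) : tr x (c • f) = c • tr x f := by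
  ext z; simp

theorem tr_norm (x : G) (f : C₀(G, ℂ)) : ‖tr x f‖ = ‖f‖ := by
  apply le_antisymm
  · rw [c0_norm_le (norm_nonneg _)]
    intro y; exact c0_apply_le f _
  · rw [c0_norm_le (norm_nonneg _)]
    intro y
    have := c0_apply_le (tr x f) (-x + y)
    simpa using this

theorem tr_equi (f : C₀(G, ℂ)) {ε : ℝ} (hε : 0 < ε) : ∃ V ∈ 𝓝 (0 : G), ∀ x ∈ V, ∀ y,
    ‖f (x + y) - f y‖ ≤ ε := by
  letI : UniformSpace G := IsTopologicalAddGroup.rightUniformSpace G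
  haveI : IsUniformAddGroup G := isUniformAddGroup_of_addCommGroup
  have h : UniformContinuous f := ZeroAtInftyContinuousMap.uniformContinuous f
  have h2 : {p : G × G | dist (f p.1) (f p.2) < ε} ∈ uniformity G := h (Metric.dist_mem_uniformity hε)
  rw [uniformity_eq_comap_nhds_zero, mem_comap] at h2
  obtain ⟨V, hV, hV2⟩ := h2
  refine ⟨V, hV, fun x hx y => ?_⟩
  have : (y, x + y) ∈ (fun x : G × G => x.2 - x.1) ⁻¹' V := by simpa using hx
  have h3 := hV2 this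
  change dist (f y) (f (x + y)) < ε at h3
  rw [dist_comm, dist_eq_norm] at h3
  exact h3.le

theorem tr_near (f : C₀(G, ℂ)) {ε : ℝ} (hε : 0 < ε) : ∃ V ∈ 𝓝 (0 : G), ∀ x y, x - y ∈ V →
    ‖tr x f - tr y f‖ ≤ ε := by
  obtain ⟨V, hV, h⟩ := tr_equi f hε
  refine ⟨V, hV, fun x y hxy => ?_⟩
  rw [c0_norm_le hε.le]
  intro z
  have h2 := h (x - y) hxy (y + z)
  rw [show x - y + (y + z) = x + z by abel] at h2
  simpa using h2

theorem tr_cont (f : C₀(G, ℂ)) : Continuous fun x => tr x f := by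
  rw [continuous_iff_continuousAt]
  intro y
  rw [ContinuousAt, Metric.tendsto_nhds]
  intro ε hε
  obtain ⟨V, hV, h⟩ := tr_near f (half_pos hε)
  have : {x | x - y ∈ V} ∈ 𝓝 y := by
    have hc : Tendsto (fun x : G => x - y) (𝓝 y) (𝓝 (y - y)) :=
      (continuous_id.sub continuous_const).tendsto y
    rw [sub_self] at hc
    exact hc hV
  filter_upwards [this] with x hx
  rw [dist_eq_norm]
  linarith [h x y hx]

/-- Bounded regular complex Borel measures on `G`, as the dual of `C₀(G)` (Riesz). -/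
def Meas (G : Type u) [TopologicalSpace G] : Type u := StrongDual ℂ C₀(G, ℂ)

instance : NormedAddCommGroup (Meas G) := inferInstanceAs (NormedAddCommGroup (StrongDual ℂ C₀(G, ℂ)))
instance : NormedSpace ℂ (Meas G) := inferInstanceAs (NormedSpace ℂ (StrongDual ℂ C₀(G, ℂ)))
instance : CompleteSpace (Meas G) := inferInstanceAs (CompleteSpace (StrongDual ℂ C₀(G, ℂ)))
instance : FunLike (Meas G) C₀(G, ℂ) ℂ := inferInstanceAs (FunLike (StrongDual ℂ C₀(G, ℂ)) _ _)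
instance : ContinuousLinearMapClass (Meas G) ℂ C₀(G, ℂ) ℂ :=
  inferInstanceAs (ContinuousLinearMapClass (StrongDual ℂ C₀(G, ℂ)) ℂ C₀(G, ℂ) ℂ)

@[ext] theorem Meas.ext {μ ν : Meas G} (h : ∀ f, μ f = ν f) : μ = ν := DFunLike.ext _ _ h

@[simp] theorem Meas.add_apply (μ ν : Meas G) (f : C₀(G, ℂ)) : (μ + ν) f = μ f + ν f := rfl
@[simp] theorem Meas.sub_apply (μ ν : Meas G) (f : C₀(G, ℂ)) : (μ - ν) f = μ f - ν f := rfl
@[simp] theorem Meas.neg_apply (μ : Meas G) (f : C₀(G, ℂ)) : (-μ) f = -μ f := rfl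
@[simp] theorem Meas.zero_apply (f : C₀(G, ℂ)) : (0 : Meas G) f = 0 := rfl
@[simp] theorem Meas.smul_apply (c : ℂ) (μ : Meas G) (f : C₀(G, ℂ)) : (c • μ) f = c * μ f := rfl

theorem Meas.le (μ : Meas G) (f : C₀(G, ℂ)) : ‖μ f‖ ≤ ‖μ‖ * ‖f‖ :=
  ContinuousLinearMap.le_opNorm (𝕜 := ℂ) (σ₁₂ := RingHom.id ℂ) (E := C₀(G, ℂ)) (F := ℂ) μ f

/-- evaluation at `f` -/
def Meas.evL (f : C₀(G, ℂ)) : Meas G →L[ℂ] ℂ :=
  LinearMap.mkContinuous { toFun := fun μ => μ f, map_add' := fun _ _ => rfl, map_smul' := fun _ _ => rfl } ‖f‖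
    (fun μ => by rw [mul_comm]; exact μ.le f)

@[simp] theorem Meas.evL_apply (f : C₀(G, ℂ)) (μ : Meas G) : Meas.evL f μ = μ f := rfl

theorem Meas.sum_apply {ι : Type*} (s : Finset ι) (μ : ι → Meas G) (f : C₀(G, ℂ)) :
    (∑ i ∈ s, μ i) f = ∑ i ∈ s, μ i f :=
  map_sum (Meas.evL f) μ s

theorem Meas.le_of {μ : Meas G} {f : C₀(G, ℂ)} {C D : ℝ} (h : ‖μ‖ ≤ C) (h2 : ‖f‖ ≤ D) : ‖μ f‖ ≤ C * D :=
  (μ.le f).trans (mul_le_mul h h2 (norm_nonneg _) ((norm_nonneg _).trans h))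

theorem Meas.norm_le {μ : Meas G} {C : ℝ} (hC : 0 ≤ C) (h : ∀ f, ‖μ f‖ ≤ C * ‖f‖) : ‖μ‖ ≤ C :=
  ContinuousLinearMap.opNorm_le_bound (𝕜 := ℂ) (σ₁₂ := RingHom.id ℂ) (E := C₀(G, ℂ)) (F := ℂ) μ hC h

theorem Meas.norm_le_one {μ : Meas G} {C : ℝ} (hC : 0 ≤ C) (h : ∀ f, ‖f‖ ≤ 1 → ‖μ f‖ ≤ C) : ‖μ‖ ≤ C := by
  apply Meas.norm_le hC
  intro f
  rcases eq_or_ne f 0 with rfl | hf
  · simp
  · have hp : 0 < ‖f‖ := norm_pos_iff.2 hf
    have h1 : ‖((‖f‖⁻¹ : ℝ) : ℂ) • f‖ ≤ 1 := by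
      rw [norm_smul, Complex.norm_real, norm_inv, norm_norm, inv_mul_cancel₀ hp.ne']
    have h2 := h _ h1
    rw [map_smul, norm_smul, Complex.norm_real, norm_inv, norm_norm] at h2
    rw [inv_mul_le_iff₀ hp] at h2
    linarith

/-- build a measure from a linear functional -/
def Meas.mk (φ : C₀(G, ℂ) →ₗ[ℂ] ℂ) (C : ℝ) (h : ∀ f, ‖φ f‖ ≤ C * ‖f‖) : Meas G :=
  φ.mkContinuous C h

@[simp] theorem Meas.mk_apply (φ : C₀(G, ℂ) →ₗ[ℂ] ℂ) (C : ℝ) (h : ∀ f, ‖φ f‖ ≤ C * ‖f‖) (f : C₀(G, ℂ)) :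
    Meas.mk φ C h f = φ f := rfl

theorem Meas.mk_norm (φ : C₀(G, ℂ) →ₗ[ℂ] ℂ) (C : ℝ) (h : ∀ f, ‖φ f‖ ≤ C * ‖f‖) (hC : 0 ≤ C) :
    ‖Meas.mk φ C h‖ ≤ C := Meas.norm_le hC h

/-- near norming element -/
theorem Meas.exists_near (μ : Meas G) {ε : ℝ} (hε : 0 < ε) : ∃ f : C₀(G, ℂ), ‖f‖ ≤ 1 ∧
    0 ≤ μ f ∧ ‖μ‖ - ε ≤ (μ f).re := by
  by_cases h0 : ‖μ‖ - ε ≤ 0
  · exact ⟨0, by simp, by simp, by simpa using h0⟩
  push Not at h0
  have : ∃ f : C₀(G, ℂ), ‖f‖ ≤ 1 ∧ ‖μ‖ - ε < ‖μ f‖ := by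
    by_contra hcon
    push Not at hcon
    have := Meas.norm_le_one h0.le hcon
    linarith
  obtain ⟨f, hf, hf2⟩ := this
  have hne : μ f ≠ 0 := by
    intro h; rw [h, norm_zero] at hf2; linarith
  have hc : ‖(‖μ f‖ : ℂ) / μ f‖ = 1 := by
    rw [norm_div, Complex.norm_real, norm_norm, div_self (norm_ne_zero_iff.2 hne)]
  refine ⟨((‖μ f‖ : ℂ) / μ f) • f, ?_, ?_, ?_⟩
  · rw [norm_smul, hc, one_mul]; exact hf
  · rw [map_smul, smul_eq_mul, div_mul_cancel₀ _ hne]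
    exact_mod_cast norm_nonneg _
  · rw [map_smul, smul_eq_mul, div_mul_cancel₀ _ hne, Complex.ofReal_re]
    exact hf2.le

/-- product of a bounded continuous function and a function in `C₀(G)` -/
def bm (b : G →ᵇ ℂ) (f : C₀(G, ℂ)) : C₀(G, ℂ) where
  toFun x := b x * f x
  continuous_toFun := b.continuous.mul f.continuous
  zero_at_infty' := by
    have h : Tendsto (fun x => ‖b‖ * ‖f x‖) (cocompact G) (𝓝 (‖b‖ * 0)) := by
      apply Tendsto.const_mul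
      have := (zero_at_infty f).norm
      rwa [norm_zero] at this
    rw [mul_zero] at h
    refine squeeze_zero_norm (fun x => ?_) h
    rw [norm_mul]
    exact mul_le_mul_of_nonneg_right (b.norm_coe_le_norm x) (norm_nonneg _)

@[simp] theorem bm_apply (b : G →ᵇ ℂ) (f : C₀(G, ℂ)) (x : G) : bm b f x = b x * f x := rfl

theorem bm_norm (b : G →ᵇ ℂ) (f : C₀(G, ℂ)) : ‖bm b f‖ ≤ ‖b‖ * ‖f‖ := by
  rw [c0_norm_le (by positivity)]
  intro x
  rw [bm_apply, norm_mul]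
  exact mul_le_mul (b.norm_coe_le_norm x) (c0_apply_le f x) (norm_nonneg _) (norm_nonneg _)

theorem bm_add (b : G →ᵇ ℂ) (f g : C₀(G, ℂ)) : bm b (f + g) = bm b f + bm b g := by
  ext x; simp [mul_add]
theorem bm_sub (b : G →ᵇ ℂ) (f g : C₀(G, ℂ)) : bm b (f - g) = bm b f - bm b g := by
  ext x; simp [mul_sub]
theorem bm_smul (b : G →ᵇ ℂ) (c : ℂ) (f : C₀(G, ℂ)) : bm b (c • f) = c • bm b f := by
  ext x; simp [mul_left_comm]
theorem add_bm (a b : G →ᵇ ℂ) (f : C₀(G, ℂ)) : bm (a + b) f = bm a f + bm b f := by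
  ext x; simp [add_mul]
theorem sub_bm (a b : G →ᵇ ℂ) (f : C₀(G, ℂ)) : bm (a - b) f = bm a f - bm b f := by
  ext x; simp [sub_mul]
theorem mul_bm (a b : G →ᵇ ℂ) (f : C₀(G, ℂ)) : bm (a * b) f = bm a (bm b f) := by
  ext x; simp [mul_assoc]
theorem one_bm (f : C₀(G, ℂ)) : bm 1 f = f := by
  ext x; simp
theorem zero_bm (f : C₀(G, ℂ)) : bm 0 f = 0 := by
  ext x; simp
theorem smul_bm (c : ℂ) (b : G →ᵇ ℂ) (f : C₀(G, ℂ)) : bm (c • b) f = c • bm b f := by
  ext x; simp [mul_assoc]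
theorem bm_comm (a b : G →ᵇ ℂ) (f : C₀(G, ℂ)) : bm a (bm b f) = bm b (bm a f) := by
  ext x; simp [mul_left_comm]

/-- action of a bounded continuous function on a measure -/
def act (b : G →ᵇ ℂ) (μ : Meas G) : Meas G :=
  Meas.mk { toFun := fun f => μ (bm b f)
            map_add' := fun f g => by rw [bm_add, map_add]
            map_smul' := fun c f => by rw [bm_smul, map_smul]; rfl } (‖μ‖ * ‖b‖)
    (fun f => by
      refine (μ.le _).trans ?_
      rw [mul_assoc]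
      exact mul_le_mul_of_nonneg_left (bm_norm b f) (norm_nonneg _))

instance : SMul (G →ᵇ ℂ) (Meas G) := ⟨act⟩

@[simp] theorem act_apply (b : G →ᵇ ℂ) (μ : Meas G) (f : C₀(G, ℂ)) : (b • μ) f = μ (bm b f) := rfl

instance : Module (G →ᵇ ℂ) (Meas G) where
  one_smul μ := by ext f; simp [one_bm]
  mul_smul a b μ := by ext f; rw [act_apply, act_apply, act_apply, mul_comm, mul_bm]
  smul_zero b := by ext f; simp
  smul_add b μ ν := by ext f; simp
  add_smul a b μ := by ext f; rw [act_apply, add_bm, map_add]; rfl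
  zero_smul μ := by ext f; rw [act_apply, zero_bm, map_zero]; rfl

theorem act_norm (b : G →ᵇ ℂ) (μ : Meas G) : ‖b • μ‖ ≤ ‖b‖ * ‖μ‖ := by
  refine Meas.norm_le (by positivity) (fun f => ?_)
  rw [act_apply]
  refine (μ.le _).trans ?_
  rw [mul_comm ‖b‖, mul_assoc]
  exact mul_le_mul_of_nonneg_left (bm_norm b f) (norm_nonneg _)

theorem act_norm_le {b : G →ᵇ ℂ} {C : ℝ} (hb : ‖b‖ ≤ C) (μ : Meas G) : ‖b • μ‖ ≤ C * ‖μ‖ :=
  (act_norm b μ).trans (mul_le_mul_of_nonneg_right hb (norm_nonneg _))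

theorem act_csmul (b : G →ᵇ ℂ) (c : ℂ) (μ : Meas G) : b • (c • μ) = c • (b • μ) := by
  ext f; simp
theorem csmul_act (c : ℂ) (b : G →ᵇ ℂ) (μ : Meas G) : (c • b) • μ = c • (b • μ) := by
  ext f; rw [act_apply, smul_bm, map_smul]; rfl

/-- as a continuous linear map -/
def actL (b : G →ᵇ ℂ) : Meas G →L[ℂ] Meas G :=
  LinearMap.mkContinuous { toFun := fun μ => b • μ, map_add' := smul_add b, map_smul' := act_csmul b } ‖b‖
    (act_norm b)

@[simp] theorem actL_apply (b : G →ᵇ ℂ) (μ : Meas G) : actL b μ = b • μ := rfl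

/-- compactly supported, values in `[0,1]` -/
structure Cut (u : C₀(G, ℂ)) : Prop where
  cs : HasCompactSupport u
  nn : ∀ x, 0 ≤ u x
  le : ∀ x, u x ≤ 1

/-- values in `[0,1]` -/
def U01 (b : G →ᵇ ℂ) : Prop := ∀ x, 0 ≤ b x ∧ b x ≤ 1

/-- bounded function of `u` -/
abbrev bc (u : C₀(G, ℂ)) : G →ᵇ ℂ := u.toBCF

@[simp] theorem bc_apply (u : C₀(G, ℂ)) (x : G) : bc u x = u x := rfl

theorem norm_01 {z : ℂ} (h0 : 0 ≤ z) (h1 : z ≤ 1) : ‖z‖ ≤ 1 := by
  rw [Complex.nonneg_iff] at h0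
  rw [Complex.le_def] at h1
  have h2 : z = (z.re : ℂ) := by
    apply Complex.ext
    · simp
    · simp [h0.2.symm]
  rw [h2, Complex.norm_real, Real.norm_eq_abs, abs_of_nonneg h0.1]
  exact h1.1

theorem norm_le_one_of_U01 {b : G →ᵇ ℂ} (h : U01 b) : ‖b‖ ≤ 1 := by
  rw [BoundedContinuousFunction.norm_le zero_le_one]
  intro x
  exact norm_01 (h x).1 (h x).2

theorem Cut.U01 {u : C₀(G, ℂ)} (h : Cut u) : U01 (bc u) := fun x => ⟨h.nn x, h.le x⟩

theorem U01.one_sub {b : G →ᵇ ℂ} (h : U01 b) : U01 (1 - b) := fun x => by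
  constructor
  · have := (h x).2; simpa using this
  · have := (h x).1
    simpa using this

theorem U01.mul {a b : G →ᵇ ℂ} (h : U01 a) (h' : U01 b) : U01 (a * b) := fun x => by
  have h1 := h x
  have h2 := h' x
  constructor
  · exact mul_nonneg h1.1 h2.1
  · calc (a * b) x = a x * b x := rfl
      _ ≤ 1 * 1 := mul_le_mul h1.2 h2.2 h2.1 zero_le_one
      _ = 1 := one_mul 1

theorem U01.act_le {b : G →ᵇ ℂ} (h : Rad.U01 b) (μ : Meas G) : ‖b • μ‖ ≤ ‖μ‖ := by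
  have := act_norm_le (norm_le_one_of_U01 h) μ
  linarith

/-- Urysohn functions -/
theorem exists_cut {K U : Set G} (hK : IsCompact K) (hU : IsOpen U) (hKU : K ⊆ U) :
    ∃ u : C₀(G, ℂ), Cut u ∧ (∀ x ∈ K, u x = 1) ∧ (∀ x, u x ≠ 0 → x ∈ U) := by
  obtain ⟨f, h1, h2, h3, h4⟩ := exists_continuous_one_zero_of_isCompact hK hU.isClosed_compl
    (disjoint_compl_right_iff_subset.2 hKU)
  let F : G → ℂ := fun x => (f x : ℂ)
  have hF : Continuous F := Complex.continuous_ofReal.comp f.continuous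
  have hFc : HasCompactSupport F := h3.comp_left (g := fun r : ℝ => (r : ℂ)) (by simp)
  let u : C₀(G, ℂ) := { toFun := F, continuous_toFun := hF, zero_at_infty' := hFc.is_zero_at_infty }
  refine ⟨u, ⟨hFc, fun x => ?_, fun x => ?_⟩, fun x hx => ?_, fun x hx => ?_⟩
  · change (0 : ℂ) ≤ (f x : ℂ)
    exact_mod_cast (h4 x).1
  · change (f x : ℂ) ≤ 1
    exact_mod_cast (h4 x).2
  · change (f x : ℂ) = 1
    have := h1 hx
    simp only [Pi.one_apply] at this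
    rw [this]; simp
  · by_contra hxU
    apply hx
    change (f x : ℂ) = 0
    have := h2 hxU
    simp only [Pi.zero_apply] at this
    rw [this]; simp

theorem exists_cut' {K : Set G} (hK : IsCompact K) : ∃ u : C₀(G, ℂ), Cut u ∧ (∀ x ∈ K, u x = 1) := by
  obtain ⟨u, h1, h2, _⟩ := exists_cut hK isOpen_univ (subset_univ K)
  exact ⟨u, h1, h2⟩

theorem c0_small (f : C₀(G, ℂ)) {ε : ℝ} (hε : 0 < ε) : ∃ K : Set G, IsCompact K ∧ ∀ x ∉ K, ‖f x‖ < ε := by
  have h := (zero_at_infty f).norm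
  rw [norm_zero] at h
  have h2 := h.eventually (gt_mem_nhds hε)
  rw [Filter.Eventually, mem_cocompact] at h2
  obtain ⟨K, hK, hK2⟩ := h2
  exact ⟨K, hK, fun x hx => hK2 hx⟩

theorem c0_cut (f : C₀(G, ℂ)) {ε : ℝ} (hε : 0 < ε) : ∃ K : Set G, IsCompact K ∧
    ∀ b : G →ᵇ ℂ, U01 b → (∀ x ∈ K, b x = 1) → ‖f - bm b f‖ ≤ ε := by
  obtain ⟨K, hK, h⟩ := c0_small f hε
  refine ⟨K, hK, fun b hb hb2 => ?_⟩
  rw [c0_norm_le hε.le]
  intro x
  by_cases hx : x ∈ K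
  · simp [hb2 x hx, hε.le]
  · have h1 := h x hx
    have h2 := hb.one_sub x
    have h3 : (f - bm b f) x = ((1 - b : G →ᵇ ℂ) x) * f x := by simp [sub_mul]
    rw [h3, norm_mul]
    have h4 := norm_01 h2.1 h2.2
    nlinarith [norm_nonneg (f x), norm_nonneg ((1 - b : G →ᵇ ℂ) x)]

theorem tight (μ : Meas G) {ε : ℝ} (hε : 0 < ε) : ∃ K : Set G, IsCompact K ∧
    ∀ b : G →ᵇ ℂ, U01 b → (∀ x ∈ K, b x = 1) → ‖μ - b • μ‖ ≤ ε := by
  obtain ⟨f, hf1, hf2, hf3⟩ := μ.exists_near (half_pos (half_pos hε))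
  have hC : 0 < ε / 4 / (‖μ‖ + 1) := by positivity
  obtain ⟨K0, hK0, hK0'⟩ := c0_cut f hC
  obtain ⟨v, hv, hv1⟩ := exists_cut' hK0
  have hvf := hK0' (bc v) hv.U01 hv1
  refine ⟨tsupport v, hv.cs, fun b hb hb1 => ?_⟩
  apply Meas.norm_le_one hε.le
  intro g hg
  -- rotate
  set h : C₀(G, ℂ) := bm (1 - b) g with hh
  have hμh : (μ - b • μ) g = μ h := by
    rw [Meas.sub_apply, act_apply, hh, sub_bm, one_bm, map_sub]
  rw [hμh]
  by_cases h0 : μ h = 0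
  · rw [h0, norm_zero]; exact hε.le
  set c : ℂ := (‖μ h‖ : ℂ) / μ h with hc
  have hcn : ‖c‖ = 1 := by
    rw [hc, norm_div, Complex.norm_real, norm_norm, div_self (norm_ne_zero_iff.2 h0)]
  have hn : ‖bm (bc v) f + c • h‖ ≤ 1 := by
    rw [c0_norm_le zero_le_one]
    intro x
    by_cases hx : x ∈ tsupport v
    · have : (bm (bc v) f + c • h) x = v x * f x := by
        simp [hh, hb1 x hx]
      rw [this, norm_mul]
      have h1 := norm_01 (hv.nn x) (hv.le x)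
      have h2 := (c0_apply_le f x).trans hf1
      nlinarith [norm_nonneg (f x), norm_nonneg (v x)]
    · have hvx : v x = 0 := image_eq_zero_of_notMem_tsupport hx
      have : (bm (bc v) f + c • h) x = c * (((1 - b : G →ᵇ ℂ) x) * g x) := by
        rw [ZeroAtInftyContinuousMap.add_apply, bm_apply, bc_apply, hvx, zero_mul, zero_add]
        rfl
      rw [this, norm_mul, norm_mul, hcn, one_mul]
      have h1 := norm_01 (hb.one_sub x).1 (hb.one_sub x).2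
      have h2 := (c0_apply_le g x).trans hg
      nlinarith [norm_nonneg (g x), norm_nonneg ((1 - b : G →ᵇ ℂ) x)]
  have h5 : ‖μ (bm (bc v) f + c • h)‖ ≤ ‖μ‖ := by
    have := μ.le_of le_rfl hn
    linarith
  have h6 : c * μ h = (‖μ h‖ : ℂ) := by rw [hc, div_mul_cancel₀ _ h0]
  rw [map_add, map_smul, smul_eq_mul, h6] at h5
  have h7 : ‖μ (f - bm (bc v) f)‖ ≤ ε / 4 := by
    have := μ.le_of le_rfl hvf
    refine this.trans ?_
    rw [mul_div_assoc', div_le_iff₀ (by positivity)]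
    nlinarith [norm_nonneg μ]
  rw [map_sub] at h7
  have h8 : (μ (bm (bc v) f) + (‖μ h‖ : ℂ)).re ≤ ‖μ‖ := (Complex.re_le_norm _).trans h5
  rw [Complex.add_re, Complex.ofReal_re] at h8
  have h9 : (μ f - μ (bm (bc v) f)).re ≤ ε / 4 := (Complex.re_le_norm _).trans h7
  rw [Complex.sub_re] at h9
  linarith

theorem cv_zero (ν : Meas G) (f : C₀(G, ℂ)) : Tendsto (fun x => ν (tr x f)) (cocompact G) (𝓝 0) := by
  rw [Metric.tendsto_nhds]
  intro ε hε
  set δ : ℝ := ε / (2 * (‖f‖ + ‖ν‖ + 1)) with hδ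
  have hδ0 : 0 < δ := by positivity
  obtain ⟨K, hK, hK2⟩ := tight ν hδ0
  obtain ⟨v, hv, hv1⟩ := exists_cut' hK
  have h1 := hK2 (bc v) hv.U01 hv1
  obtain ⟨L, hL, hL2⟩ := c0_small f hδ0
  have hc : IsCompact (L + -(tsupport v)) := hL.add (IsCompact.neg (show IsCompact (tsupport v) from hv.cs))
  filter_upwards [hc.compl_mem_cocompact] with x hx
  rw [dist_zero_right]
  have h2 : ν (tr x f) = (ν - bc v • ν) (tr x f) + ν (bm (bc v) (tr x f)) := by
    rw [Meas.sub_apply, act_apply]; ring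
  have h3 : ‖bm (bc v) (tr x f)‖ ≤ δ := by
    rw [c0_norm_le hδ0.le]
    intro y
    rw [bm_apply, bc_apply, tr_apply]
    by_cases hy : y ∈ tsupport v
    · have h4 : x + y ∉ L := by
        intro h
        apply hx
        exact Set.mem_add.2 ⟨x + y, h, -y, by simpa using hy, by abel⟩
      have h5 := hL2 _ h4
      have h6 := norm_01 (hv.nn y) (hv.le y)
      rw [norm_mul]
      nlinarith [norm_nonneg (f (x + y)), norm_nonneg (v y)]
    · rw [image_eq_zero_of_notMem_tsupport hy, zero_mul, norm_zero]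
      exact hδ0.le
  have h4 : ‖(ν - bc v • ν) (tr x f)‖ ≤ δ * ‖f‖ := Meas.le_of h1 (tr_norm x f).le
  have h5 : ‖ν (bm (bc v) (tr x f))‖ ≤ ‖ν‖ * δ := Meas.le_of le_rfl h3
  rw [h2]
  have h6 : δ * (‖f‖ + ‖ν‖) < ε := by
    rw [hδ, div_mul_eq_mul_div, div_lt_iff₀ (by positivity)]
    nlinarith [norm_nonneg f, norm_nonneg ν]
  calc _ ≤ ‖(ν - bc v • ν) (tr x f)‖ + ‖ν (bm (bc v) (tr x f))‖ := norm_add_le _ _
    _ ≤ δ * ‖f‖ + ‖ν‖ * δ := add_le_add h4 h5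
    _ = δ * (‖f‖ + ‖ν‖) := by ring
    _ < ε := h6

/-- The function `x ↦ ∫ f (x + y) dν(y)`. -/
def cv (ν : Meas G) (f : C₀(G, ℂ)) : C₀(G, ℂ) where
  toFun x := ν (tr x f)
  continuous_toFun := (map_continuous ν).comp (tr_cont f)
  zero_at_infty' := cv_zero ν f

@[simp] theorem cv_apply (ν : Meas G) (f : C₀(G, ℂ)) (x : G) : cv ν f x = ν (tr x f) := rfl

theorem cv_norm (ν : Meas G) (f : C₀(G, ℂ)) : ‖cv ν f‖ ≤ ‖ν‖ * ‖f‖ := by
  rw [c0_norm_le (by positivity)]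
  intro x
  rw [cv_apply]
  exact ν.le_of le_rfl (tr_norm x f).le

theorem cv_add (ν : Meas G) (f g : C₀(G, ℂ)) : cv ν (f + g) = cv ν f + cv ν g := by
  ext x; simp [tr_add]
theorem cv_sub (ν : Meas G) (f g : C₀(G, ℂ)) : cv ν (f - g) = cv ν f - cv ν g := by
  ext x; simp [tr_sub]
theorem cv_smul (ν : Meas G) (c : ℂ) (f : C₀(G, ℂ)) : cv ν (c • f) = c • cv ν f := by
  ext x; simp [tr_smul]
theorem cv_tr (ν : Meas G) (x : G) (f : C₀(G, ℂ)) : cv ν (tr x f) = tr x (cv ν f) := by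
  ext y; simp [tr_tr, add_comm]

/-- Convolution of measures: `(μ * ν)(f) = ∫∫ f(x + y) dν(y) dμ(x)`. -/
def conv (μ ν : Meas G) : Meas G :=
  Meas.mk { toFun := fun f => μ (cv ν f)
            map_add' := fun f g => by rw [cv_add, map_add]
            map_smul' := fun c f => by rw [cv_smul, map_smul]; rfl } (‖μ‖ * ‖ν‖)
    (fun f => by
      refine (μ.le _).trans ?_
      rw [mul_assoc]
      exact mul_le_mul_of_nonneg_left (cv_norm ν f) (norm_nonneg _))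

end
end Pool.Agent.Helper550.Rad
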