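import Mathlib
import Pool.Agent.Helper550.MeasDef
set_option autoImplicit false
set_option linter.unusedSectionVars false
set_option linter.style.haveILetI false
set_option linter.unusedVariables false
open scoped ZeroAtInfty BoundedContinuousFunction ComplexOrder Topology Pointwise
open MeasureTheory Filter Set

namespace Pool.Agent.Helper550.Rad
noncomputable section

universe u
variable {G : Type u} [AddCommGroup G] [TopologicalSpace G] [IsTopologicalAddGroup G]
  [T2Space G] [LocallyCompactSpace G]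

theorem conv_apply (μ ν : Meas G) (f : C₀(G, ℂ)) : conv μ ν f = μ (cv ν f) := rfl

theorem conv_norm (μ ν : Meas G) : ‖conv μ ν‖ ≤ ‖μ‖ * ‖ν‖ := by
  refine Meas.norm_le (by positivity) (fun f => ?_)
  rw [conv_apply]
  refine (μ.le _).trans ?_
  rw [mul_assoc]
  exact mul_le_mul_of_nonneg_left (cv_norm ν f) (norm_nonneg _)

theorem conv_assoc (μ ν l : Meas G) : conv (conv μ ν) l = conv μ (conv ν l) := by
  ext f
  rw [conv_apply, conv_apply, conv_apply]
  congr 1
  ext x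
  rw [cv_apply, cv_apply, conv_apply, cv_tr]

/-- point mass -/
def dl (x : G) : Meas G :=
  Meas.mk { toFun := fun f => f x, map_add' := fun _ _ => rfl, map_smul' := fun _ _ => rfl } 1
    (fun f => by rw [one_mul]; exact c0_apply_le f x)

@[simp] theorem dl_apply (x : G) (f : C₀(G, ℂ)) : dl x f = f x := rfl

theorem dl_norm (x : G) : ‖dl x‖ ≤ 1 :=
  Meas.norm_le zero_le_one (fun f => by rw [one_mul]; exact c0_apply_le f x)

theorem dl_conv_apply (x : G) (μ : Meas G) (f : C₀(G, ℂ)) : conv (dl x) μ f = μ (tr x f) := rfl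

theorem one_conv (μ : Meas G) : conv (dl 0) μ = μ := by
  ext f; rw [dl_conv_apply, tr_zero]

theorem conv_dl_apply (x : G) (μ : Meas G) (f : C₀(G, ℂ)) : conv μ (dl x) f = μ (tr x f) := by
  rw [conv_apply]
  congr 1
  ext y
  simp [add_comm]

/-- finite approximations: cover of a compact set by translates -/
theorem exists_parts {K : Set G} (hK : IsCompact K) {V : Set G} (hV : V ∈ 𝓝 (0 : G)) :
    ∃ (n : ℕ) (x : Fin n → G) (u : Fin n → C₀(G, ℂ)), (∀ i, Cut (u i)) ∧
      (∀ i y, u i y ≠ 0 → y - x i ∈ V) ∧ (∀ y ∈ K, ∑ i, u i y = 1) ∧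
      (∀ i, tsupport (u i) ⊆ {y | y - x i ∈ interior V}) := by
  have hop : ∀ x : G, IsOpen {y | y - x ∈ interior V} := fun x =>
    isOpen_interior.preimage (continuous_id.sub continuous_const)
  have hmem : ∀ x ∈ K, {y | y - x ∈ interior V} ∈ 𝓝 x := fun x _ => by
    apply (hop x).mem_nhds
    change x - x ∈ interior V
    rw [sub_self]
    exact mem_interior_iff_mem_nhds.2 hV
  obtain ⟨t, ht, htK⟩ := hK.elim_nhds_subcover _ hmem
  let e := t.equivFin.symm
  obtain ⟨f, h1, h2, h3, h4⟩ := exists_continuous_sum_one_of_isOpen_isCompact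
    (n := t.card) (t := K) (s := fun i => {y | y - (e i : G) ∈ interior V})
    (fun i => hop _) hK (fun y hy => by
      obtain ⟨x, hx, hxy⟩ := Set.mem_iUnion₂.1 (htK hy)
      refine Set.mem_iUnion.2 ⟨t.equivFin ⟨x, hx⟩, ?_⟩
      change y - ((t.equivFin.symm (t.equivFin ⟨x, hx⟩) : t) : G) ∈ interior V
      rw [Equiv.symm_apply_apply]
      exact hxy)
  have hc : ∀ i, HasCompactSupport (fun x => ((f i x : ℝ) : ℂ)) := fun i =>
    (h4 i).comp_left (g := fun r : ℝ => (r : ℂ)) (by simp)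
  let U : Fin t.card → C₀(G, ℂ) := fun i =>
    { toFun := fun x => (f i x : ℂ)
      continuous_toFun := Complex.continuous_ofReal.comp (f i).continuous
      zero_at_infty' := (hc i).is_zero_at_infty }
  refine ⟨t.card, fun i => (e i : G), U, ?_, ?_, ?_, ?_⟩
  · intro i
    refine ⟨hc i, fun x => ?_, fun x => ?_⟩
    · change (0 : ℂ) ≤ (f i x : ℂ)
      exact_mod_cast (h3 i x).1
    · change (f i x : ℂ) ≤ 1
      exact_mod_cast (h3 i x).2
  · intro i y hy
    have hy2 : f i y ≠ 0 := by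
      intro h
      apply hy
      change (f i y : ℂ) = 0
      rw [h]; simp
    have := h1 i (subset_tsupport _ hy2)
    exact interior_subset this
  · intro y hy
    have := h2 hy
    simp only [Pi.one_apply, Finset.sum_apply] at this
    change ∑ i, ((f i y : ℝ) : ℂ) = 1
    rw [← Complex.ofReal_sum, this]; simp
  · intro i
    refine subset_trans ?_ (h1 i)
    apply closure_mono
    intro y hy h
    apply hy
    change (f i y : ℂ) = 0
    rw [h]; simp

/-- `μ` is carried by `K` -/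
def Supp (K : Set G) (μ : Meas G) : Prop := ∀ f : C₀(G, ℂ), (∀ x ∈ K, f x = 0) → μ f = 0

theorem Supp.mono {K L : Set G} {μ : Meas G} (h : Supp K μ) (hKL : K ⊆ L) : Supp L μ :=
  fun f hf => h f (fun x hx => hf x (hKL hx))

theorem Supp.act {K : Set G} {μ : Meas G} (h : Supp K μ) (b : G →ᵇ ℂ) : Supp K (b • μ) :=
  fun f hf => h _ (fun x hx => by rw [bm_apply, hf x hx, mul_zero])

theorem supp_of_act {K : Set G} {b : G →ᵇ ℂ} (hb : ∀ x ∉ K, b x = 0) (μ : Meas G) : Supp K (b • μ) := by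
  intro f hf
  rw [act_apply]
  have : bm b f = 0 := by
    ext x
    by_cases hx : x ∈ K
    · simp [hf x hx]
    · simp [hb x hx]
  rw [this, map_zero]

theorem Supp.act_eq {K : Set G} {μ : Meas G} (h : Supp K μ) {a b : G →ᵇ ℂ} (hab : ∀ x ∈ K, a x = b x) :
    a • μ = b • μ := by
  ext f
  rw [act_apply, act_apply, ← sub_eq_zero, ← map_sub]
  apply h
  intro x hx
  simp [hab x hx]

theorem Supp.apply_eq {K : Set G} {μ : Meas G} (h : Supp K μ) {f g : C₀(G, ℂ)} (hab : ∀ x ∈ K, f x = g x) :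
    μ f = μ g := by
  rw [← sub_eq_zero, ← map_sub]
  apply h
  intro x hx
  simp [hab x hx]

/-- truncation -/
def trunc (f : C₀(G, ℂ)) {C : ℝ} (hC : 0 < C) : G →ᵇ ℂ :=
  BoundedContinuousFunction.ofNormedAddCommGroup (fun x => ((C / max C ‖f x‖ : ℝ) : ℂ))
    (by
      apply Complex.continuous_ofReal.comp
      apply Continuous.div continuous_const (continuous_const.max f.continuous.norm)
      intro x
      exact (lt_of_lt_of_le hC (le_max_left _ _)).ne') 1
    (fun x => by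
      rw [Complex.norm_real, Real.norm_eq_abs, abs_of_nonneg (by positivity)]
      apply div_le_one_of_le₀ (le_max_left _ _) (by positivity))

theorem Supp.bound {K : Set G} {μ : Meas G} (h : Supp K μ) {f : C₀(G, ℂ)} {C : ℝ} (hC : 0 ≤ C)
    (hf : ∀ x ∈ K, ‖f x‖ ≤ C) : ‖μ f‖ ≤ ‖μ‖ * C := by
  have key : ∀ D : ℝ, C < D → ‖μ f‖ ≤ ‖μ‖ * D := by
    intro D hD
    have hD0 : 0 < D := lt_of_le_of_lt hC hD
    have h1 : μ f = μ (bm (trunc f hD0) f) := by
      apply h.apply_eq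
      intro x hx
      rw [bm_apply]
      change f x = ((D / max D ‖f x‖ : ℝ) : ℂ) * f x
      rw [max_eq_left ((hf x hx).trans hD.le), div_self hD0.ne']
      simp
    rw [h1]
    apply μ.le_of le_rfl
    rw [c0_norm_le hD0.le]
    intro x
    rw [bm_apply, norm_mul]
    change ‖((D / max D ‖f x‖ : ℝ) : ℂ)‖ * ‖f x‖ ≤ D
    rw [Complex.norm_real, Real.norm_eq_abs, abs_of_nonneg (by positivity), div_mul_eq_mul_div,
      div_le_iff₀ (by positivity)]
    exact mul_le_mul_of_nonneg_left (le_max_right _ _) hD0.le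
  have hlim : Tendsto (fun D : ℝ => ‖μ‖ * D) (𝓝[>] C) (𝓝 (‖μ‖ * C)) :=
    ((continuous_const.mul continuous_id).tendsto C).mono_left nhdsWithin_le_nhds
  exact ge_of_tendsto hlim (eventually_nhdsWithin_of_forall fun D hD => key D hD)

theorem exists_supp (μ : Meas G) {ε : ℝ} (hε : 0 < ε) : ∃ (K : Set G) (u : C₀(G, ℂ)), IsCompact K ∧ Cut u ∧
    Supp K (bc u • μ) ∧ ‖μ - bc u • μ‖ ≤ ε := by
  obtain ⟨K, hK, h⟩ := tight μ hε
  obtain ⟨u, hu, hu1⟩ := exists_cut' hK
  refine ⟨tsupport u, u, hu.cs, hu, supp_of_act (fun x hx => ?_) μ, h _ hu.U01 hu1⟩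
  rw [bc_apply]
  exact image_eq_zero_of_notMem_tsupport hx

theorem c0_sum_apply {ι : Type*} (s : Finset ι) (f : ι → C₀(G, ℂ)) (z : G) :
    (∑ i ∈ s, f i) z = ∑ i ∈ s, f i z := map_sum (dl z) f s

theorem parts_bound {K : Set G} {μ : Meas G} (h : Supp K μ) {n : ℕ} {x : Fin n → G} {u : Fin n → C₀(G, ℂ)}
    (hu : ∀ i, Cut (u i)) (hs : ∀ y ∈ K, ∑ i, u i y = 1) {g : C₀(G, ℂ)} {ε : ℝ} (hε : 0 ≤ ε)
    (hg : ∀ i z, u i z ≠ 0 → ‖g z - g (x i)‖ ≤ ε) : ‖μ g - ∑ i, g (x i) * μ (u i)‖ ≤ ‖μ‖ * ε := by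
  have h1 : μ g - ∑ i, g (x i) * μ (u i) = μ (g - ∑ i, g (x i) • u i) := by
    rw [map_sub, map_sum]
    simp
  rw [h1]
  apply h.bound hε
  intro z hz
  have h2 : (g - ∑ i, g (x i) • u i) z = ∑ i, u i z * (g z - g (x i)) := by
    have h3 : (∑ i, g (x i) • u i) z = ∑ i, g (x i) * u i z := c0_sum_apply _ _ _
    rw [ZeroAtInftyContinuousMap.sub_apply, h3]
    simp_rw [mul_sub]
    rw [Finset.sum_sub_distrib, ← Finset.sum_mul, hs z hz, one_mul]
    congr 1
    exact Finset.sum_congr rfl fun i _ => mul_comm _ _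
  rw [h2]
  have hre : ∀ i, ‖u i z‖ = (u i z).re := fun i => by
    have h5 := Complex.nonneg_iff.1 ((hu i).nn z)
    have h6 : u i z = ((u i z).re : ℂ) := Complex.ext (by simp) (by simp [h5.2.symm])
    rw [h6, Complex.norm_real, Real.norm_eq_abs, abs_of_nonneg h5.1]
    simp
  calc ‖∑ i, u i z * (g z - g (x i))‖ ≤ ∑ i, ‖u i z * (g z - g (x i))‖ := norm_sum_le _ _
    _ ≤ ∑ i, (u i z).re * ε := by
        apply Finset.sum_le_sum
        intro i _
        rw [norm_mul]
        by_cases hz0 : u i z = 0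
        · simp [hz0]
        · rw [hre i]
          exact mul_le_mul_of_nonneg_left (hg i z hz0) (Complex.nonneg_iff.1 ((hu i).nn z)).1
    _ = ε := by
        rw [← Finset.sum_mul, ← Complex.re_sum, hs z hz]; simp

theorem conv_comm_supp {K : Set G} (hK : IsCompact K) {μ : Meas G} (h : Supp K μ) (ν : Meas G) :
    conv μ ν = conv ν μ := by
  ext f
  have key : ∀ ε : ℝ, 0 < ε → ‖conv μ ν f - conv ν μ f‖ ≤ 2 * (‖μ‖ * ‖ν‖) * ε := by
    intro ε hε
    obtain ⟨V, hV, hV2⟩ := tr_near f hε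
    obtain ⟨n, x, u, hu, hux, hs, _⟩ := exists_parts hK hV
    have h1 : ‖μ (cv ν f) - ∑ i, cv ν f (x i) * μ (u i)‖ ≤ ‖μ‖ * (‖ν‖ * ε) := by
      apply parts_bound h hu hs (by positivity)
      intro i z hz
      rw [cv_apply, cv_apply, ← map_sub]
      exact ν.le_of le_rfl (hV2 _ _ (hux i z hz))
    have h2 : ‖cv μ f - ∑ i, μ (u i) • tr (x i) f‖ ≤ ‖μ‖ * ε := by
      rw [c0_norm_le (by positivity)]
      intro y
      have h3 : (cv μ f - ∑ i, μ (u i) • tr (x i) f) y = μ (tr y f) - ∑ i, (tr y f) (x i) * μ (u i) := by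
        have h5 : (∑ i, μ (u i) • tr (x i) f) y = ∑ i, μ (u i) * f (x i + y) := c0_sum_apply _ _ _
        rw [ZeroAtInftyContinuousMap.sub_apply, h5, cv_apply]
        congr 1
        apply Finset.sum_congr rfl
        intro i _
        rw [tr_apply, add_comm y, mul_comm]
      rw [h3]
      apply parts_bound h hu hs hε.le
      intro i z hz
      have h4 := (c0_apply_le (tr z f - tr (x i) f) y).trans (hV2 _ _ (hux i z hz))
      simpa [add_comm y] using h4
    have h3 : ‖ν (cv μ f - ∑ i, μ (u i) • tr (x i) f)‖ ≤ ‖ν‖ * (‖μ‖ * ε) := ν.le_of le_rfl h2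
    have h4 : ν (cv μ f - ∑ i, μ (u i) • tr (x i) f) = ν (cv μ f) - ∑ i, cv ν f (x i) * μ (u i) := by
      rw [map_sub, map_sum]
      congr 1
      apply Finset.sum_congr rfl
      intro i _
      rw [map_smul, cv_apply, smul_eq_mul, mul_comm]
    rw [h4] at h3
    rw [conv_apply, conv_apply]
    calc ‖μ (cv ν f) - ν (cv μ f)‖ = ‖(μ (cv ν f) - ∑ i, cv ν f (x i) * μ (u i)) -
          (ν (cv μ f) - ∑ i, cv ν f (x i) * μ (u i))‖ := by congr 1; ring
      _ ≤ _ := norm_sub_le _ _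
      _ ≤ ‖μ‖ * (‖ν‖ * ε) + ‖ν‖ * (‖μ‖ * ε) := add_le_add h1 h3
      _ = _ := by ring
  by_contra hne
  have hpos : 0 < ‖conv μ ν f - conv ν μ f‖ := norm_pos_iff.2 (sub_ne_zero.2 hne)
  have := key (‖conv μ ν f - conv ν μ f‖ / (2 * (2 * (‖μ‖ * ‖ν‖) + 1))) (by positivity)
  have h2 : 2 * (‖μ‖ * ‖ν‖) * (‖conv μ ν f - conv ν μ f‖ / (2 * (2 * (‖μ‖ * ‖ν‖) + 1))) <
      ‖conv μ ν f - conv ν μ f‖ := by
    rw [← mul_div_assoc, div_lt_iff₀ (by positivity)]
    nlinarith [norm_nonneg μ, norm_nonneg ν, mul_nonneg (norm_nonneg μ) (norm_nonneg ν)]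
  linarith

theorem add_conv (μ ν l : Meas G) : conv (μ + ν) l = conv μ l + conv ν l := by
  ext f; rw [conv_apply]; rfl

theorem conv_add (μ ν l : Meas G) : conv μ (ν + l) = conv μ ν + conv μ l := by
  ext f
  rw [conv_apply, Meas.add_apply, conv_apply, conv_apply, ← map_add]
  congr 1

theorem sub_conv (μ ν l : Meas G) : conv (μ - ν) l = conv μ l - conv ν l := by
  ext f; rw [conv_apply]; rfl

theorem conv_sub (μ ν l : Meas G) : conv μ (ν - l) = conv μ ν - conv μ l := by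
  ext f
  rw [conv_apply, Meas.sub_apply, conv_apply, conv_apply, ← map_sub]
  congr 1

theorem conv_comm (μ ν : Meas G) : conv μ ν = conv ν μ := by
  by_contra hne
  have hpos : 0 < ‖conv μ ν - conv ν μ‖ := norm_pos_iff.2 (sub_ne_zero.2 hne)
  obtain ⟨K, u, hK, _, hs, hu⟩ := exists_supp μ
    (show 0 < ‖conv μ ν - conv ν μ‖ / (2 * (2 * ‖ν‖ + 1)) by positivity)
  have h1 := conv_comm_supp hK hs ν
  have h2 : conv μ ν - conv ν μ = conv (μ - bc u • μ) ν - conv ν (μ - bc u • μ) := by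
    rw [sub_conv, conv_sub, h1]; abel
  have h3 : ‖conv μ ν - conv ν μ‖ ≤ 2 * ‖ν‖ * (‖conv μ ν - conv ν μ‖ / (2 * (2 * ‖ν‖ + 1))) := by
    calc _ = ‖conv (μ - bc u • μ) ν - conv ν (μ - bc u • μ)‖ := by rw [← h2]
      _ ≤ ‖conv (μ - bc u • μ) ν‖ + ‖conv ν (μ - bc u • μ)‖ := norm_sub_le _ _
      _ ≤ ‖μ - bc u • μ‖ * ‖ν‖ + ‖ν‖ * ‖μ - bc u • μ‖ := add_le_add (conv_norm _ _) (conv_norm _ _)
      _ = 2 * ‖ν‖ * ‖μ - bc u • μ‖ := by ring
      _ ≤ _ := mul_le_mul_of_nonneg_left hu (by positivity)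
  have h4 : 2 * ‖ν‖ * (‖conv μ ν - conv ν μ‖ / (2 * (2 * ‖ν‖ + 1))) < ‖conv μ ν - conv ν μ‖ := by
    rw [← mul_div_assoc, div_lt_iff₀ (by positivity)]
    nlinarith [norm_nonneg ν]
  linarith

instance : CommRing (Meas G) :=
  { (inferInstance : AddCommGroup (Meas G)) with
    mul := conv
    one := dl 0
    left_distrib := conv_add
    right_distrib := add_conv
    zero_mul := fun μ => by
      change conv 0 μ = 0
      ext f; rfl
    mul_zero := fun μ => by
      change conv μ 0 = 0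
      rw [conv_comm]
      ext f; rfl
    mul_assoc := conv_assoc
    one_mul := one_conv
    mul_one := fun μ => by
      change conv μ (dl 0) = μ
      rw [conv_comm]; exact one_conv μ
    mul_comm := conv_comm }

instance : NormedCommRing (Meas G) :=
  { (inferInstance : NormedAddCommGroup (Meas G)), (inferInstance : CommRing (Meas G)) with
    norm_mul_le := conv_norm }

theorem Meas.mul_apply (μ ν : Meas G) (f : C₀(G, ℂ)) : (μ * ν) f = μ (cv ν f) := rfl
theorem Meas.one_apply (f : C₀(G, ℂ)) : (1 : Meas G) f = f 0 := rfl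

theorem Meas.smul_mul (c : ℂ) (μ ν : Meas G) : (c • μ) * ν = c • (μ * ν) := by
  ext f; rfl

instance : Algebra ℂ (Meas G) :=
  Algebra.ofModule Meas.smul_mul (fun c μ ν => by rw [mul_comm, Meas.smul_mul, mul_comm])

instance : NormedAlgebra ℂ (Meas G) :=
  { (inferInstance : Algebra ℂ (Meas G)) with norm_smul_le := fun c μ => (norm_smul c μ).le }

theorem one_eq : (1 : Meas G) = dl 0 := rfl

instance : NormOneClass (Meas G) := ⟨by
  apply le_antisymm (dl_norm 0)
  obtain ⟨u, hu, hu1⟩ := exists_cut' (G := G) (isCompact_singleton (x := (0 : G)))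
  have h := Meas.le (1 : Meas G) u
  rw [Meas.one_apply, hu1 0 rfl, norm_one] at h
  have h2 : ‖u‖ ≤ 1 := (c0_norm_le zero_le_one).2 fun x => norm_01 (hu.nn x) (hu.le x)
  have h3 : 1 ≤ ‖(1 : Meas G)‖ := by nlinarith [norm_nonneg (1 : Meas G)]
  exact h3⟩


end
end Pool.Agent.Helper550.Rad
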