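import Mathlib
import Pool.Agent.Helper550.MeasAlg
set_option autoImplicit false
set_option linter.unusedSectionVars false
set_option linter.style.haveILetI false
set_option linter.unusedVariables false
open scoped ZeroAtInfty BoundedContinuousFunction ComplexOrder Topology Pointwise
open MeasureTheory Filter Set

namespace Pool.Agent.Helper550.Rad
noncomputable section

universe u
variable {G : Type u} [AddCommGroup G] [TopologicalSpace G] [IsTopologicalAddGroup G]
  [T2Space G] [LocallyCompactSpace G]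

section a5

variable [MeasurableSpace G] [BorelSpace G]

/-- The measure `h · Haar` for an integrable `h` (and `0` for other `h`). -/
def den (h : G → ℂ) : Meas G :=
  open Classical in
  if hh : Integrable h (Measure.addHaar : Measure G) then
    Meas.mk { toFun := fun g => ∫ x, h x * g x ∂(Measure.addHaar : Measure G)
              map_add' := fun f g => by
                rw [← integral_add]
                · congr 1; ext x; simp [mul_add]
                · exact hh.mul_bdd (c := ‖f‖) f.continuous.aestronglyMeasurable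
                    (Eventually.of_forall fun x => c0_apply_le f x)
                · exact hh.mul_bdd (c := ‖g‖) g.continuous.aestronglyMeasurable
                    (Eventually.of_forall fun x => c0_apply_le g x)
              map_smul' := fun c g => by
                rw [RingHom.id_apply, ← integral_smul]
                congr 1; ext x; simp [mul_left_comm] }
      (∫ x, ‖h x‖ ∂(Measure.addHaar : Measure G))
      (fun g => by
        refine (norm_integral_le_integral_norm _).trans ?_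
        rw [← integral_mul_const]
        apply integral_mono_of_nonneg (Eventually.of_forall fun x => norm_nonneg _)
          (hh.norm.mul_const _) (Eventually.of_forall fun x => ?_)
        change ‖h x * g x‖ ≤ ‖h x‖ * ‖g‖
        rw [norm_mul]
        exact mul_le_mul_of_nonneg_left (c0_apply_le g x) (norm_nonneg _))
  else 0

theorem den_apply {h : G → ℂ} (hh : Integrable h (Measure.addHaar : Measure G)) (g : C₀(G, ℂ)) :
    den h g = ∫ x, h x * g x ∂(Measure.addHaar : Measure G) := by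
  rw [den, dif_pos hh]; rfl

theorem int_mul {h : G → ℂ} (hh : Integrable h (Measure.addHaar : Measure G)) (g : C₀(G, ℂ)) :
    Integrable (fun x => h x * g x) (Measure.addHaar : Measure G) :=
  hh.mul_bdd (c := ‖g‖) g.continuous.aestronglyMeasurable (Eventually.of_forall fun x => c0_apply_le g x)

theorem den_norm {h : G → ℂ} (hh : Integrable h (Measure.addHaar : Measure G)) :
    ‖den h‖ ≤ ∫ x, ‖h x‖ ∂(Measure.addHaar : Measure G) := by
  refine Meas.norm_le (integral_nonneg fun x => norm_nonneg _) (fun g => ?_)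
  rw [den_apply hh]
  refine (norm_integral_le_integral_norm _).trans ?_
  rw [← integral_mul_const]
  apply integral_mono_of_nonneg (Eventually.of_forall fun x => norm_nonneg _)
    (hh.norm.mul_const _) (Eventually.of_forall fun x => ?_)
  change ‖h x * g x‖ ≤ ‖h x‖ * ‖g‖
  rw [norm_mul]
  exact mul_le_mul_of_nonneg_left (c0_apply_le g x) (norm_nonneg _)

theorem den_sub {h k : G → ℂ} (hh : Integrable h (Measure.addHaar : Measure G))
    (hk : Integrable k (Measure.addHaar : Measure G)) : den h - den k = den (fun x => h x - k x) := by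
  ext g
  have h3 : Integrable (fun x => h x - k x) (Measure.addHaar : Measure G) := hh.sub hk
  rw [Meas.sub_apply, den_apply hh, den_apply hk, den_apply h3, ← integral_sub (int_mul hh g) (int_mul hk g)]
  congr 1; ext x; ring

theorem den_add {h k : G → ℂ} (hh : Integrable h (Measure.addHaar : Measure G))
    (hk : Integrable k (Measure.addHaar : Measure G)) : den h + den k = den (fun x => h x + k x) := by
  ext g
  have h3 : Integrable (fun x => h x + k x) (Measure.addHaar : Measure G) := hh.add hk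
  rw [Meas.add_apply, den_apply hh, den_apply hk, den_apply h3, ← integral_add (int_mul hh g) (int_mul hk g)]
  congr 1; ext x; ring

theorem den_congr {h k : G → ℂ} (hh : Integrable h (Measure.addHaar : Measure G))
    (hk : h =ᵐ[(Measure.addHaar : Measure G)] k) : den h = den k := by
  ext g
  rw [den_apply hh, den_apply (hh.congr hk)]
  apply integral_congr_ae
  filter_upwards [hk] with x hx
  rw [hx]

theorem cs_int {f : C₀(G, ℂ)} (hf : HasCompactSupport f) :
    Integrable (fun x => f x) (Measure.addHaar : Measure G) := f.continuous.integrable_of_hasCompactSupport hf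

theorem act_den {h : G → ℂ} (hh : Integrable h (Measure.addHaar : Measure G)) (b : G →ᵇ ℂ) :
    b • den h = den (fun x => b x * h x) := by
  have h2 : Integrable (fun x => b x * h x) (Measure.addHaar : Measure G) :=
    hh.bdd_mul (c := ‖b‖) b.continuous.aestronglyMeasurable (Eventually.of_forall fun x => b.norm_coe_le_norm x)
  ext g
  rw [act_apply, den_apply hh, den_apply h2]
  congr 1; ext x; simp; ring

theorem dl_mul_apply (x : G) (μ : Meas G) (f : C₀(G, ℂ)) : (dl x * μ) f = μ (tr x f) := rfl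

theorem dl_mul_dl (x y : G) : (dl x * dl y : Meas G) = dl (x + y) := by
  ext f
  rw [dl_mul_apply, dl_apply, tr_apply, dl_apply]

theorem dl_mul_norm (x : G) (μ : Meas G) : ‖dl x * μ‖ ≤ ‖μ‖ := by
  have h := norm_mul_le (dl x) μ
  have h2 := dl_norm x
  nlinarith [norm_nonneg μ]

theorem dl_mul_den {h : G → ℂ} (hh : Integrable h (Measure.addHaar : Measure G)) (x : G) :
    dl x * den h = den (fun y => h (y - x)) := by
  have h2 : Integrable (fun y => h (y - x)) (Measure.addHaar : Measure G) := hh.comp_sub_right x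
  ext g
  rw [dl_mul_apply, den_apply hh, den_apply h2,
    ← integral_sub_right_eq_self (fun y => h y * (tr x g) y) x]
  congr 1; ext y; simp

theorem dl_near_den {f : C₀(G, ℂ)} (hf : HasCompactSupport f) {ε : ℝ} (hε : 0 < ε) :
    ∃ V ∈ 𝓝 (0 : G), ∀ y ∈ V, ‖dl y * den f - den f‖ ≤ ε := by
  obtain ⟨U, hU, hU0⟩ := exists_compact_mem_nhds (0 : G)
  have hK : IsCompact (tsupport f + (U ∪ {0})) :=
    (show IsCompact (tsupport f) from hf).add (hU.union isCompact_singleton)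
  set K := tsupport f + (U ∪ {0}) with hKdef
  set m : ℝ := (Measure.addHaar : Measure G).real K with hm
  obtain ⟨V, hV, hV2⟩ := tr_equi f (show 0 < ε / (m + 1) by positivity)
  refine ⟨U ∩ -V, inter_mem hU0 (neg_mem_nhds_zero G hV), fun y hy => ?_⟩
  have hi := cs_int hf
  have hi2 : Integrable (fun x => f (x - y)) (Measure.addHaar : Measure G) := hi.comp_sub_right y
  rw [dl_mul_den hi, den_sub hi2 hi]
  refine (den_norm (hi2.sub hi)).trans ?_
  have hb : ∀ x, ‖f (x - y) - f x‖ ≤ ε / (m + 1) := by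
    intro x
    have := hV2 (-y) (by simpa using hy.2) x
    rwa [neg_add_eq_sub] at this
  have hz : ∀ x ∉ K, ‖f (x - y) - f x‖ = 0 := by
    intro x hx
    have h1 : f x = 0 := by
      apply image_eq_zero_of_notMem_tsupport
      intro h
      apply hx
      exact Set.mem_add.2 ⟨x, h, 0, by simp, by simp⟩
    have h2 : f (x - y) = 0 := by
      apply image_eq_zero_of_notMem_tsupport
      intro h
      apply hx
      exact Set.mem_add.2 ⟨x - y, h, y, by simp [hy.1], by simp⟩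
    rw [h1, h2]; simp
  change ∫ x, ‖f (x - y) - f x‖ ∂(Measure.addHaar : Measure G) ≤ ε
  rw [← setIntegral_eq_integral_of_forall_compl_eq_zero hz]
  have hfin : (Measure.addHaar : Measure G) K < ⊤ := hK.measure_lt_top
  have h3 : ‖∫ x in K, ‖f (x - y) - f x‖ ∂(Measure.addHaar : Measure G)‖ ≤ ε / (m + 1) * m :=
    norm_setIntegral_le_of_norm_le_const hfin (fun x _ => by rw [norm_norm]; exact hb x)
  refine (le_abs_self _).trans (h3.trans ?_)
  have hm0 : 0 ≤ m := measureReal_nonneg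
  rw [div_mul_eq_mul_div, div_le_iff₀ (by positivity)]
  nlinarith

/-- closed span of the compactly supported continuous densities -/
def L1c (G : Type u) [AddCommGroup G] [TopologicalSpace G] [IsTopologicalAddGroup G]
    [T2Space G] [LocallyCompactSpace G] [MeasurableSpace G] [BorelSpace G] : Submodule ℂ (Meas G) :=
  (Submodule.span ℂ {μ | ∃ f : C₀(G, ℂ), HasCompactSupport f ∧ μ = den f}).topologicalClosure

theorem L1c_closed : IsClosed (L1c G : Set (Meas G)) := Submodule.isClosed_topologicalClosure _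

theorem den_mem {f : C₀(G, ℂ)} (hf : HasCompactSupport f) : den f ∈ L1c G :=
  Submodule.le_topologicalClosure _ (Submodule.subset_span ⟨f, hf, rfl⟩)

theorem L1c_induction {P : Meas G → Prop} (h1 : ∀ f : C₀(G, ℂ), HasCompactSupport f → P (den f))
    (h0 : P 0) (hadd : ∀ μ ν, P μ → P ν → P (μ + ν)) (hsmul : ∀ (c : ℂ) μ, P μ → P (c • μ))
    (hcl : IsClosed {μ | P μ}) {μ : Meas G} (hμ : μ ∈ L1c G) : P μ := by
  have h2 : ∀ μ ∈ Submodule.span ℂ {μ : Meas G | ∃ f : C₀(G, ℂ), HasCompactSupport f ∧ μ = den f}, P μ := by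
    intro μ hμ
    induction hμ using Submodule.span_induction with
    | mem x hx => obtain ⟨f, hf, rfl⟩ := hx; exact h1 f hf
    | zero => exact h0
    | add x y _ _ hx hy => exact hadd x y hx hy
    | smul c x _ hx => exact hsmul c x hx
  have h3 : (L1c G : Set (Meas G)) ⊆ {μ | P μ} := by
    rw [L1c, Submodule.topologicalClosure_coe]
    exact closure_minimal h2 hcl
  exact h3 hμ

/-- approximation form -/
theorem L1c_approx {P : ℝ → Meas G → Prop} (h1 : ∀ f : C₀(G, ℂ), HasCompactSupport f → ∀ ε > 0, P ε (den f))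
    (h0 : ∀ ε > 0, P ε 0) (hadd : ∀ μ ν, (∀ ε > 0, P ε μ) → (∀ ε > 0, P ε ν) → ∀ ε > 0, P ε (μ + ν))
    (hsmul : ∀ (c : ℂ) μ, (∀ ε > 0, P ε μ) → ∀ ε > 0, P ε (c • μ))
    (hcl : ∀ ε > 0, ∃ δ > 0, ∃ ε' > 0, ∀ μ ν, ‖μ - ν‖ < δ → P ε' ν → P ε μ)
    {μ : Meas G} (hμ : μ ∈ L1c G) : ∀ ε > 0, P ε μ := by
  refine L1c_induction (P := fun μ => ∀ ε > 0, P ε μ) h1 h0 hadd hsmul ?_ hμ
  rw [← isSeqClosed_iff_isClosed]
  intro s m hs hm ε hε
  obtain ⟨δ, hδ, ε', hε', h⟩ := hcl ε hε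
  obtain ⟨N, hN⟩ := Metric.tendsto_atTop.1 hm δ hδ
  apply h m (s N)
  · rw [← dist_eq_norm, dist_comm]; exact hN N le_rfl
  · exact hs N ε' hε'

theorem dl_near {ξ : Meas G} (hξ : ξ ∈ L1c G) : ∀ ε > 0, ∃ V ∈ 𝓝 (0 : G), ∀ y ∈ V, ‖dl y * ξ - ξ‖ ≤ ε := by
  refine L1c_approx (P := fun ε ξ => ∃ V ∈ 𝓝 (0 : G), ∀ y ∈ V, ‖dl y * ξ - ξ‖ ≤ ε) ?_ ?_ ?_ ?_ ?_ hξ
  · intro f hf ε hε; exact dl_near_den hf hε
  · intro ε hε; exact ⟨univ, univ_mem, fun y _ => by simp [hε.le]⟩
  · intro μ ν h1 h2 ε hε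
    obtain ⟨V, hV, hV2⟩ := h1 (ε / 2) (by linarith)
    obtain ⟨W, hW, hW2⟩ := h2 (ε / 2) (by linarith)
    refine ⟨V ∩ W, inter_mem hV hW, fun y hy => ?_⟩
    have : dl y * (μ + ν) - (μ + ν) = (dl y * μ - μ) + (dl y * ν - ν) := by ring
    rw [this]
    linarith [norm_add_le (dl y * μ - μ) (dl y * ν - ν), hV2 y hy.1, hW2 y hy.2]
  · intro c μ h ε hε
    obtain ⟨V, hV, hV2⟩ := h (ε / (‖c‖ + 1)) (by positivity)
    refine ⟨V, hV, fun y hy => ?_⟩
    have : dl y * (c • μ) - c • μ = c • (dl y * μ - μ) := by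
      rw [smul_sub, mul_smul_comm]
    rw [this, norm_smul]
    have h3 := hV2 y hy
    rw [le_div_iff₀ (by positivity)] at h3
    nlinarith [norm_nonneg (dl y * μ - μ)]
  · intro ε hε
    refine ⟨ε / 3, by linarith, ε / 3, by linarith, ?_⟩
    rintro μ ν hμν ⟨V, hV, hV2⟩
    refine ⟨V, hV, fun y hy => ?_⟩
    have h1 : dl y * μ - μ = dl y * (μ - ν) + (dl y * ν - ν) - (μ - ν) := by ring
    rw [h1]
    have h2 := norm_sub_le (dl y * (μ - ν) + (dl y * ν - ν)) (μ - ν)
    have h3 := norm_add_le (dl y * (μ - ν)) (dl y * ν - ν)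
    have h4 := dl_mul_norm y (μ - ν)
    linarith [hV2 y hy]

theorem dl_near2 {ξ : Meas G} (hξ : ξ ∈ L1c G) {ε : ℝ} (hε : 0 < ε) : ∃ V ∈ 𝓝 (0 : G),
    ∀ x y, x - y ∈ V → ‖dl x * ξ - dl y * ξ‖ ≤ ε := by
  obtain ⟨V, hV, h⟩ := dl_near hξ ε hε
  refine ⟨V, hV, fun x y hxy => ?_⟩
  have h1 : dl x * ξ - dl y * ξ = dl y * (dl (x - y) * ξ - ξ) := by
    rw [mul_sub, ← mul_assoc, dl_mul_dl]; congr 3; abel
  rw [h1]
  exact (dl_mul_norm _ _).trans (h _ hxy)

/-- approximation of a product by translates -/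
theorem mul_near {ξ : Meas G} (hξ : ξ ∈ L1c G) {K : Set G} (hK : IsCompact K) {ε : ℝ} (hε : 0 < ε) :
    ∃ (n : ℕ) (x : Fin n → G) (u : Fin n → C₀(G, ℂ)), ∀ μ : Meas G, Supp K μ →
      ‖μ * ξ - ∑ i, μ (u i) • (dl (x i) * ξ)‖ ≤ ‖μ‖ * ε := by
  obtain ⟨V, hV, hV2⟩ := dl_near2 hξ hε
  obtain ⟨n, x, u, hu, hux, hs, _⟩ := exists_parts hK hV
  refine ⟨n, x, u, fun μ hμ => ?_⟩
  refine Meas.norm_le_one (by positivity) (fun g hg => ?_)
  have h1 : (μ * ξ - ∑ i, μ (u i) • (dl (x i) * ξ)) g = μ (cv ξ g) - ∑ i, cv ξ g (x i) * μ (u i) := by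
    rw [Meas.sub_apply, Meas.sum_apply, Meas.mul_apply]
    congr 1
    apply Finset.sum_congr rfl
    intro i _
    rw [Meas.smul_apply, dl_mul_apply, cv_apply, mul_comm]
  rw [h1]
  apply parts_bound hμ hu hs hε.le
  intro i z hz
  have h2 : cv ξ g z - cv ξ g (x i) = (dl z * ξ - dl (x i) * ξ) g := rfl
  rw [h2]
  have h3 := Meas.le_of (hV2 _ _ (hux i z hz)) hg
  linarith

theorem dl_mul_mem {ξ : Meas G} (hξ : ξ ∈ L1c G) (x : G) : dl x * ξ ∈ L1c G := by
  refine L1c_induction (P := fun ξ => dl x * ξ ∈ L1c G) ?_ ?_ ?_ ?_ ?_ hξ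
  · intro f hf
    rw [dl_mul_den (cs_int hf)]
    have h1 : (fun y => f (y - x)) = tr (-x) f := by
      ext y; rw [tr_apply, neg_add_eq_sub]
    rw [h1]
    apply den_mem
    exact hf.comp_homeomorph (Homeomorph.addLeft (-x))
  · simp
  · intro μ ν h1 h2; rw [mul_add]; exact add_mem h1 h2
  · intro c μ h; rw [mul_smul_comm]; exact (L1c G).smul_mem c h
  · exact L1c_closed.preimage (continuous_const.mul continuous_id)

theorem mul_mem {ξ : Meas G} (hξ : ξ ∈ L1c G) (μ : Meas G) : μ * ξ ∈ L1c G := by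
  have key : ∀ ε > 0, ∃ η ∈ L1c G, ‖μ * ξ - η‖ < ε := by
    intro ε hε
    obtain ⟨K, u, hK, hu, hs, hn⟩ := exists_supp μ (show 0 < ε / (3 * (‖ξ‖ + 1)) by positivity)
    obtain ⟨n, x, v, hv⟩ := mul_near hξ hK (show 0 < ε / (3 * (‖bc u • μ‖ + 1)) by positivity)
    refine ⟨∑ i, (bc u • μ) (v i) • (dl (x i) * ξ), ?_, ?_⟩
    · exact sum_mem fun i _ => (L1c G).smul_mem _ (dl_mul_mem hξ _)
    · have h1 := hv _ hs
      have h2 : μ * ξ - ∑ i, (bc u • μ) (v i) • (dl (x i) * ξ) = (μ - bc u • μ) * ξ +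
        (bc u • μ * ξ - ∑ i, (bc u • μ) (v i) • (dl (x i) * ξ)) := by
        rw [sub_mul]; abel
      rw [h2]
      have h3 : ‖(μ - bc u • μ) * ξ‖ ≤ ε / 3 := by
        refine (norm_mul_le _ _).trans ?_
        calc _ ≤ ε / (3 * (‖ξ‖ + 1)) * ‖ξ‖ := mul_le_mul_of_nonneg_right hn (norm_nonneg _)
          _ ≤ _ := by
            rw [div_mul_eq_mul_div, div_le_div_iff₀ (by positivity) (by positivity)]
            nlinarith [norm_nonneg ξ]
      have h4 : ‖bc u • μ‖ * (ε / (3 * (‖bc u • μ‖ + 1))) ≤ ε / 3 := by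
        rw [← mul_div_assoc, div_le_div_iff₀ (by positivity) (by positivity)]
        nlinarith [norm_nonneg (bc u • μ)]
      linarith [norm_add_le ((μ - bc u • μ) * ξ) (bc u • μ * ξ - ∑ i, (bc u • μ) (v i) • (dl (x i) * ξ))]
  have h2 : μ * ξ ∈ closure (L1c G : Set (Meas G)) := by
    rw [Metric.mem_closure_iff]
    intro ε hε
    obtain ⟨η, h1, h2⟩ := key ε hε
    exact ⟨η, h1, by rw [dist_eq_norm]; exact h2⟩
  rwa [L1c_closed.closure_eq] at h2

theorem mul_mem' {ξ : Meas G} (hξ : ξ ∈ L1c G) (μ : Meas G) : ξ * μ ∈ L1c G := by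
  rw [mul_comm]; exact mul_mem hξ μ

theorem act_mem {ξ : Meas G} (hξ : ξ ∈ L1c G) (b : G →ᵇ ℂ) : b • ξ ∈ L1c G := by
  refine L1c_induction (P := fun ξ => b • ξ ∈ L1c G) ?_ ?_ ?_ ?_ ?_ hξ
  · intro f hf
    rw [act_den (cs_int hf)]
    have h1 : (fun y => b y * f y) = bm b f := rfl
    rw [h1]
    apply den_mem
    exact hf.mul_left
  · simp
  · intro μ ν h1 h2; rw [smul_add]; exact add_mem h1 h2
  · intro c μ h; rw [act_csmul]; exact (L1c G).smul_mem c h
  · exact L1c_closed.preimage (actL b).continuous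

/-- small product criterion -/
theorem mul_small {ξ : Meas G} (hξ : ξ ∈ L1c G) {K : Set G} (hK : IsCompact K) {ε : ℝ} (hε : 0 < ε) :
    ∃ (n : ℕ) (u : Fin n → C₀(G, ℂ)), ∀ μ : Meas G, Supp K μ →
      ‖μ * ξ‖ ≤ ‖μ‖ * ε + ‖ξ‖ * ∑ i, ‖μ (u i)‖ := by
  obtain ⟨n, x, u, h⟩ := mul_near hξ hK hε
  refine ⟨n, u, fun μ hμ => ?_⟩
  have h1 := h μ hμ
  have h2 : ‖∑ i, μ (u i) • (dl (x i) * ξ)‖ ≤ ‖ξ‖ * ∑ i, ‖μ (u i)‖ := by
    refine (norm_sum_le _ _).trans ?_
    rw [Finset.mul_sum]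
    apply Finset.sum_le_sum
    intro i _
    rw [norm_smul, mul_comm]
    exact mul_le_mul_of_nonneg_right (dl_mul_norm _ _) (norm_nonneg _)
  have h3 := norm_add_le (μ * ξ - ∑ i, μ (u i) • (dl (x i) * ξ)) (∑ i, μ (u i) • (dl (x i) * ξ))
  rw [sub_add_cancel] at h3
  linarith

theorem den_mem_ind {s : Set G} (hs : MeasurableSet s) (hs2 : (Measure.addHaar : Measure G) s < ⊤) (c : ℂ) :
    den (s.indicator fun _ => c) ∈ L1c G := by
  have h2 : den (s.indicator fun _ => c) ∈ closure (L1c G : Set (Meas G)) := by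
    rw [Metric.mem_closure_iff]
    intro ε hε
    have hδ : 0 < ε / (4 * (‖c‖ + 1)) := by positivity
    have hδ' : ENNReal.ofReal (ε / (4 * (‖c‖ + 1))) ≠ 0 := by
      rw [Ne, ENNReal.ofReal_eq_zero, not_le]; exact hδ
    obtain ⟨K, hKs, hK, hK2⟩ := hs.exists_isCompact_sdiff_lt hs2.ne hδ'
    obtain ⟨U, hKU, hU, hU2⟩ := hK.exists_isOpen_lt_add (μ := (Measure.addHaar : Measure G)) hδ'
    obtain ⟨u, hu, hu1, hu2⟩ := exists_cut hK hU hKU
    have hKm : (Measure.addHaar : Measure G) K ≠ ⊤ := hK.measure_lt_top.ne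
    have hUK : (Measure.addHaar : Measure G) (U \ K) < ENNReal.ofReal (ε / (4 * (‖c‖ + 1))) := by
      rw [measure_sdiff hKU hK.measurableSet.nullMeasurableSet hKm]
      exact ENNReal.sub_lt_of_lt_add (measure_mono hKU) (by rwa [add_comm])
    refine ⟨den (c • u : C₀(G, ℂ)), den_mem (hu.cs.mono fun x hx => ?_), ?_⟩
    · rw [Function.mem_support] at hx ⊢
      intro h0
      apply hx
      rw [ZeroAtInftyContinuousMap.smul_apply, h0, smul_zero]
    have hcs : HasCompactSupport (c • u : C₀(G, ℂ)) := hu.cs.mono fun x hx => by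
      rw [Function.mem_support] at hx ⊢
      intro h0
      apply hx
      rw [ZeroAtInftyContinuousMap.smul_apply, h0, smul_zero]
    have hi : Integrable (s.indicator fun _ => c) (Measure.addHaar : Measure G) :=
      (integrable_indicator_iff hs).2 (integrableOn_const hs2.ne)
    rw [dist_eq_norm, den_sub hi (cs_int hcs)]
    refine lt_of_le_of_lt (den_norm (hi.sub (cs_int hcs))) ?_
    have hA : MeasurableSet (s \ K) := hs.diff hK.measurableSet
    have hB : MeasurableSet (U \ K) := hU.measurableSet.diff hK.measurableSet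
    have hle : ∀ x, ‖s.indicator (fun _ => c) x - (c • u : C₀(G, ℂ)) x‖ ≤
        (s \ K).indicator (fun _ => ‖c‖) x + (U \ K).indicator (fun _ => ‖c‖) x := by
      intro x
      rw [ZeroAtInftyContinuousMap.smul_apply]
      by_cases hxK : x ∈ K
      · rw [indicator_of_mem (hKs hxK), hu1 x hxK]
        simp [hxK]
      · have h1 : ‖s.indicator (fun _ => c) x‖ ≤ (s \ K).indicator (fun _ => ‖c‖) x := by
          by_cases hxs : x ∈ s
          · rw [indicator_of_mem hxs, indicator_of_mem (show x ∈ s \ K from ⟨hxs, hxK⟩)]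
          · rw [indicator_of_notMem hxs, indicator_of_notMem (fun h => hxs h.1), norm_zero]
        have h2 : ‖c • u x‖ ≤ (U \ K).indicator (fun _ => ‖c‖) x := by
          by_cases hxU : x ∈ U
          · rw [indicator_of_mem (show x ∈ U \ K from ⟨hxU, hxK⟩), norm_smul]
            have := norm_01 (hu.nn x) (hu.le x)
            nlinarith [norm_nonneg c]
          · have h0 : u x = 0 := by
              by_contra h; exact hxU (hu2 x h)
            rw [h0, indicator_of_notMem (fun h => hxU h.1)]; simp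
        exact (norm_sub_le _ _).trans (add_le_add h1 h2)
    have hAi : Integrable ((s \ K).indicator (fun _ => ‖c‖)) (Measure.addHaar : Measure G) :=
      (integrable_indicator_iff hA).2 (integrableOn_const (lt_of_lt_of_le hK2 le_top).ne)
    have hBi : Integrable ((U \ K).indicator (fun _ => ‖c‖)) (Measure.addHaar : Measure G) :=
      (integrable_indicator_iff hB).2 (integrableOn_const (lt_of_lt_of_le hUK le_top).ne)
    have hint := integral_mono (hi.sub (cs_int hcs)).norm (hAi.add hBi) hle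
    refine lt_of_le_of_lt hint ?_
    rw [integral_add' hAi hBi, integral_indicator_const _ hA, integral_indicator_const _ hB, smul_eq_mul, smul_eq_mul]
    have h5 : (Measure.addHaar : Measure G).real (s \ K) ≤ ε / (4 * (‖c‖ + 1)) :=
      ENNReal.toReal_le_of_le_ofReal hδ.le hK2.le
    have h6 : (Measure.addHaar : Measure G).real (U \ K) ≤ ε / (4 * (‖c‖ + 1)) :=
      ENNReal.toReal_le_of_le_ofReal hδ.le hUK.le
    have h7 : ε / (4 * (‖c‖ + 1)) * ‖c‖ < ε / 2 := by
      rw [div_mul_eq_mul_div, div_lt_div_iff₀ (by positivity) (by positivity)]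
      nlinarith [norm_nonneg c]
    nlinarith [norm_nonneg c, mul_le_mul_of_nonneg_right h5 (norm_nonneg c), mul_le_mul_of_nonneg_right h6 (norm_nonneg c)]
  rwa [L1c_closed.closure_eq] at h2

/-- densities are in the closure -/
theorem den_mem' {h : G → ℂ} (hh : Integrable h (Measure.addHaar : Measure G)) : den h ∈ L1c G := by
  refine Integrable.induction (P := fun h => den h ∈ L1c G) ?_ ?_ ?_ ?_ hh
  · intro c s hs hs2; exact den_mem_ind hs hs2 c
  · intro f g _ hf hg h1 h2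
    have := den_add hf hg
    change den (fun x => f x + g x) ∈ L1c G
    rw [← this]; exact add_mem h1 h2
  · apply L1c_closed.preimage (f := fun f : G →₁[(Measure.addHaar : Measure G)] ℂ => den f)
    rw [Metric.continuous_iff]
    intro f ε hε
    refine ⟨ε, hε, fun g hg => ?_⟩
    rw [dist_eq_norm, den_sub (L1.integrable_coeFn g) (L1.integrable_coeFn f)]
    refine lt_of_le_of_lt (den_norm ((L1.integrable_coeFn g).sub (L1.integrable_coeFn f))) ?_
    rw [dist_eq_norm, L1.norm_eq_integral_norm] at hg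
    refine lt_of_le_of_lt (le_of_eq ?_) hg
    apply integral_congr_ae
    filter_upwards [Lp.coeFn_sub g f] with x hx
    rw [hx]; rfl
  · intro f g hfg hf h; rw [← den_congr hf hfg]; exact h

/-- absolutely continuous measures have no small-scale concentration -/
theorem small_scale [hnd : NeBot (𝓝[≠] (0 : G))] {ξ : Meas G} (hξ : ξ ∈ L1c G) : ∀ ε > 0, ∃ V ∈ 𝓝 (0 : G),
    ∀ x, ∀ g : C₀(G, ℂ), ‖g‖ ≤ 1 → (∀ y, g y ≠ 0 → y - x ∈ V) → ‖ξ g‖ ≤ ε := by
  refine L1c_approx (P := fun ε ξ => ∃ V ∈ 𝓝 (0 : G),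
    ∀ x, ∀ g : C₀(G, ℂ), ‖g‖ ≤ 1 → (∀ y, g y ≠ 0 → y - x ∈ V) → ‖ξ g‖ ≤ ε) ?_ ?_ ?_ ?_ ?_ hξ
  · intro f hf ε hε
    have h0 : (Measure.addHaar : Measure G) {0} = 0 := measure_singleton 0
    obtain ⟨U, hU1, hU2, hU3⟩ := Set.exists_isOpen_lt_of_lt (μ := (Measure.addHaar : Measure G)) {0}
      (ENNReal.ofReal (ε / (‖f‖ + 1))) (by rw [h0]; simp; positivity)
    refine ⟨U, hU2.mem_nhds (hU1 rfl), fun x g hg hgx => ?_⟩
    rw [den_apply (cs_int hf)]
    set S : Set G := (fun y => y - x) ⁻¹' U with hS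
    have hSm : (Measure.addHaar : Measure G) S = (Measure.addHaar : Measure G) U := by
      rw [hS]
      simp [sub_eq_add_neg]
    have hz : ∀ y ∉ S, f y * g y = 0 := by
      intro y hy
      by_contra hne
      exact hy (hgx y (right_ne_zero_of_mul hne))
    rw [← setIntegral_eq_integral_of_forall_compl_eq_zero hz]
    have h3 : ‖∫ y in S, f y * g y ∂(Measure.addHaar : Measure G)‖ ≤ ‖f‖ * (Measure.addHaar : Measure G).real S := by
      apply norm_setIntegral_le_of_norm_le_const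
      · rw [hSm]; exact lt_of_lt_of_le hU3 le_top
      · intro y _
        rw [norm_mul]
        have := c0_apply_le f y
        have := (c0_apply_le g y).trans hg
        nlinarith [norm_nonneg (f y), norm_nonneg (g y)]
    have h4 : (Measure.addHaar : Measure G).real S ≤ ε / (‖f‖ + 1) := by
      rw [Measure.real, hSm]
      apply ENNReal.toReal_le_of_le_ofReal (by positivity) hU3.le
    have h5 : ‖f‖ * (ε / (‖f‖ + 1)) ≤ ε := by
      rw [← mul_div_assoc, div_le_iff₀ (by positivity)]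
      nlinarith [norm_nonneg f]
    exact h3.trans ((mul_le_mul_of_nonneg_left h4 (norm_nonneg _)).trans h5)
  · intro ε hε; exact ⟨univ, univ_mem, fun x g _ _ => by simp [hε.le]⟩
  · intro μ ν h1 h2 ε hε
    obtain ⟨V, hV, hV2⟩ := h1 (ε / 2) (by linarith)
    obtain ⟨W, hW, hW2⟩ := h2 (ε / 2) (by linarith)
    refine ⟨V ∩ W, inter_mem hV hW, fun x g hg hgx => ?_⟩
    rw [Meas.add_apply]
    linarith [norm_add_le (μ g) (ν g), hV2 x g hg (fun y hy => (hgx y hy).1), hW2 x g hg (fun y hy => (hgx y hy).2)]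
  · intro c μ h ε hε
    obtain ⟨V, hV, hV2⟩ := h (ε / (‖c‖ + 1)) (by positivity)
    refine ⟨V, hV, fun x g hg hgx => ?_⟩
    rw [Meas.smul_apply, norm_mul]
    have h3 := hV2 x g hg hgx
    rw [le_div_iff₀ (by positivity)] at h3
    nlinarith [norm_nonneg (μ g)]
  · intro ε hε
    refine ⟨ε / 2, by linarith, ε / 2, by linarith, ?_⟩
    rintro μ ν hμν ⟨V, hV, hV2⟩
    refine ⟨V, hV, fun x g hg hgx => ?_⟩
    have h1 : μ g = (μ - ν) g + ν g := by simp
    rw [h1]
    have h2 := Meas.le_of hμν.le hg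
    linarith [norm_add_le ((μ - ν) g) (ν g), hV2 x g hg hgx]

end a5

/-- a continuous unitary character -/
structure Chr (G : Type u) [AddCommGroup G] [TopologicalSpace G] where
  /-- underlying function -/
  toFun : G → ℂ
  cont : Continuous toFun
  map_add : ∀ x y, toFun (x + y) = toFun x * toFun y
  norm_one : ∀ x, ‖toFun x‖ = 1

/-- as a bounded function -/
def Chr.b (χ : Chr G) : G →ᵇ ℂ :=
  BoundedContinuousFunction.ofNormedAddCommGroup χ.toFun χ.cont 1 (fun x => (χ.norm_one x).le)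

theorem Chr.b_apply (χ : Chr G) (x : G) : χ.b x = χ.toFun x := rfl

theorem Chr.b_norm (χ : Chr G) : ‖χ.b‖ ≤ 1 :=
  (BoundedContinuousFunction.norm_le zero_le_one).2 fun x => (χ.norm_one x).le

theorem Chr.ne (χ : Chr G) (x : G) : χ.toFun x ≠ 0 := by
  intro h
  have := χ.norm_one x
  rw [h, norm_zero] at this
  exact zero_ne_one this

theorem Chr.map_zero (χ : Chr G) : χ.toFun 0 = 1 := by
  have h := χ.map_add 0 0
  rw [add_zero] at h
  have h2 := χ.ne 0
  field_simp at h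
  exact h.symm

theorem Chr.map_neg (χ : Chr G) (x : G) : χ.toFun (-x) = star (χ.toFun x) := by
  have h := χ.map_add x (-x)
  rw [add_neg_cancel, χ.map_zero] at h
  have h2 := χ.norm_one x
  have h3 : χ.toFun x * star (χ.toFun x) = 1 := by
    have := Complex.mul_conj (χ.toFun x)
    rw [Complex.normSq_eq_norm_sq, h2] at this
    simpa using this
  have h4 := χ.ne x
  have h5 : χ.toFun x * χ.toFun (-x) = χ.toFun x * star (χ.toFun x) := by rw [h3, ← h]
  exact mul_left_cancel₀ h4 h5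

/-- product of characters -/
def Chr.mul (χ ψ : Chr G) : Chr G where
  toFun x := χ.toFun x * ψ.toFun x
  cont := χ.cont.mul ψ.cont
  map_add x y := by rw [χ.map_add, ψ.map_add]; ring
  norm_one x := by rw [norm_mul, χ.norm_one, ψ.norm_one, one_mul]

/-- conjugate character -/
def Chr.conj (χ : Chr G) : Chr G where
  toFun x := star (χ.toFun x)
  cont := χ.cont.star
  map_add x y := by rw [χ.map_add, star_mul']
  norm_one x := by rw [norm_star, χ.norm_one]

/-- powers -/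
def Chr.pow (χ : Chr G) (n : ℕ) : Chr G where
  toFun x := χ.toFun x ^ n
  cont := χ.cont.pow n
  map_add x y := by rw [χ.map_add, mul_pow]
  norm_one x := by rw [norm_pow, χ.norm_one, one_pow]

theorem Chr.act_mul (χ : Chr G) (μ ν : Meas G) : χ.b • (μ * ν) = (χ.b • μ) * (χ.b • ν) := by
  ext f
  rw [act_apply, Meas.mul_apply, Meas.mul_apply, act_apply]
  congr 1
  ext x
  rw [cv_apply, bm_apply, cv_apply, act_apply]
  have : tr x (bm χ.b f) = χ.toFun x • bm χ.b (tr x f) := by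
    ext y
    simp only [tr_apply, bm_apply, ZeroAtInftyContinuousMap.smul_apply, smul_eq_mul, Chr.b_apply, χ.map_add]
    ring
  rw [this, map_smul]
  rfl

theorem Chr.act_pow (χ : Chr G) (μ : Meas G) {n : ℕ} (hn : n ≠ 0) : (χ.b • μ) ^ n = χ.b • (μ ^ n) := by
  induction n with
  | zero => exact absurd rfl hn
  | succ n ih =>
    rcases Nat.eq_zero_or_pos n with rfl | h
    · simp
    · rw [pow_succ, pow_succ, ih h.ne', χ.act_mul]

theorem Chr.act_norm (χ : Chr G) (μ : Meas G) : ‖χ.b • μ‖ ≤ ‖μ‖ := by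
  have := act_norm_le χ.b_norm μ
  linarith

/-- reflection -/
def rf (f : C₀(G, ℂ)) : C₀(G, ℂ) := star (f.comp (Homeomorph.toCocompactMap (Homeomorph.neg G)))

@[simp] theorem rf_apply (f : C₀(G, ℂ)) (x : G) : rf f x = star (f (-x)) := rfl

theorem rf_add (f g : C₀(G, ℂ)) : rf (f + g) = rf f + rf g := by ext x; simp
theorem rf_smul (c : ℂ) (f : C₀(G, ℂ)) : rf (c • f) = star c • rf f := by ext x; simp
theorem rf_norm (f : C₀(G, ℂ)) : ‖rf f‖ ≤ ‖f‖ := by
  rw [c0_norm_le (norm_nonneg _)]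
  intro x
  rw [rf_apply, norm_star]
  exact c0_apply_le f _
theorem rf_rf (f : C₀(G, ℂ)) : rf (rf f) = f := by ext x; simp

/-- the adjoint measure -/
def iv (μ : Meas G) : Meas G :=
  Meas.mk { toFun := fun f => star (μ (rf f))
            map_add' := fun f g => by rw [rf_add, map_add, star_add]
            map_smul' := fun c f => by rw [rf_smul, map_smul, smul_eq_mul, star_mul', star_star]; rfl } (‖μ‖)
    (fun f => by
      change ‖star (μ (rf f))‖ ≤ _
      rw [norm_star]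
      exact μ.le_of le_rfl (rf_norm f))

theorem iv_apply (μ : Meas G) (f : C₀(G, ℂ)) : iv μ f = star (μ (rf f)) := rfl

theorem iv_norm (μ : Meas G) : ‖iv μ‖ ≤ ‖μ‖ := by
  refine Meas.norm_le (norm_nonneg _) (fun f => ?_)
  rw [iv_apply, norm_star]
  exact μ.le_of le_rfl (rf_norm f)

theorem iv_iv (μ : Meas G) : iv (iv μ) = μ := by
  ext f; rw [iv_apply, iv_apply, rf_rf, star_star]

theorem iv_mul (μ ν : Meas G) : iv (μ * ν) = iv μ * iv ν := by
  ext f
  rw [iv_apply, Meas.mul_apply, Meas.mul_apply, iv_apply]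
  congr 2
  ext x
  rw [cv_apply, rf_apply, cv_apply, iv_apply, star_star]
  congr 1
  ext y
  simp [add_comm]

theorem iv_sub (μ ν : Meas G) : iv (μ - ν) = iv μ - iv ν := by
  ext f; rw [iv_apply, Meas.sub_apply, Meas.sub_apply, iv_apply, iv_apply, star_sub]

theorem iv_smul (c : ℂ) (μ : Meas G) : iv (c • μ) = star c • iv μ := by
  ext f
  rw [iv_apply, Meas.smul_apply, Meas.smul_apply, iv_apply, star_mul']

theorem iv_dl (x : G) : iv (dl x) = dl (-x) := by
  ext f; rw [iv_apply, dl_apply, dl_apply, rf_apply, star_star]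

theorem iv_one : iv (1 : Meas G) = 1 := by
  rw [one_eq, iv_dl, neg_zero]

theorem iv_pow (μ : Meas G) (n : ℕ) : iv (μ ^ n) = iv μ ^ n := by
  induction n with
  | zero => simp [iv_one]
  | succ n ih => rw [pow_succ, pow_succ, iv_mul, ih]

theorem sum_parts_le {K : Set G} {μ : Meas G} (h : Supp K μ) {n : ℕ} {u : Fin n → C₀(G, ℂ)}
    (hu : ∀ i, Cut (u i)) (hs : ∀ y ∈ K, ∑ i, u i y = 1) : ∑ i, ‖μ (u i)‖ ≤ ‖μ‖ := by
  have h1 : ∀ i, ∃ c : ℂ, ‖c‖ ≤ 1 ∧ c * μ (u i) = (‖μ (u i)‖ : ℂ) := by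
    intro i
    by_cases h0 : μ (u i) = 0
    · exact ⟨0, by simp, by simp [h0]⟩
    · refine ⟨(‖μ (u i)‖ : ℂ) / μ (u i), ?_, div_mul_cancel₀ _ h0⟩
      rw [norm_div, Complex.norm_real, norm_norm, div_self (norm_ne_zero_iff.2 h0)]
  choose c hc1 hc2 using h1
  have h2 : μ (∑ i, c i • u i) = ((∑ i, ‖μ (u i)‖ : ℝ) : ℂ) := by
    rw [map_sum, Complex.ofReal_sum]
    apply Finset.sum_congr rfl
    intro i _
    rw [map_smul, smul_eq_mul, hc2]
  have h3 : ‖μ (∑ i, c i • u i)‖ ≤ ‖μ‖ * 1 := by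
    apply h.bound zero_le_one
    intro z hz
    have h4 : (∑ i, c i • u i) z = ∑ i, c i * u i z := c0_sum_apply _ _ _
    rw [h4]
    have hre : ∀ i, ‖u i z‖ = (u i z).re := fun i => by
      have h5 := Complex.nonneg_iff.1 ((hu i).nn z)
      have h6 : u i z = ((u i z).re : ℂ) := Complex.ext (by simp) (by simp [h5.2.symm])
      rw [h6, Complex.norm_real, Real.norm_eq_abs, abs_of_nonneg h5.1]
      simp
    calc ‖∑ i, c i * u i z‖ ≤ ∑ i, ‖c i * u i z‖ := norm_sum_le _ _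
      _ ≤ ∑ i, (u i z).re := by
          apply Finset.sum_le_sum
          intro i _
          rw [norm_mul, hre]
          have := (Complex.nonneg_iff.1 ((hu i).nn z)).1
          nlinarith [hc1 i]
      _ = 1 := by rw [← Complex.re_sum, hs z hz]; simp
  rw [h2, Complex.norm_real, Real.norm_eq_abs, abs_of_nonneg (Finset.sum_nonneg fun i _ => norm_nonneg _)] at h3
  linarith

/-- positive definite function -/
def PD (g : C₀(G, ℂ)) : Prop := ∀ (n : ℕ) (c : Fin n → ℂ) (x : Fin n → G),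
  0 ≤ ∑ i, ∑ j, star (c i) * (c j * g (x j - x i))

theorem PD.pos_supp {g : C₀(G, ℂ)} (hg : PD g) {K : Set G} (hK : IsCompact K) {ν : Meas G} (h : Supp K ν) :
    0 ≤ (iv ν * ν) g := by
  have key : ∀ ε > 0, ∃ z : ℂ, 0 ≤ z ∧ ‖(iv ν * ν) g - z‖ ≤ 2 * ‖ν‖ ^ 2 * ε := by
    intro ε hε
    obtain ⟨V, hV, hV2⟩ := tr_near g hε
    obtain ⟨n, x, u, hu, hux, hs, _⟩ := exists_parts hK (Filter.inter_mem hV (neg_mem_nhds_zero G hV))
    refine ⟨∑ i, ∑ j, star (ν (u i)) * (ν (u j) * g (x j - x i)), hg n (fun i => ν (u i)) x, ?_⟩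
    set h0 := rf (cv ν g) with hh0
    have h1 : ‖ν h0 - ∑ i, h0 (x i) * ν (u i)‖ ≤ ‖ν‖ * (‖ν‖ * ε) := by
      apply parts_bound h hu hs (by positivity)
      intro i z hz
      rw [hh0, rf_apply, rf_apply, ← star_sub, norm_star, cv_apply, cv_apply, ← map_sub]
      apply ν.le_of le_rfl
      apply hV2
      have := (hux i z hz).2
      rw [Set.mem_neg] at this
      rwa [show -z - -x i = -(z - x i) by abel]
    have h2 : (iv ν * ν) g = star (ν h0) := rfl
    have h3 : ∀ i, h0 (x i) = star (ν (tr (-x i) g)) := fun i => rfl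
    have h4 : ∀ i, ‖ν (tr (-x i) g) - ∑ j, g (x j - x i) * ν (u j)‖ ≤ ‖ν‖ * ε := by
      intro i
      have h5 := parts_bound h hu hs (g := tr (-x i) g) hε.le (fun j z hz => by
        have h6 := (c0_apply_le (tr z g - tr (x j) g) (-x i)).trans (hV2 _ _ (hux j z hz).1)
        simpa [add_comm (-x i)] using h6)
      simpa [neg_add_eq_sub] using h5
    have h5 : star (∑ i, h0 (x i) * ν (u i)) - ∑ i, ∑ j, star (ν (u i)) * (ν (u j) * g (x j - x i)) =
        ∑ i, star (ν (u i)) * (ν (tr (-x i) g) - ∑ j, g (x j - x i) * ν (u j)) := by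
      rw [star_sum, ← Finset.sum_sub_distrib]
      apply Finset.sum_congr rfl
      intro i _
      rw [star_mul', h3, star_star, mul_sub, Finset.mul_sum, mul_comm]
      congr 1
      apply Finset.sum_congr rfl
      intro j _
      ring
    have h6 : ‖star (∑ i, h0 (x i) * ν (u i)) - ∑ i, ∑ j, star (ν (u i)) * (ν (u j) * g (x j - x i))‖ ≤
        ‖ν‖ * (‖ν‖ * ε) := by
      rw [h5]
      calc _ ≤ ∑ i, ‖star (ν (u i)) * (ν (tr (-x i) g) - ∑ j, g (x j - x i) * ν (u j))‖ := norm_sum_le _ _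
        _ ≤ ∑ i, ‖ν (u i)‖ * (‖ν‖ * ε) := by
            apply Finset.sum_le_sum
            intro i _
            rw [norm_mul, norm_star]
            exact mul_le_mul_of_nonneg_left (h4 i) (norm_nonneg _)
        _ ≤ _ := by
            rw [← Finset.sum_mul]
            exact mul_le_mul_of_nonneg_right (sum_parts_le h hu hs) (by positivity)
    have h7 : ‖star (ν h0) - star (∑ i, h0 (x i) * ν (u i))‖ ≤ ‖ν‖ * (‖ν‖ * ε) := by
      rw [← star_sub, norm_star]; exact h1
    rw [h2]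
    have h8 := norm_add_le (star (ν h0) - star (∑ i, h0 (x i) * ν (u i)))
      (star (∑ i, h0 (x i) * ν (u i)) - ∑ i, ∑ j, star (ν (u i)) * (ν (u j) * g (x j - x i)))
    rw [sub_add_sub_cancel] at h8
    nlinarith
  have hcl : IsClosed {z : ℂ | 0 ≤ z} := isClosed_le continuous_const continuous_id
  have h9 : (iv ν * ν) g ∈ closure {z : ℂ | 0 ≤ z} := by
    rw [Metric.mem_closure_iff]
    intro ε hε
    obtain ⟨z, hz, hz2⟩ := key (ε / (2 * (2 * ‖ν‖ ^ 2 + 1))) (by positivity)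
    refine ⟨z, hz, ?_⟩
    rw [dist_eq_norm]
    refine lt_of_le_of_lt hz2 ?_
    rw [← mul_div_assoc, div_lt_iff₀ (by positivity)]
    nlinarith [sq_nonneg ‖ν‖]
  rwa [hcl.closure_eq] at h9

theorem PD.pos {g : C₀(G, ℂ)} (hg : PD g) (ν : Meas G) : 0 ≤ (iv ν * ν) g := by
  have hcl : IsClosed {z : ℂ | 0 ≤ z} := isClosed_le continuous_const continuous_id
  have h9 : (iv ν * ν) g ∈ closure {z : ℂ | 0 ≤ z} := by
    rw [Metric.mem_closure_iff]
    intro ε hε
    obtain ⟨K, u, hK, hu, hs, hn⟩ := exists_supp ν (show 0 < ε / (2 * (2 * ‖ν‖ * ‖g‖ + 1)) by positivity)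
    refine ⟨(iv (bc u • ν) * (bc u • ν)) g, hg.pos_supp hK hs, ?_⟩
    rw [dist_eq_norm]
    have h1 : (iv ν * ν) g - (iv (bc u • ν) * (bc u • ν)) g =
        (iv (ν - bc u • ν) * ν + iv (bc u • ν) * (ν - bc u • ν)) g := by
      rw [← Meas.sub_apply, iv_sub]; congr 1; ring
    rw [h1]
    have h2 : ‖iv (ν - bc u • ν) * ν + iv (bc u • ν) * (ν - bc u • ν)‖ ≤
        2 * ‖ν‖ * (ε / (2 * (2 * ‖ν‖ * ‖g‖ + 1))) := by
      have h3 := norm_add_le (iv (ν - bc u • ν) * ν) (iv (bc u • ν) * (ν - bc u • ν))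
      have h4 := (norm_mul_le (iv (ν - bc u • ν)) ν).trans
        (mul_le_mul_of_nonneg_right ((iv_norm _).trans hn) (norm_nonneg ν))
      have h5 := (norm_mul_le (iv (bc u • ν)) (ν - bc u • ν)).trans
        (mul_le_mul ((iv_norm _).trans (hu.U01.act_le ν)) hn (norm_nonneg _) (norm_nonneg _))
      nlinarith
    refine lt_of_le_of_lt (Meas.le_of h2 le_rfl) ?_
    have h6 : 2 * ‖ν‖ * (ε / (2 * (2 * ‖ν‖ * ‖g‖ + 1))) * ‖g‖ = (2 * ‖ν‖ * ‖g‖) * ε / (2 * (2 * ‖ν‖ * ‖g‖ + 1)) := by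
      ring
    rw [h6, div_lt_iff₀ (by positivity)]
    have h7 : 0 ≤ 2 * ‖ν‖ * ‖g‖ := by positivity
    nlinarith
  rwa [hcl.closure_eq] at h9

section a7

variable [MeasurableSpace G] [BorelSpace G]

/-- the positive definite function `y ↦ ∫ conj v(x) v(y + x) dx` -/
def pd (v : C₀(G, ℂ)) : C₀(G, ℂ) := cv (den (fun x => star (v x))) v

theorem star_int {v : C₀(G, ℂ)} (hv : HasCompactSupport v) :
    Integrable (fun x => star (v x)) (Measure.addHaar : Measure G) := by
  have h1 : Continuous fun x => star (v x) := v.continuous.star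
  exact h1.integrable_of_hasCompactSupport (hv.comp_left (g := fun z : ℂ => star z) (star_zero ℂ))

theorem pd_apply {v : C₀(G, ℂ)} (hv : HasCompactSupport v) (y : G) :
    pd v y = ∫ x, star (v x) * v (y + x) ∂(Measure.addHaar : Measure G) := by
  rw [pd, cv_apply, den_apply (star_int hv)]
  rfl

theorem pd_apply' {v : C₀(G, ℂ)} (hv : HasCompactSupport v) (y z : G) :
    pd v (y - z) = ∫ x, star (v (z + x)) * v (y + x) ∂(Measure.addHaar : Measure G) := by
  rw [pd_apply hv, ← integral_add_left_eq_self _ z]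
  congr 1; ext x
  rw [show y - z + (z + x) = y + x by abel]

theorem cs_tr {v : C₀(G, ℂ)} (hv : HasCompactSupport v) (x : G) : HasCompactSupport (fun z => v (x + z)) :=
  hv.comp_homeomorph (Homeomorph.addLeft x)

theorem prod_int {v : C₀(G, ℂ)} (hv : HasCompactSupport v) (x y : G) :
    Integrable (fun z => star (v (x + z)) * v (y + z)) (Measure.addHaar : Measure G) := by
  have h1 : Continuous fun z => star (v (x + z)) * v (y + z) :=
    ((v.continuous.comp (continuous_const.add continuous_id)).star).mul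
      (v.continuous.comp (continuous_const.add continuous_id))
  exact h1.integrable_of_hasCompactSupport ((cs_tr hv y).mul_left)

theorem pd_PD {v : C₀(G, ℂ)} (hv : HasCompactSupport v) : PD (pd v) := by
  intro n c x
  have h1 : ∀ i j, star (c i) * (c j * pd v (x j - x i)) =
      ∫ z, star (c i * v (x i + z)) * (c j * v (x j + z)) ∂(Measure.addHaar : Measure G) := by
    intro i j
    rw [pd_apply' hv, ← integral_const_mul, ← integral_const_mul]
    congr 1; ext z
    rw [star_mul']; ring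
  have hint : ∀ i j, Integrable (fun z => star (c i * v (x i + z)) * (c j * v (x j + z)))
      (Measure.addHaar : Measure G) := by
    intro i j
    have := ((prod_int hv (x i) (x j)).const_mul (star (c i) * c j))
    refine this.congr (Eventually.of_forall fun z => ?_)
    change star (c i) * c j * (star (v (x i + z)) * v (x j + z)) = star (c i * v (x i + z)) * (c j * v (x j + z))
    rw [star_mul']; ring
  have h2 : ∑ i, ∑ j, star (c i) * (c j * pd v (x j - x i)) =
      ∫ z, (∑ i, ∑ j, star (c i * v (x i + z)) * (c j * v (x j + z))) ∂(Measure.addHaar : Measure G) := by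
    rw [integral_finsetSum _ (fun i _ => integrable_finsetSum _ (fun j _ => hint i j))]
    apply Finset.sum_congr rfl
    intro i _
    rw [integral_finsetSum _ (fun j _ => hint i j)]
    exact Finset.sum_congr rfl fun j _ => h1 i j
  rw [h2]
  have h3 : ∀ z, (∑ i, ∑ j, star (c i * v (x i + z)) * (c j * v (x j + z))) =
      ((‖∑ i, c i * v (x i + z)‖ ^ 2 : ℝ) : ℂ) := by
    intro z
    rw [← Finset.sum_mul_sum, ← star_sum, ← Complex.normSq_eq_norm_sq, Complex.normSq_eq_conj_mul_self]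
    rfl
  simp_rw [h3]
  have h4 : ∫ z, ((‖∑ i, c i * v (x i + z)‖ ^ 2 : ℝ) : ℂ) ∂(Measure.addHaar : Measure G) =
    ((∫ z, ‖∑ i, c i * v (x i + z)‖ ^ 2 ∂(Measure.addHaar : Measure G) : ℝ) : ℂ) := integral_ofReal
  rw [h4]
  have h5 : 0 ≤ ∫ z, ‖∑ i, c i * v (x i + z)‖ ^ 2 ∂(Measure.addHaar : Measure G) :=
    integral_nonneg fun z => by positivity
  exact_mod_cast h5

theorem pd_rf {v : C₀(G, ℂ)} (hv : HasCompactSupport v) : rf (pd v) = pd v := by
  ext x
  rw [rf_apply]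
  have h1 := pd_apply' hv 0 x
  have h2 := pd_apply' hv x 0
  rw [zero_sub] at h1
  rw [sub_zero] at h2
  rw [h1, h2]
  have h3 : star (∫ z, star (v (x + z)) * v (0 + z) ∂(Measure.addHaar : Measure G)) =
    ∫ z, star (star (v (x + z)) * v (0 + z)) ∂(Measure.addHaar : Measure G) := integral_conj.symm
  rw [h3]
  congr 1; ext z
  rw [star_mul', star_star, mul_comm]

theorem exists_pd {u : C₀(G, ℂ)} (hu : HasCompactSupport u) {x0 : G} (hx0 : u x0 ≠ 0) :
    ∃ g : C₀(G, ℂ), PD g ∧ rf g = g ∧ ∃ a, den u (tr a g) ≠ 0 := by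
  have hp : 0 < ‖u x0‖ := norm_pos_iff.2 hx0
  have hV : {y : G | ‖u (x0 + y) - u x0‖ < ‖u x0‖ / 2} ∈ 𝓝 (0 : G) := by
    have h1 : Continuous fun y : G => ‖u (x0 + y) - u x0‖ :=
      ((u.continuous.comp (continuous_const.add continuous_id)).sub continuous_const).norm
    have h2 := h1.tendsto 0
    have h3 : ‖u (x0 + 0) - u x0‖ < ‖u x0‖ / 2 := by simp [hp]
    exact h2.eventually (gt_mem_nhds h3)
  obtain ⟨W, hW, hWV⟩ := exists_nhds_half_neg hV
  obtain ⟨v, hv, hv1, hv2⟩ := exists_cut (isCompact_singleton (x := (0 : G))) isOpen_interior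
    (by rw [singleton_subset_iff]; exact mem_interior_iff_mem_nhds.2 hW)
  refine ⟨pd v, pd_PD hv.cs, pd_rf hv.cs, -x0, ?_⟩
  have hvW : ∀ x, v x ≠ 0 → x ∈ W := fun x hx => interior_subset (hv2 x hx)
  have hvre : ∀ x, v x = ((v x).re : ℂ) := fun x => by
    have h5 := Complex.nonneg_iff.1 (hv.nn x)
    exact Complex.ext (by simp) (by simp [h5.2.symm])
  have hvnn : ∀ x, 0 ≤ (v x).re := fun x => (Complex.nonneg_iff.1 (hv.nn x)).1
  set gr : G → ℝ := fun y => ∫ x, (v x).re * (v (y + x)).re ∂(Measure.addHaar : Measure G) with hgr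
  have hg : ∀ y, pd v y = (gr y : ℂ) := by
    intro y
    rw [pd_apply hv.cs, hgr]
    change _ = ((∫ x, (v x).re * (v (y + x)).re ∂(Measure.addHaar : Measure G) : ℝ) : ℂ)
    rw [← integral_complex_ofReal]
    congr 1; ext x
    rw [hvre x, hvre (y + x)]
    simp
  have hgc : Continuous gr := by
    have h1 : gr = fun y => (pd v y).re := by ext y; rw [hg]; simp
    rw [h1]
    exact Complex.continuous_re.comp (pd v).continuous
  have hgnn : ∀ y, 0 ≤ gr y := fun y => integral_nonneg fun x => mul_nonneg (hvnn x) (hvnn _)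
  have hgz : ∀ y, gr y ≠ 0 → ∃ x, v x ≠ 0 ∧ v (y + x) ≠ 0 := by
    intro y hy
    by_contra hcon
    push Not at hcon
    apply hy
    rw [hgr]
    change ∫ x, (v x).re * (v (y + x)).re ∂(Measure.addHaar : Measure G) = 0
    have : (fun x => (v x).re * (v (y + x)).re) = fun x => 0 := by
      ext x
      by_cases h0 : v x = 0
      · simp [h0]
      · simp [hcon x h0]
    rw [this]; simp
  have hgcs : HasCompactSupport gr := by
    have hK : IsCompact (tsupport v + -(tsupport v)) := IsCompact.add hv.cs (IsCompact.neg (show IsCompact (tsupport v) from hv.cs))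
    apply HasCompactSupport.intro hK
    intro y hy
    by_contra h
    obtain ⟨x, h1, h2⟩ := hgz y h
    apply hy
    exact Set.mem_add.2 ⟨y + x, subset_tsupport _ h2, -x, by simpa using subset_tsupport _ h1, by abel⟩
  have hg0 : gr 0 ≠ 0 := by
    have h1 : 0 < ∫ x, (v x).re * (v (0 + x)).re ∂(Measure.addHaar : Measure G) := by
      have hc : Continuous fun x => (v x).re * (v (0 + x)).re :=
        (Complex.continuous_re.comp v.continuous).mul
          (Complex.continuous_re.comp (v.continuous.comp (continuous_const.add continuous_id)))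
      apply hc.integral_pos_of_hasCompactSupport_nonneg_nonzero (x := 0)
      · exact HasCompactSupport.mul_right (hv.cs.comp_left (g := Complex.re) rfl)
      · intro x; exact mul_nonneg (hvnn x) (hvnn _)
      · simp [hv1 0 rfl]
    exact h1.ne'
  have hgpos : 0 < ∫ y, gr y ∂(Measure.addHaar : Measure G) :=
    hgc.integral_pos_of_hasCompactSupport_nonneg_nonzero hgcs hgnn hg0
  have hgint : Integrable gr (Measure.addHaar : Measure G) := hgc.integrable_of_hasCompactSupport hgcs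
  rw [den_apply (cs_int hu), ← integral_add_left_eq_self _ x0]
  have h6 : ∀ y, u (x0 + y) * (tr (-x0) (pd v)) (x0 + y) = u (x0 + y) * (gr y : ℂ) := by
    intro y
    rw [tr_apply, neg_add_cancel_left, hg]
  simp_rw [h6]
  intro h7
  have hgi : Integrable (fun y => (gr y : ℂ)) (Measure.addHaar : Measure G) := hgint.ofReal
  have hint1 : Integrable (fun y => u (x0 + y) * (gr y : ℂ)) (Measure.addHaar : Measure G) := by
    apply hgi.bdd_mul (c := ‖u‖) (u.continuous.comp (continuous_const.add continuous_id)).aestronglyMeasurable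
    exact Eventually.of_forall fun x => c0_apply_le u _
  have h8 : ∫ y, (u x0 * (gr y : ℂ)) ∂(Measure.addHaar : Measure G) =
      - ∫ y, (u (x0 + y) * (gr y : ℂ) - u x0 * (gr y : ℂ)) ∂(Measure.addHaar : Measure G) := by
    rw [integral_sub hint1 (hgi.const_mul _), h7]; ring
  have h9 : ‖∫ y, (u (x0 + y) * (gr y : ℂ) - u x0 * (gr y : ℂ)) ∂(Measure.addHaar : Measure G)‖ ≤
      ∫ y, ‖u x0‖ / 2 * gr y ∂(Measure.addHaar : Measure G) := by
    apply norm_integral_le_of_norm_le (hgint.const_mul _)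
    refine Eventually.of_forall fun y => ?_
    rw [← sub_mul, norm_mul, Complex.norm_real, Real.norm_eq_abs, abs_of_nonneg (hgnn y)]
    by_cases h0 : gr y = 0
    · simp [h0]
    · obtain ⟨x, h1, h2⟩ := hgz y h0
      have h3 := hWV (y + x) (hvW _ h2) x (hvW _ h1)
      rw [show y + x - x = y by abel] at h3
      exact mul_le_mul_of_nonneg_right (le_of_lt h3) (hgnn y)
  rw [integral_const_mul] at h8 h9
  have h10 : ∫ y, (gr y : ℂ) ∂(Measure.addHaar : Measure G) =
    ((∫ y, gr y ∂(Measure.addHaar : Measure G) : ℝ) : ℂ) := integral_ofReal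
  have h11 : ‖u x0‖ * ∫ y, gr y ∂(Measure.addHaar : Measure G) ≤
      ‖u x0‖ / 2 * ∫ y, gr y ∂(Measure.addHaar : Measure G) := by
    have := congrArg norm h8
    rw [norm_neg, h10, norm_mul, Complex.norm_real, Real.norm_eq_abs, abs_of_pos hgpos] at this
    rw [this]; exact h9
  nlinarith

end a7

section a8

variable [MeasurableSpace G] [BorelSpace G]

theorem sq_expand (a b : Meas G) (t : ℂ) : (a - t • b) * (a - t • b) =
    a * a - (2 * t) • (a * b) + (t ^ 2) • (b * b) := by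
  simp only [Algebra.smul_def, map_mul, map_pow, map_ofNat]
  ring

theorem pd_cs {g : C₀(G, ℂ)} (hg : PD g) {a b : Meas G} (ha : iv a = a) (hb : iv b = b) :
    ((a * b) g).re ^ 2 ≤ ((a * a) g).re * ((b * b) g).re := by
  have quad : ∀ t : ℝ, 0 ≤ ((b * b) g).re * (t * t) + -2 * ((a * b) g).re * t + ((a * a) g).re := by
    intro t
    have h1 := hg.pos (a - (t : ℂ) • b)
    have h0 : star (t : ℂ) = t := Complex.conj_ofReal t
    rw [iv_sub, iv_smul, ha, hb, h0, sq_expand] at h1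
    have h3 := (Complex.nonneg_iff.1 h1).1
    rw [Meas.add_apply, Meas.sub_apply, Meas.smul_apply, Meas.smul_apply] at h3
    have h4 : ((2 * (t : ℂ)) * (a * b) g).re = 2 * t * ((a * b) g).re := by
      rw [show (2 * (t : ℂ)) = ((2 * t : ℝ) : ℂ) by push_cast; ring, Complex.re_ofReal_mul]
    have h5 : (((t : ℂ) ^ 2) * (b * b) g).re = t ^ 2 * ((b * b) g).re := by
      rw [show ((t : ℂ) ^ 2) = ((t ^ 2 : ℝ) : ℂ) by push_cast; ring, Complex.re_ofReal_mul]
    rw [Complex.add_re, Complex.sub_re, h4, h5] at h3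
    linarith
  have h := discrim_le_zero quad
  rw [discrim] at h
  nlinarith

end a8

section a9

variable [MeasurableSpace G] [BorelSpace G]

theorem sq_expand2 (a b c d : Meas G) (s t : ℂ) : (a - s • b) * (c - t • d) =
    a * c - t • (a * d) - s • (b * c) + (s * t) • (b * d) := by
  simp only [Algebra.smul_def, map_mul]
  ring

theorem pd_one {g : C₀(G, ℂ)} (hg : PD g) (hgr : rf g = g) {U : Meas G} {a : G}
    (ha : U (tr a g) ≠ 0) : 0 < ((iv U * U) g).re := by
  set β := U (tr a g) with hβ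
  have hβ2 : 0 < ‖β‖ ^ 2 := by positivity
  have ha0 : 0 ≤ (g 0).re := by
    have h1 := hg.pos (1 : Meas G)
    rw [iv_one, one_mul] at h1
    exact (Complex.nonneg_iff.1 h1).1
  set s : ℝ := 1 / ((g 0).re + 1) with hs
  have h1 := hg.pos (U - ((s : ℂ) * β) • dl (-a))
  rw [iv_sub, iv_smul, iv_dl, neg_neg, sq_expand2] at h1
  have h3 : (dl a * U) g = β := by rw [dl_mul_apply]
  have h4 : (iv U * dl (-a)) g = star β := by
    rw [show iv U * dl (-a) = iv (dl a * U) by rw [iv_mul, iv_dl, mul_comm], iv_apply, hgr, h3]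
  have h5 : (dl a * dl (-a) : Meas G) g = g 0 := by
    rw [dl_mul_dl, add_neg_cancel, dl_apply]
  have h6 := (Complex.nonneg_iff.1 h1).1
  rw [Meas.add_apply, Meas.sub_apply, Meas.sub_apply, Meas.smul_apply, Meas.smul_apply, Meas.smul_apply,
    h3, h4, h5] at h6
  have h7 : (s : ℂ) * β * star β = ((s * ‖β‖ ^ 2 : ℝ) : ℂ) := by
    have : β * star β = ((‖β‖ ^ 2 : ℝ) : ℂ) := by
      rw [← Complex.normSq_eq_norm_sq]; exact Complex.mul_conj β
    rw [mul_assoc, this]; push_cast; ring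
  have h8 : star ((s : ℂ) * β) * β = ((s * ‖β‖ ^ 2 : ℝ) : ℂ) := by
    have h9 : star ((s : ℂ) * β) = (s : ℂ) * star β := by
      rw [star_mul', show star (s : ℂ) = s from Complex.conj_ofReal s]
    rw [h9, mul_assoc, mul_comm (star β), ← mul_assoc, h7]
  have h9 : star ((s : ℂ) * β) * ((s : ℂ) * β) = ((s ^ 2 * ‖β‖ ^ 2 : ℝ) : ℂ) := by
    rw [mul_left_comm, h8]; push_cast; ring
  rw [h7, h8, h9, Complex.add_re, Complex.sub_re, Complex.sub_re, Complex.ofReal_re, Complex.re_ofReal_mul] at h6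
  have hs0 : 0 < s := by positivity
  have hs1 : s * (g 0).re < 1 := by
    rw [hs, one_div, inv_mul_lt_iff₀ (by positivity)]; linarith
  have h11 : 0 < s * ‖β‖ ^ 2 * (2 - s * (g 0).re) := by
    apply mul_pos (by positivity); linarith
  nlinarith

end a9

section a10

variable [MeasurableSpace G] [BorelSpace G]

theorem real_growth {A : ℕ → ℝ} (h0 : 0 < A 0) (h1 : 0 < A 1) (hd : ∀ n, A (n + 1) ^ 2 ≤ A n * A (n + 2)) :
    ∃ r : ℝ, 0 < r ∧ ∀ n, A 0 * r ^ n ≤ A n := by
  set r := A 1 / A 0 with hr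
  have hr0 : 0 < r := div_pos h1 h0
  have hgrow : ∀ n, 0 < A n ∧ r * A n ≤ A (n + 1) := by
    intro n
    induction n with
    | zero =>
      refine ⟨h0, ?_⟩
      rw [hr, div_mul_cancel₀ _ h0.ne']
    | succ n ih =>
      obtain ⟨ih1, ih2⟩ := ih
      have h1 : 0 < A (n + 1) := lt_of_lt_of_le (mul_pos hr0 ih1) ih2
      refine ⟨h1, ?_⟩
      have h2 := hd n
      by_contra hlt
      push Not at hlt
      have h3 : A n * A (n + 2) < A n * (r * A (n + 1)) := mul_lt_mul_of_pos_left hlt ih1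
      have h4 : A n * (r * A (n + 1)) ≤ A (n + 1) * A (n + 1) := by
        calc A n * (r * A (n + 1)) = (r * A n) * A (n + 1) := by ring
          _ ≤ A (n + 1) * A (n + 1) := mul_le_mul_of_nonneg_right ih2 h1.le
      rw [sq] at h2
      linarith
  refine ⟨r, hr0, fun n => ?_⟩
  induction n with
  | zero => simp
  | succ n ih =>
    have h2 := (hgrow n).2
    rw [pow_succ]
    calc A 0 * (r ^ n * r) = r * (A 0 * r ^ n) := by ring
      _ ≤ r * A n := mul_le_mul_of_nonneg_left ih hr0.le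
      _ ≤ _ := h2

theorem norm_bound_of_sr {H : Meas G} (h : spectralRadius ℂ H = 0) {r : ℝ} (hr : 0 < r) :
    ∃ N : ℕ, ∀ n, N ≤ n → ‖H ^ (2 * n)‖ ≤ (r / 2) ^ n := by
  have hlim := spectrum.pow_norm_pow_one_div_tendsto_nhds_spectralRadius H
  rw [h] at hlim
  have hev := hlim.eventually (gt_mem_nhds (show (0 : ENNReal) < ENNReal.ofReal (Real.sqrt (r / 2)) by
    rw [ENNReal.ofReal_pos]; positivity))
  obtain ⟨N, hN⟩ := eventually_atTop.1 hev
  refine ⟨N + 1, fun n hn => ?_⟩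
  have h1 := hN (2 * n) (by omega)
  rw [ENNReal.ofReal_lt_ofReal_iff (by positivity)] at h1
  have hn0 : ((2 * n : ℕ) : ℝ) ≠ 0 := by
    have : 2 * n ≠ 0 := by omega
    exact_mod_cast this
  have h3 : ‖H ^ (2 * n)‖ = (‖H ^ (2 * n)‖ ^ (1 / ((2 * n : ℕ) : ℝ))) ^ (2 * n) := by
    rw [← Real.rpow_natCast, ← Real.rpow_mul (norm_nonneg _), one_div, inv_mul_cancel₀ hn0, Real.rpow_one]
  rw [h3]
  calc _ ≤ (Real.sqrt (r / 2)) ^ (2 * n) := pow_le_pow_left₀ (by positivity) h1.le _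
    _ = (r / 2) ^ n := by rw [pow_mul, Real.sq_sqrt (by positivity)]

theorem real_contra {a r b : ℝ} (ha : 0 < a) (hr : 0 < r) {N : ℕ}
    (h : ∀ n, N ≤ n → a * r ^ n ≤ (r / 2) ^ n * b) : False := by
  have hfin : ∀ n, N ≤ n → a * 2 ^ n ≤ b := by
    intro n hn
    have h1 := h n hn
    rw [div_pow] at h1
    have hrn : 0 < r ^ n := by positivity
    have h2n : (0 : ℝ) < 2 ^ n := by positivity
    have h2 : r ^ n * (a * 2 ^ n) ≤ r ^ n * b := by
      calc r ^ n * (a * 2 ^ n) = (a * r ^ n) * 2 ^ n := by ring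
        _ ≤ (r ^ n / 2 ^ n * b) * 2 ^ n := mul_le_mul_of_nonneg_right h1 h2n.le
        _ = r ^ n * b := by field_simp
    exact le_of_mul_le_mul_left h2 hrn
  have htend : Tendsto (fun n : ℕ => a * 2 ^ n) atTop atTop :=
    (tendsto_pow_atTop_atTop_of_one_lt (by norm_num : (1 : ℝ) < 2)).const_mul_atTop ha
  obtain ⟨n, hn⟩ := ((htend.eventually_gt_atTop b).and (eventually_ge_atTop N)).exists
  linarith [hfin n hn.2, hn.1]

end a10

section a11

variable [MeasurableSpace G] [BorelSpace G]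

instance : Nontrivial (Meas G) := NormOneClass.nontrivial

theorem exists_hom_ne {U : Meas G} {g : C₀(G, ℂ)} (hg : PD g) (hgr : rf g = g) {a : G}
    (ha : U (tr a g) ≠ 0) : ∃ φ : Meas G →ₐ[ℂ] ℂ, φ U ≠ 0 := by
  by_contra hcon
  push Not at hcon
  obtain ⟨H, hH⟩ : ∃ H, H = iv U * U := ⟨_, rfl⟩
  have hHiv : iv H = H := by rw [hH, iv_mul, iv_iv, mul_comm]
  have hHn : ∀ n, iv (H ^ n) = H ^ n := fun n => by rw [iv_pow, hHiv]
  obtain ⟨A, hA⟩ : ∃ A : ℕ → ℝ, ∀ n, A n = ((H ^ (2 * n)) g).re := ⟨_, fun n => rfl⟩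
  have hc1 := pd_one hg hgr ha
  rw [← hH] at hc1
  have hAd : ∀ n, A (n + 1) ^ 2 ≤ A n * A (n + 2) := by
    intro n
    have h := pd_cs hg (hHn (n + 2)) (hHn n)
    rw [← pow_add, ← pow_add, ← pow_add, show n + 2 + n = 2 * (n + 1) by ring,
      show n + 2 + (n + 2) = 2 * (n + 2) by ring, show n + n = 2 * n by ring, ← hA, ← hA, ← hA] at h
    linarith
  have hA0 : 0 ≤ A 0 := by
    have h1 := hg.pos (1 : Meas G)
    rw [iv_one, one_mul] at h1
    rw [hA, mul_zero, pow_zero]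
    exact (Complex.nonneg_iff.1 h1).1
  have hA1 : 0 < A 0 ∧ 0 < A 1 := by
    have h := pd_cs hg hHiv iv_one
    rw [mul_one, mul_one, ← sq, show H ^ 2 = H ^ (2 * 1) by rw [mul_one], ← hA,
      show (1 : Meas G) = H ^ (2 * 0) by rw [mul_zero, pow_zero], ← hA] at h
    have h2 : 0 < (H g).re ^ 2 := by positivity
    have h3 : 0 < A 1 * A 0 := by linarith
    have h4 : A 0 ≠ 0 := by intro h0; rw [h0, mul_zero] at h3; exact lt_irrefl _ h3
    have h5 : 0 < A 0 := lt_of_le_of_ne hA0 h4.symm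
    exact ⟨h5, (mul_pos_iff_of_pos_right h5).1 h3⟩
  obtain ⟨r, hr0, hgrow⟩ := real_growth hA1.1 hA1.2 hAd
  have hsp : spectralRadius ℂ H = 0 := by
    obtain ⟨z, hz, hz2⟩ := spectrum.exists_nnnorm_eq_spectralRadius H
    rw [← hz2]
    obtain ⟨f, hf⟩ := WeakDual.CharacterSpace.mem_spectrum_iff_exists.1 hz
    have h2 : f U = 0 := hcon (WeakDual.CharacterSpace.toAlgHom f)
    have h3 : f H = 0 := by rw [hH, map_mul, h2, mul_zero]
    rw [← hf, h3]; simp
  obtain ⟨N, hN⟩ := norm_bound_of_sr hsp hr0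
  apply real_contra hA1.1 hr0 (N := N) (b := ‖g‖)
  intro n hn
  have h1 := (hgrow n).trans_eq (hA n)
  exact h1.trans ((Complex.re_le_norm _).trans (Meas.le_of (hN n hn) le_rfl))

end a11

section a12

variable [MeasurableSpace G] [BorelSpace G]

theorem hom_le (φ : Meas G →ₐ[ℂ] ℂ) (μ : Meas G) : ‖φ μ‖ ≤ ‖μ‖ := AlgHom.norm_apply_le_self φ μ

theorem exists_chr_of_hom (φ : Meas G →ₐ[ℂ] ℂ) {ξ : Meas G} (hξ : ξ ∈ L1c G) (hφ : φ ξ ≠ 0) :
    ∃ χ : Chr G, ∀ x, χ.toFun x = φ (dl x) := by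
  have hle : ∀ x, ‖φ (dl x)‖ ≤ 1 := fun x => (hom_le φ _).trans (dl_norm x)
  have hadd : ∀ x y, φ (dl (x + y)) = φ (dl x) * φ (dl y) := fun x y => by
    rw [← dl_mul_dl, map_mul]
  have h0 : φ (dl (0 : G)) = 1 := by rw [← one_eq, map_one]
  have hn : ∀ x, ‖φ (dl x)‖ = 1 := by
    intro x
    have h1 := hadd x (-x)
    rw [add_neg_cancel, h0] at h1
    have h2 := congrArg norm h1
    rw [norm_one, norm_mul] at h2
    have h3 := hle x
    have h4 := hle (-x)
    nlinarith [norm_nonneg (φ (dl x)), norm_nonneg (φ (dl (-x)))]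
  refine ⟨⟨fun x => φ (dl x), ?_, hadd, hn⟩, fun x => rfl⟩
  have h1 : (fun x => φ (dl x)) = fun x => φ (dl x * ξ) * (φ ξ)⁻¹ := by
    ext x; rw [map_mul, mul_assoc, mul_inv_cancel₀ hφ, mul_one]
  rw [h1]
  apply Continuous.mul _ continuous_const
  rw [continuous_iff_continuousAt]
  intro y
  rw [ContinuousAt, Metric.tendsto_nhds]
  intro ε hε
  obtain ⟨V, hV, hV2⟩ := dl_near2 hξ (half_pos hε)
  have : {x | x - y ∈ V} ∈ 𝓝 y := by
    have hc : Tendsto (fun x : G => x - y) (𝓝 y) (𝓝 (y - y)) :=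
      (continuous_id.sub continuous_const).tendsto y
    rw [sub_self] at hc
    exact hc hV
  filter_upwards [this] with x hx
  rw [dist_eq_norm, ← map_sub]
  have := (hom_le φ _).trans (hV2 x y hx)
  linarith

/-- characters separate points from `0` (Gelfand-Raikov) -/
theorem exists_chr {x : G} (hx : x ≠ 0) : ∃ χ : Chr G, χ.toFun x ≠ 1 := by
  -- a compactly supported function with f - T_x f not zero
  obtain ⟨v, hv, hv1, hv2⟩ := exists_cut (isCompact_singleton (x := (0 : G)))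
    (isOpen_compl_singleton (x := x)) (by simpa using hx)
  have hvx : v x = 0 := by
    by_contra h
    exact hv2 x h rfl
  have hv0 : v 0 = 1 := hv1 0 rfl
  set w : C₀(G, ℂ) := tr x v with hw
  have hwc : HasCompactSupport w := cs_tr hv.cs x
  -- U = den (v - w)
  have hU : HasCompactSupport (v - w : C₀(G, ℂ)) := by
    have h1 : HasCompactSupport (fun y => v y - w y) := HasCompactSupport.sub hv.cs hwc
    exact h1
  have hne : (v - w : C₀(G, ℂ)) 0 ≠ 0 := by
    rw [ZeroAtInftyContinuousMap.sub_apply, hw, tr_apply, add_zero, hvx, hv0]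
    simp
  obtain ⟨g, hg, hgr, a, ha⟩ := exists_pd hU hne
  obtain ⟨φ, hφ⟩ := exists_hom_ne hg hgr ha
  have h1 : den (v - w : C₀(G, ℂ)) = den v - dl (-x) * den v := by
    rw [dl_mul_den (cs_int hv.cs), den_sub (cs_int hv.cs) ((cs_int hv.cs).comp_sub_right (-x))]
    congr 1
    ext y
    rw [ZeroAtInftyContinuousMap.sub_apply, hw, tr_apply]
    congr 2
    abel
  rw [h1, map_sub, map_mul] at hφ
  have h2 : φ (den v) ≠ 0 := by
    intro h; apply hφ; rw [h]; ring
  obtain ⟨χ, hχ⟩ := exists_chr_of_hom φ (den_mem hv.cs) h2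
  refine ⟨χ, fun h => ?_⟩
  apply hφ
  have h3 : χ.toFun (-x) = 1 := by rw [χ.map_neg, h, star_one]
  rw [← hχ, h3]; ring

theorem circle_pow {z : ℂ} (hz : ‖z‖ = 1) (hz1 : z ≠ 1) : ∃ n : ℕ, 1 ≤ ‖z ^ n - 1‖ := by
  by_contra hcon
  push Not at hcon
  have hre : ∀ n : ℕ, (1 / 2 : ℝ) ≤ (z ^ n).re := by
    intro n
    have h1 := hcon n
    have h2 : ‖z ^ n‖ = 1 := by rw [norm_pow, hz, one_pow]
    have h3 : ‖z ^ n - 1‖ ^ 2 < 1 := by
      have := norm_nonneg (z ^ n - 1)
      nlinarith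
    have h4 : ‖z ^ n‖ ^ 2 = 1 := by rw [h2]; norm_num
    rw [← Complex.normSq_eq_norm_sq, Complex.normSq_apply] at h3 h4
    simp only [Complex.sub_re, Complex.one_re, Complex.sub_im, Complex.one_im] at h3
    nlinarith
  have hpos : 0 < ‖z - 1‖ := norm_pos_iff.2 (sub_ne_zero.2 hz1)
  obtain ⟨N, hN⟩ := exists_nat_gt (4 / ‖z - 1‖)
  have hgeom := geom_sum_mul z N
  have h1 : ‖(∑ i ∈ Finset.range N, z ^ i) * (z - 1)‖ ≤ 2 := by
    rw [hgeom]
    refine (norm_sub_le _ _).trans ?_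
    rw [norm_pow, hz, one_pow, norm_one]; norm_num
  have h2 : (N : ℝ) / 2 ≤ ‖∑ i ∈ Finset.range N, z ^ i‖ := by
    refine le_trans ?_ (Complex.re_le_norm _)
    rw [Complex.re_sum]
    have : ∑ i ∈ Finset.range N, (1 / 2 : ℝ) ≤ ∑ i ∈ Finset.range N, (z ^ i).re :=
      Finset.sum_le_sum fun i _ => hre i
    rw [Finset.sum_const, Finset.card_range, nsmul_eq_mul] at this
    linarith
  rw [norm_mul] at h1
  rw [div_lt_iff₀ hpos] at hN
  nlinarith

theorem exists_chr_far {x : G} (hx : x ≠ 0) : ∃ χ : Chr G, 1 ≤ ‖χ.toFun x - 1‖ := by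
  obtain ⟨χ, hχ⟩ := exists_chr hx
  obtain ⟨n, hn⟩ := circle_pow (χ.norm_one x) hχ
  exact ⟨χ.pow n, hn⟩

end a12

section a13

variable [MeasurableSpace G] [BorelSpace G]

theorem Supp.act_bound {K : Set G} {μ : Meas G} (h : Supp K μ) {b : G →ᵇ ℂ} {C : ℝ} (hC : 0 ≤ C)
    (hb : ∀ x ∈ K, ‖b x‖ ≤ C) : ‖b • μ‖ ≤ C * ‖μ‖ := by
  refine Meas.norm_le_one (by positivity) (fun f hf => ?_)
  rw [act_apply, mul_comm]
  apply h.bound hC
  intro x hx
  rw [bm_apply, norm_mul]
  have h1 := (c0_apply_le f x).trans hf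
  have h2 := hb x hx
  nlinarith [norm_nonneg (f x), norm_nonneg (b x)]

theorem tr_chr (χ : Chr G) (x : G) (y : C₀(G, ℂ)) : tr x (bm χ.b y) = χ.toFun x • bm χ.b (tr x y) := by
  ext z
  simp only [tr_apply, bm_apply, ZeroAtInftyContinuousMap.smul_apply, smul_eq_mul, Chr.b_apply, χ.map_add]
  ring

theorem chr_shift (χ : Chr G) (x : G) (ξ : Meas G) (y : C₀(G, ℂ)) :
    (χ.toFun x - 1) * ξ (bm χ.b y) =
      (dl x * ξ - ξ) (bm χ.b (tr (-x) y)) + ξ (bm χ.b (tr (-x) y - y)) := by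
  rw [Meas.sub_apply, dl_mul_apply, tr_chr, tr_tr, add_neg_cancel, tr_zero, map_smul, smul_eq_mul, bm_sub, map_sub]
  ring

theorem chr_shift_le (χ : Chr G) (x : G) (ξ : Meas G) (y : C₀(G, ℂ)) :
    ‖χ.toFun x - 1‖ * ‖ξ (bm χ.b y)‖ ≤ ‖dl x * ξ - ξ‖ * ‖y‖ + ‖ξ‖ * ‖tr (-x) y - y‖ := by
  rw [← norm_mul, chr_shift]
  refine (norm_add_le _ _).trans (add_le_add ?_ ?_)
  · apply Meas.le_of le_rfl
    refine (bm_norm _ _).trans ?_
    rw [tr_norm]
    have := χ.b_norm
    nlinarith [norm_nonneg y]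
  · apply Meas.le_of le_rfl
    refine (bm_norm _ _).trans ?_
    have := χ.b_norm
    nlinarith [norm_nonneg (tr (-x) y - y)]

/-- Riemann-Lebesgue along a filter of characters -/
def RL1 (F : Filter (Chr G)) : Prop := ∀ ξ ∈ L1c G, ∀ y : C₀(G, ℂ), Tendsto (fun χ : Chr G => ξ (bm χ.b y)) F (𝓝 0)

theorem RL1.mono {F F' : Filter (Chr G)} (h : RL1 F) (hle : F' ≤ F) : RL1 F' :=
  fun ξ hξ y => (h ξ hξ y).mono_left hle

theorem RL1.mul {F : Filter (Chr G)} (h : RL1 F) {ξ η : Meas G} (hξ : ξ ∈ L1c G) (hη : η ∈ L1c G) :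
    Tendsto (fun χ : Chr G => (χ.b • ξ) * η) F (𝓝 0) := by
  rw [Metric.tendsto_nhds]
  intro ε hε
  obtain ⟨K, u, hK, hu, hs, hn⟩ := exists_supp ξ (show 0 < ε / (4 * (‖η‖ + 1)) by positivity)
  obtain ⟨n, v, hv⟩ := mul_small hη hK (show 0 < ε / (4 * (‖ξ‖ + 1)) by positivity)
  have h1 : Tendsto (fun χ : Chr G => ‖η‖ * ∑ i, ‖(bc u • ξ) (bm χ.b (v i))‖) F (𝓝 (‖η‖ * ∑ i : Fin n, ‖(0 : ℂ)‖)) := by
    apply Tendsto.const_mul
    apply tendsto_finsetSum
    intro i _
    exact (h _ (act_mem hξ _) (v i)).norm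
  rw [norm_zero, Finset.sum_const_zero, mul_zero] at h1
  have h2 := h1.eventually (gt_mem_nhds (show (0 : ℝ) < ε / 4 by linarith))
  filter_upwards [h2] with χ hχ
  rw [dist_zero_right]
  have h3 : (χ.b • ξ) * η = (χ.b • (ξ - bc u • ξ)) * η + (χ.b • (bc u • ξ)) * η := by
    rw [← add_mul, ← smul_add, sub_add_cancel]
  rw [h3]
  have h4 : ‖(χ.b • (ξ - bc u • ξ)) * η‖ ≤ ε / 4 := by
    refine (norm_mul_le _ _).trans ?_
    calc _ ≤ ε / (4 * (‖η‖ + 1)) * ‖η‖ :=
          mul_le_mul_of_nonneg_right ((χ.act_norm _).trans hn) (norm_nonneg _)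
      _ ≤ ε / 4 := by
        rw [div_mul_eq_mul_div, div_le_div_iff₀ (by positivity) (by positivity)]
        nlinarith [norm_nonneg η]
  have h5 := hv _ (hs.act χ.b)
  have h6 : ‖χ.b • (bc u • ξ)‖ * (ε / (4 * (‖ξ‖ + 1))) ≤ ε / 4 := by
    have h7 : ‖χ.b • (bc u • ξ)‖ ≤ ‖ξ‖ := (χ.act_norm _).trans (hu.U01.act_le ξ)
    calc _ ≤ ‖ξ‖ * (ε / (4 * (‖ξ‖ + 1))) := mul_le_mul_of_nonneg_right h7 (by positivity)
      _ ≤ ε / 4 := by
        rw [mul_div_assoc', div_le_div_iff₀ (by positivity) (by positivity)]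
        nlinarith [norm_nonneg ξ]
  have h8 : ‖η‖ * ∑ i, ‖(χ.b • (bc u • ξ)) (v i)‖ < ε / 4 := hχ
  linarith [norm_add_le ((χ.b • (ξ - bc u • ξ)) * η) ((χ.b • (bc u • ξ)) * η)]

/-- real part of a character -/
def Chr.re (χ : Chr G) : G →ᵇ ℂ := (1 / 2 : ℂ) • (χ.b + χ.conj.b)

theorem Chr.re_apply (χ : Chr G) (x : G) : χ.re x = ((χ.toFun x).re : ℂ) := by
  change (1 / 2 : ℂ) * (χ.toFun x + star (χ.toFun x)) = _
  apply Complex.ext
  · simp; ring
  · simp

/-- data for the Riesz product construction -/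
structure RLD (κ : ℝ) (F : Filter (G →ᵇ ℂ)) : Prop where
  ne : F.NeBot
  pos : 0 < κ
  le : κ ≤ 1
  real : ∀ᶠ c in F, ∀ x, ∃ r : ℝ, c x = (r : ℂ) ∧ |r| ≤ 1
  a : ∀ ξ ∈ L1c G, ∀ η ∈ L1c G, Tendsto (fun c : G →ᵇ ℂ => (c • ξ) * η) F (𝓝 0)
  b : ∀ ξ ∈ L1c G, ∀ η ∈ L1c G,
    Tendsto (fun c : G →ᵇ ℂ => (c • ξ) * (c • η) - (κ : ℂ) • (c • (ξ * η))) F (𝓝 0)
  c1 : ∀ ξ ∈ L1c G, ∀ y : C₀(G, ℂ), Tendsto (fun c : G →ᵇ ℂ => ξ (bm c y)) F (𝓝 0)
  c2 : ∀ ξ ∈ L1c G, ∀ y : C₀(G, ℂ), Tendsto (fun c : G →ᵇ ℂ => ξ (bm c (bm c y))) F (𝓝 ((κ : ℂ) * ξ y))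

theorem re_act (χ : Chr G) (ξ : Meas G) : χ.re • ξ = (1 / 2 : ℂ) • (χ.b • ξ + χ.conj.b • ξ) := by
  rw [Chr.re, csmul_act, add_smul]

theorem re_mul (χ : Chr G) (ξ η : Meas G) : (χ.re • ξ) * (χ.re • η) =
    (1 / 2 : ℂ) • (χ.re • (ξ * η)) + (1 / 4 : ℂ) • ((χ.b • ξ) * (χ.conj.b • η) + (χ.conj.b • ξ) * (χ.b • η)) := by
  rw [re_act, re_act, re_act, Chr.act_mul, Chr.act_mul]
  simp only [Algebra.smul_def]
  have h : (algebraMap ℂ (Meas G)) (1 / 2) * (algebraMap ℂ (Meas G)) (1 / 2) = algebraMap ℂ (Meas G) (1 / 4) := by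
    rw [← map_mul]; norm_num
  have h2 : (algebraMap ℂ (Meas G)) (1 / 2) * ((algebraMap ℂ (Meas G)) (1 / 2) * (χ.b • ξ * χ.b • η + χ.conj.b • ξ * χ.conj.b • η)) =
    algebraMap ℂ (Meas G) (1 / 4) * (χ.b • ξ * χ.b • η + χ.conj.b • ξ * χ.conj.b • η) := by
    rw [← mul_assoc, h]
  rw [h2]
  have h3 : (algebraMap ℂ (Meas G)) (1 / 2) * (χ.b • ξ + χ.conj.b • ξ) * ((algebraMap ℂ (Meas G)) (1 / 2) * (χ.b • η + χ.conj.b • η)) =
    ((algebraMap ℂ (Meas G)) (1 / 2) * (algebraMap ℂ (Meas G)) (1 / 2)) * ((χ.b • ξ + χ.conj.b • ξ) * (χ.b • η + χ.conj.b • η)) := by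
    ring
  rw [h3, h]
  ring

theorem conj_mul_self (χ : Chr G) (ξ : Meas G) : χ.conj.b • (χ.b • ξ) = ξ := by
  ext f
  rw [act_apply, act_apply]
  congr 1
  ext x
  have h3 : χ.toFun x * star (χ.toFun x) = 1 := by
    have := Complex.mul_conj (χ.toFun x)
    rw [Complex.normSq_eq_norm_sq, χ.norm_one] at this
    simpa using this
  change χ.toFun x * (star (χ.toFun x) * f x) = f x
  rw [← mul_assoc, h3, one_mul]

theorem self_mul_conj (χ : Chr G) (ξ : Meas G) : χ.b • (χ.conj.b • ξ) = ξ := by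
  ext f
  rw [act_apply, act_apply]
  congr 1
  ext x
  have h3 : χ.toFun x * star (χ.toFun x) = 1 := by
    have := Complex.mul_conj (χ.toFun x)
    rw [Complex.normSq_eq_norm_sq, χ.norm_one] at this
    simpa using this
  change star (χ.toFun x) * (χ.toFun x * f x) = f x
  rw [← mul_assoc, mul_comm (star (χ.toFun x)), h3, one_mul]

theorem mul_b (χ ψ : Chr G) (ξ : Meas G) : (χ.mul ψ).b • ξ = χ.b • (ψ.b • ξ) := by
  rw [← mul_smul]; rfl

theorem cross1 (χ : Chr G) (ξ η : Meas G) : (χ.b • ξ) * (χ.conj.b • η) = χ.conj.b • (((χ.mul χ).b • ξ) * η) := by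
  rw [Chr.act_mul, mul_b, conj_mul_self]

theorem cross2 (χ : Chr G) (ξ η : Meas G) : (χ.conj.b • ξ) * (χ.b • η) = χ.b • (((χ.mul χ).conj.b • ξ) * η) := by
  rw [Chr.act_mul]
  congr 1
  have h1 : (χ.mul χ).conj.b = χ.conj.b * χ.conj.b := by
    ext x
    change star (χ.toFun x * χ.toFun x) = star (χ.toFun x) * star (χ.toFun x)
    rw [star_mul']
  rw [h1, mul_smul, self_mul_conj]

end a13

section a14

variable [MeasurableSpace G] [BorelSpace G]

theorem RLD_A {F : Filter (Chr G)} [hF : F.NeBot] (h1 : RL1 F) (h2 : RL1 (map Chr.conj F))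
    (h3 : RL1 (map (fun χ : Chr G => χ.mul χ) F)) (h4 : RL1 (map (fun χ : Chr G => (χ.mul χ).conj) F)) :
    RLD (1 / 2) (map Chr.re F) := by
  have hre : ∀ ξ ∈ L1c G, ∀ η ∈ L1c G, Tendsto (fun χ : Chr G => (χ.re • ξ) * η) F (𝓝 0) := by
    intro ξ hξ η hη
    have e1 := h1.mul hξ hη
    have e2 : Tendsto (fun χ : Chr G => (χ.conj.b • ξ) * η) F (𝓝 0) := by
      have := h2.mul hξ hη
      rwa [tendsto_map'_iff] at this
    have e3 := (e1.add e2).const_smul (1 / 2 : ℂ)
    rw [add_zero, smul_zero] at e3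
    refine e3.congr (fun χ => ?_)
    rw [re_act, Meas.smul_mul, add_mul]
  refine ⟨map_neBot, by norm_num, by norm_num, ?_, ?_, ?_, ?_, ?_⟩
  · rw [eventually_map]
    refine Eventually.of_forall fun χ x => ⟨(χ.toFun x).re, χ.re_apply x, ?_⟩
    exact (Complex.abs_re_le_norm _).trans (χ.norm_one x).le
  · intro ξ hξ η hη
    rw [tendsto_map'_iff]
    exact hre ξ hξ η hη
  · intro ξ hξ η hη
    rw [tendsto_map'_iff]
    have e1 : Tendsto (fun χ : Chr G => (χ.b • ξ) * (χ.conj.b • η)) F (𝓝 0) := by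
      have := h3.mul hξ hη
      rw [tendsto_map'_iff] at this
      rw [tendsto_zero_iff_norm_tendsto_zero] at this ⊢
      refine squeeze_zero (fun χ => norm_nonneg _) (fun χ => ?_) this
      rw [cross1]
      exact χ.conj.act_norm _
    have e2 : Tendsto (fun χ : Chr G => (χ.conj.b • ξ) * (χ.b • η)) F (𝓝 0) := by
      have := h4.mul hξ hη
      rw [tendsto_map'_iff] at this
      rw [tendsto_zero_iff_norm_tendsto_zero] at this ⊢
      refine squeeze_zero (fun χ => norm_nonneg _) (fun χ => ?_) this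
      rw [cross2]
      exact χ.act_norm _
    have e3 := (e1.add e2).const_smul (1 / 4 : ℂ)
    rw [add_zero, smul_zero] at e3
    refine e3.congr (fun χ => ?_)
    change _ = χ.re • ξ * χ.re • η - ((1 / 2 : ℝ) : ℂ) • (χ.re • (ξ * η))
    rw [re_mul]
    push_cast
    abel
  · intro ξ hξ y
    rw [tendsto_map'_iff]
    have e1 := h1 ξ hξ y
    have e2 : Tendsto (fun χ : Chr G => ξ (bm χ.conj.b y)) F (𝓝 0) := by
      have := h2 ξ hξ y
      rwa [tendsto_map'_iff] at this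
    have e3 := (e1.add e2).const_mul (1 / 2 : ℂ)
    rw [add_zero, mul_zero] at e3
    refine e3.congr (fun χ => ?_)
    change _ = ξ (bm χ.re y)
    rw [Chr.re, smul_bm, add_bm, map_smul, map_add, smul_eq_mul]
  · intro ξ hξ y
    rw [tendsto_map'_iff]
    have e1 : Tendsto (fun χ : Chr G => ξ (bm (χ.mul χ).b y)) F (𝓝 0) := by
      have := h3 ξ hξ y
      rwa [tendsto_map'_iff] at this
    have e2 : Tendsto (fun χ : Chr G => ξ (bm (χ.mul χ).conj.b y)) F (𝓝 0) := by
      have := h4 ξ hξ y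
      rwa [tendsto_map'_iff] at this
    have e3 := ((e1.add e2).const_mul (1 / 4 : ℂ)).add_const ((1 / 2 : ℂ) * ξ y)
    rw [add_zero, mul_zero, zero_add] at e3
    have e4 : (((1 / 2 : ℝ) : ℂ) * ξ y) = (1 / 2 : ℂ) * ξ y := by push_cast; ring
    rw [e4]
    refine e3.congr (fun χ => ?_)
    change _ = ξ (bm χ.re (bm χ.re y))
    have e5 : bm χ.re (bm χ.re y) = (1 / 4 : ℂ) • (bm (χ.mul χ).b y + bm (χ.mul χ).conj.b y) + (1 / 2 : ℂ) • y := by
      ext x
      have h3 : χ.toFun x * star (χ.toFun x) = 1 := by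
        have := Complex.mul_conj (χ.toFun x)
        rw [Complex.normSq_eq_norm_sq, χ.norm_one] at this
        simpa using this
      change ((1 / 2 : ℂ) * (χ.toFun x + star (χ.toFun x))) * (((1 / 2 : ℂ) * (χ.toFun x + star (χ.toFun x))) * y x) =
        (1 / 4 : ℂ) * ((χ.toFun x * χ.toFun x) * y x + star (χ.toFun x * χ.toFun x) * y x) + (1 / 2 : ℂ) * y x
      rw [star_mul']
      linear_combination (1 / 2 : ℂ) * y x * h3
    rw [e5, map_add, map_smul, map_smul, map_add, smul_eq_mul, smul_eq_mul]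

theorem RLD_B {F : Filter (Chr G)} [hF : F.NeBot] (h1 : RL1 F) (h2 : RL1 (map Chr.conj F))
    (h3 : ∀ ξ ∈ L1c G, Tendsto (fun χ : Chr G => χ.b • ξ - χ.conj.b • ξ) F (𝓝 0)) :
    RLD 1 (map Chr.re F) := by
  have hre : ∀ ξ ∈ L1c G, ∀ η ∈ L1c G, Tendsto (fun χ : Chr G => (χ.re • ξ) * η) F (𝓝 0) := by
    intro ξ hξ η hη
    have e1 := h1.mul hξ hη
    have e2 : Tendsto (fun χ : Chr G => (χ.conj.b • ξ) * η) F (𝓝 0) := by
      have := h2.mul hξ hη
      rwa [tendsto_map'_iff] at this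
    have e3 := (e1.add e2).const_smul (1 / 2 : ℂ)
    rw [add_zero, smul_zero] at e3
    refine e3.congr (fun χ => ?_)
    rw [re_act, Meas.smul_mul, add_mul]
  refine ⟨map_neBot, by norm_num, by norm_num, ?_, ?_, ?_, ?_, ?_⟩
  · rw [eventually_map]
    refine Eventually.of_forall fun χ x => ⟨(χ.toFun x).re, χ.re_apply x, ?_⟩
    exact (Complex.abs_re_le_norm _).trans (χ.norm_one x).le
  · intro ξ hξ η hη
    rw [tendsto_map'_iff]
    exact hre ξ hξ η hη
  · intro ξ hξ η hη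
    rw [tendsto_map'_iff]
    have e1 : Tendsto (fun χ : Chr G => (χ.b • ξ) * (χ.b • η - χ.conj.b • η)) F (𝓝 0) := by
      have e := h3 η hη
      rw [tendsto_zero_iff_norm_tendsto_zero] at e ⊢
      have e' := e.const_mul ‖ξ‖
      rw [mul_zero] at e'
      refine squeeze_zero (fun χ => norm_nonneg _) (fun χ => ?_) e'
      exact (norm_mul_le _ _).trans (mul_le_mul_of_nonneg_right (χ.act_norm ξ) (norm_nonneg _))
    have e2 : Tendsto (fun χ : Chr G => (χ.conj.b • ξ) * (χ.b • η - χ.conj.b • η)) F (𝓝 0) := by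
      have e := h3 η hη
      rw [tendsto_zero_iff_norm_tendsto_zero] at e ⊢
      have e' := e.const_mul ‖ξ‖
      rw [mul_zero] at e'
      refine squeeze_zero (fun χ => norm_nonneg _) (fun χ => ?_) e'
      exact (norm_mul_le _ _).trans (mul_le_mul_of_nonneg_right (χ.conj.act_norm ξ) (norm_nonneg _))
    have e3 := (e2.sub e1).const_smul (1 / 4 : ℂ)
    rw [sub_zero, smul_zero] at e3
    refine e3.congr (fun χ => ?_)
    change _ = χ.re • ξ * χ.re • η - ((1 : ℝ) : ℂ) • (χ.re • (ξ * η))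
    rw [re_mul, re_act, Chr.act_mul, Chr.act_mul]
    push_cast
    rw [mul_sub, mul_sub]
    set A := χ.b • ξ * χ.b • η
    set B := χ.b • ξ * χ.conj.b • η
    set C := χ.conj.b • ξ * χ.b • η
    set D := χ.conj.b • ξ * χ.conj.b • η
    simp only [Algebra.smul_def]
    have k1 : (algebraMap ℂ (Meas G)) (1 / 2) * ((algebraMap ℂ (Meas G)) (1 / 2) * (A + D)) =
      algebraMap ℂ (Meas G) (1 / 4) * (A + D) := by
      rw [← mul_assoc, ← map_mul]; norm_num
    have k2 : (algebraMap ℂ (Meas G)) 1 * ((algebraMap ℂ (Meas G)) (1 / 2) * (A + D)) =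
      algebraMap ℂ (Meas G) (1 / 4) * (A + D) + algebraMap ℂ (Meas G) (1 / 4) * (A + D) := by
      rw [map_one, one_mul, ← add_mul, ← map_add]; norm_num
    rw [k1, k2]
    ring
  · intro ξ hξ y
    rw [tendsto_map'_iff]
    have e1 := h1 ξ hξ y
    have e2 : Tendsto (fun χ : Chr G => ξ (bm χ.conj.b y)) F (𝓝 0) := by
      have := h2 ξ hξ y
      rwa [tendsto_map'_iff] at this
    have e3 := (e1.add e2).const_mul (1 / 2 : ℂ)
    rw [add_zero, mul_zero] at e3
    refine e3.congr (fun χ => ?_)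
    change _ = ξ (bm χ.re y)
    rw [Chr.re, smul_bm, add_bm, map_smul, map_add, smul_eq_mul]
  · intro ξ hξ y
    rw [tendsto_map'_iff]
    have e1 : Tendsto (fun χ : Chr G => (χ.b • ξ - χ.conj.b • ξ) (bm (χ.b - χ.conj.b) y)) F (𝓝 0) := by
      have e := h3 ξ hξ
      rw [tendsto_zero_iff_norm_tendsto_zero] at e ⊢
      have e' := e.mul_const (2 * ‖y‖)
      rw [zero_mul] at e'
      refine squeeze_zero (fun χ => norm_nonneg _) (fun χ => ?_) e'
      apply Meas.le_of le_rfl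
      refine (bm_norm _ _).trans (mul_le_mul_of_nonneg_right ?_ (norm_nonneg _))
      refine (norm_sub_le _ _).trans ?_
      linarith [χ.b_norm, χ.conj.b_norm]
    have e3 := (e1.const_mul (1 / 4 : ℂ)).add_const (ξ y)
    rw [mul_zero, zero_add] at e3
    have e4 : (((1 : ℝ) : ℂ) * ξ y) = ξ y := by push_cast; ring
    rw [e4]
    refine e3.congr (fun χ => ?_)
    change _ = ξ (bm χ.re (bm χ.re y))
    have e5 : bm χ.re (bm χ.re y) = (1 / 4 : ℂ) • (bm (χ.b - χ.conj.b) (bm (χ.b - χ.conj.b) y)) + y := by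
      ext x
      have h3 : χ.toFun x * star (χ.toFun x) = 1 := by
        have := Complex.mul_conj (χ.toFun x)
        rw [Complex.normSq_eq_norm_sq, χ.norm_one] at this
        simpa using this
      change ((1 / 2 : ℂ) * (χ.toFun x + star (χ.toFun x))) * (((1 / 2 : ℂ) * (χ.toFun x + star (χ.toFun x))) * y x) =
        (1 / 4 : ℂ) * ((χ.toFun x - star (χ.toFun x)) * ((χ.toFun x - star (χ.toFun x)) * y x)) + y x
      linear_combination y x * h3
    have e6 : (χ.b • ξ - χ.conj.b • ξ) (bm (χ.b - χ.conj.b) y) = ξ (bm (χ.b - χ.conj.b) (bm (χ.b - χ.conj.b) y)) := by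
      rw [← sub_smul, act_apply]
    rw [e5, map_add, map_smul, smul_eq_mul, e6]

end a14

section a15

variable [MeasurableSpace G] [BorelSpace G]

theorem exists_RL [hnd : NeBot (𝓝[≠] (0 : G))] : ∃ F : Filter (Chr G), F.NeBot ∧ RL1 F ∧ RL1 (map Chr.conj F) := by
  have hch : ∀ x : G, ∃ χ : Chr G, x ≠ 0 → 1 ≤ ‖χ.toFun x - 1‖ := by
    intro x
    by_cases hx : x = 0
    · obtain ⟨χ, _⟩ : Nonempty (Chr G) := ⟨⟨fun _ => 1, continuous_const, fun _ _ => by simp, fun _ => by simp⟩⟩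
      exact ⟨⟨fun _ => 1, continuous_const, fun _ _ => by simp, fun _ => by simp⟩, fun h => absurd hx h⟩
    · obtain ⟨χ, hχ⟩ := exists_chr_far hx
      exact ⟨χ, fun _ => hχ⟩
  choose c hc using hch
  have key : ∀ ξ ∈ L1c G, ∀ y : C₀(G, ℂ), Tendsto (fun x : G => ‖dl x * ξ - ξ‖ * ‖y‖ + ‖ξ‖ * ‖tr (-x) y - y‖)
      (𝓝[≠] (0 : G)) (𝓝 0) := by
    intro ξ hξ y
    rw [Metric.tendsto_nhds]
    intro ε hε
    obtain ⟨V, hV, hV2⟩ := dl_near hξ (ε / (4 * (‖y‖ + 1))) (by positivity)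
    obtain ⟨W, hW, hW2⟩ := tr_near y (show 0 < ε / (4 * (‖ξ‖ + 1)) by positivity)
    have h1 : V ∩ -W ∈ 𝓝[≠] (0 : G) := mem_nhdsWithin_of_mem_nhds (inter_mem hV (neg_mem_nhds_zero G hW))
    filter_upwards [h1] with x hx
    rw [dist_zero_right, Real.norm_eq_abs, abs_of_nonneg (by positivity)]
    have h2 := hV2 x hx.1
    have h3 := hW2 (-x) 0 (by simpa using hx.2)
    rw [tr_zero] at h3
    have h4 : ‖dl x * ξ - ξ‖ * ‖y‖ ≤ ε / 4 := by
      calc _ ≤ ε / (4 * (‖y‖ + 1)) * ‖y‖ := mul_le_mul_of_nonneg_right h2 (norm_nonneg _)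
        _ ≤ ε / 4 := by
          rw [div_mul_eq_mul_div, div_le_div_iff₀ (by positivity) (by positivity)]
          nlinarith [norm_nonneg y]
    have h5 : ‖ξ‖ * ‖tr (-x) y - y‖ ≤ ε / 4 := by
      calc _ ≤ ‖ξ‖ * (ε / (4 * (‖ξ‖ + 1))) := mul_le_mul_of_nonneg_left h3 (norm_nonneg _)
        _ ≤ ε / 4 := by
          rw [mul_div_assoc', div_le_div_iff₀ (by positivity) (by positivity)]
          nlinarith [norm_nonneg ξ]
    linarith
  refine ⟨map c (𝓝[≠] (0 : G)), map_neBot, ?_, ?_⟩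
  · intro ξ hξ y
    rw [tendsto_map'_iff, tendsto_zero_iff_norm_tendsto_zero]
    refine squeeze_zero' (Eventually.of_forall fun x => norm_nonneg _) ?_ (key ξ hξ y)
    filter_upwards [self_mem_nhdsWithin] with x hx
    have h1 := chr_shift_le (c x) x ξ y
    have h2 := hc x hx
    change ‖ξ (bm (c x).b y)‖ ≤ _
    nlinarith [norm_nonneg (ξ (bm (c x).b y))]
  · intro ξ hξ y
    rw [Filter.map_map, tendsto_map'_iff, tendsto_zero_iff_norm_tendsto_zero]
    refine squeeze_zero' (Eventually.of_forall fun x => norm_nonneg _) ?_ (key ξ hξ y)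
    filter_upwards [self_mem_nhdsWithin] with x hx
    have h1 := chr_shift_le (c x).conj x ξ y
    have h2 := hc x hx
    have h3 : ‖(c x).conj.toFun x - 1‖ = ‖(c x).toFun x - 1‖ := by
      change ‖star ((c x).toFun x) - 1‖ = _
      rw [← star_one, ← star_sub, norm_star, star_one]
    rw [h3] at h1
    change ‖ξ (bm (c x).conj.b y)‖ ≤ _
    nlinarith [norm_nonneg (ξ (bm (c x).conj.b y))]

/-- failure of Riemann-Lebesgue gives equicontinuity -/
theorem equi_of_not_RL {U : Ultrafilter (Chr G)} {s : Chr G → Chr G} (h : ¬ RL1 (map s (U : Filter (Chr G)))) :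
    ∀ δ > 0, ∃ V ∈ 𝓝 (0 : G), ∀ᶠ χ in (U : Filter (Chr G)), ∀ x ∈ V, ‖(s χ).toFun x - 1‖ ≤ δ := by
  intro δ hδ
  rw [RL1] at h
  push Not at h
  obtain ⟨ξ, hξ, y, hy⟩ := h
  rw [tendsto_map'_iff, Metric.tendsto_nhds] at hy
  push Not at hy
  obtain ⟨ε, hε, hy2⟩ := hy
  have hy3 : ∀ᶠ χ in (U : Filter (Chr G)), ε ≤ ‖ξ (bm (s χ).b y)‖ := by
    filter_upwards [hy2] with χ hχ
    rw [dist_zero_right] at hχ
    exact hχ
  obtain ⟨V, hV, hV2⟩ := dl_near hξ (δ * ε / (4 * (‖y‖ + 1))) (by positivity)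
  obtain ⟨W, hW, hW2⟩ := tr_near y (show 0 < δ * ε / (4 * (‖ξ‖ + 1)) by positivity)
  refine ⟨V ∩ -W, inter_mem hV (neg_mem_nhds_zero G hW), ?_⟩
  filter_upwards [hy3] with χ hχ x hx
  have h1 := chr_shift_le (s χ) x ξ y
  have h2 := hV2 x hx.1
  have h3 := hW2 (-x) 0 (by simpa using hx.2)
  rw [tr_zero] at h3
  have h4 : ‖dl x * ξ - ξ‖ * ‖y‖ ≤ δ * ε / 4 := by
    calc _ ≤ δ * ε / (4 * (‖y‖ + 1)) * ‖y‖ := mul_le_mul_of_nonneg_right h2 (norm_nonneg _)
      _ ≤ δ * ε / 4 := by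
        rw [div_mul_eq_mul_div, div_le_div_iff₀ (by positivity) (by positivity)]
        have : 0 ≤ δ * ε := by positivity
        nlinarith [norm_nonneg y]
  have h5 : ‖ξ‖ * ‖tr (-x) y - y‖ ≤ δ * ε / 4 := by
    calc _ ≤ ‖ξ‖ * (δ * ε / (4 * (‖ξ‖ + 1))) := mul_le_mul_of_nonneg_left h3 (norm_nonneg _)
      _ ≤ δ * ε / 4 := by
        rw [mul_div_assoc', div_le_div_iff₀ (by positivity) (by positivity)]
        have : 0 ≤ δ * ε := by positivity
        nlinarith [norm_nonneg ξ]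
  have h6 : ‖(s χ).toFun x - 1‖ * ε ≤ δ * ε := by
    calc _ ≤ ‖(s χ).toFun x - 1‖ * ‖ξ (bm (s χ).b y)‖ := mul_le_mul_of_nonneg_left hχ (norm_nonneg _)
      _ ≤ _ := by
        have : 0 ≤ δ * ε := by positivity
        linarith
  exact le_of_mul_le_mul_right h6 hε

theorem exists_RLD [hnd : NeBot (𝓝[≠] (0 : G))] : ∃ (κ : ℝ) (F : Filter (G →ᵇ ℂ)), RLD κ F := by
  obtain ⟨F0, hF0, hR1, hR2⟩ := exists_RL (G := G)
  set U : Ultrafilter (Chr G) := Ultrafilter.of F0 with hU
  have hle : (U : Filter (Chr G)) ≤ F0 := Ultrafilter.of_le F0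
  have k1 : RL1 (U : Filter (Chr G)) := hR1.mono hle
  have k2 : RL1 (map Chr.conj (U : Filter (Chr G))) := hR2.mono (map_mono hle)
  by_cases hA : RL1 (map (fun χ : Chr G => χ.mul χ) (U : Filter (Chr G))) ∧
      RL1 (map (fun χ : Chr G => (χ.mul χ).conj) (U : Filter (Chr G)))
  · exact ⟨1 / 2, _, RLD_A k1 k2 hA.1 hA.2⟩
  -- equicontinuity of the squares
  have heq : ∀ δ > 0, ∃ V ∈ 𝓝 (0 : G), ∀ᶠ χ in (U : Filter (Chr G)), ∀ x ∈ V, ‖χ.toFun x * χ.toFun x - 1‖ ≤ δ := by
    intro δ hδ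
    by_cases h1 : RL1 (map (fun χ : Chr G => χ.mul χ) (U : Filter (Chr G)))
    · have h2 : ¬ RL1 (map (fun χ : Chr G => (χ.mul χ).conj) (U : Filter (Chr G))) := fun h => hA ⟨h1, h⟩
      obtain ⟨V, hV, hV2⟩ := equi_of_not_RL h2 δ hδ
      refine ⟨V, hV, ?_⟩
      filter_upwards [hV2] with χ hχ x hx
      have h3 := hχ x hx
      change ‖star (χ.toFun x * χ.toFun x) - 1‖ ≤ δ at h3
      rwa [← star_one, ← star_sub, norm_star] at h3
    · exact equi_of_not_RL h1 δ hδ
  -- uniform closeness on compacts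
  have huc : ∀ K : Set G, IsCompact K → ∀ δ > 0, ∀ᶠ ψ in (U : Filter (Chr G)), ∀ᶠ χ in (U : Filter (Chr G)),
      ∀ x ∈ K, ‖χ.toFun x * χ.toFun x - ψ.toFun x * ψ.toFun x‖ ≤ δ := by
    intro K hK δ hδ
    obtain ⟨V, hV, hV2⟩ := heq (δ / 3) (by linarith)
    obtain ⟨n, z, u, hu, hux, hs, _⟩ := exists_parts hK hV
    have hpt : ∀ i, ∀ᶠ ψ in (U : Filter (Chr G)), ∀ᶠ χ in (U : Filter (Chr G)),
        ‖χ.toFun (z i) * χ.toFun (z i) - ψ.toFun (z i) * ψ.toFun (z i)‖ ≤ δ / 3 := by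
      intro i
      have hc : IsCompact (Metric.closedBall (0 : ℂ) 1) := isCompact_closedBall 0 1
      have hmem : Metric.closedBall (0 : ℂ) 1 ∈ U.map (fun χ : Chr G => χ.toFun (z i) * χ.toFun (z i)) := by
        rw [Ultrafilter.mem_map]
        apply Filter.univ_mem'
        intro χ
        change χ.toFun (z i) * χ.toFun (z i) ∈ Metric.closedBall (0 : ℂ) 1
        rw [mem_closedBall_zero_iff, norm_mul, χ.norm_one]; norm_num
      obtain ⟨w, _, hw⟩ := hc.ultrafilter_le_nhds' _ hmem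
      have hw2 : Tendsto (fun χ : Chr G => χ.toFun (z i) * χ.toFun (z i)) (U : Filter (Chr G)) (𝓝 w) := hw
      have hw3 := (Metric.tendsto_nhds.1 hw2) (δ / 6) (by linarith)
      filter_upwards [hw3] with ψ hψ
      filter_upwards [hw3] with χ hχ
      rw [← dist_eq_norm]
      linarith [dist_triangle_right (χ.toFun (z i) * χ.toFun (z i)) (ψ.toFun (z i) * ψ.toFun (z i)) w]
    have hpt2 : ∀ᶠ ψ in (U : Filter (Chr G)), ∀ i, ∀ᶠ χ in (U : Filter (Chr G)),
        ‖χ.toFun (z i) * χ.toFun (z i) - ψ.toFun (z i) * ψ.toFun (z i)‖ ≤ δ / 3 := eventually_all.2 hpt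
    filter_upwards [hpt2, hV2] with ψ hψ hψV
    filter_upwards [eventually_all.2 hψ, hV2] with χ hχ hχV x hx
    have hsx := hs x hx
    have : ∃ i, u i x ≠ 0 := by
      by_contra hcon
      push Not at hcon
      rw [Finset.sum_eq_zero (fun i _ => hcon i)] at hsx
      exact zero_ne_one hsx
    obtain ⟨i, hi⟩ := this
    have hxV := hux i x hi
    have e1 := hχV _ hxV
    have e2 := hψV _ hxV
    have e3 := hχ i
    have f1 : ∀ χ : Chr G, χ.toFun x * χ.toFun x - χ.toFun (z i) * χ.toFun (z i) =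
        (χ.toFun (z i) * χ.toFun (z i)) * (χ.toFun (x - z i) * χ.toFun (x - z i) - 1) := by
      intro χ
      have : χ.toFun x = χ.toFun (z i) * χ.toFun (x - z i) := by rw [← χ.map_add]; congr 1; abel
      rw [this]; ring
    have f2 : ∀ χ : Chr G, ‖χ.toFun (x - z i) * χ.toFun (x - z i) - 1‖ ≤ δ / 3 →
        ‖χ.toFun x * χ.toFun x - χ.toFun (z i) * χ.toFun (z i)‖ ≤ δ / 3 := by
      intro χ h
      rw [f1, norm_mul, norm_mul, χ.norm_one]; linarith
    have e4 := f2 χ e1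
    have e5 := f2 ψ e2
    have e6 : χ.toFun x * χ.toFun x - ψ.toFun x * ψ.toFun x =
      (χ.toFun x * χ.toFun x - χ.toFun (z i) * χ.toFun (z i)) +
      (χ.toFun (z i) * χ.toFun (z i) - ψ.toFun (z i) * ψ.toFun (z i)) -
      (ψ.toFun x * ψ.toFun x - ψ.toFun (z i) * ψ.toFun (z i)) := by ring
    rw [e6]
    refine (norm_sub_le _ _).trans ?_
    linarith [norm_add_le (χ.toFun x * χ.toFun x - χ.toFun (z i) * χ.toFun (z i))
      (χ.toFun (z i) * χ.toFun (z i) - ψ.toFun (z i) * ψ.toFun (z i))]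
  set B : Filter (Chr G) := Filter.bind (U : Filter (Chr G)) (fun ψ => map (fun χ : Chr G => χ.mul ψ.conj) (U : Filter (Chr G))) with hB
  have hBev : ∀ p : Chr G → Prop, (∀ᶠ η in B, p η) ↔ ∀ᶠ ψ in (U : Filter (Chr G)), ∀ᶠ χ in (U : Filter (Chr G)), p (χ.mul ψ.conj) := by
    intro p
    rw [hB, eventually_bind]
    rfl
  have hBne : B.NeBot := by
    rw [neBot_iff]
    intro h
    have h1 : ∀ᶠ η in B, False := by rw [h]; exact eventually_bot
    rw [hBev] at h1
    have h2 := h1.exists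
    obtain ⟨ψ, hψ⟩ := h2
    obtain ⟨χ, hχ⟩ := hψ.exists
    exact hχ
  have b1 : RL1 B := by
    intro ξ hξ y
    rw [Metric.tendsto_nhds]
    intro ε hε
    rw [hBev]
    refine Eventually.of_forall fun ψ => ?_
    have h1 := k1 ξ hξ (bm ψ.conj.b y)
    have h2 := (Metric.tendsto_nhds.1 h1) ε hε
    filter_upwards [h2] with χ hχ
    have h3 : bm (χ.mul ψ.conj).b y = bm χ.b (bm ψ.conj.b y) := by
      ext x
      change (χ.toFun x * star (ψ.toFun x)) * y x = χ.toFun x * (star (ψ.toFun x) * y x)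
      ring
    rw [h3]; exact hχ
  have b2 : RL1 (map Chr.conj B) := by
    intro ξ hξ y
    rw [tendsto_map'_iff, Metric.tendsto_nhds]
    intro ε hε
    rw [hBev]
    refine Eventually.of_forall fun ψ => ?_
    have h1 := k2 ξ hξ (bm ψ.b y)
    rw [tendsto_map'_iff] at h1
    have h2 := (Metric.tendsto_nhds.1 h1) ε hε
    filter_upwards [h2] with χ hχ
    have h3 : bm (χ.mul ψ.conj).conj.b y = bm χ.conj.b (bm ψ.b y) := by
      ext x
      change star (χ.toFun x * star (ψ.toFun x)) * y x = star (χ.toFun x) * (ψ.toFun x * y x)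
      rw [star_mul', star_star]; ring
    change dist (ξ (bm (χ.mul ψ.conj).conj.b y)) 0 < ε
    rw [h3]; exact hχ
  have b3 : ∀ ξ ∈ L1c G, Tendsto (fun χ : Chr G => χ.b • ξ - χ.conj.b • ξ) B (𝓝 0) := by
    intro ξ hξ
    rw [Metric.tendsto_nhds]
    intro ε hε
    obtain ⟨K, u, hK, hu, hs, hn⟩ := exists_supp ξ (show 0 < ε / 8 by linarith)
    have h1 := huc K hK (ε / (4 * (‖ξ‖ + 1))) (by positivity)
    rw [hBev]
    filter_upwards [h1] with ψ hψ
    filter_upwards [hψ] with χ hχ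
    rw [dist_zero_right]
    set η := χ.mul ψ.conj with hη
    have h2 : η.b • ξ - η.conj.b • ξ = (η.b • (ξ - bc u • ξ) - η.conj.b • (ξ - bc u • ξ)) +
        (η.b - η.conj.b) • (bc u • ξ) := by
      rw [sub_smul, smul_sub, smul_sub]; abel
    have h3 : ‖(η.b - η.conj.b) • (bc u • ξ)‖ ≤ ε / (4 * (‖ξ‖ + 1)) * ‖bc u • ξ‖ := by
      apply hs.act_bound (by positivity)
      intro x hx
      have h4 := hχ x hx
      have h5 : (η.b - η.conj.b) x = star (χ.toFun x) * star (ψ.toFun x) * (χ.toFun x * χ.toFun x - ψ.toFun x * ψ.toFun x) := by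
        change χ.toFun x * star (ψ.toFun x) - star (χ.toFun x * star (ψ.toFun x)) = _
        rw [star_mul', star_star]
        have h3 : ∀ χ : Chr G, χ.toFun x * star (χ.toFun x) = 1 := by
          intro χ
          have := Complex.mul_conj (χ.toFun x)
          rw [Complex.normSq_eq_norm_sq, χ.norm_one] at this
          simpa using this
        have a1 := h3 χ
        have a2 := h3 ψ
        linear_combination (-(χ.toFun x * star (ψ.toFun x))) * a1 + (star (χ.toFun x) * ψ.toFun x) * a2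
      rw [h5, norm_mul, norm_mul, norm_star, norm_star, χ.norm_one, ψ.norm_one]
      linarith
    have h4 : ε / (4 * (‖ξ‖ + 1)) * ‖bc u • ξ‖ ≤ ε / 4 := by
      calc _ ≤ ε / (4 * (‖ξ‖ + 1)) * ‖ξ‖ := mul_le_mul_of_nonneg_left (hu.U01.act_le ξ) (by positivity)
        _ ≤ ε / 4 := by
          rw [div_mul_eq_mul_div, div_le_div_iff₀ (by positivity) (by positivity)]
          nlinarith [norm_nonneg ξ]
    rw [h2]
    have h5 := η.act_norm (ξ - bc u • ξ)
    have h6 := η.conj.act_norm (ξ - bc u • ξ)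
    have h7 := norm_sub_le (η.b • (ξ - bc u • ξ)) (η.conj.b • (ξ - bc u • ξ))
    have h8 := norm_add_le (η.b • (ξ - bc u • ξ) - η.conj.b • (ξ - bc u • ξ)) ((η.b - η.conj.b) • (bc u • ξ))
    linarith
  haveI := hBne
  exact ⟨1, _, RLD_B b1 b2 b3⟩

end a15


end
end Pool.Agent.Helper550.Rad
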