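import Mathlib
import Pool.Agent.Helper550.RadA
set_option autoImplicit false
set_option linter.unusedSectionVars false
set_option linter.style.haveILetI false
set_option linter.unusedVariables false
open scoped ZeroAtInfty BoundedContinuousFunction ComplexOrder Topology Pointwise
open MeasureTheory Filter Set

namespace Pool.Agent.Helper550.Rad
noncomputable section

universe u
variable {G : Type u} [AddCommGroup G] [TopologicalSpace G] [IsTopologicalAddGroup G]
  [T2Space G] [LocallyCompactSpace G]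

/-- positive measure -/
def Pos (μ : Meas G) : Prop := ∀ g : C₀(G, ℂ), (∀ x, 0 ≤ g x) → 0 ≤ μ g

theorem Pos.mono {μ : Meas G} (h : Pos μ) {f g : C₀(G, ℂ)} (hfg : ∀ x, f x ≤ g x) : μ f ≤ μ g := by
  rw [← sub_nonneg, ← map_sub]
  apply h
  intro x
  rw [ZeroAtInftyContinuousMap.sub_apply, sub_nonneg]
  exact hfg x

theorem Pos.act {μ : Meas G} (h : Pos μ) {b : G →ᵇ ℂ} (hb : ∀ x, 0 ≤ b x) : Pos (b • μ) := by
  intro g hg
  rw [act_apply]
  exact h _ fun x => mul_nonneg (hb x) (hg x)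

theorem Pos.mul {μ ν : Meas G} (h : Pos μ) (h' : Pos ν) : Pos (μ * ν) := by
  intro g hg
  rw [Meas.mul_apply]
  exact h _ fun x => h' _ fun y => hg _

theorem pos_one : Pos (1 : Meas G) := fun _ hg => hg 0

/-- real part of a function -/
def reP (g : C₀(G, ℂ)) : C₀(G, ℂ) where
  toFun x := ((g x).re : ℂ)
  continuous_toFun := Complex.continuous_ofReal.comp (Complex.continuous_re.comp g.continuous)
  zero_at_infty' := by
    have h := (Complex.continuous_ofReal.comp Complex.continuous_re).tendsto (0 : ℂ)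
    have h2 : Tendsto (fun x => ((g x).re : ℂ)) (cocompact G) (𝓝 (((0 : ℂ).re : ℝ) : ℂ)) := h.comp (zero_at_infty g)
    rwa [Complex.zero_re, Complex.ofReal_zero] at h2

/-- absolute value of a function -/
def abP (g : C₀(G, ℂ)) : C₀(G, ℂ) where
  toFun x := (‖g x‖ : ℂ)
  continuous_toFun := Complex.continuous_ofReal.comp g.continuous.norm
  zero_at_infty' := by
    have h := (Complex.continuous_ofReal.comp continuous_norm).tendsto (0 : ℂ)
    have h2 : Tendsto (fun x => (‖g x‖ : ℂ)) (cocompact G) (𝓝 ((‖(0 : ℂ)‖ : ℝ) : ℂ)) := h.comp (zero_at_infty g)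
    rwa [norm_zero, Complex.ofReal_zero] at h2

@[simp] theorem reP_apply (g : C₀(G, ℂ)) (x : G) : reP g x = ((g x).re : ℂ) := rfl
@[simp] theorem abP_apply (g : C₀(G, ℂ)) (x : G) : abP g x = (‖g x‖ : ℂ) := rfl

theorem Pos.real {μ : Meas G} (h : Pos μ) (g : C₀(G, ℂ)) : (μ (reP g)).im = 0 := by
  have h1 : 0 ≤ μ (abP (reP g)) := h _ fun x => by
    rw [abP_apply]; exact_mod_cast norm_nonneg _
  have h2 : 0 ≤ μ (abP (reP g) + reP g) := h _ fun x => by
    rw [ZeroAtInftyContinuousMap.add_apply, abP_apply, reP_apply, Complex.norm_real, Real.norm_eq_abs]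
    have := neg_abs_le (g x).re
    exact_mod_cast (by linarith : 0 ≤ |(g x).re| + (g x).re)
  rw [map_add] at h2
  have h3 := (Complex.nonneg_iff.1 h1).2
  have h4 := (Complex.nonneg_iff.1 h2).2
  rw [Complex.add_im] at h4
  linarith

theorem Pos.re_apply {μ : Meas G} (h : Pos μ) (g : C₀(G, ℂ)) : (μ g).re = (μ (reP g)).re := by
  have h1 : g = reP g + Complex.I • reP ((-Complex.I) • g) := by
    ext x
    rw [ZeroAtInftyContinuousMap.add_apply, ZeroAtInftyContinuousMap.smul_apply, reP_apply, reP_apply,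
      ZeroAtInftyContinuousMap.smul_apply]
    apply Complex.ext <;> simp
  have h2 : μ g = μ (reP g) + Complex.I * μ (reP ((-Complex.I) • g)) := by
    conv_lhs => rw [h1]
    rw [map_add, map_smul, smul_eq_mul]
  rw [h2, Complex.add_re, Complex.I_mul_re, h.real]
  simp

theorem Pos.bound {μ : Meas G} (h : Pos μ) {g k : C₀(G, ℂ)} (hgk : ∀ x, (‖g x‖ : ℂ) ≤ k x) :
    ‖μ g‖ ≤ (μ k).re := by
  have h0 : 0 ≤ μ k := h _ fun x => le_trans (by exact_mod_cast norm_nonneg _) (hgk x)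
  by_cases hz : μ g = 0
  · rw [hz, norm_zero]; exact (Complex.nonneg_iff.1 h0).1
  set c : ℂ := (‖μ g‖ : ℂ) / μ g with hc
  have hcn : ‖c‖ = 1 := by
    rw [hc, norm_div, Complex.norm_real, norm_norm, div_self (norm_ne_zero_iff.2 hz)]
  have h1 : μ (c • g) = (‖μ g‖ : ℂ) := by rw [map_smul, smul_eq_mul, hc, div_mul_cancel₀ _ hz]
  have h2 : ‖μ g‖ = (μ (c • g)).re := by rw [h1, Complex.ofReal_re]
  rw [h2, h.re_apply]
  have h3 : μ (reP (c • g)) ≤ μ k := h.mono fun x => by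
    refine le_trans ?_ (hgk x)
    rw [reP_apply, ZeroAtInftyContinuousMap.smul_apply]
    have h4 := (Complex.re_le_norm (c • g x))
    rw [norm_smul, hcn, one_mul] at h4
    exact_mod_cast h4
  exact (Complex.le_def.1 h3).1

theorem Pos.re_mono {μ : Meas G} (h : Pos μ) {f g : C₀(G, ℂ)} (hfg : ∀ x, f x ≤ g x) : (μ f).re ≤ (μ g).re :=
  (Complex.le_def.1 (h.mono hfg)).1

theorem Pos.re_nonneg {μ : Meas G} (h : Pos μ) {g : C₀(G, ℂ)} (hg : ∀ x, 0 ≤ g x) : 0 ≤ (μ g).re :=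
  (Complex.nonneg_iff.1 (h g hg)).1

theorem Cut.norm_le {u : C₀(G, ℂ)} (hu : Cut u) : ‖u‖ ≤ 1 :=
  (c0_norm_le zero_le_one).2 fun x => norm_01 (hu.nn x) (hu.le x)

theorem Cut.norm_eq {u : C₀(G, ℂ)} (hu : Cut u) (x : G) : (‖u x‖ : ℂ) = u x := by
  have h5 := Complex.nonneg_iff.1 (hu.nn x)
  have h6 : u x = ((u x).re : ℂ) := Complex.ext (by simp) (by simp [h5.2.symm])
  rw [h6, Complex.norm_real, Real.norm_eq_abs, abs_of_nonneg h5.1]

theorem nonneg_norm_eq {z : ℂ} (hz : 0 ≤ z) : (‖z‖ : ℂ) = z := by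
  have h5 := Complex.nonneg_iff.1 hz
  have h6 : z = (z.re : ℂ) := Complex.ext (by simp) (by simp [h5.2.symm])
  rw [h6, Complex.norm_real, Real.norm_eq_abs, abs_of_nonneg h5.1]

theorem Pos.norm_eq {μ : Meas G} (h : Pos μ) {u : C₀(G, ℂ)} (hu : Cut u) (hin : bc u • μ = μ) :
    μ u = (‖μ‖ : ℂ) := by
  have h0 : 0 ≤ μ u := h _ hu.nn
  have h1 : ‖μ‖ ≤ (μ u).re := by
    apply Meas.norm_le_one (Complex.nonneg_iff.1 h0).1
    intro g hg
    rw [← hin, act_apply, act_apply]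
    rw [← act_apply, hin, ← act_apply, hin]
    have h2 : μ g = μ (bm (bc u) g) := by rw [← act_apply, hin]
    rw [h2]
    apply h.bound
    intro x
    rw [bm_apply, bc_apply, norm_mul]
    have h3 := (c0_apply_le g x).trans hg
    have h4 : ‖u x‖ * ‖g x‖ ≤ ‖u x‖ := by nlinarith [norm_nonneg (u x), norm_nonneg (g x)]
    calc ((‖u x‖ * ‖g x‖ : ℝ) : ℂ) ≤ (‖u x‖ : ℂ) := by exact_mod_cast h4
      _ = u x := hu.norm_eq x
  have h2 : (μ u).re ≤ ‖μ‖ := by
    refine (Complex.re_le_norm _).trans ?_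
    have := μ.le_of le_rfl hu.norm_le
    linarith
  have h3 : (μ u).re = ‖μ‖ := le_antisymm h2 h1
  apply Complex.ext
  · rw [h3, Complex.ofReal_re]
  · rw [Complex.ofReal_im]; exact (Complex.nonneg_iff.1 h0).2.symm

theorem In_mul {u v w : C₀(G, ℂ)} {μ ν : Meas G} (hμ : bc u • μ = μ) (hν : bc v • ν = ν)
    (hw : ∀ x ∈ tsupport u, ∀ y ∈ tsupport v, w (x + y) = 1) : bc w • (μ * ν) = μ * ν := by
  ext g
  rw [act_apply, Meas.mul_apply, Meas.mul_apply, ← hμ, act_apply, act_apply]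
  congr 1
  ext x
  rw [bm_apply, bm_apply, bc_apply]
  by_cases hx : u x = 0
  · rw [hx, zero_mul, zero_mul]
  · congr 1
    rw [cv_apply, cv_apply, ← hν, act_apply, act_apply]
    congr 1
    ext y
    rw [bm_apply, bm_apply, bc_apply]
    by_cases hy : v y = 0
    · rw [hy, zero_mul, zero_mul]
    · rw [tr_apply, tr_apply, bm_apply, bc_apply, hw x (subset_tsupport _ hx) y (subset_tsupport _ hy), one_mul]

theorem mass_mul {u v w : C₀(G, ℂ)} {μ ν : Meas G} (hμ : bc u • μ = μ) (hν : bc v • ν = ν)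
    (hw : ∀ x ∈ tsupport u, ∀ y ∈ tsupport v, w (x + y) = 1) : (μ * ν) w = μ u * ν v := by
  have h1 : (μ * ν) w = μ (bm (bc u) (cv ν w)) := by
    rw [Meas.mul_apply]
    conv_lhs => rw [← hμ]
    rw [act_apply]
  have h2 : bm (bc u) (cv ν w) = ν v • u := by
    ext x
    rw [bm_apply, bc_apply, cv_apply, ZeroAtInftyContinuousMap.smul_apply, smul_eq_mul]
    by_cases hx : u x = 0
    · rw [hx, zero_mul, mul_zero]
    · have h3 : ν (tr x w) = ν v := by
        have h4 : ν (tr x w) = ν (bm (bc v) (tr x w)) := by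
          conv_lhs => rw [← hν]
          rw [act_apply]
        rw [h4]
        congr 1
        ext y
        rw [bm_apply, bc_apply, tr_apply]
        by_cases hy : v y = 0
        · rw [hy, zero_mul]
        · rw [hw x (subset_tsupport _ hx) y (subset_tsupport _ hy), mul_one]
      rw [h3, mul_comm]
  rw [h1, h2, map_smul, smul_eq_mul, mul_comm]

/-- product of a list of multiples -/
def prodl (l : List (G →ᵇ ℂ)) (f : Meas G) : Meas G := (l.map (fun b => b • f)).prod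

@[simp] theorem prodl_nil (f : Meas G) : prodl [] f = 1 := rfl
theorem prodl_cons (b : G →ᵇ ℂ) (l : List (G →ᵇ ℂ)) (f : Meas G) : prodl (b :: l) f = (b • f) * prodl l f := by
  simp [prodl]

theorem exists_w {u : C₀(G, ℂ)} (hu : Cut u) : ∃ w : ℕ → C₀(G, ℂ), (∀ n, Cut (w n)) ∧ w 0 0 = 1 ∧
    ∀ n, ∀ x ∈ tsupport u, ∀ y ∈ tsupport (w n), w (n + 1) (x + y) = 1 := by
  have h0 : ∃ w : C₀(G, ℂ), Cut w ∧ w 0 = 1 := by
    obtain ⟨w, h1, h2⟩ := exists_cut' (G := G) (isCompact_singleton (x := (0 : G)))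
    exact ⟨w, h1, h2 0 rfl⟩
  have hs : ∀ v : {w : C₀(G, ℂ) // Cut w}, ∃ w : {w : C₀(G, ℂ) // Cut w}, ∀ x ∈ tsupport u, ∀ y ∈ tsupport (v : C₀(G, ℂ)),
      (w : C₀(G, ℂ)) (x + y) = 1 := by
    intro v
    obtain ⟨w, h1, h2⟩ := exists_cut' (IsCompact.add (show IsCompact (tsupport u) from hu.cs)
      (show IsCompact (tsupport (v : C₀(G, ℂ))) from v.2.cs))
    exact ⟨⟨w, h1⟩, fun x hx y hy => h2 _ (Set.add_mem_add hx hy)⟩
  obtain ⟨w0, hw0, hw00⟩ := h0
  choose s hs2 using hs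
  refine ⟨fun n => ((s^[n] ⟨w0, hw0⟩ : {w : C₀(G, ℂ) // Cut w}) : C₀(G, ℂ)), fun n => (s^[n] ⟨w0, hw0⟩).2, hw00, ?_⟩
  intro n x hx y hy
  change ((s^[n + 1] ⟨w0, hw0⟩ : {w : C₀(G, ℂ) // Cut w}) : C₀(G, ℂ)) (x + y) = 1
  rw [Function.iterate_succ_apply']
  exact hs2 _ x hx y hy

theorem act_comm (a b : G →ᵇ ℂ) (μ : Meas G) : a • (b • μ) = b • (a • μ) := by
  rw [← mul_smul, mul_comm, mul_smul]

theorem prodl_in {u : C₀(G, ℂ)} {w : ℕ → C₀(G, ℂ)} (hw0 : w 0 0 = 1)
    (hw : ∀ n, ∀ x ∈ tsupport u, ∀ y ∈ tsupport (w n), w (n + 1) (x + y) = 1) {f : Meas G} (hf : bc u • f = f)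
    (l : List (G →ᵇ ℂ)) : bc (w l.length) • prodl l f = prodl l f := by
  induction l with
  | nil =>
    rw [prodl_nil]
    ext g
    rw [act_apply, Meas.one_apply, Meas.one_apply, bm_apply, List.length_nil, bc_apply, hw0, one_mul]
  | cons b l ih =>
    rw [prodl_cons, List.length_cons]
    apply In_mul (u := u) (v := w l.length) _ ih (hw l.length)
    rw [act_comm, hf]

theorem prodl_mass {u : C₀(G, ℂ)} {w : ℕ → C₀(G, ℂ)} (hw0 : w 0 0 = 1)
    (hw : ∀ n, ∀ x ∈ tsupport u, ∀ y ∈ tsupport (w n), w (n + 1) (x + y) = 1) {f : Meas G} (hf : bc u • f = f)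
    (l : List (G →ᵇ ℂ)) : prodl l f (w l.length) = (l.map (fun b => (b • f) u)).prod := by
  induction l with
  | nil => rw [prodl_nil, Meas.one_apply, List.length_nil, hw0]; rfl
  | cons b l ih =>
    rw [prodl_cons, List.length_cons, List.map_cons, List.prod_cons, ← ih]
    apply mass_mul _ (prodl_in hw0 hw hf l) (hw l.length)
    rw [act_comm, hf]

theorem prodl_pos {f : Meas G} (hf : Pos f) {l : List (G →ᵇ ℂ)} (hl : ∀ b ∈ l, U01 b) : Pos (prodl l f) := by
  induction l with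
  | nil => exact pos_one
  | cons b l ih =>
    rw [prodl_cons]
    exact (hf.act fun x => (hl b (by simp) x).1).mul (ih fun b hb => hl b (by simp [hb]))

theorem prodl_norm {f : Meas G} {l : List (G →ᵇ ℂ)} (hl : ∀ b ∈ l, U01 b) : ‖prodl l f‖ ≤ ‖f‖ ^ l.length := by
  induction l with
  | nil => rw [prodl_nil, List.length_nil, pow_zero, norm_one]
  | cons b l ih =>
    rw [prodl_cons, List.length_cons, pow_succ, mul_comm (‖f‖ ^ l.length)]
    refine (norm_mul_le _ _).trans ?_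
    exact mul_le_mul ((hl b (by simp)).act_le f) (ih fun b hb => hl b (by simp [hb])) (norm_nonneg _) (norm_nonneg _)

theorem prodl_replicate (n : ℕ) (b : G →ᵇ ℂ) (f : Meas G) : prodl (List.replicate n b) f = (b • f) ^ n := by
  simp [prodl]

/-- weak limits of products -/
theorem weak_mul {ι : Type*} {F : Filter ι} {μ ν : ι → Meas G} {μ' ν' : Meas G} {C D : ℝ} {K : Set G} (hK : IsCompact K)
    (hμK : ∀ n, Supp K (μ n)) (hC : ∀ n, ‖μ n‖ ≤ C) (hD : ∀ n, ‖ν n‖ ≤ D)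
    (hμ : ∀ g, Tendsto (fun n => μ n g) F (𝓝 (μ' g))) (hν : ∀ g, Tendsto (fun n => ν n g) F (𝓝 (ν' g))) (g : C₀(G, ℂ)) :
    Tendsto (fun n => (μ n * ν n) g) F (𝓝 ((μ' * ν') g)) := by
  rcases isEmpty_or_nonempty ι with hι | ⟨⟨n0⟩⟩
  · have : F = ⊥ := Filter.filter_eq_bot_of_isEmpty F
    rw [this]; exact tendsto_bot
  have hC0 : 0 ≤ C := (norm_nonneg _).trans (hC n0)
  have hD0 : 0 ≤ D := (norm_nonneg _).trans (hD n0)
  rw [Metric.tendsto_nhds]
  intro ε hε
  obtain ⟨V, hV, hV2⟩ := tr_near g (show 0 < ε / (8 * ((C + 1) * (D + ‖ν'‖ + 1))) by positivity)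
  obtain ⟨n, z, u, hu, hux, hs, _⟩ := exists_parts hK hV
  have h1 : ∀ i, ∀ᶠ n in F, ‖ν n (tr (z i) g) - ν' (tr (z i) g)‖ < ε / (8 * (C + 1)) := by
    intro i
    have := (Metric.tendsto_nhds.1 (hν (tr (z i) g))) (ε / (8 * (C + 1))) (by positivity)
    simpa [dist_eq_norm] using this
  have h2 := (Metric.tendsto_nhds.1 (hμ (cv ν' g))) (ε / 4) (by linarith)
  filter_upwards [eventually_all.2 h1, h2] with n hn hn2
  rw [dist_eq_norm] at hn2 ⊢
  rw [Meas.mul_apply, Meas.mul_apply]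
  have h3 : μ n (cv (ν n) g) - μ' (cv ν' g) = μ n (cv (ν n) g - cv ν' g) + (μ n (cv ν' g) - μ' (cv ν' g)) := by
    rw [map_sub]; ring
  rw [h3]
  have h4 : ‖μ n (cv (ν n) g - cv ν' g)‖ ≤ ‖μ n‖ * (ε / (8 * (C + 1)) + (D + ‖ν'‖) * (ε / (8 * ((C + 1) * (D + ‖ν'‖ + 1))))) := by
    apply (hμK n).bound (by positivity)
    intro x hx
    have hsx := hs x hx
    have : ∃ i, u i x ≠ 0 := by
      by_contra hcon
      push Not at hcon
      rw [Finset.sum_eq_zero (fun i _ => hcon i)] at hsx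
      exact zero_ne_one hsx
    obtain ⟨i, hi⟩ := this
    have h5 := hV2 x (z i) (hux i x hi)
    have h6 : (cv (ν n) g - cv ν' g) x = (ν n (tr (z i) g) - ν' (tr (z i) g)) + (ν n - ν') (tr x g - tr (z i) g) := by
      rw [ZeroAtInftyContinuousMap.sub_apply, cv_apply, cv_apply, Meas.sub_apply, map_sub, map_sub]; ring
    rw [h6]
    refine (norm_add_le _ _).trans (add_le_add (hn i).le ?_)
    exact Meas.le_of ((norm_sub_le _ _).trans (by linarith [hD n])) h5
  have h5 : ‖μ n‖ * (ε / (8 * (C + 1)) + (D + ‖ν'‖) * (ε / (8 * ((C + 1) * (D + ‖ν'‖ + 1))))) ≤ ε / 4 := by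
    have h6 : (D + ‖ν'‖) * (ε / (8 * ((C + 1) * (D + ‖ν'‖ + 1)))) ≤ ε / (8 * (C + 1)) := by
      rw [mul_div_assoc', div_le_div_iff₀ (by positivity) (by positivity)]
      have : 0 ≤ ε * (C + 1) := by positivity
      nlinarith [norm_nonneg ν']
    have h7 : ‖μ n‖ * (ε / (8 * (C + 1)) + (D + ‖ν'‖) * (ε / (8 * ((C + 1) * (D + ‖ν'‖ + 1))))) ≤
        C * (ε / (8 * (C + 1)) + ε / (8 * (C + 1))) := by
      apply mul_le_mul (hC n) (by linarith) (by positivity) hC0
    refine h7.trans ?_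
    rw [← add_div, mul_div_assoc', div_le_div_iff₀ (by positivity) (by positivity)]
    nlinarith
  have h6 := norm_add_le (μ n (cv (ν n) g - cv ν' g)) (μ n (cv ν' g) - μ' (cv ν' g))
  linarith

theorem weak_prodl {ι : Type*} {F : Filter ι} {f : ι → Meas G} {f' : Meas G} {C : ℝ} {K : Set G} (hK : IsCompact K)
    (hfK : ∀ n, Supp K (f n)) (hC : ∀ n, ‖f n‖ ≤ C)
    (hf : ∀ g, Tendsto (fun n => f n g) F (𝓝 (f' g))) {l : List (G →ᵇ ℂ)} (hl : ∀ b ∈ l, U01 b) :
    ∀ g, Tendsto (fun n => prodl l (f n) g) F (𝓝 (prodl l f' g)) := by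
  induction l with
  | nil => intro g; exact tendsto_const_nhds
  | cons b l ih =>
    intro g
    have ih' := ih fun b hb => hl b (by simp [hb])
    simp only [prodl_cons]
    refine weak_mul hK (C := C) (D := C ^ l.length) (fun n => (hfK n).act b)
      (fun n => ((hl b (by simp)).act_le _).trans (hC n)) (fun n => ?_) (fun g => ?_) ih' g
    · exact (prodl_norm fun b hb => hl b (by simp [hb])).trans (pow_le_pow_left₀ (norm_nonneg _) (hC n) _)
    · exact hf (bm b g)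

section a17

variable [MeasurableSpace G] [BorelSpace G]

/-- one Riesz product factor -/
def hmul (θ : ℝ) (φ c : G →ᵇ ℂ) : G →ᵇ ℂ := 1 + (θ : ℂ) • (c * φ)

theorem act_hmul (θ : ℝ) (φ c b : G →ᵇ ℂ) (f : Meas G) :
    b • (hmul θ φ c • f) = b • f + (θ : ℂ) • (c • ((b * φ) • f)) := by
  have h : b * hmul θ φ c = b + (θ : ℂ) • (c * (b * φ)) := by
    ext x
    simp [hmul]
    ring
  rw [← mul_smul, h, add_smul, csmul_act, mul_smul c]

theorem prodl_mem {f : Meas G} (hf : f ∈ L1c G) {l : List (G →ᵇ ℂ)} (hl : l ≠ []) : prodl l f ∈ L1c G := by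
  cases l with
  | nil => exact absurd rfl hl
  | cons b l =>
    rw [prodl_cons]
    exact mul_mem' (act_mem hf b) _

theorem norm_act_real {c : G →ᵇ ℂ} (hc : ∀ x, ∃ r : ℝ, c x = (r : ℂ) ∧ |r| ≤ 1) : ‖c‖ ≤ 1 := by
  rw [BoundedContinuousFunction.norm_le zero_le_one]
  intro x
  obtain ⟨r, hr, hr2⟩ := hc x
  rw [hr, Complex.norm_real]; exact hr2

theorem prod_asym {κ : ℝ} {F : Filter (G →ᵇ ℂ)} (hR : RLD κ F) {f : Meas G} (hf : f ∈ L1c G) (θ : ℝ) (φ : G →ᵇ ℂ)
    {l : List (G →ᵇ ℂ)} (hl : l ≠ []) :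
    Tendsto (fun c : G →ᵇ ℂ => prodl l (hmul θ φ c • f) - prodl l f -
      ((κ ^ (l.length - 1) * θ ^ l.length : ℝ) : ℂ) • (c • prodl (l.map (fun b => b * φ)) f)) F (𝓝 0) := by
  induction l with
  | nil => exact absurd rfl hl
  | cons b l ih =>
    rcases eq_or_ne l [] with rfl | hl'
    · have : (fun c : G →ᵇ ℂ => prodl [b] (hmul θ φ c • f) - prodl [b] f -
        ((κ ^ (([b] : List (G →ᵇ ℂ)).length - 1) * θ ^ ([b] : List (G →ᵇ ℂ)).length : ℝ) : ℂ) •
          (c • prodl (([b] : List (G →ᵇ ℂ)).map (fun b => b * φ)) f)) = fun _ => 0 := by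
        ext1 c
        simp only [prodl_cons, prodl_nil, mul_one, List.map_cons, List.map_nil, List.length_cons, List.length_nil]
        rw [act_hmul]
        simp
      rw [this]; exact tendsto_const_nhds
    · have ih' := ih hl'
      set P := prodl l f with hP
      set Q := prodl (l.map (fun b => b * φ)) f with hQ
      have hPm : P ∈ L1c G := prodl_mem hf hl'
      have hQm : Q ∈ L1c G := prodl_mem hf (by simpa using hl')
      set j := l.length with hj
      have hj0 : 1 ≤ j := List.length_pos_iff.2 hl'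
      set E : (G →ᵇ ℂ) → Meas G := fun c => prodl l (hmul θ φ c • f) - P - ((κ ^ (j - 1) * θ ^ j : ℝ) : ℂ) • (c • Q) with hE
      have t1 : Tendsto (fun c : G →ᵇ ℂ => ((κ ^ (j - 1) * θ ^ j : ℝ) : ℂ) • ((c • Q) * (b • f))) F (𝓝 0) := by
        have := (hR.a Q hQm (b • f) (act_mem hf b)).const_smul ((κ ^ (j - 1) * θ ^ j : ℝ) : ℂ)
        rwa [smul_zero] at this
      have t2 : Tendsto (fun c : G →ᵇ ℂ => (b • f) * E c) F (𝓝 0) := by
        have := (tendsto_const_nhds (x := b • f)).mul ih'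
        rwa [mul_zero] at this
      have t3 : Tendsto (fun c : G →ᵇ ℂ => (θ : ℂ) • ((c • ((b * φ) • f)) * P)) F (𝓝 0) := by
        have := (hR.a _ (act_mem hf (b * φ)) P hPm).const_smul (θ : ℂ)
        rwa [smul_zero] at this
      have t4 : Tendsto (fun c : G →ᵇ ℂ => ((κ ^ (j - 1) * θ ^ (j + 1) : ℝ) : ℂ) •
          ((c • ((b * φ) • f)) * (c • Q) - (κ : ℂ) • (c • (((b * φ) • f) * Q)))) F (𝓝 0) := by
        have := (hR.b _ (act_mem hf (b * φ)) Q hQm).const_smul ((κ ^ (j - 1) * θ ^ (j + 1) : ℝ) : ℂ)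
        rwa [smul_zero] at this
      have t5 : Tendsto (fun c : G →ᵇ ℂ => (θ : ℂ) • ((c • ((b * φ) • f)) * E c)) F (𝓝 0) := by
        have h1 : Tendsto (fun c : G →ᵇ ℂ => (c • ((b * φ) • f)) * E c) F (𝓝 0) := by
          rw [tendsto_zero_iff_norm_tendsto_zero] at ih' ⊢
          have h2 := ih'.const_mul ‖(b * φ) • f‖
          rw [mul_zero] at h2
          refine squeeze_zero' (Eventually.of_forall fun c => norm_nonneg _) ?_ h2
          filter_upwards [hR.real] with c hc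
          refine (norm_mul_le _ _).trans (mul_le_mul_of_nonneg_right ?_ (norm_nonneg _))
          have := act_norm_le (norm_act_real hc) ((b * φ) • f)
          linarith
        have := h1.const_smul (θ : ℂ)
        rwa [smul_zero] at this
      have t := (((t1.add t2).add t3).add t4).add t5
      simp only [add_zero] at t
      refine t.congr fun c => ?_
      have hEc : prodl l (hmul θ φ c • f) = P + ((κ ^ (j - 1) * θ ^ j : ℝ) : ℂ) • (c • Q) + E c := by
        have h0 : E c = prodl l (hmul θ φ c • f) - (P + ((κ ^ (j - 1) * θ ^ j : ℝ) : ℂ) • (c • Q)) := by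
          rw [← sub_sub]
        rw [h0, add_sub_cancel]
      rw [prodl_cons, prodl_cons, List.map_cons, prodl_cons, ← hP, ← hQ, hEc, act_hmul, List.length_cons, ← hj,
        Nat.add_sub_cancel]
      have hpow : ((κ ^ j * θ ^ (j + 1) : ℝ) : ℂ) = ((κ ^ (j - 1) * θ ^ (j + 1) : ℝ) : ℂ) * (κ : ℂ) := by
        have : κ ^ j = κ ^ (j - 1) * κ := by rw [← pow_succ, Nat.sub_add_cancel hj0]
        rw [this]; push_cast; ring
      have hpow2 : ((κ ^ (j - 1) * θ ^ (j + 1) : ℝ) : ℂ) = (θ : ℂ) * ((κ ^ (j - 1) * θ ^ j : ℝ) : ℂ) := by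
        push_cast; ring
      rw [hpow, hpow2]
      simp only [Algebra.smul_def, map_mul]
      ring

theorem hmul_real {θ : ℝ} {φ c : G →ᵇ ℂ} (hθ : 0 ≤ θ) (hθ1 : θ ≤ 1) (hφ : U01 φ)
    (hc : ∀ x, ∃ r : ℝ, c x = (r : ℂ) ∧ |r| ≤ 1) (x : G) : 0 ≤ hmul θ φ c x := by
  obtain ⟨r, hr, hr2⟩ := hc x
  have h1 := hφ x
  have h2 := nonneg_norm_eq h1.1
  have h3 := norm_01 h1.1 h1.2
  have h4 : hmul θ φ c x = ((1 + θ * (r * ‖φ x‖) : ℝ) : ℂ) := by
    change 1 + (θ : ℂ) * (c x * φ x) = _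
    rw [hr]
    conv_lhs => rw [← h2]
    push_cast; ring
  rw [h4]
  have h5 : 0 ≤ 1 + θ * (r * ‖φ x‖) := by
    have h6 := abs_le.1 hr2
    have h7 : |r * ‖φ x‖| ≤ 1 := by
      rw [abs_mul, abs_of_nonneg (norm_nonneg _)]
      nlinarith [abs_nonneg r, norm_nonneg (φ x)]
    have h8 := (abs_le.1 h7).1
    nlinarith
  exact_mod_cast h5

end a17

section a18

variable [MeasurableSpace G] [BorelSpace G]

/-- constant function -/
def ct (r : ℝ) : G →ᵇ ℂ := (r : ℂ) • (1 : G →ᵇ ℂ)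

@[simp] theorem ct_apply (r : ℝ) (x : G) : (ct r : G →ᵇ ℂ) x = (r : ℂ) := by
  change (r : ℂ) * 1 = _; ring

/-- real valued with bound -/
def Rv (c : G →ᵇ ℂ) (C : ℝ) : Prop := ∀ x, ∃ r : ℝ, c x = (r : ℂ) ∧ |r| ≤ C

theorem Rv.add {c d : G →ᵇ ℂ} {C D : ℝ} (h : Rv c C) (h' : Rv d D) : Rv (c + d) (C + D) := fun x => by
  obtain ⟨r, hr, hr2⟩ := h x
  obtain ⟨s, hs, hs2⟩ := h' x
  refine ⟨r + s, ?_, (abs_add_le _ _).trans (add_le_add hr2 hs2)⟩
  change c x + d x = _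
  rw [hr, hs]; push_cast; ring

theorem Rv.sub {c d : G →ᵇ ℂ} {C D : ℝ} (h : Rv c C) (h' : Rv d D) : Rv (c - d) (C + D) := fun x => by
  obtain ⟨r, hr, hr2⟩ := h x
  obtain ⟨s, hs, hs2⟩ := h' x
  refine ⟨r - s, ?_, (abs_sub _ _).trans (add_le_add hr2 hs2)⟩
  change c x - d x = _
  rw [hr, hs]; push_cast; ring

theorem Rv.mul {c d : G →ᵇ ℂ} {C D : ℝ} (h : Rv c C) (h' : Rv d D) : Rv (c * d) (C * D) := fun x => by
  obtain ⟨r, hr, hr2⟩ := h x
  obtain ⟨s, hs, hs2⟩ := h' x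
  refine ⟨r * s, ?_, ?_⟩
  · change c x * d x = _
    rw [hr, hs]; push_cast; ring
  · rw [abs_mul]
    exact mul_le_mul hr2 hs2 (abs_nonneg _) ((abs_nonneg _).trans hr2)

theorem rv_ct (r : ℝ) : Rv (ct r : G →ᵇ ℂ) |r| := fun x => ⟨r, ct_apply r x, le_rfl⟩

theorem Rv.mono {c : G →ᵇ ℂ} {C D : ℝ} (h : Rv c C) (hCD : C ≤ D) : Rv c D := fun x => by
  obtain ⟨r, hr, hr2⟩ := h x
  exact ⟨r, hr, hr2.trans hCD⟩

theorem Rv.norm {c : G →ᵇ ℂ} {C : ℝ} (hC : 0 ≤ C) (h : Rv c C) : ‖c‖ ≤ C := by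
  rw [BoundedContinuousFunction.norm_le hC]
  intro x
  obtain ⟨r, hr, hr2⟩ := h x
  rw [hr, Complex.norm_real]; exact hr2

theorem step_weak {κ : ℝ} {F : Filter (G →ᵇ ℂ)} (hR : RLD κ F) {f : Meas G} (hf : f ∈ L1c G) (θ : ℝ) (φ : G →ᵇ ℂ)
    {l : List (G →ᵇ ℂ)} (hl : l ≠ []) (Y : C₀(G, ℂ)) :
    Tendsto (fun c : G →ᵇ ℂ => prodl l (hmul θ φ c • f) Y - prodl l f Y) F (𝓝 0) := by
  have h1 := prod_asym hR hf θ φ hl
  have h2 := ((Meas.evL Y).continuous.tendsto 0).comp h1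
  rw [map_zero] at h2
  have h3 := (hR.c1 _ (prodl_mem hf (l := l.map (fun b => b * φ)) (by simpa using hl)) Y).const_mul
    ((κ ^ (l.length - 1) * θ ^ l.length : ℝ) : ℂ)
  rw [mul_zero] at h3
  have h4 := h2.add h3
  rw [add_zero] at h4
  refine h4.congr fun c => ?_
  simp only [Function.comp_apply, Meas.evL_apply, Meas.sub_apply, Meas.smul_apply, act_apply]
  ring

theorem step_norm0 {κ : ℝ} {F : Filter (G →ᵇ ℂ)} (hR : RLD κ F) {f : Meas G} (hf : f ∈ L1c G) (θ : ℝ) {φ : G →ᵇ ℂ}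
    {l : List (G →ᵇ ℂ)} (hl : ∃ t ∈ l, t * φ = 0) :
    Tendsto (fun c : G →ᵇ ℂ => prodl l (hmul θ φ c • f) - prodl l f) F (𝓝 0) := by
  obtain ⟨t, ht, ht0⟩ := hl
  have hne : l ≠ [] := List.ne_nil_of_mem ht
  have h1 := prod_asym hR hf θ φ hne
  have h2 : prodl (l.map (fun b => b * φ)) f = 0 := by
    apply List.prod_eq_zero
    rw [List.map_map]
    refine List.mem_map.2 ⟨t, ht, ?_⟩
    change (t * φ) • f = 0
    rw [ht0, zero_smul]
  refine h1.congr fun c => ?_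
  rw [h2, smul_zero, smul_zero, sub_zero]

theorem step_norm {κ : ℝ} {F : Filter (G →ᵇ ℂ)} (hR : RLD κ F) {f : Meas G} (hf : f ∈ L1c G) {θ : ℝ} (hθ : 0 ≤ θ)
    {φ : G →ᵇ ℂ} (hφ : U01 φ) {l : List (G →ᵇ ℂ)} (hne : l ≠ []) (hl : ∀ t ∈ l, U01 t) {ε : ℝ} (hε : 0 < ε) :
    ∀ᶠ c in F, ‖prodl l (hmul θ φ c • f) - prodl l f‖ ≤ ε + (θ * ‖f‖) ^ l.length := by
  have h1 := prod_asym hR hf θ φ hne
  rw [Metric.tendsto_nhds] at h1
  filter_upwards [h1 ε hε, hR.real] with c hc hc2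
  rw [dist_zero_right] at hc
  set Q := prodl (l.map (fun b => b * φ)) f with hQ
  have hQn : ‖Q‖ ≤ ‖f‖ ^ l.length := by
    have := prodl_norm (f := f) (l := l.map (fun b => b * φ)) (fun b hb => by
      obtain ⟨t, ht, rfl⟩ := List.mem_map.1 hb
      exact (hl t ht).mul hφ)
    rwa [List.length_map] at this
  set k : ℝ := κ ^ (l.length - 1) * θ ^ l.length with hk
  have hk1 : |k| ≤ θ ^ l.length := by
    rw [hk, abs_mul, abs_of_nonneg (pow_nonneg hR.pos.le _), abs_of_nonneg (pow_nonneg hθ _)]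
    have : κ ^ (l.length - 1) ≤ 1 := pow_le_one₀ hR.pos.le hR.le
    have := pow_nonneg hθ l.length
    nlinarith
  have h3 : ‖(k : ℂ) • (c • Q)‖ ≤ (θ * ‖f‖) ^ l.length := by
    rw [norm_smul, Complex.norm_real, mul_pow]
    have h4 : ‖c • Q‖ ≤ ‖Q‖ := by
      have := act_norm_le (norm_act_real hc2) Q
      linarith
    exact mul_le_mul hk1 (h4.trans hQn) (norm_nonneg _) (pow_nonneg hθ _)
  have h5 : prodl l (hmul θ φ c • f) - prodl l f = (prodl l (hmul θ φ c • f) - prodl l f - (k : ℂ) • (c • Q)) +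
    (k : ℂ) • (c • Q) := by rw [sub_add_cancel]
  rw [h5]
  refine (norm_add_le _ _).trans (add_le_add hc.le h3)

theorem quad_step {κ : ℝ} {F : Filter (G →ᵇ ℂ)} (hR : RLD κ F) {W : Meas G} (hW : W ∈ L1c G)
    {Wc : (G →ᵇ ℂ) → Meas G} {a : ℝ} (hWc : Tendsto (fun c => Wc c - W - (a : ℂ) • (c • W)) F (𝓝 0))
    (X : G →ᵇ ℂ) (w : C₀(G, ℂ)) :
    Tendsto (fun c : G →ᵇ ℂ => Wc c (bm ((X + c - ct (κ * a)) * (X + c - ct (κ * a))) w) - W (bm (X * X) w) -
      W (bm ((1 + (a : ℂ) • c) * ((c - ct (κ * a)) * (c - ct (κ * a)))) w)) F (𝓝 0) := by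
  set A : ℝ := κ * a with hA
  have t1 : Tendsto (fun c : G →ᵇ ℂ => (Wc c - W - (a : ℂ) • (c • W)) (bm ((X + c - ct A) * (X + c - ct A)) w)) F (𝓝 0) := by
    rw [tendsto_zero_iff_norm_tendsto_zero] at hWc ⊢
    have h2 := hWc.mul_const (((‖X‖ + 1 + |A|) * (‖X‖ + 1 + |A|)) * ‖w‖)
    rw [zero_mul] at h2
    refine squeeze_zero' (Eventually.of_forall fun c => norm_nonneg _) ?_ h2
    filter_upwards [hR.real] with c hc
    apply Meas.le_of le_rfl
    refine (bm_norm _ _).trans (mul_le_mul_of_nonneg_right ?_ (norm_nonneg _))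
    have h3 : ‖X + c - ct A‖ ≤ ‖X‖ + 1 + |A| := by
      have h4 := norm_act_real hc
      have h5 := Rv.norm (abs_nonneg A) (rv_ct (G := G) A)
      have h6 := norm_sub_le (X + c) (ct A)
      have h7 := norm_add_le X c
      linarith
    exact (norm_mul_le _ _).trans (mul_le_mul h3 h3 (norm_nonneg _) (by positivity))
  have t2 := (hR.c1 W hW (bm (X * X) w)).const_mul (a : ℂ)
  have t3 := (hR.c1 W hW (bm X w)).const_mul (2 * (1 - (a : ℂ) * A))
  have t4 : Tendsto (fun c : G →ᵇ ℂ => (2 * (a : ℂ)) * (W (bm c (bm c (bm X w))) - (κ : ℂ) * W (bm X w))) F (𝓝 0) := by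
    have h := ((hR.c2 W hW (bm X w)).sub_const ((κ : ℂ) * W (bm X w))).const_mul (2 * (a : ℂ))
    rwa [sub_self, mul_zero] at h
  rw [mul_zero] at t2 t3
  have t := ((t1.add t2).add t3).add t4
  simp only [add_zero] at t
  refine t.congr fun c => ?_
  have e1 : bm ((X + c - ct A) * (X + c - ct A)) w = bm (X * X) w + (2 : ℂ) • bm c (bm X w) - (2 * (A : ℂ)) • bm X w +
      bm ((c - ct A) * (c - ct A)) w := by
    ext x
    simp
    ring
  have e2 : bm c (bm ((X + c - ct A) * (X + c - ct A)) w) = bm c (bm (X * X) w) + (2 : ℂ) • bm c (bm c (bm X w)) -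
      (2 * (A : ℂ)) • bm c (bm X w) + bm c (bm ((c - ct A) * (c - ct A)) w) := by
    ext x
    simp
    ring
  have e3 : bm ((1 + (a : ℂ) • c) * ((c - ct A) * (c - ct A))) w = bm ((c - ct A) * (c - ct A)) w +
      (a : ℂ) • bm c (bm ((c - ct A) * (c - ct A)) w) := by
    ext x
    simp
    ring
  have e4 : W (bm ((X + c - ct A) * (X + c - ct A)) w) = W (bm (X * X) w) + 2 * W (bm c (bm X w)) -
      (2 * (A : ℂ)) * W (bm X w) + W (bm ((c - ct A) * (c - ct A)) w) := by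
    rw [e1, map_add, map_sub, map_add, map_smul, map_smul]; rfl
  have e5 : W (bm c (bm ((X + c - ct A) * (X + c - ct A)) w)) = W (bm c (bm (X * X) w)) + 2 * W (bm c (bm c (bm X w))) -
      (2 * (A : ℂ)) * W (bm c (bm X w)) + W (bm c (bm ((c - ct A) * (c - ct A)) w)) := by
    rw [e2, map_add, map_sub, map_add, map_smul, map_smul]; rfl
  have e6 : W (bm ((1 + (a : ℂ) • c) * ((c - ct A) * (c - ct A))) w) = W (bm ((c - ct A) * (c - ct A)) w) +
      (a : ℂ) * W (bm c (bm ((c - ct A) * (c - ct A)) w)) := by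
    rw [e3, map_add, map_smul]; rfl
  rw [Meas.sub_apply, Meas.sub_apply, Meas.smul_apply, act_apply, e5, e6, e4]
  have hAc : (A : ℂ) = (κ : ℂ) * (a : ℂ) := by rw [hA]; push_cast; ring
  rw [hAc]
  ring

end a18

section a19

variable [MeasurableSpace G] [BorelSpace G]

theorem ev_le {ι : Type*} {F : Filter ι} {g : ι → ℂ} (h : Tendsto g F (𝓝 0)) {ε : ℝ} (hε : 0 < ε) :
    ∀ᶠ c in F, ‖g c‖ ≤ ε := by
  rw [Metric.tendsto_nhds] at h
  filter_upwards [h ε hε] with c hc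
  rw [dist_zero_right] at hc
  exact hc.le

theorem ev_le' {ι : Type*} {F : Filter ι} {g : ι → Meas G} (h : Tendsto g F (𝓝 0)) {ε : ℝ} (hε : 0 < ε) :
    ∀ᶠ c in F, ‖g c‖ ≤ ε := by
  rw [Metric.tendsto_nhds] at h
  filter_upwards [h ε hε] with c hc
  rw [dist_zero_right] at hc
  exact hc.le

theorem ev_list {ι α : Type*} {F : Filter ι} {L : List α} {P : α → ι → Prop} (h : ∀ a ∈ L, ∀ᶠ c in F, P a c) :
    ∀ᶠ c in F, ∀ a ∈ L, P a c := by
  induction L with
  | nil => exact Eventually.of_forall fun c a ha => by simp at ha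
  | cons b L ih =>
    filter_upwards [h b (by simp), ih fun a ha => h a (by simp [ha])] with c h1 h2 a ha
    rcases List.mem_cons.1 ha with rfl | ha
    · exact h1
    · exact h2 a ha

theorem block_iter {κ : ℝ} {F : Filter (G →ᵇ ℂ)} (hR : RLD κ F) {u0 : C₀(G, ℂ)} (hu0 : Cut u0) {f : Meas G}
    (hf : f ∈ L1c G) (hpos : Pos f) (hin : bc u0 • f = f) {φ b : G →ᵇ ℂ} (hφ : U01 φ) (hb : U01 b) (hbφ : b * φ = b)
    {o : ℕ} (ho : 1 ≤ o) {w w2 : C₀(G, ℂ)} (hw : Cut w) (hw2 : Cut w2)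
    (Ls : List (List (G →ᵇ ℂ))) (hLs : ∀ l ∈ Ls, l ≠ [] ∧ ∀ t ∈ l, U01 t) (Ys : List C₀(G, ℂ))
    {D : Meas G} (hD : D ∈ L1c G) (hDp : Pos D) {θ ε M : ℝ} (hθ0 : 0 ≤ θ) (hθ1 : θ ≤ 1) (hε : 0 < ε) (hM : ‖f‖ + 1 ≤ M)
    {L : ℕ} (hL : L * ε ≤ 1) :
    ∀ i ≤ L, ∃ (f' : Meas G) (S : G →ᵇ ℂ), f' ∈ L1c G ∧ Pos f' ∧ bc u0 • f' = f' ∧ ‖f'‖ ≤ ‖f‖ + i * ε ∧
      (∀ l ∈ Ls, ∀ Y ∈ Ys, ‖prodl l f' Y - prodl l f Y‖ ≤ i * ε) ∧
      (∀ l ∈ Ls, (∃ t ∈ l, t * φ = 0) → ‖prodl l f' - prodl l f‖ ≤ i * ε) ∧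
      (∀ l ∈ Ls, ‖prodl l f' - prodl l f‖ ≤ i * (ε + (θ * M) ^ l.length)) ∧
      Rv S i ∧
      (prodl (List.replicate o b) f' (bm ((S - ct (i * (κ ^ o * θ ^ o))) * (S - ct (i * (κ ^ o * θ ^ o)))) w)).re ≤ i * (9 * M ^ o) ∧
      (D (bm (S * S) w2)).re ≤ i * ((D w2).re + 1) := by
  intro i
  induction i with
  | zero =>
    intro _
    refine ⟨f, 0, hf, hpos, hin, by simp, by simp, by simp, by simp, ?_, ?_, ?_⟩
    · intro x; exact ⟨0, by simp, by simp⟩
    · have : (0 - ct (((0 : ℕ) : ℝ) * (κ ^ o * θ ^ o))) * (0 - ct (((0 : ℕ) : ℝ) * (κ ^ o * θ ^ o))) = (0 : G →ᵇ ℂ) := by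
        ext x; simp
      rw [this, zero_bm, map_zero]; simp
    · rw [mul_zero, zero_bm, map_zero]; simp
  | succ i ih =>
    intro hi
    obtain ⟨f', S, h1, h2, h3, h4, h5, h6, h7, h8, h9, h10⟩ := ih (by omega)
    have hM1 : 1 ≤ M := by linarith [norm_nonneg f]
    have hiε : (i : ℝ) * ε ≤ 1 := by
      refine le_trans ?_ hL
      apply mul_le_mul_of_nonneg_right _ hε.le
      exact_mod_cast (by omega : i ≤ L)
    have hf'M : ‖f'‖ ≤ M := by linarith
    set a : ℝ := κ ^ (o - 1) * θ ^ o with ha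
    have hκa : κ ^ o * θ ^ o = κ * a := by
      rw [ha, ← mul_assoc, ← pow_succ', Nat.sub_add_cancel ho]
    have ha0 : 0 ≤ a := mul_nonneg (pow_nonneg hR.pos.le _) (pow_nonneg hθ0 _)
    have ha1 : a ≤ 1 := mul_le_one₀ (pow_le_one₀ hR.pos.le hR.le) (pow_nonneg hθ0 _) (pow_le_one₀ hθ0 hθ1)
    have hA0 : 0 ≤ κ * a := mul_nonneg hR.pos.le ha0
    have hA1 : κ * a ≤ 1 := mul_le_one₀ hR.le ha0 ha1
    rw [hκa] at h9 ⊢
    -- the test list
    set lb := List.replicate o b with hlb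
    have hlb0 : lb ≠ [] := by
      rw [hlb]; intro h; rw [List.replicate_eq_nil_iff] at h; omega
    have hlbU : ∀ t ∈ lb, U01 t := fun t ht => by rw [List.eq_of_mem_replicate ht]; exact hb
    have hlbφ : lb.map (fun b => b * φ) = lb := by rw [hlb, List.map_replicate, hbφ]
    set W := prodl lb f' with hW
    have hWm : W ∈ L1c G := prodl_mem h1 hlb0
    have hWn : ‖W‖ ≤ M ^ o := by
      have := prodl_norm (f := f') hlbU
      rw [hlb, List.length_replicate] at this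
      exact this.trans (pow_le_pow_left₀ (norm_nonneg _) hf'M _)
    have hWc : Tendsto (fun c : G →ᵇ ℂ => prodl lb (hmul θ φ c • f') - W - (a : ℂ) • (c • W)) F (𝓝 0) := by
      have := prod_asym hR h1 θ φ hlb0
      rw [hlbφ, hlb, List.length_replicate] at this
      exact this
    -- filter conditions
    have e1 : ∀ᶠ c in F, ∀ l ∈ Ls, ∀ Y ∈ Ys, ‖prodl l (hmul θ φ c • f') Y - prodl l f' Y‖ ≤ ε :=
      ev_list fun l hl => ev_list fun Y _ => ev_le (step_weak hR h1 θ φ (hLs l hl).1 Y) hε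
    have e2 : ∀ᶠ c in F, ∀ l ∈ Ls, (∃ t ∈ l, t * φ = 0) → ‖prodl l (hmul θ φ c • f') - prodl l f'‖ ≤ ε := by
      apply ev_list
      intro l hl
      by_cases hex : ∃ t ∈ l, t * φ = 0
      · filter_upwards [ev_le' (step_norm0 hR h1 θ hex) hε] with c hc _
        exact hc
      · exact Eventually.of_forall fun c h => absurd h hex
    have e3 : ∀ᶠ c in F, ∀ l ∈ Ls, ‖prodl l (hmul θ φ c • f') - prodl l f'‖ ≤ ε + (θ * M) ^ l.length := by
      apply ev_list
      intro l hl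
      filter_upwards [step_norm hR h1 hθ0 hφ (hLs l hl).1 (hLs l hl).2 hε] with c hc
      refine hc.trans (add_le_add le_rfl ?_)
      exact pow_le_pow_left₀ (by positivity) (mul_le_mul_of_nonneg_left hf'M hθ0) _
    have e4 : ∀ᶠ c in F, ‖prodl [1] (hmul θ φ c • f') u0 - prodl [1] f' u0‖ ≤ ε :=
      ev_le (step_weak hR h1 θ φ (by simp) u0) hε
    have e5 := ev_le (quad_step hR hWm hWc (S - ct (i * (κ * a))) w) zero_lt_one
    have e6 : ∀ᶠ c in F, ‖(2 : ℂ) * D (bm c (bm S w2))‖ ≤ 1 := by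
      have t := (hR.c1 D hD (bm S w2)).const_mul (2 : ℂ)
      rw [mul_zero] at t
      exact ev_le t zero_lt_one
    haveI := hR.ne
    obtain ⟨c, hreal, c1, c2, c3, c4, c5, c6⟩ := (hR.real.and (e1.and (e2.and (e3.and (e4.and (e5.and e6)))))).exists
    have hhm := hmul_real (G := G) hθ0 hθ1 hφ hreal
    have hposc : Pos (hmul θ φ c • f') := h2.act hhm
    have hinc : bc u0 • (hmul θ φ c • f') = hmul θ φ c • f' := by rw [act_comm, h3]
    refine ⟨hmul θ φ c • f', S + c, act_mem h1 _, hposc, hinc, ?_, ?_, ?_, ?_, ?_, ?_, ?_⟩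
    · have k1 := h2.norm_eq hu0 h3
      have k2 := hposc.norm_eq hu0 hinc
      simp only [prodl_cons, prodl_nil, mul_one, one_smul] at c4
      rw [k1, k2, ← Complex.ofReal_sub, Complex.norm_real] at c4
      have := le_of_abs_le c4
      push_cast
      linarith
    · intro l hl Y hY
      have k1 := c1 l hl Y hY
      have k2 := h5 l hl Y hY
      have k3 := norm_add_le (prodl l (hmul θ φ c • f') Y - prodl l f' Y) (prodl l f' Y - prodl l f Y)
      rw [sub_add_sub_cancel] at k3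
      push_cast; linarith
    · intro l hl hex
      have k1 := c2 l hl hex
      have k2 := h6 l hl hex
      have k3 := norm_add_le (prodl l (hmul θ φ c • f') - prodl l f') (prodl l f' - prodl l f)
      rw [sub_add_sub_cancel] at k3
      push_cast; linarith
    · intro l hl
      have k1 := c3 l hl
      have k2 := h7 l hl
      have k3 := norm_add_le (prodl l (hmul θ φ c • f') - prodl l f') (prodl l f' - prodl l f)
      rw [sub_add_sub_cancel] at k3
      push_cast; linarith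
    · have := h8.add (show Rv c 1 from hreal)
      refine this.mono ?_
      push_cast; exact le_rfl
    · have k1 : S + c - ct (((i + 1 : ℕ) : ℝ) * (κ * a)) = (S - ct (i * (κ * a))) + c - ct (κ * a) := by
        ext x; simp; ring
      rw [k1]
      have k2 : ‖W (bm ((1 + (a : ℂ) • c) * ((c - ct (κ * a)) * (c - ct (κ * a)))) w)‖ ≤ M ^ o * 8 := by
        apply Meas.le_of hWn
        refine (bm_norm _ _).trans ?_
        have n1 : ‖(1 : G →ᵇ ℂ) + (a : ℂ) • c‖ ≤ 2 := by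
          refine (norm_add_le _ _).trans ?_
          rw [norm_smul, Complex.norm_real, Real.norm_eq_abs, abs_of_nonneg ha0]
          have m1 : ‖(1 : G →ᵇ ℂ)‖ ≤ 1 := by
            rw [BoundedContinuousFunction.norm_le zero_le_one]; intro x; simp
          have m2 := norm_act_real hreal
          nlinarith [norm_nonneg c]
        have n2 : ‖c - ct (κ * a)‖ ≤ 2 := by
          refine (norm_sub_le _ _).trans ?_
          have m2 := norm_act_real hreal
          have m3 := Rv.norm (abs_nonneg (κ * a)) (rv_ct (G := G) (κ * a))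
          rw [abs_of_nonneg hA0] at m3
          linarith
        have n3 : ‖(1 + (a : ℂ) • c) * ((c - ct (κ * a)) * (c - ct (κ * a)))‖ ≤ 2 * (2 * 2) := by
          refine (norm_mul_le _ _).trans (mul_le_mul n1 ?_ (norm_nonneg _) (by norm_num))
          exact (norm_mul_le _ _).trans (mul_le_mul n2 n2 (norm_nonneg _) (by norm_num))
        have n4 := hw.norm_le
        nlinarith [norm_nonneg w, norm_nonneg ((1 + (a : ℂ) • c) * ((c - ct (κ * a)) * (c - ct (κ * a))))]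
      have k3 := (Complex.re_le_norm _).trans c5
      have k4 := (Complex.re_le_norm _).trans k2
      rw [Complex.sub_re, Complex.sub_re] at k3
      have k5 : 1 ≤ M ^ o := one_le_pow₀ hM1
      push_cast
      linarith
    · have k1 : bm ((S + c) * (S + c)) w2 = bm (S * S) w2 + (2 : ℂ) • bm c (bm S w2) + bm (c * c) w2 := by
        ext x; simp; ring
      have k2 : ‖D (bm (c * c) w2)‖ ≤ (D w2).re := by
        apply hDp.bound
        intro x
        obtain ⟨r, hr, hr2⟩ := hreal x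
        have m1 : ‖(bm (c * c) w2) x‖ ≤ ‖w2 x‖ := by
          change ‖c x * c x * w2 x‖ ≤ _
          rw [norm_mul, norm_mul, hr, Complex.norm_real, Real.norm_eq_abs]
          have : |r| * |r| ≤ 1 := by nlinarith [abs_nonneg r]
          nlinarith [norm_nonneg (w2 x)]
        calc ((‖(bm (c * c) w2) x‖ : ℝ) : ℂ) ≤ (‖w2 x‖ : ℂ) := by exact_mod_cast m1
          _ = w2 x := hw2.norm_eq x
      rw [k1, map_add, map_add, map_smul, Complex.add_re, Complex.add_re, smul_eq_mul]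
      have k3 := (Complex.re_le_norm _).trans c6
      have k4 := (Complex.re_le_norm _).trans k2
      push_cast
      linarith

end a19

section a20

theorem params {M δ C0 : ℝ} (hM : 1 ≤ M) (hδ : 0 < δ) (hC : 0 < C0) (o : ℕ) : ∃ (θ ε : ℝ) (L : ℕ),
    0 < θ ∧ θ ≤ 1 ∧ θ * M ≤ 1 ∧ 0 < ε ∧ L * ε ≤ 1 ∧ L * ε ≤ δ / 2 ∧ L * (θ * M) ^ (2 * o + 1) ≤ δ / 2 ∧ 1 ≤ L ∧
    C0 ≤ L * (θ ^ o) ^ 2 := by
  have hM0 : 0 < M := by linarith
  set θ : ℝ := min (1 / M) (δ / (2 * (C0 + 1) * M ^ (2 * o + 1))) with hθ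
  have hθ0 : 0 < θ := lt_min (by positivity) (by positivity)
  have hθM : θ * M ≤ 1 := by
    have : θ ≤ 1 / M := min_le_left _ _
    rwa [le_div_iff₀ hM0] at this
  have hθ1 : θ ≤ 1 := by nlinarith
  have hθ2 : θ * (2 * (C0 + 1) * M ^ (2 * o + 1)) ≤ δ := by
    have : θ ≤ δ / (2 * (C0 + 1) * M ^ (2 * o + 1)) := min_le_right _ _
    rwa [le_div_iff₀ (by positivity)] at this
  set L : ℕ := ⌈C0 / θ ^ (2 * o)⌉₊ with hL
  have hLpos : 0 < C0 / θ ^ (2 * o) := by positivity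
  have hL1 : C0 / θ ^ (2 * o) ≤ L := Nat.le_ceil _
  have hL2 : (L : ℝ) < C0 / θ ^ (2 * o) + 1 := Nat.ceil_lt_add_one hLpos.le
  have hLn : 1 ≤ L := Nat.one_le_iff_ne_zero.2 (by
    rw [hL]; exact (Nat.ceil_pos.2 hLpos).ne')
  refine ⟨θ, min 1 (δ / 2) / (L + 1), L, hθ0, hθ1, hθM, by positivity, ?_, ?_, ?_, hLn, ?_⟩
  · rw [mul_div_assoc', div_le_iff₀ (by positivity)]
    have := min_le_left (1 : ℝ) (δ / 2)
    have h0 : (0 : ℝ) ≤ L := Nat.cast_nonneg _
    nlinarith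
  · rw [mul_div_assoc', div_le_iff₀ (by positivity)]
    have := min_le_right (1 : ℝ) (δ / 2)
    have h0 : (0 : ℝ) ≤ L := Nat.cast_nonneg _
    have h1 : 0 < min 1 (δ / 2) := by positivity
    nlinarith
  · have h1 : (L : ℝ) * (θ * M) ^ (2 * o + 1) ≤ (C0 / θ ^ (2 * o) + 1) * (θ * M) ^ (2 * o + 1) :=
      mul_le_mul_of_nonneg_right hL2.le (by positivity)
    have h2 : (C0 / θ ^ (2 * o) + 1) * (θ * M) ^ (2 * o + 1) = (C0 * θ + θ ^ (2 * o + 1)) * M ^ (2 * o + 1) := by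
      rw [mul_pow, pow_succ θ (2 * o)]
      field_simp
    have h3 : θ ^ (2 * o + 1) ≤ θ := by
      calc θ ^ (2 * o + 1) = θ ^ (2 * o) * θ := pow_succ _ _
        _ ≤ 1 * θ := mul_le_mul_of_nonneg_right (pow_le_one₀ hθ0.le hθ1) hθ0.le
        _ = θ := one_mul _
    have h4 : (C0 * θ + θ ^ (2 * o + 1)) * M ^ (2 * o + 1) ≤ (C0 * θ + θ) * M ^ (2 * o + 1) :=
      mul_le_mul_of_nonneg_right (by linarith) (by positivity)
    calc _ ≤ _ := h1
      _ = _ := h2
      _ ≤ _ := h4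
      _ = (θ * (2 * (C0 + 1) * M ^ (2 * o + 1))) / 2 := by ring
      _ ≤ δ / 2 := by linarith
  · rw [div_le_iff₀ (by positivity)] at hL1
    rw [← pow_mul, mul_comm o 2]
    exact hL1

/-- cut-off value -/
def psi (T s : ℝ) : ℝ := s ^ 2 / (s ^ 2 + (T - s) ^ 2)

theorem psi_den {T : ℝ} (hT : 0 < T) (s : ℝ) : T ^ 2 / 2 ≤ s ^ 2 + (T - s) ^ 2 := by
  nlinarith [sq_nonneg (2 * s - T)]

theorem psi_nonneg (T s : ℝ) : 0 ≤ psi T s := by rw [psi]; positivity

theorem psi_le_one {T : ℝ} (hT : 0 < T) (s : ℝ) : psi T s ≤ 1 := by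
  have := psi_den hT s
  rw [psi, div_le_one (by nlinarith [sq_nonneg T, pow_pos hT 2])]
  nlinarith [sq_nonneg (T - s)]

theorem psi_le {T : ℝ} (hT : 0 < T) (s : ℝ) : psi T s ≤ 2 / T ^ 2 * s ^ 2 := by
  have h := psi_den hT s
  have h0 : 0 < T ^ 2 := pow_pos hT 2
  rw [psi, div_le_iff₀ (by linarith), div_mul_eq_mul_div, div_mul_eq_mul_div, le_div_iff₀ h0]
  nlinarith [sq_nonneg s]

theorem one_sub_psi_le {T : ℝ} (hT : 0 < T) (s : ℝ) : 1 - psi T s ≤ 2 / T ^ 2 * (s - T) ^ 2 := by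
  have h := psi_den hT s
  have h0 : 0 < T ^ 2 := pow_pos hT 2
  have h1 : 0 < s ^ 2 + (T - s) ^ 2 := by linarith
  have h2 : 1 - psi T s = (T - s) ^ 2 / (s ^ 2 + (T - s) ^ 2) := by
    rw [psi]; field_simp; ring
  rw [h2, div_le_iff₀ h1, div_mul_eq_mul_div, div_mul_eq_mul_div, le_div_iff₀ h0]
  nlinarith [sq_nonneg (T - s)]

/-- cut-off function of a real valued function -/
def Psi {T : ℝ} (hT : 0 < T) (S : G →ᵇ ℂ) : G →ᵇ ℂ :=
  BoundedContinuousFunction.ofNormedAddCommGroup (fun x => ((psi T (S x).re : ℝ) : ℂ))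
    (by
      apply Complex.continuous_ofReal.comp
      have hs : Continuous fun x => (S x).re := Complex.continuous_re.comp S.continuous
      apply Continuous.div (hs.pow 2) ((hs.pow 2).add ((continuous_const.sub hs).pow 2))
      intro x
      have := psi_den hT (S x).re
      have h0 : 0 < T ^ 2 := pow_pos hT 2
      exact (by linarith : 0 < (S x).re ^ 2 + (T - (S x).re) ^ 2).ne') 1
    (fun x => by
      rw [Complex.norm_real, Real.norm_eq_abs, abs_of_nonneg (psi_nonneg _ _)]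
      exact psi_le_one hT _)

theorem Psi_apply {T : ℝ} (hT : 0 < T) (S : G →ᵇ ℂ) (x : G) : Psi hT S x = ((psi T (S x).re : ℝ) : ℂ) := rfl

variable [MeasurableSpace G] [BorelSpace G]

theorem int_nonneg {F : G → ℂ} (hF : ∀ x, 0 ≤ F x) :
    ∫ x, F x ∂(Measure.addHaar : Measure G) = ((∫ x, ‖F x‖ ∂(Measure.addHaar : Measure G) : ℝ) : ℂ) := by
  have h1 : ∫ x, F x ∂(Measure.addHaar : Measure G) = ∫ x, ((‖F x‖ : ℝ) : ℂ) ∂(Measure.addHaar : Measure G) := by
    congr 1; ext x; exact (nonneg_norm_eq (hF x)).symm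
  rw [h1]
  exact integral_ofReal

theorem den_pos {w : C₀(G, ℂ)} (hw : Cut w) : Pos (den w) := by
  intro g hg
  rw [den_apply (cs_int hw.cs), int_nonneg (fun x => mul_nonneg (hw.nn x) (hg x))]
  exact_mod_cast integral_nonneg fun x => norm_nonneg _

theorem block {κ : ℝ} {F : Filter (G →ᵇ ℂ)} (hR : RLD κ F) {u0 : C₀(G, ℂ)} (hu0 : Cut u0) {f : Meas G}
    (hf : f ∈ L1c G) (hpos : Pos f) (hin : bc u0 • f = f) {φ b : G →ᵇ ℂ} (hφ : U01 φ) (hb : U01 b) (hbφ : b * φ = b)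
    {o : ℕ} (ho : 1 ≤ o) {w w2 : C₀(G, ℂ)} (hw : Cut w) (hw2 : Cut w2) (hww : ∀ x ∈ tsupport w, w2 x = 1)
    (Ls : List (List (G →ᵇ ℂ))) (hLs : ∀ l ∈ Ls, l ≠ [] ∧ ∀ t ∈ l, U01 t) (Ys : List C₀(G, ℂ))
    {δ : ℝ} (hδ : 0 < δ) :
    ∃ (f' : Meas G) (q : C₀(G, ℂ)), f' ∈ L1c G ∧ Pos f' ∧ bc u0 • f' = f' ∧
      (∀ l ∈ Ls, ∀ Y ∈ Ys, ‖prodl l f' Y - prodl l f Y‖ ≤ δ) ∧
      (∀ l ∈ Ls, (∃ t ∈ l, t * φ = 0) → ‖prodl l f' - prodl l f‖ ≤ δ) ∧
      (∀ l ∈ Ls, 2 * o + 1 ≤ l.length → ‖prodl l f' - prodl l f‖ ≤ δ) ∧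
      Cut q ∧ (prodl (List.replicate o b) f' (w - q)).re ≤ δ ∧
      ∫ x, ‖q x‖ ∂(Measure.addHaar : Measure G) ≤ δ := by
  set D : Meas G := den w with hD
  have hDp : Pos D := den_pos hw
  have hDm : D ∈ L1c G := den_mem hw.cs
  set m : ℝ := (D w2).re with hm
  have hm0 : 0 ≤ m := hDp.re_nonneg hw2.nn
  set M : ℝ := ‖f‖ + 1 with hM
  have hM1 : 1 ≤ M := by linarith [norm_nonneg f]
  have hκ := hR.pos
  obtain ⟨θ, ε, L, hθ0, hθ1, hθM, hε, hL1, hL2, hL3, hLn, hLC⟩ :=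
    params (C0 := (18 * M ^ o + 2 * (m + 1)) / ((κ ^ o) ^ 2 * δ)) hM1 hδ (by positivity) o
  obtain ⟨f', S, h1, h2, h3, h4, h5, h6, h7, h8, h9, h10⟩ :=
    block_iter hR hu0 hf hpos hin hφ hb hbφ ho hw hw2 Ls hLs Ys hDm hDp hθ0.le hθ1 hε (le_refl M) hL1 L le_rfl
  set A : ℝ := κ ^ o * θ ^ o with hA
  have hA0 : 0 < A := by positivity
  have hLr : (1 : ℝ) ≤ L := by exact_mod_cast hLn
  set T : ℝ := L * A with hT
  have hT0 : 0 < T := by positivity
  have hkey : 18 * M ^ o + 2 * (m + 1) ≤ δ * (L * A ^ 2) := by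
    rw [div_le_iff₀ (by positivity)] at hLC
    calc _ ≤ _ := hLC
      _ = δ * (L * A ^ 2) := by rw [hA]; ring
  set q : C₀(G, ℂ) := bm (Psi hT0 S) w with hq
  have hqv : ∀ x, q x = ((psi T (S x).re * ‖w x‖ : ℝ) : ℂ) := by
    intro x
    rw [hq, bm_apply, Psi_apply, ← hw.norm_eq x, Complex.norm_real, norm_norm]
    push_cast; ring
  have hwn : ∀ x, ‖w x‖ ≤ 1 := fun x => norm_01 (hw.nn x) (hw.le x)
  have hqcut : Cut q := by
    refine ⟨hw.cs.mono fun x hx => ?_, fun x => ?_, fun x => ?_⟩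
    · rw [Function.mem_support] at hx ⊢
      intro h0
      apply hx
      rw [hq, bm_apply, h0, mul_zero]
    · rw [hqv]
      exact_mod_cast mul_nonneg (psi_nonneg _ _) (norm_nonneg _)
    · rw [hqv]
      exact_mod_cast mul_le_one₀ (psi_le_one hT0 _) (norm_nonneg _) (hwn x)
  refine ⟨f', q, h1, h2, h3, ?_, ?_, ?_, hqcut, ?_, ?_⟩
  · intro l hl Y hY
    exact (h5 l hl Y hY).trans (by linarith)
  · intro l hl hex
    exact (h6 l hl hex).trans (by linarith)
  · intro l hl hlen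
    refine (h7 l hl).trans ?_
    have k1 : (θ * M) ^ l.length ≤ (θ * M) ^ (2 * o + 1) :=
      pow_le_pow_of_le_one (by positivity) hθM hlen
    have k2 : (L : ℝ) * (θ * M) ^ l.length ≤ L * (θ * M) ^ (2 * o + 1) :=
      mul_le_mul_of_nonneg_left k1 (by linarith)
    rw [mul_add]; linarith
  · have hWp : Pos (prodl (List.replicate o b) f') := prodl_pos h2 fun t ht => by
      rw [List.eq_of_mem_replicate ht]; exact hb
    have k1 : (prodl (List.replicate o b) f' (w - q)).re ≤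
        (prodl (List.replicate o b) f' ((((2 / T ^ 2 : ℝ) : ℂ)) • bm ((S - ct T) * (S - ct T)) w)).re := by
      apply hWp.re_mono
      intro x
      obtain ⟨s, hs, _⟩ := h8 x
      have e1 : (w - q) x = (((1 - psi T s) * ‖w x‖ : ℝ) : ℂ) := by
        rw [ZeroAtInftyContinuousMap.sub_apply, hqv, hs, Complex.ofReal_re]
        push_cast
        rw [hw.norm_eq x]; ring
      have e2 : ((((2 / T ^ 2 : ℝ) : ℂ)) • bm ((S - ct T) * (S - ct T)) w) x = ((2 / T ^ 2 * (s - T) ^ 2 * ‖w x‖ : ℝ) : ℂ) := by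
        rw [ZeroAtInftyContinuousMap.smul_apply, bm_apply, smul_eq_mul]
        change ((2 / T ^ 2 : ℝ) : ℂ) * ((S x - ct T x) * (S x - ct T x) * w x) = _
        rw [ct_apply, hs]
        conv_lhs => rw [← hw.norm_eq x]
        push_cast; ring
      rw [e1, e2]
      have e3 := mul_le_mul_of_nonneg_right (one_sub_psi_le hT0 s) (norm_nonneg (w x))
      exact_mod_cast e3
    refine k1.trans ?_
    rw [map_smul, smul_eq_mul, Complex.re_ofReal_mul]
    have k2 : (2 / T ^ 2) * (prodl (List.replicate o b) f' (bm ((S - ct T) * (S - ct T)) w)).re ≤ (2 / T ^ 2) * (L * (9 * M ^ o)) :=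
      mul_le_mul_of_nonneg_left h9 (by positivity)
    refine k2.trans ?_
    rw [hT, div_mul_eq_mul_div, div_le_iff₀ (by positivity)]
    have k3 : 18 * M ^ o ≤ δ * (L * A ^ 2) := by linarith
    calc 2 * ((L : ℝ) * (9 * M ^ o)) = L * (18 * M ^ o) := by ring
      _ ≤ L * (δ * (L * A ^ 2)) := mul_le_mul_of_nonneg_left k3 (by linarith)
      _ = δ * (L * A) ^ 2 := by ring
  · have k0 : ∫ x, ‖q x‖ ∂(Measure.addHaar : Measure G) = (D (bm (Psi hT0 S) w2)).re := by
      rw [hD, den_apply (cs_int hw.cs)]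
      have e1 : ∀ x, w x * (bm (Psi hT0 S) w2) x = q x := by
        intro x
        rw [bm_apply, hq, bm_apply]
        by_cases hx : w x = 0
        · rw [hx]; ring
        · rw [hww x (subset_tsupport _ hx)]; ring
      simp_rw [e1]
      rw [int_nonneg hqcut.nn, Complex.ofReal_re]
    have k1 : (D (bm (Psi hT0 S) w2)).re ≤ (D ((((2 / T ^ 2 : ℝ) : ℂ)) • bm (S * S) w2)).re := by
      apply hDp.re_mono
      intro x
      obtain ⟨s, hs, _⟩ := h8 x
      have e1 : (bm (Psi hT0 S) w2) x = ((psi T s * ‖w2 x‖ : ℝ) : ℂ) := by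
        rw [bm_apply, Psi_apply, hs, Complex.ofReal_re]
        conv_lhs => rw [← hw2.norm_eq x]
        push_cast; ring
      have e2 : ((((2 / T ^ 2 : ℝ) : ℂ)) • bm (S * S) w2) x = ((2 / T ^ 2 * s ^ 2 * ‖w2 x‖ : ℝ) : ℂ) := by
        rw [ZeroAtInftyContinuousMap.smul_apply, bm_apply, smul_eq_mul]
        change ((2 / T ^ 2 : ℝ) : ℂ) * (S x * S x * w2 x) = _
        rw [hs]
        conv_lhs => rw [← hw2.norm_eq x]
        push_cast; ring
      rw [e1, e2]
      have e3 := mul_le_mul_of_nonneg_right (psi_le hT0 s) (norm_nonneg (w2 x))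
      exact_mod_cast e3
    rw [k0]
    refine k1.trans ?_
    rw [map_smul, smul_eq_mul, Complex.re_ofReal_mul]
    have k2 : (2 / T ^ 2) * (D (bm (S * S) w2)).re ≤ (2 / T ^ 2) * (L * (m + 1)) :=
      mul_le_mul_of_nonneg_left h10 (by positivity)
    refine k2.trans ?_
    rw [hT, div_mul_eq_mul_div, div_le_iff₀ (by positivity)]
    have k3 : 2 * (m + 1) ≤ δ * (L * A ^ 2) := by
      have : 0 ≤ 18 * M ^ o := by positivity
      linarith
    calc 2 * ((L : ℝ) * (m + 1)) = L * (2 * (m + 1)) := by ring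
      _ ≤ L * (δ * (L * A ^ 2)) := mul_le_mul_of_nonneg_left k3 (by linarith)
      _ = δ * (L * A) ^ 2 := by ring

end a20

section a21

/-- support of small size -/
def Small (V : Set G) (ψ : G →ᵇ ℂ) : Prop := ∀ x y, ψ x ≠ 0 → ψ y ≠ 0 → x - y ∈ V

theorem Small.mono {V W : Set G} {ψ : G →ᵇ ℂ} (h : Small V ψ) (hVW : V ⊆ W) : Small W ψ :=
  fun x y hx hy => hVW (h x y hx hy)

theorem exists_sym {V0 V1 : Set G} (h0 : V0 ∈ 𝓝 (0 : G)) (h1 : V1 ∈ 𝓝 (0 : G)) : ∃ V ∈ 𝓝 (0 : G), V ⊆ V0 ∧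
    (∀ x ∈ V, -x ∈ V) ∧ ∀ a ∈ V, ∀ b ∈ V, ∀ c ∈ V, a + b + c ∈ V1 := by
  obtain ⟨V2, hV2, h2⟩ := exists_nhds_zero_half h1
  obtain ⟨V3, hV3, h3⟩ := exists_nhds_zero_half hV2
  have hz3 : (0 : G) ∈ V3 := mem_of_mem_nhds hV3
  have h32 : V3 ⊆ V2 := fun x hx => by
    have := h3 x hx 0 hz3
    rwa [add_zero] at this
  refine ⟨(V3 ∩ V0) ∩ -(V3 ∩ V0), inter_mem (inter_mem hV3 h0) (neg_mem_nhds_zero G (inter_mem hV3 h0)),
    fun x hx => hx.1.2, fun x hx => ⟨by simpa using hx.2, by simpa using hx.1⟩, ?_⟩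
  intro a ha b hb c hc
  exact h2 _ (h3 a ha.1.1 b hb.1.1) c (h32 hc.1.1)

variable [MeasurableSpace G] [BorelSpace G]

theorem exists_cells [hnd : NeBot (𝓝[≠] (0 : G))] {u0 : C₀(G, ℂ)} (hu0 : Cut u0) {f : Meas G} (hf : f ∈ L1c G)
    {V0 : Set G} (hV0 : V0 ∈ 𝓝 (0 : G)) {ε : ℝ} (hε : 0 < ε) :
    ∃ V ∈ 𝓝 (0 : G), V ⊆ V0 ∧ ∃ (m : ℕ) (u φ : Fin m → (G →ᵇ ℂ)) (R : Fin m → Finset (Fin m)),
      (∀ i, U01 (u i)) ∧ (∀ i, U01 (φ i)) ∧ (∀ i, u i * φ i = u i) ∧ (∀ x ∈ tsupport u0, ∑ i, u i x = 1) ∧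
      (∀ i, Small V (φ i)) ∧ (∀ i, ‖f (bm (∑ j ∈ R i, u j) u0)‖ ≤ ε) ∧
      (∀ ψ, Small V ψ → ∀ i j, j ∉ R i → u i * ψ = 0 ∨ u j * ψ = 0) := by
  classical
  obtain ⟨V1, hV1, hsc⟩ := small_scale hf ε hε
  obtain ⟨V, hV, hVV0, hsym, hsum⟩ := exists_sym hV0 hV1
  obtain ⟨P, hP, hPP⟩ := exists_nhds_half_neg hV
  obtain ⟨m, x, v, hv, hvx, hvs, hvt⟩ := exists_parts (K := tsupport u0) hu0.cs hP
  have hop : ∀ z : G, IsOpen {y | y - z ∈ interior P} := fun z =>
    isOpen_interior.preimage (continuous_id.sub continuous_const)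
  have hφ : ∀ i, ∃ φ : C₀(G, ℂ), Cut φ ∧ (∀ y ∈ tsupport (v i), φ y = 1) ∧ (∀ y, φ y ≠ 0 → y ∈ {y | y - x i ∈ interior P}) :=
    fun i => exists_cut (hv i).cs (hop (x i)) (hvt i)
  choose φ hφ1 hφ2 hφ3 using hφ
  have hvsm : ∀ i, ∀ y z, v i y ≠ 0 → v i z ≠ 0 → y - z ∈ V := by
    intro i y z hy hz
    have := hPP _ (hvx i y hy) _ (hvx i z hz)
    rwa [sub_sub_sub_cancel_right] at this
  set R : Fin m → Finset (Fin m) := fun i => Finset.univ.filter (fun j => ∃ y z, v i y ≠ 0 ∧ v j z ≠ 0 ∧ y - z ∈ V) with hR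
  have hmemR : ∀ i j, j ∈ R i ↔ ∃ y z, v i y ≠ 0 ∧ v j z ≠ 0 ∧ y - z ∈ V := by
    intro i j; rw [hR]; simp
  refine ⟨V, hV, hVV0, m, fun i => bc (v i), fun i => bc (φ i), R, fun i => (hv i).U01, fun i => (hφ1 i).U01, ?_, hvs, ?_, ?_, ?_⟩
  · intro i
    ext y
    change v i y * φ i y = v i y
    by_cases hy : v i y = 0
    · rw [hy, zero_mul]
    · rw [hφ2 i y (subset_tsupport _ hy), mul_one]
  · intro i y z hy hz
    have h1 := interior_subset (hφ3 i y hy)
    have h2 := interior_subset (hφ3 i z hz)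
    have := hPP _ h1 _ h2
    rwa [sub_sub_sub_cancel_right] at this
  · intro i
    have hval : ∀ y, (bm (∑ j ∈ R i, bc (v j)) u0) y = (∑ j ∈ R i, v j y) * u0 y := by
      intro y
      rw [bm_apply]
      congr 1
      rw [BoundedContinuousFunction.sum_apply]
      rfl
    by_cases hne : ∃ z, v i z ≠ 0
    · obtain ⟨z, hz⟩ := hne
      apply hsc z
      · rw [c0_norm_le zero_le_one]
        intro y
        rw [hval]
        by_cases hy : y ∈ tsupport u0
        · have h1 := hvs y hy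
          have hre : ∀ j, v j y = ((v j y).re : ℂ) := fun j => by
            have h5 := Complex.nonneg_iff.1 ((hv j).nn y)
            exact Complex.ext (by simp) (by simp [h5.2.symm])
          have hnn : ∀ j, 0 ≤ (v j y).re := fun j => (Complex.nonneg_iff.1 ((hv j).nn y)).1
          have h2 : (∑ j ∈ R i, v j y) = ((∑ j ∈ R i, (v j y).re : ℝ) : ℂ) := by
            push_cast
            exact Finset.sum_congr rfl fun j _ => hre j
          have h3 : ∑ j ∈ R i, (v j y).re ≤ 1 := by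
            have h4 : ∑ j ∈ R i, (v j y).re ≤ ∑ j, (v j y).re :=
              Finset.sum_le_sum_of_subset_of_nonneg (Finset.subset_univ _) (fun j _ _ => hnn j)
            refine h4.trans (le_of_eq ?_)
            rw [← Complex.re_sum, h1]; simp
          rw [norm_mul, h2, Complex.norm_real, Real.norm_eq_abs, abs_of_nonneg (Finset.sum_nonneg fun j _ => hnn j)]
          have h5 := norm_01 (hu0.nn y) (hu0.le y)
          exact mul_le_one₀ h3 (norm_nonneg _) h5
        · rw [image_eq_zero_of_notMem_tsupport hy, mul_zero, norm_zero]; exact zero_le_one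
      · intro y hy
        rw [hval] at hy
        have h1 := left_ne_zero_of_mul hy
        obtain ⟨j, hj, hj2⟩ := Finset.exists_ne_zero_of_sum_ne_zero h1
        obtain ⟨a, c, ha, hc, hac⟩ := (hmemR i j).1 hj
        have e1 := hvsm j y c hj2 hc
        have e2 := hvsm i a z ha hz
        have e3 := hsum _ e1 _ (hsym _ hac) _ e2
        rwa [show y - c + -(a - c) + (a - z) = y - z by abel] at e3
    · have : bm (∑ j ∈ R i, bc (v j)) u0 = 0 := by
        ext y
        rw [hval]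
        have hz : ∑ j ∈ R i, v j y = 0 := by
          apply Finset.sum_eq_zero
          intro j hj
          obtain ⟨a, c, ha, _, _⟩ := (hmemR i j).1 hj
          exact absurd ⟨a, ha⟩ hne
        rw [hz, zero_mul]; rfl
      rw [this, map_zero, norm_zero]; exact hε.le
  · intro ψ hψ i j hij
    by_contra hcon
    push Not at hcon
    obtain ⟨h1, h2⟩ := hcon
    obtain ⟨y, hy⟩ : ∃ y, (bc (v i) * ψ) y ≠ 0 := by
      by_contra h; push Not at h; exact h1 (by ext y; exact h y)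
    obtain ⟨z, hz⟩ : ∃ z, (bc (v j) * ψ) z ≠ 0 := by
      by_contra h; push Not at h; exact h2 (by ext y; exact h y)
    have a1 : v i y ≠ 0 := left_ne_zero_of_mul hy
    have a2 : ψ y ≠ 0 := right_ne_zero_of_mul hy
    have a3 : v j z ≠ 0 := left_ne_zero_of_mul hz
    have a4 : ψ z ≠ 0 := right_ne_zero_of_mul hz
    exact hij ((hmemR i j).2 ⟨y, z, a1, a3, hψ y z a2 a4⟩)

end a21

section a22

variable [MeasurableSpace G] [BorelSpace G]

/-- the closed ideal of absolutely continuous measures, as an ideal -/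
def L1i (G : Type u) [AddCommGroup G] [TopologicalSpace G] [IsTopologicalAddGroup G]
    [T2Space G] [LocallyCompactSpace G] [MeasurableSpace G] [BorelSpace G] : Ideal (Meas G) where
  carrier := L1c G
  add_mem' := fun h1 h2 => add_mem (S := Submodule ℂ (Meas G)) h1 h2
  zero_mem' := zero_mem (L1c G)
  smul_mem' := fun c _ h => mul_mem h c

theorem mem_L1i {μ : Meas G} : μ ∈ L1i G ↔ μ ∈ L1c G := Iff.rfl

/-- multiplication by `p` preserves nilpotence modulo absolutely continuous measures -/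
def TPred (p : G →ᵇ ℂ) : Prop := ∃ N : ℕ, ∀ n, 1 ≤ n → ∀ ν : Meas G, ν ^ n ∈ L1c G → (p • ν) ^ (N * n) ∈ L1c G

theorem TPred_chr (χ : Chr G) : TPred χ.b := by
  refine ⟨1, fun n hn ν hν => ?_⟩
  rw [one_mul, χ.act_pow ν (by omega)]
  exact act_mem hν _

theorem TPred_zero : TPred (0 : G →ᵇ ℂ) := by
  refine ⟨1, fun n hn ν _ => ?_⟩
  rw [one_mul, zero_smul, zero_pow (by omega)]
  exact zero_mem _

theorem TPred.smul {p : G →ᵇ ℂ} (h : TPred p) (c : ℂ) : TPred (c • p) := by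
  obtain ⟨N, hN⟩ := h
  refine ⟨N, fun n hn ν hν => ?_⟩
  rw [csmul_act, smul_pow]
  exact (L1c G).smul_mem _ (hN n hn ν hν)

theorem TPred.add {p q : G →ᵇ ℂ} (h : TPred p) (h' : TPred q) : TPred (p + q) := by
  obtain ⟨N, hN⟩ := h
  obtain ⟨M, hM⟩ := h'
  refine ⟨N + M, fun n hn ν hν => ?_⟩
  rw [add_smul]
  have h1 : (p • ν) ^ (N * n) ∈ L1i G := hN n hn ν hν
  have h2 : (q • ν) ^ (M * n) ∈ L1i G := hM n hn ν hν
  exact Ideal.add_pow_mem_of_pow_mem_of_le _ h1 h2 (by rw [add_mul]; omega)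

/-- trigonometric polynomials -/
def TP (G : Type u) [AddCommGroup G] [TopologicalSpace G] [IsTopologicalAddGroup G]
    [T2Space G] [LocallyCompactSpace G] : Submodule ℂ (G →ᵇ ℂ) := Submodule.span ℂ (Set.range Chr.b)

omit [MeasurableSpace G] [BorelSpace G] in
theorem TP_chr (χ : Chr G) : χ.b ∈ TP G := Submodule.subset_span ⟨χ, rfl⟩

theorem TP_pred {p : G →ᵇ ℂ} (hp : p ∈ TP G) : TPred p := by
  induction hp using Submodule.span_induction with
  | mem x hx => obtain ⟨χ, rfl⟩ := hx; exact TPred_chr χ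
  | zero => exact TPred_zero
  | add x y _ _ hx hy => exact hx.add hy
  | smul c x _ hx => exact hx.smul c

omit [MeasurableSpace G] [BorelSpace G] in
theorem TP_mul {p q : G →ᵇ ℂ} (hp : p ∈ TP G) (hq : q ∈ TP G) : p * q ∈ TP G := by
  induction hp using Submodule.span_induction with
  | mem x hx =>
    obtain ⟨χ, rfl⟩ := hx
    induction hq using Submodule.span_induction with
    | mem y hy =>
      obtain ⟨ψ, rfl⟩ := hy
      exact TP_chr (χ.mul ψ)
    | zero => rw [mul_zero]; exact zero_mem _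
    | add x y _ _ hx hy => rw [mul_add]; exact add_mem hx hy
    | smul c x _ hx => rw [mul_smul_comm]; exact (TP G).smul_mem c hx
  | zero => rw [zero_mul]; exact zero_mem _
  | add x y _ _ hx hy => rw [add_mul]; exact add_mem hx hy
  | smul c x _ hx => rw [smul_mul_assoc]; exact (TP G).smul_mem c hx

omit [MeasurableSpace G] [BorelSpace G] in
theorem TP_star {p : G →ᵇ ℂ} (hp : p ∈ TP G) : star p ∈ TP G := by
  induction hp using Submodule.span_induction with
  | mem x hx => obtain ⟨χ, rfl⟩ := hx; exact TP_chr χ.conj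
  | zero => rw [star_zero]; exact zero_mem _
  | add x y _ _ hx hy => rw [star_add]; exact add_mem hx hy
  | smul c x _ hx =>
    have : star (c • x) = star c • star x := star_smul c x
    rw [this]; exact (TP G).smul_mem _ hx

omit [MeasurableSpace G] [BorelSpace G] in
theorem TP_one : (1 : G →ᵇ ℂ) ∈ TP G := by
  have : (1 : G →ᵇ ℂ) = (⟨fun _ => 1, continuous_const, fun _ _ => by simp, fun _ => by simp⟩ : Chr G).b := rfl
  rw [this]; exact TP_chr _

/-- the closed disc -/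
abbrev Disc := Metric.closedBall (0 : ℂ) 1

instance : CompactSpace Disc := isCompact_iff_compactSpace.1 (isCompact_closedBall 0 1)

/-- the Bohr type compactification -/
abbrev BB (G : Type u) [AddCommGroup G] [TopologicalSpace G] : Type u := Chr G → Disc

/-- the canonical map -/
def iot (x : G) : BB G := fun χ => ⟨χ.toFun x, by rw [mem_closedBall_zero_iff, χ.norm_one]⟩

omit [MeasurableSpace G] [BorelSpace G] in
theorem iot_cont : Continuous (iot : G → BB G) :=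
  continuous_pi fun χ => Continuous.subtype_mk χ.cont _

theorem iot_inj : Function.Injective (iot : G → BB G) := by
  intro x y hxy
  by_contra hne
  obtain ⟨χ, hχ⟩ := exists_chr (sub_ne_zero.2 hne)
  apply hχ
  have h1 : χ.toFun x = χ.toFun y := congrArg Subtype.val (congrFun hxy χ)
  have h2 : χ.toFun (x - y) = χ.toFun x * star (χ.toFun y) := by
    rw [sub_eq_add_neg, χ.map_add, χ.map_neg]
  rw [h2, h1]
  have := Complex.mul_conj (χ.toFun y)
  rw [Complex.normSq_eq_norm_sq, χ.norm_one] at this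
  simpa using this

/-- pull back to `G` -/
def pull (F : C(BB G, ℂ)) : G →ᵇ ℂ :=
  BoundedContinuousFunction.ofNormedAddCommGroup (fun x => F (iot x)) (F.continuous.comp iot_cont) ‖F‖
    (fun x => F.norm_coe_le_norm _)

/-- functions on the compactification which pull back to trigonometric polynomials -/
def SA (G : Type u) [AddCommGroup G] [TopologicalSpace G] [IsTopologicalAddGroup G]
    [T2Space G] [LocallyCompactSpace G] : StarSubalgebra ℂ C(BB G, ℂ) where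
  carrier := {F | pull F ∈ TP G}
  mul_mem' := fun {a b} ha hb => by
    change pull (a * b) ∈ TP G
    have : pull (a * b) = pull a * pull b := rfl
    rw [this]; exact TP_mul ha hb
  one_mem' := by
    change pull 1 ∈ TP G
    have : pull (1 : C(BB G, ℂ)) = (1 : G →ᵇ ℂ) := rfl
    rw [this]; exact TP_one
  add_mem' := fun {a b} ha hb => by
    change pull (a + b) ∈ TP G
    have : pull (a + b) = pull a + pull b := rfl
    rw [this]; exact add_mem ha hb
  zero_mem' := by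
    change pull 0 ∈ TP G
    have : pull (0 : C(BB G, ℂ)) = (0 : G →ᵇ ℂ) := rfl
    rw [this]; exact zero_mem _
  algebraMap_mem' := fun r => by
    change pull (algebraMap ℂ C(BB G, ℂ) r) ∈ TP G
    have : pull (algebraMap ℂ C(BB G, ℂ) r) = r • (1 : G →ᵇ ℂ) := by
      ext x
      change (algebraMap ℂ C(BB G, ℂ) r) (iot x) = r * 1
      simp
    rw [this]; exact (TP G).smul_mem _ TP_one
  star_mem' := fun {a} ha => by
    change pull (star a) ∈ TP G
    have : pull (star a) = star (pull a) := rfl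
    rw [this]; exact TP_star ha

omit [MeasurableSpace G] [BorelSpace G] in
theorem SA_sep : (SA G).SeparatesPoints := by
  intro x y hxy
  obtain ⟨χ, hχ⟩ : ∃ χ, x χ ≠ y χ := by
    by_contra h; push Not at h; exact hxy (funext h)
  let F : C(BB G, ℂ) := ⟨fun b => (b χ : ℂ), continuous_subtype_val.comp (continuous_apply χ)⟩
  refine ⟨F, ⟨F, ?_, rfl⟩, ?_⟩
  · change pull F ∈ TP G
    exact TP_chr χ
  · intro h
    exact hχ (Subtype.ext h)

omit [MeasurableSpace G] [BorelSpace G] in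
theorem SA_dense (F : C(BB G, ℂ)) {ε : ℝ} (hε : 0 < ε) : ∃ P : C(BB G, ℂ), pull P ∈ TP G ∧ ‖P - F‖ < ε := by
  have h := ContinuousMap.starSubalgebra_topologicalClosure_eq_top_of_separatesPoints (SA G) SA_sep
  have h2 : F ∈ (SA G).topologicalClosure := by rw [h]; trivial
  have h3 : F ∈ closure ((SA G : Set C(BB G, ℂ))) := h2
  rw [Metric.mem_closure_iff] at h3
  obtain ⟨P, hP, hP2⟩ := h3 ε hε
  exact ⟨P, hP, by rw [dist_comm, dist_eq_norm] at hP2; exact hP2⟩

theorem exists_trig {K : Set G} (hK : IsCompact K) {m : ℕ} {u : Fin m → (G →ᵇ ℂ)} (hu : ∀ i, U01 (u i))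
    (hs : ∀ x ∈ K, ∑ i, u i x = 1) {ε : ℝ} (hε : 0 < ε) :
    ∃ (p : Fin m → (G →ᵇ ℂ)) (N : ℕ), (∀ i, ∀ n, 1 ≤ n → ∀ ν : Meas G, ν ^ n ∈ L1c G → (p i • ν) ^ (N * n) ∈ L1c G) ∧
      (∀ x, ∑ i, ‖p i x‖ ≤ 2) ∧ ∀ i, ∀ x ∈ K, ‖p i x - u i x‖ ≤ ε := by
  haveI : CompactSpace K := isCompact_iff_compactSpace.1 hK
  have hemb : Topology.IsClosedEmbedding (fun x : K => iot (x : G)) :=
    Continuous.isClosedEmbedding (iot_cont.comp continuous_subtype_val) (iot_inj.comp Subtype.val_injective)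
  have hext : ∀ i, ∃ g : C(BB G, ℝ), ∀ x : K, g (iot (x : G)) = (u i x).re := by
    intro i
    obtain ⟨g, hg⟩ := ContinuousMap.exists_extension' hemb
      (⟨fun x : K => (u i x).re, Complex.continuous_re.comp ((u i).continuous.comp continuous_subtype_val)⟩ : C(K, ℝ))
    exact ⟨g, fun x => congrFun hg x⟩
  choose g hg using hext
  let S : BB G → ℝ := fun b => max 1 (∑ j, max (g j b) 0)
  have hS : Continuous S := continuous_const.max (continuous_finsetSum _ fun j _ => (g j).continuous.max continuous_const)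
  have hS1 : ∀ b, 1 ≤ S b := fun b => le_max_left _ _
  let H : Fin m → C(BB G, ℂ) := fun i => ⟨fun b => ((max (g i b) 0 / S b : ℝ) : ℂ),
    Complex.continuous_ofReal.comp (((g i).continuous.max continuous_const).div hS (fun b => by
      have := hS1 b; positivity))⟩
  have hH : ∀ i b, ‖H i b‖ = max (g i b) 0 / S b := by
    intro i b
    change ‖((max (g i b) 0 / S b : ℝ) : ℂ)‖ = _
    rw [Complex.norm_real, Real.norm_eq_abs, abs_of_nonneg]
    have := hS1 b
    have := le_max_right (g i b) 0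
    positivity
  have hHs : ∀ b, ∑ i, ‖H i b‖ ≤ 1 := by
    intro b
    simp_rw [hH]
    rw [← Finset.sum_div, div_le_one (by linarith [hS1 b])]
    exact le_max_right _ _
  have hure : ∀ i x, u i x = ((u i x).re : ℂ) := fun i x => by
    have h5 := Complex.nonneg_iff.1 (hu i x).1
    exact Complex.ext (by simp) (by simp [h5.2.symm])
  have hunn : ∀ i x, 0 ≤ (u i x).re := fun i x => (Complex.nonneg_iff.1 (hu i x).1).1
  have hHu : ∀ i, ∀ x ∈ K, H i (iot x) = u i x := by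
    intro i x hx
    have h1 : ∀ j, max (g j (iot x)) 0 = (u j x).re := fun j => by
      rw [hg j ⟨x, hx⟩, max_eq_left (hunn j x)]
    have h2 : S (iot x) = 1 := by
      change max 1 (∑ j, max (g j (iot x)) 0) = 1
      simp_rw [h1]
      rw [← Complex.re_sum, hs x hx]; simp
    change ((max (g i (iot x)) 0 / S (iot x) : ℝ) : ℂ) = u i x
    rw [h1, h2, div_one]; exact (hure i x).symm
  set ε' : ℝ := min ε (1 / (m + 1)) with hε'
  have hε'0 : 0 < ε' := lt_min hε (by positivity)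
  have happ : ∀ i, ∃ P : C(BB G, ℂ), pull P ∈ TP G ∧ ‖P - H i‖ < ε' := fun i => SA_dense (H i) hε'0
  choose P hP1 hP2 using happ
  have hpred := fun i => TP_pred (hP1 i)
  choose N hN using hpred
  have hPx : ∀ i b, ‖P i b - H i b‖ ≤ ε' := by
    intro i b
    have := ((P i - H i).norm_coe_le_norm b).trans (hP2 i).le
    simpa using this
  refine ⟨fun i => pull (P i), ∑ i, N i, ?_, ?_, ?_⟩
  · intro i n hn ν hν
    have h1 := hN i n hn ν hν
    have h2 : N i * n ≤ (∑ i, N i) * n :=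
      Nat.mul_le_mul_right _ (Finset.single_le_sum (fun j _ => Nat.zero_le (N j)) (Finset.mem_univ i))
    have h3 : (pull (P i) • ν) ^ ((∑ i, N i) * n) = (pull (P i) • ν) ^ ((∑ i, N i) * n - N i * n) * (pull (P i) • ν) ^ (N i * n) := by
      rw [← pow_add, Nat.sub_add_cancel h2]
    rw [h3]
    exact mul_mem h1 _
  · intro x
    have h1 : ∀ i, ‖pull (P i) x‖ ≤ ‖H i (iot x)‖ + ε' := by
      intro i
      have h2 := hPx i (iot x)
      have h3 := norm_add_le (P i (iot x) - H i (iot x)) (H i (iot x))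
      rw [sub_add_cancel] at h3
      change ‖P i (iot x)‖ ≤ _
      linarith
    calc ∑ i, ‖pull (P i) x‖ ≤ ∑ i, (‖H i (iot x)‖ + ε') := Finset.sum_le_sum fun i _ => h1 i
      _ = ∑ i, ‖H i (iot x)‖ + m * ε' := by rw [Finset.sum_add_distrib]; simp
      _ ≤ 1 + m * (1 / (m + 1)) := by
          apply add_le_add (hHs _)
          exact mul_le_mul_of_nonneg_left (min_le_right _ _) (by positivity)
      _ ≤ 2 := by
          have : (m : ℝ) * (1 / (m + 1)) ≤ 1 := by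
            rw [mul_one_div, div_le_one (by positivity)]; linarith
          linarith
  · intro i x hx
    rw [← hHu i x hx]
    exact (hPx i (iot x)).trans (min_le_left _ _)

end a22


end
end Pool.Agent.Helper550.Rad
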