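import Mathlib
import Pool.Agent.Helper550.RadB
set_option autoImplicit false
set_option linter.unusedSectionVars false
set_option linter.style.haveILetI false
set_option linter.unusedVariables false
open scoped ZeroAtInfty BoundedContinuousFunction ComplexOrder Topology Pointwise
open MeasureTheory Filter Set

namespace Pool.Agent.Helper550.Rad
noncomputable section

universe u
variable {G : Type u} [AddCommGroup G] [TopologicalSpace G] [IsTopologicalAddGroup G]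
  [T2Space G] [LocallyCompactSpace G]

section a23

/-- a recurring task -/
structure Task (G : Type u) [TopologicalSpace G] where
  /-- localisation -/
  φ : G →ᵇ ℂ
  /-- cell function -/
  b : G →ᵇ ℂ
  /-- order -/
  o : ℕ

/-- state of the construction -/
structure St (G : Type u) [TopologicalSpace G] where
  /-- current density -/
  f : Meas G
  /-- current scale -/
  V : Set G
  /-- protected lists -/
  P : List (List (G →ᵇ ℂ))
  /-- tested lists -/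
  L : List (List (G →ᵇ ℂ))
  /-- test functions -/
  Y : List C₀(G, ℂ)
  /-- tasks -/
  T : List (Task G)

variable [MeasurableSpace G] [BorelSpace G]

/-- invariants -/
structure Good (u0 : C₀(G, ℂ)) (s : St G) : Prop where
  mem : s.f ∈ L1c G
  pos : Pos s.f
  sup : bc u0 • s.f = s.f
  nh : s.V ∈ 𝓝 (0 : G)
  p1 : ∀ l ∈ s.P, l ≠ [] ∧ ∀ t ∈ l, U01 t
  l1 : ∀ l ∈ s.L, l ≠ [] ∧ ∀ t ∈ l, U01 t
  t1 : ∀ τ ∈ s.T, U01 τ.φ ∧ U01 τ.b ∧ τ.b * τ.φ = τ.b ∧ 1 ≤ τ.o ∧ List.replicate τ.o τ.b ∈ s.L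
  pt : ∀ l ∈ s.P, ∀ τ ∈ s.T, 2 * τ.o + 1 ≤ l.length ∨ ∃ t ∈ l, t * τ.φ = 0
  pv : ∀ l ∈ s.P, ∀ ψ, Small s.V ψ → ∃ t ∈ l, t * ψ = 0

omit [MeasurableSpace G] [BorelSpace G] in
/-- small extension -/
structure Ext (ε : ℝ) (s s' : St G) : Prop where
  v : s'.V ⊆ s.V
  p : ∀ l ∈ s.P, l ∈ s'.P
  l : ∀ l ∈ s.L, l ∈ s'.L
  y : ∀ y ∈ s.Y, y ∈ s'.Y
  t : ∀ τ ∈ s.T, τ ∈ s'.T
  dp : ∀ l ∈ s.P, ‖prodl l s'.f - prodl l s.f‖ ≤ ε
  dl : ∀ l ∈ s.L, ∀ y ∈ s.Y, ‖prodl l s'.f y - prodl l s.f y‖ ≤ ε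

omit [MeasurableSpace G] [BorelSpace G] in
theorem Ext.trans {ε ε' : ℝ} {s s' s'' : St G} (h : Ext ε s s') (h' : Ext ε' s' s'') : Ext (ε + ε') s s'' := by
  refine ⟨h'.v.trans h.v, fun l hl => h'.p l (h.p l hl), fun l hl => h'.l l (h.l l hl), fun l hl => h'.y l (h.y l hl),
    fun l hl => h'.t l (h.t l hl), ?_, ?_⟩
  · intro l hl
    have h1 := h.dp l hl
    have h2 := h'.dp l (h.p l hl)
    have h3 := norm_add_le (prodl l s''.f - prodl l s'.f) (prodl l s'.f - prodl l s.f)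
    rw [sub_add_sub_cancel] at h3
    linarith
  · intro l hl y hy
    have h1 := h.dl l hl y hy
    have h2 := h'.dl l (h.l l hl) y (h.y y hy)
    have h3 := norm_add_le (prodl l s''.f y - prodl l s'.f y) (prodl l s'.f y - prodl l s.f y)
    rw [sub_add_sub_cancel] at h3
    linarith

/-- task `τ` has just been processed -/
def Proc (w : ℕ → C₀(G, ℂ)) (ε : ℝ) (τ : Task G) (s : St G) : Prop :=
  ∃ q : C₀(G, ℂ), Cut q ∧ w τ.o - q ∈ s.Y ∧ (prodl (List.replicate τ.o τ.b) s.f (w τ.o - q)).re ≤ ε ∧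
    ∫ x, ‖q x‖ ∂(Measure.addHaar : Measure G) ≤ ε

theorem Proc.ext {w : ℕ → C₀(G, ℂ)} {ε ε' : ℝ} {τ : Task G} {s s' : St G} (h : Proc w ε τ s) (hL : List.replicate τ.o τ.b ∈ s.L)
    (hE : Ext ε' s s') (hε' : 0 ≤ ε') : Proc w (ε + ε') τ s' := by
  obtain ⟨q, h1, h2, h3, h4⟩ := h
  refine ⟨q, h1, hE.y _ h2, ?_, by linarith⟩
  have h5 := (Complex.re_le_norm _).trans (hE.dl _ hL _ h2)
  rw [Complex.sub_re] at h5
  linarith

theorem Proc.mono {w : ℕ → C₀(G, ℂ)} {ε ε' : ℝ} {τ : Task G} {s : St G} (h : Proc w ε τ s) (hε' : ε ≤ ε') : Proc w ε' τ s := by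
  obtain ⟨q, h1, h2, h3, h4⟩ := h
  exact ⟨q, h1, h2, h3.trans hε', h4.trans hε'⟩

theorem stepB1 {κ : ℝ} {F : Filter (G →ᵇ ℂ)} (hR : RLD κ F) {u0 : C₀(G, ℂ)} (hu0 : Cut u0) {w w2 : ℕ → C₀(G, ℂ)}
    (hw : ∀ n, Cut (w n)) (hw2 : ∀ n, Cut (w2 n)) (hww : ∀ n, ∀ x ∈ tsupport (w n), w2 n x = 1)
    {s : St G} (hs : Good u0 s) {τ : Task G} (hτ : τ ∈ s.T) {ε : ℝ} (hε : 0 < ε) :
    ∃ s' : St G, Good u0 s' ∧ Ext ε s s' ∧ s'.T = s.T ∧ Proc w ε τ s' := by
  obtain ⟨h1, h2, h3, h4, h5⟩ := hs.t1 τ hτ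
  obtain ⟨f', q, b1, b2, b3, b4, b5, b6, b7, b8, b9⟩ := block hR hu0 hs.mem hs.pos hs.sup h1 h2 h3 h4 (hw τ.o) (hw2 τ.o)
    (hww τ.o) (s.P ++ s.L) (fun l hl => by
      rcases List.mem_append.1 hl with hl | hl
      · exact hs.p1 l hl
      · exact hs.l1 l hl) s.Y hε
  refine ⟨⟨f', s.V, s.P, s.L, (w τ.o - q) :: s.Y, s.T⟩, ⟨b1, b2, b3, hs.nh, hs.p1, hs.l1, hs.t1, hs.pt, hs.pv⟩,
    ⟨subset_rfl, fun _ h => h, fun _ h => h, fun _ h => List.mem_cons_of_mem _ h, fun _ h => h, ?_, ?_⟩, rfl, ?_⟩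
  · intro l hl
    rcases hs.pt l hl τ hτ with h | h
    · exact b6 l (List.mem_append.2 (Or.inl hl)) h
    · exact b5 l (List.mem_append.2 (Or.inl hl)) h
  · intro l hl y hy
    exact b4 l (List.mem_append.2 (Or.inr hl)) y hy
  · exact ⟨q, b7, List.mem_cons_self, b8, b9⟩

theorem stepB {κ : ℝ} {F : Filter (G →ᵇ ℂ)} (hR : RLD κ F) {u0 : C₀(G, ℂ)} (hu0 : Cut u0) {w w2 : ℕ → C₀(G, ℂ)}
    (hw : ∀ n, Cut (w n)) (hw2 : ∀ n, Cut (w2 n)) (hww : ∀ n, ∀ x ∈ tsupport (w n), w2 n x = 1)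
    (Ts : List (Task G)) : ∀ (s : St G) (ε : ℝ), Good u0 s → (∀ τ ∈ Ts, τ ∈ s.T) → 0 < ε →
    ∃ s' : St G, Good u0 s' ∧ Ext ε s s' ∧ s'.T = s.T ∧ ∀ τ ∈ Ts, Proc w ε τ s' := by
  induction Ts with
  | nil =>
    intro s ε hs _ hε
    exact ⟨s, hs, ⟨subset_rfl, fun _ h => h, fun _ h => h, fun _ h => h, fun _ h => h, fun l _ => by simp [hε.le],
      fun l _ y _ => by simp [hε.le]⟩, rfl, fun τ hτ => by simp at hτ⟩
  | cons τ Ts ih =>
    intro s ε hs hT hε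
    obtain ⟨s1, g1, e1, t1, p1⟩ := stepB1 hR hu0 hw hw2 hww hs (hT τ (by simp)) (half_pos hε)
    obtain ⟨s2, g2, e2, t2, p2⟩ := ih s1 (ε / 2) g1 (fun τ' h => by rw [t1]; exact hT τ' (by simp [h])) (half_pos hε)
    refine ⟨s2, g2, by have := e1.trans e2; rwa [add_halves] at this, by rw [t2, t1], ?_⟩
    intro τ' hτ'
    rcases List.mem_cons.1 hτ' with rfl | h
    · have hL := (g1.t1 τ' (by rw [t1]; exact hT τ' (by simp))).2.2.2.2
      have := p1.ext hL e2 (half_pos hε).le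
      rwa [add_halves] at this
    · exact (p2 τ' h).mono (by linarith)

/-- level data recorded in a state -/
structure Lev (u0 : C₀(G, ℂ)) (k : ℕ) (ε : ℝ) (s : St G) (m : ℕ) (u φ p : Fin m → (G →ᵇ ℂ)) (R : Fin m → Finset (Fin m))
    (N J : ℕ) : Prop where
  u1 : ∀ i, U01 (u i)
  us : ∀ x ∈ tsupport u0, ∑ i, u i x = 1
  r : ∀ i, ‖s.f (bm (∑ j ∈ R i, u j) u0)‖ ≤ ε
  ry : ∀ i, bm (∑ j ∈ R i, u j) u0 ∈ s.Y
  pr : ∀ i j, j ∉ R i → (u i :: u j :: List.replicate J 1) ∈ s.P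
  tk : ∀ i, (⟨φ i, u i, 3 * (N * k) + 1⟩ : Task G) ∈ s.T
  n1 : ∀ i, ∀ n, 1 ≤ n → ∀ ν : Meas G, ν ^ n ∈ L1c G → (p i • ν) ^ (N * n) ∈ L1c G
  p2 : ∀ x, ∑ i, ‖p i x‖ ≤ 2
  pu : ∀ i, ∀ x ∈ tsupport u0, ‖p i x - u i x‖ ≤ 1 / (100 * (m + 1))

/-- there is level data -/
def Level (u0 : C₀(G, ℂ)) (k : ℕ) (ε : ℝ) (s : St G) : Prop :=
  ∃ (m : ℕ) (u φ p : Fin m → (G →ᵇ ℂ)) (R : Fin m → Finset (Fin m)) (N J : ℕ), Lev u0 k ε s m u φ p R N J

theorem Level.ext {u0 : C₀(G, ℂ)} {k : ℕ} {ε ε' : ℝ} {s s' : St G} (h : Level u0 k ε s) (hE : Ext ε' s s')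
    (h1 : [(1 : G →ᵇ ℂ)] ∈ s.L) : Level u0 k (ε + ε') s' := by
  obtain ⟨m, u, φ, p, R, N, J, a1, a2, a3, a4, a5, a6, a7, a8, a9⟩ := h
  refine ⟨m, u, φ, p, R, N, J, a1, a2, ?_, fun i => hE.y _ (a4 i), fun i j hij => hE.p _ (a5 i j hij), fun i => hE.t _ (a6 i), a7, a8, a9⟩
  intro i
  have h2 := hE.dl _ h1 _ (a4 i)
  simp only [prodl_cons, prodl_nil, mul_one, one_smul] at h2
  have h3 := norm_add_le (s'.f (bm (∑ j ∈ R i, u j) u0) - s.f (bm (∑ j ∈ R i, u j) u0)) (s.f (bm (∑ j ∈ R i, u j) u0))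
  rw [sub_add_cancel] at h3
  linarith [a3 i]

theorem U01_one : U01 (1 : G →ᵇ ℂ) := fun _ => ⟨zero_le_one, le_rfl⟩

theorem stepA [hnd : NeBot (𝓝[≠] (0 : G))] {u0 : C₀(G, ℂ)} (hu0 : Cut u0) {s : St G} (hs : Good u0 s) (k : ℕ) {ε : ℝ} (hε : 0 < ε) :
    ∃ s' : St G, Good u0 s' ∧ Ext 0 s s' ∧ Level u0 k ε s' := by
  obtain ⟨V, hV, hVs, m, u, φ, R, c1, c2, c3, c4, c5, c6, c7⟩ := exists_cells hu0 hs.mem hs.nh hε
  obtain ⟨p, N, t1, t2, t3⟩ := exists_trig (K := tsupport u0) hu0.cs c1 c4 (show (0 : ℝ) < 1 / (100 * (m + 1)) by positivity)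
  set o : ℕ := 3 * (N * k) + 1 with ho
  set J : ℕ := (s.T.map (fun τ => 2 * τ.o)).sum with hJ
  set newP : List (List (G →ᵇ ℂ)) :=
    ((List.finRange m ×ˢ List.finRange m).filter (fun q => q.2 ∉ R q.1)).map (fun q => u q.1 :: u q.2 :: List.replicate J 1) with hnewP
  set newL : List (List (G →ᵇ ℂ)) := (List.finRange m).map (fun i => List.replicate o (u i)) with hnewL
  set newY : List C₀(G, ℂ) := (List.finRange m).map (fun i => bm (∑ j ∈ R i, u j) u0) with hnewY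
  set newT : List (Task G) := (List.finRange m).map (fun i => ⟨φ i, u i, o⟩) with hnewT
  have memP : ∀ l ∈ newP, ∃ i j, j ∉ R i ∧ l = u i :: u j :: List.replicate J 1 := by
    intro l hl
    obtain ⟨q, hq, rfl⟩ := List.mem_map.1 hl
    rw [List.mem_filter] at hq
    exact ⟨q.1, q.2, by simpa using hq.2, rfl⟩
  have memT : ∀ τ ∈ newT, ∃ i, τ = ⟨φ i, u i, o⟩ := by
    intro τ hτ
    obtain ⟨i, _, rfl⟩ := List.mem_map.1 hτ
    exact ⟨i, rfl⟩
  refine ⟨⟨s.f, V, newP ++ s.P, newL ++ s.L, newY ++ s.Y, newT ++ s.T⟩, ⟨hs.mem, hs.pos, hs.sup, hV, ?_, ?_, ?_, ?_, ?_⟩,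
    ⟨hVs, fun l hl => List.mem_append.2 (Or.inr hl), fun l hl => List.mem_append.2 (Or.inr hl),
      fun l hl => List.mem_append.2 (Or.inr hl), fun l hl => List.mem_append.2 (Or.inr hl), fun l _ => by simp, fun l _ y _ => by simp⟩,
    m, u, φ, p, R, N, J, c1, c4, c6, ?_, ?_, ?_, t1, t2, t3⟩
  · intro l hl
    rcases List.mem_append.1 hl with hl | hl
    · obtain ⟨i, j, _, rfl⟩ := memP l hl
      refine ⟨by simp, fun t ht => ?_⟩
      rcases List.mem_cons.1 ht with rfl | ht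
      · exact c1 i
      rcases List.mem_cons.1 ht with rfl | ht
      · exact c1 j
      rw [List.eq_of_mem_replicate ht]; exact U01_one
    · exact hs.p1 l hl
  · intro l hl
    rcases List.mem_append.1 hl with hl | hl
    · obtain ⟨i, _, rfl⟩ := List.mem_map.1 hl
      refine ⟨?_, fun t ht => ?_⟩
      · intro h; rw [List.replicate_eq_nil_iff] at h; omega
      · rw [List.eq_of_mem_replicate ht]; exact c1 i
    · exact hs.l1 l hl
  · intro τ hτ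
    rcases List.mem_append.1 hτ with hτ | hτ
    · obtain ⟨i, rfl⟩ := memT τ hτ
      exact ⟨c2 i, c1 i, c3 i, by change 1 ≤ o; omega,
        List.mem_append.2 (Or.inl (List.mem_map.2 ⟨i, List.mem_finRange i, rfl⟩))⟩
    · obtain ⟨a1, a2, a3, a4, a5⟩ := hs.t1 τ hτ
      exact ⟨a1, a2, a3, a4, List.mem_append.2 (Or.inr a5)⟩
  · intro l hl τ hτ
    rcases List.mem_append.1 hτ with hτ | hτ
    · obtain ⟨i, rfl⟩ := memT τ hτ
      right
      rcases List.mem_append.1 hl with hl | hl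
      · obtain ⟨i', j', hij, rfl⟩ := memP l hl
        rcases c7 (φ i) (c5 i) i' j' hij with h | h
        · exact ⟨u i', by simp, h⟩
        · exact ⟨u j', by simp, h⟩
      · exact hs.pv l hl (φ i) ((c5 i).mono hVs)
    · rcases List.mem_append.1 hl with hl | hl
      · obtain ⟨i', j', hij, rfl⟩ := memP l hl
        left
        have h1 : 2 * τ.o ≤ J := by
          rw [hJ]
          exact List.single_le_sum (fun _ _ => Nat.zero_le _) _ (List.mem_map.2 ⟨τ, hτ, rfl⟩)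
        simp only [List.length_cons, List.length_replicate]
        omega
      · exact hs.pt l hl τ hτ
  · intro l hl ψ hψ
    rcases List.mem_append.1 hl with hl | hl
    · obtain ⟨i', j', hij, rfl⟩ := memP l hl
      rcases c7 ψ hψ i' j' hij with h | h
      · exact ⟨u i', by simp, h⟩
      · exact ⟨u j', by simp, h⟩
    · exact hs.pv l hl ψ (hψ.mono hVs)
  · intro i
    exact List.mem_append.2 (Or.inl (List.mem_map.2 ⟨i, List.mem_finRange i, rfl⟩))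
  · intro i j hij
    refine List.mem_append.2 (Or.inl (List.mem_map.2 ⟨(i, j), ?_, rfl⟩))
    rw [List.mem_filter]
    refine ⟨by simp, by simpa using hij⟩
  · intro i
    exact List.mem_append.2 (Or.inl (List.mem_map.2 ⟨i, List.mem_finRange i, rfl⟩))

theorem step [hnd : NeBot (𝓝[≠] (0 : G))] {κ : ℝ} {F : Filter (G →ᵇ ℂ)} (hR : RLD κ F) {u0 : C₀(G, ℂ)} (hu0 : Cut u0) {w w2 : ℕ → C₀(G, ℂ)}
    (hw : ∀ n, Cut (w n)) (hw2 : ∀ n, Cut (w2 n)) (hww : ∀ n, ∀ x ∈ tsupport (w n), w2 n x = 1)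
    {s : St G} (hs : Good u0 s) (h1 : [(1 : G →ᵇ ℂ)] ∈ s.L) (k : ℕ) {ε : ℝ} (hε : 0 < ε) :
    ∃ s' : St G, Good u0 s' ∧ [(1 : G →ᵇ ℂ)] ∈ s'.L ∧ Ext ε s s' ∧ Level u0 k ε s' ∧ ∀ τ ∈ s'.T, Proc w ε τ s' := by
  obtain ⟨s1, g1, e1, v1⟩ := stepA hu0 hs k (half_pos hε)
  obtain ⟨s2, g2, e2, t2, p2⟩ := stepB hR hu0 hw hw2 hww s1.T s1 (ε / 2) g1 (fun _ h => h) (half_pos hε)
  have h1' := e1.l _ h1
  refine ⟨s2, g2, e2.l _ h1', ?_, ?_, ?_⟩
  · have e3 := e1.trans e2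
    rw [zero_add] at e3
    exact ⟨e3.v, e3.p, e3.l, e3.y, e3.t, fun l hl => (e3.dp l hl).trans (by linarith), fun l hl y hy => (e3.dl l hl y hy).trans (by linarith)⟩
  · have := v1.ext e2 h1'
    rwa [add_halves] at this
  · intro τ hτ
    rw [t2] at hτ
    exact (p2 τ hτ).mono (by linarith)

end a23

section a24

/-- tolerance sequence -/
def ee (n : ℕ) : ℝ := (1 / 2) ^ (n + 3)

theorem ee_pos (n : ℕ) : 0 < ee n := by rw [ee]; positivity
theorem ee_succ (n : ℕ) : ee (n + 1) = ee n / 2 := by rw [ee, ee]; ring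
theorem ee_zero : ee 0 = 1 / 8 := by rw [ee]; norm_num
theorem ee_tend : Tendsto ee atTop (𝓝 0) := by
  have h1 : Tendsto (fun n : ℕ => ((1 : ℝ) / 2) ^ n) atTop (𝓝 0) :=
    tendsto_pow_atTop_nhds_zero_of_lt_one (by norm_num) (by norm_num)
  exact (tendsto_add_atTop_iff_nat 3).2 h1

theorem tele {E : Type*} [SeminormedAddCommGroup E] {a : ℕ → E} {n : ℕ} (h : ∀ i, n ≤ i → ‖a (i + 1) - a i‖ ≤ ee i) :
    ∀ m, n ≤ m → ‖a m - a n‖ ≤ 2 * ee n - 2 * ee m := by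
  intro m hm
  induction m, hm using Nat.le_induction with
  | base => simp
  | succ m hm ih =>
    have h1 := h m hm
    have h2 := norm_add_le (a (m + 1) - a m) (a m - a n)
    rw [sub_add_sub_cancel] at h2
    rw [ee_succ]
    linarith

theorem tele' {E : Type*} [SeminormedAddCommGroup E] {a : ℕ → E} {n : ℕ} (h : ∀ i, n ≤ i → ‖a (i + 1) - a i‖ ≤ ee i)
    (m : ℕ) (hm : n ≤ m) : ‖a m - a n‖ ≤ 2 * ee n := by
  have := tele h m hm
  linarith [ee_pos m]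

theorem exists_weak_lim {f : ℕ → Meas G} {C : ℝ} (hC : 0 ≤ C) (h : ∀ n, ‖f n‖ ≤ C) :
    ∃ μ : Meas G, ∀ g, Tendsto (fun n => f n g) (hyperfilter ℕ : Filter ℕ) (𝓝 (μ g)) := by
  have hex : ∀ g : C₀(G, ℂ), ∃ z : ℂ, Tendsto (fun n => f n g) (hyperfilter ℕ : Filter ℕ) (𝓝 z) := by
    intro g
    have hc : IsCompact (Metric.closedBall (0 : ℂ) (C * ‖g‖)) := isCompact_closedBall 0 _
    have hmem : Metric.closedBall (0 : ℂ) (C * ‖g‖) ∈ (hyperfilter ℕ).map (fun n => f n g) := by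
      rw [Ultrafilter.mem_map]
      apply Filter.univ_mem'
      intro n
      change f n g ∈ Metric.closedBall (0 : ℂ) (C * ‖g‖)
      rw [mem_closedBall_zero_iff]
      exact Meas.le_of (h n) le_rfl
    obtain ⟨w, _, hw⟩ := hc.ultrafilter_le_nhds' _ hmem
    exact ⟨w, hw⟩
  choose φ hφ using hex
  refine ⟨Meas.mk { toFun := φ, map_add' := fun x y => ?_, map_smul' := fun c x => ?_ } C (fun g => ?_), fun g => hφ g⟩
  · refine tendsto_nhds_unique (hφ (x + y)) ?_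
    refine ((hφ x).add (hφ y)).congr fun n => ?_
    rw [map_add]
  · refine tendsto_nhds_unique (hφ (c • x)) ?_
    refine ((hφ x).const_smul c).congr fun n => ?_
    rw [map_smul]
  · refine le_of_tendsto (hφ g).norm (Eventually.of_forall fun n => ?_)
    exact Meas.le_of (h n) le_rfl

variable [MeasurableSpace G] [BorelSpace G]

theorem exists_init : ∃ (u0 : C₀(G, ℂ)) (f0 : Meas G), Cut u0 ∧ f0 ∈ L1c G ∧ Pos f0 ∧ bc u0 • f0 = f0 ∧ ‖f0‖ = 1 := by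
  obtain ⟨v, hv, hv1⟩ := exists_cut' (G := G) (isCompact_singleton (x := (0 : G)))
  obtain ⟨u0, hu0, hu1⟩ := exists_cut' (K := tsupport v) hv.cs
  have h1 : bc u0 • den v = den v := by
    rw [act_den (cs_int hv.cs)]
    congr 1
    ext x
    by_cases hx : v x = 0
    · rw [hx, mul_zero]
    · rw [bc_apply, hu1 x (subset_tsupport _ hx), one_mul]
  have hne : ‖den v‖ ≠ 0 := by
    intro h0
    rw [norm_eq_zero] at h0
    have h2 : den v u0 = 0 := by rw [h0]; rfl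
    rw [den_apply (cs_int hv.cs)] at h2
    have h3 : ∀ x, v x * u0 x = ((v x).re : ℂ) := by
      intro x
      have h5 := Complex.nonneg_iff.1 (hv.nn x)
      have h6 : v x = ((v x).re : ℂ) := Complex.ext (by simp) (by simp [h5.2.symm])
      by_cases hx : v x = 0
      · rw [hx]; simp
      · rw [hu1 x (subset_tsupport _ hx), mul_one]; exact h6
    simp_rw [h3] at h2
    have h4 : ∫ x, ((v x).re : ℂ) ∂(Measure.addHaar : Measure G) = ((∫ x, (v x).re ∂(Measure.addHaar : Measure G) : ℝ) : ℂ) :=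
      integral_ofReal
    rw [h4] at h2
    have h5 : ∫ x, (v x).re ∂(Measure.addHaar : Measure G) = 0 := by exact_mod_cast h2
    have h6 : 0 < ∫ x, (v x).re ∂(Measure.addHaar : Measure G) := by
      have hc : Continuous fun x => (v x).re := Complex.continuous_re.comp v.continuous
      apply hc.integral_pos_of_hasCompactSupport_nonneg_nonzero (x := 0)
      · exact hv.cs.comp_left (g := Complex.re) rfl
      · intro x; exact (Complex.nonneg_iff.1 (hv.nn x)).1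
      · simp [hv1 0 rfl]
    linarith
  refine ⟨u0, ((‖den v‖⁻¹ : ℝ) : ℂ) • den v, hu0, (L1c G).smul_mem _ (den_mem hv.cs), ?_, ?_, ?_⟩
  · intro g hg
    rw [Meas.smul_apply]
    apply mul_nonneg _ (den_pos hv g hg)
    exact_mod_cast inv_nonneg.2 (norm_nonneg _)
  · rw [act_csmul, h1]
  · rw [norm_smul, Complex.norm_real, norm_inv, norm_norm, inv_mul_cancel₀ hne]

theorem exists_seq [hnd : NeBot (𝓝[≠] (0 : G))] {κ : ℝ} {F : Filter (G →ᵇ ℂ)} (hR : RLD κ F) {u0 : C₀(G, ℂ)} (hu0 : Cut u0)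
    {w w2 : ℕ → C₀(G, ℂ)} (hw : ∀ n, Cut (w n)) (hw2 : ∀ n, Cut (w2 n)) (hww : ∀ n, ∀ x ∈ tsupport (w n), w2 n x = 1)
    {f0 : Meas G} (hf0 : f0 ∈ L1c G) (hpos : Pos f0) (hin : bc u0 • f0 = f0) :
    ∃ s : ℕ → St G, (∀ n, Good u0 (s n)) ∧ (∀ n, [(1 : G →ᵇ ℂ)] ∈ (s n).L) ∧ (s 0).f = f0 ∧ u0 ∈ (s 0).Y ∧
      (∀ n, Ext (ee n) (s n) (s (n + 1))) ∧ (∀ n, Level u0 n (ee n) (s (n + 1))) ∧
      (∀ n, ∀ τ ∈ (s (n + 1)).T, Proc w (ee n) τ (s (n + 1))) := by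
  have hstep : ∀ (n : ℕ) (s : {s : St G // Good u0 s ∧ [(1 : G →ᵇ ℂ)] ∈ s.L}), ∃ s' : {s : St G // Good u0 s ∧ [(1 : G →ᵇ ℂ)] ∈ s.L},
      Ext (ee n) s.1 s'.1 ∧ Level u0 n (ee n) s'.1 ∧ ∀ τ ∈ s'.1.T, Proc w (ee n) τ s'.1 := by
    intro n s
    obtain ⟨s', a1, a2, a3, a4, a5⟩ := step hR hu0 hw hw2 hww s.2.1 s.2.2 n (ee_pos n)
    exact ⟨⟨s', a1, a2⟩, a3, a4, a5⟩
  choose nx hnx using hstep
  let s0 : {s : St G // Good u0 s ∧ [(1 : G →ᵇ ℂ)] ∈ s.L} := ⟨⟨f0, univ, [], [[1]], [u0], []⟩,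
    ⟨hf0, hpos, hin, univ_mem, by simp, by
      intro l hl
      rw [List.mem_singleton] at hl
      subst hl
      exact ⟨by simp, fun t ht => by rw [List.mem_singleton] at ht; rw [ht]; exact U01_one⟩, by simp, by simp, by simp⟩, by simp⟩
  let s : ℕ → {s : St G // Good u0 s ∧ [(1 : G →ᵇ ℂ)] ∈ s.L} := fun n => Nat.rec s0 (fun n x => nx n x) n
  refine ⟨fun n => (s n).1, fun n => (s n).2.1, fun n => (s n).2.2, rfl, by simp [s, s0], fun n => (hnx n (s n)).1,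
    fun n => (hnx n (s n)).2.1, fun n => (hnx n (s n)).2.2⟩

end a24

section a25

variable [MeasurableSpace G] [BorelSpace G]

theorem q_tend {q : ℕ → C₀(G, ℂ)} (hq : ∀ n, Cut (q n))
    (hq0 : Tendsto (fun n => ∫ x, ‖q n x‖ ∂(Measure.addHaar : Measure G)) atTop (𝓝 0)) {g : Meas G} (hg : g ∈ L1c G) :
    Tendsto (fun n => g (q n)) atTop (𝓝 0) := by
  refine L1c_induction (P := fun g => Tendsto (fun n => g (q n)) atTop (𝓝 0)) ?_ ?_ ?_ ?_ ?_ hg
  · intro f hf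
    have h1 := hq0.const_mul ‖f‖
    rw [mul_zero] at h1
    refine squeeze_zero_norm (fun n => ?_) h1
    rw [den_apply (cs_int hf), ← integral_const_mul]
    apply norm_integral_le_of_norm_le
    · exact ((cs_int (hq n).cs).norm).const_mul _
    · refine Eventually.of_forall fun x => ?_
      rw [norm_mul]
      exact mul_le_mul_of_nonneg_right (c0_apply_le f x) (norm_nonneg _)
  · simp
  · intro μ ν h1 h2
    have := h1.add h2
    rw [add_zero] at this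
    exact this
  · intro c μ h
    have := h.const_mul c
    rw [mul_zero] at this
    exact this
  · rw [← isSeqClosed_iff_isClosed]
    intro s m hs hm
    change Tendsto (fun n => m (q n)) atTop (𝓝 0)
    rw [Metric.tendsto_atTop]
    intro ε hε
    obtain ⟨N, hN⟩ := Metric.tendsto_atTop.1 hm (ε / 2) (half_pos hε)
    have h1 : Tendsto (fun n => s N (q n)) atTop (𝓝 0) := hs N
    obtain ⟨M, hM⟩ := Metric.tendsto_atTop.1 h1 (ε / 2) (half_pos hε)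
    refine ⟨M, fun n hn => ?_⟩
    have h2 := hM n hn
    have h3 := hN N le_rfl
    rw [dist_zero_right] at h2 ⊢
    rw [dist_eq_norm] at h3
    have h4 : m (q n) = s N (q n) - (s N - m) (q n) := by rw [Meas.sub_apply]; ring
    have h5 := Meas.le_of h3.le (hq n).norm_le
    rw [h4]
    linarith [norm_sub_le (s N (q n)) ((s N - m) (q n))]

theorem main_data [hnd : NeBot (𝓝[≠] (0 : G))] : ∃ (u0 : C₀(G, ℂ)) (μ : Meas G), Cut u0 ∧ Pos μ ∧ bc u0 • μ = μ ∧ 3 / 4 ≤ ‖μ‖ ∧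
    (∀ ε > 0, ∃ (m : ℕ) (u : Fin m → (G →ᵇ ℂ)) (R : Fin m → Finset (Fin m)) (J : ℕ), (∀ i, U01 (u i)) ∧
      (∀ x ∈ tsupport u0, ∑ i, u i x = 1) ∧ (∀ i, ‖(∑ j ∈ R i, u j) • μ‖ ≤ ε) ∧
      ∀ i j, j ∉ R i → (u i • μ) * ((u j • μ) * μ ^ J) ∈ L1c G) ∧
    (∀ k, ∃ (m : ℕ) (u p : Fin m → (G →ᵇ ℂ)) (N : ℕ), (∀ i, U01 (u i)) ∧ (∀ x ∈ tsupport u0, ∑ i, u i x = 1) ∧
      (∀ i, ∀ n, 1 ≤ n → ∀ ν : Meas G, ν ^ n ∈ L1c G → (p i • ν) ^ (N * n) ∈ L1c G) ∧
      (∀ x, ∑ i, ‖p i x‖ ≤ 2) ∧ (∀ i, ∀ x ∈ tsupport u0, ‖p i x - u i x‖ ≤ 1 / (100 * (m + 1))) ∧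
      ∀ i, ∀ g ∈ L1c G, ‖u i • μ‖ ^ (3 * (N * k) + 1) ≤ ‖(u i • μ) ^ (3 * (N * k) + 1) - g‖) := by
  obtain ⟨κ, F, hR⟩ := exists_RLD (G := G)
  obtain ⟨u0, f0, hu0, hf0, hpos0, hin0, hn0⟩ := exists_init (G := G)
  obtain ⟨w, hw, hw0, hws⟩ := exists_w hu0
  have hw2ex : ∀ n, ∃ v : C₀(G, ℂ), Cut v ∧ ∀ x ∈ tsupport (w n), v x = 1 := fun n => exists_cut' (K := tsupport (w n)) (hw n).cs
  choose w2 hw2 hww using hw2ex
  obtain ⟨s, sG, sL1, s0, sY0, sE, sLev, sPr⟩ := exists_seq hR hu0 hw hw2 hww hf0 hpos0 hin0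
  -- monotonicity
  have mP : ∀ n m, n ≤ m → ∀ l ∈ (s n).P, l ∈ (s m).P := by
    intro n m hnm
    induction m, hnm using Nat.le_induction with
    | base => exact fun _ h => h
    | succ m _ ih => exact fun l hl => (sE m).p l (ih l hl)
  have mL : ∀ n m, n ≤ m → ∀ l ∈ (s n).L, l ∈ (s m).L := by
    intro n m hnm
    induction m, hnm using Nat.le_induction with
    | base => exact fun _ h => h
    | succ m _ ih => exact fun l hl => (sE m).l l (ih l hl)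
  have mY : ∀ n m, n ≤ m → ∀ l ∈ (s n).Y, l ∈ (s m).Y := by
    intro n m hnm
    induction m, hnm using Nat.le_induction with
    | base => exact fun _ h => h
    | succ m _ ih => exact fun l hl => (sE m).y l (ih l hl)
  have mT : ∀ n m, n ≤ m → ∀ l ∈ (s n).T, l ∈ (s m).T := by
    intro n m hnm
    induction m, hnm using Nat.le_induction with
    | base => exact fun _ h => h
    | succ m _ ih => exact fun l hl => (sE m).t l (ih l hl)
  -- norms
  have hmass : ∀ n, (s n).f u0 = (‖(s n).f‖ : ℂ) := fun n => (sG n).pos.norm_eq hu0 (sG n).sup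
  have hnorm : ∀ n, |‖(s n).f‖ - 1| ≤ 1 / 4 := by
    intro n
    have h1 := tele' (a := fun n => (s n).f u0) (n := 0) (fun i _ => by
      have := (sE i).dl [1] (sL1 i) u0 (mY 0 i (Nat.zero_le _) u0 sY0)
      simpa [prodl_cons] using this) n (Nat.zero_le _)
    rw [hmass, hmass, s0, hn0, ee_zero, ← Complex.ofReal_sub, Complex.norm_real] at h1
    have h2 : |‖(s n).f‖ - 1| ≤ 2 * (1 / 8) := h1
    linarith
  have hC : ∀ n, ‖(s n).f‖ ≤ 2 := fun n => by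
    have := (abs_le.1 (hnorm n)).2
    linarith
  obtain ⟨μ, hμ⟩ := exists_weak_lim (f := fun n => (s n).f) (by norm_num : (0 : ℝ) ≤ 2) hC
  have hμpos : Pos μ := fun g hg => ge_of_tendsto (hμ g) (Eventually.of_forall fun n => (sG n).pos g hg)
  have hμin : bc u0 • μ = μ := by
    ext g
    refine tendsto_nhds_unique (hμ (bm (bc u0) g)) ((hμ g).congr fun n => ?_)
    rw [← act_apply, (sG n).sup]
  have hμnorm : 3 / 4 ≤ ‖μ‖ := by
    have h1 := hμpos.norm_eq hu0 hμin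
    have h2 : Tendsto (fun n => ((s n).f u0).re) (hyperfilter ℕ : Filter ℕ) (𝓝 (μ u0).re) :=
      (Complex.continuous_re.tendsto _).comp (hμ u0)
    have h3 : 3 / 4 ≤ (μ u0).re := by
      refine ge_of_tendsto h2 (Eventually.of_forall fun n => ?_)
      rw [hmass, Complex.ofReal_re]
      have := (abs_le.1 (hnorm n)).1
      linarith
    rwa [h1, Complex.ofReal_re] at h3
  have hle : (hyperfilter ℕ : Filter ℕ) ≤ atTop := by
    rw [← Nat.cofinite_eq_atTop]; exact hyperfilter_le_cofinite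
  have hK : IsCompact (tsupport u0) := hu0.cs
  have hsupp : ∀ n, Supp (tsupport u0) (s n).f := fun n => by
    have h := supp_of_act (K := tsupport u0) (b := bc u0) (fun x hx => by
      rw [bc_apply]; exact image_eq_zero_of_notMem_tsupport hx) ((s n).f)
    rwa [(sG n).sup] at h
  have hweak : ∀ l : List (G →ᵇ ℂ), (∀ b ∈ l, U01 b) → ∀ g, Tendsto (fun n => prodl l (s n).f g) (hyperfilter ℕ : Filter ℕ) (𝓝 (prodl l μ g)) :=
    fun l hl => weak_prodl hK hsupp hC hμ hl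
  -- weak control
  have hdl : ∀ n, ∀ l ∈ (s n).L, ∀ y ∈ (s n).Y, ‖prodl l μ y - prodl l (s n).f y‖ ≤ 2 * ee n := by
    intro n l hl y hy
    have h1 := ((hweak l ((sG n).l1 l hl).2 y).sub_const (prodl l (s n).f y)).norm
    refine le_of_tendsto h1 (hle (eventually_atTop.2 ⟨n, fun m hm => ?_⟩))
    exact tele' (a := fun m => prodl l (s m).f y) (fun i hi => (sE i).dl l (mL n i hi l hl) y (mY n i hi y hy)) m hm
  -- protected products
  have hprot : ∀ n, ∀ l ∈ (s n).P, prodl l μ ∈ L1c G := by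
    intro n l hl
    have htele : ∀ k, n ≤ k → ∀ m, k ≤ m → ‖prodl l (s m).f - prodl l (s k).f‖ ≤ 2 * ee k := fun k hk m hm =>
      tele' (a := fun m => prodl l (s m).f) (fun i hi => (sE i).dp l (mP n i (hk.trans hi) l hl)) m hm
    have hcau : CauchySeq (fun m => prodl l (s m).f) := by
      rw [Metric.cauchySeq_iff']
      intro ε hε
      obtain ⟨N, hN⟩ := Metric.tendsto_atTop.1 ee_tend (ε / 2) (half_pos hε)
      refine ⟨max n N, fun m hm => ?_⟩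
      have h1 := htele (max n N) (le_max_left _ _) m hm
      have h2 := hN (max n N) (le_max_right _ _)
      rw [dist_zero_right, Real.norm_eq_abs, abs_of_pos (ee_pos _)] at h2
      rw [dist_eq_norm]; linarith
    obtain ⟨ρ, hρ⟩ := cauchySeq_tendsto_of_complete hcau
    have hρm : ρ ∈ L1c G := L1c_closed.mem_of_tendsto hρ
      (Eventually.of_forall fun m => prodl_mem (sG m).mem ((sG n).p1 l hl).1)
    have : prodl l μ = ρ := by
      ext g
      refine tendsto_nhds_unique (hweak l ((sG n).p1 l hl).2 g) ?_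
      exact (((Meas.evL g).continuous.tendsto ρ).comp hρ).mono_left hle
    rw [this]; exact hρm
  -- lower bounds
  have hlow : ∀ n0, ∀ τ ∈ (s n0).T, ∀ g ∈ L1c G, ‖τ.b • μ‖ ^ τ.o ≤ ‖(τ.b • μ) ^ τ.o - g‖ := by
    intro n0 τ hτ g hg
    obtain ⟨_, hb, _, _, _⟩ := (sG n0).t1 τ hτ
    have hpr : ∀ n, Proc w (ee (n0 + n)) τ (s (n0 + n + 1)) := fun n => sPr (n0 + n) τ (mT n0 (n0 + n + 1) (by omega) τ hτ)
    choose q q1 q2 q3 q4 using hpr
    have htend : Tendsto (fun n => ee (n0 + n)) atTop (𝓝 0) := by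
      have h1 : (fun n => ee (n0 + n)) = fun n => ee (n + n0) := by ext n; rw [add_comm]
      rw [h1]
      exact (tendsto_add_atTop_iff_nat n0).2 ee_tend
    have hq0 : Tendsto (fun n => ∫ x, ‖q n x‖ ∂(Measure.addHaar : Measure G)) atTop (𝓝 0) :=
      squeeze_zero (fun n => integral_nonneg fun x => norm_nonneg _) q4 htend
    have hgq := (q_tend q1 hq0 hg).norm
    rw [norm_zero] at hgq
    set rep := List.replicate τ.o τ.b with hrep
    have hrepU : ∀ b ∈ rep, U01 b := fun b h => by rw [List.eq_of_mem_replicate h]; exact hb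
    have hval : prodl rep μ (w τ.o) = ((‖τ.b • μ‖ ^ τ.o : ℝ) : ℂ) := by
      have h1 := prodl_mass hw0 hws hμin rep
      rw [hrep, List.length_replicate, List.map_replicate, List.prod_replicate] at h1
      rw [hrep, h1]
      have h2 : (τ.b • μ) u0 = (‖τ.b • μ‖ : ℂ) := (hμpos.act fun x => (hb x).1).norm_eq hu0 (by rw [act_comm, hμin])
      rw [h2]; push_cast; rfl
    have hbound : ∀ n, ‖τ.b • μ‖ ^ τ.o ≤ ‖(τ.b • μ) ^ τ.o - g‖ + ‖g (q n)‖ + 2 * ee (n0 + n) := by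
      intro n
      have hrL : rep ∈ (s (n0 + n + 1)).L := ((sG (n0 + n + 1)).t1 τ (mT n0 (n0 + n + 1) (by omega) τ hτ)).2.2.2.2
      have h1 := (Complex.re_le_norm _).trans (hdl (n0 + n + 1) rep hrL _ (q2 n))
      rw [Complex.sub_re] at h1
      have h2 := q3 n
      rw [ee_succ] at h1
      have h3 : (prodl rep μ (w τ.o - q n)).re ≤ 2 * ee (n0 + n) := by linarith
      rw [map_sub, Complex.sub_re, hval, Complex.ofReal_re] at h3
      have h4 : prodl rep μ = (τ.b • μ) ^ τ.o := prodl_replicate _ _ _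
      rw [h4] at h3
      have h5 : ((τ.b • μ) ^ τ.o) (q n) = ((τ.b • μ) ^ τ.o - g) (q n) + g (q n) := by rw [Meas.sub_apply]; ring
      have h6 := (Complex.re_le_norm _).trans (Meas.le_of (le_refl ‖(τ.b • μ) ^ τ.o - g‖) (q1 n).norm_le)
      have h7 := Complex.re_le_norm (g (q n))
      have h8 := congrArg Complex.re h5
      rw [Complex.add_re] at h8
      linarith
    have hlim : Tendsto (fun n => ‖(τ.b • μ) ^ τ.o - g‖ + ‖g (q n)‖ + 2 * ee (n0 + n)) atTop (𝓝 (‖(τ.b • μ) ^ τ.o - g‖ + 0 + 2 * 0)) :=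
      (tendsto_const_nhds.add hgq).add (htend.const_mul 2)
    have := ge_of_tendsto' hlim hbound
    linarith
  refine ⟨u0, μ, hu0, hμpos, hμin, hμnorm, ?_, ?_⟩
  · intro ε hε
    obtain ⟨n, hn⟩ := ((Metric.tendsto_atTop.1 ee_tend (ε / 3) (by linarith)))
    have hn' := hn n le_rfl
    rw [dist_zero_right, Real.norm_eq_abs, abs_of_pos (ee_pos _)] at hn'
    obtain ⟨m, u, φ, p, R, N, J, hL⟩ := sLev n
    refine ⟨m, u, R, J, hL.u1, hL.us, ?_, ?_⟩
    · intro i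
      have hP : Pos ((∑ j ∈ R i, u j) • μ) := hμpos.act fun x => by
        rw [BoundedContinuousFunction.sum_apply]
        exact Finset.sum_nonneg fun j _ => (hL.u1 j x).1
      have h1 := hP.norm_eq hu0 (by rw [act_comm, hμin])
      have h2 := hdl (n + 1) [1] (sL1 _) _ (hL.ry i)
      simp only [prodl_cons, prodl_nil, mul_one, one_smul] at h2
      have h3 := hL.r i
      have h4 : ‖μ (bm (∑ j ∈ R i, u j) u0)‖ ≤ 2 * ee n := by
        have h5 := norm_add_le (μ (bm (∑ j ∈ R i, u j) u0) - (s (n + 1)).f (bm (∑ j ∈ R i, u j) u0)) ((s (n + 1)).f (bm (∑ j ∈ R i, u j) u0))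
        rw [sub_add_cancel] at h5
        rw [ee_succ] at h2
        linarith
      rw [act_apply] at h1
      rw [h1, Complex.norm_real, norm_norm] at h4
      linarith
    · intro i j hij
      have h1 := hprot (n + 1) _ (hL.pr i j hij)
      rw [prodl_cons, prodl_cons, prodl_replicate, one_smul] at h1
      exact h1
  · intro k
    obtain ⟨m, u, φ, p, R, N, J, hL⟩ := sLev k
    exact ⟨m, u, p, N, hL.u1, hL.us, hL.n1, hL.p2, hL.pu, fun i g hg => hlow (k + 1) _ (hL.tk i) g hg⟩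

end a25

section a26

theorem ring_est {A : Type*} [NormedCommRing A] [NormOneClass A] (I : AddSubgroup A) (hI : ∀ x ∈ I, ∀ a, a * x ∈ I) {x y z : A} {t : ℝ}
    (ht : 0 < t) (hx : x = y + z) (hy : ‖y‖ ≤ 2 * t) (hz : ‖z‖ ≤ t / 8) {M : ℕ} (hM : y ^ M ∈ I)
    (hlow : ∀ g ∈ I, t ^ (3 * M + 1) ≤ ‖x ^ (3 * M + 1) - g‖) : False := by
  set o := 3 * M + 1 with ho
  set g : A := ∑ m ∈ (Finset.range (o + 1)).filter (fun m => M ≤ m), y ^ m * z ^ (o - m) * (o.choose m : A) with hg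
  have hgI : g ∈ I := by
    rw [hg]
    apply sum_mem
    intro m hm
    rw [Finset.mem_filter] at hm
    have : y ^ m * z ^ (o - m) * (o.choose m : A) = (y ^ (m - M) * z ^ (o - m) * (o.choose m : A)) * y ^ M := by
      have : y ^ m = y ^ (m - M) * y ^ M := by rw [← pow_add, Nat.sub_add_cancel hm.2]
      rw [this]; ring
    rw [this]; exact hI _ hM _
  have h1 := hlow g hgI
  have h2 : x ^ o - g = ∑ m ∈ (Finset.range (o + 1)).filter (fun m => ¬ M ≤ m), y ^ m * z ^ (o - m) * (o.choose m : A) := by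
    rw [hx, add_pow, ← Finset.sum_filter_add_sum_filter_not _ (fun m => M ≤ m), ← hg, add_sub_cancel_left]
  have h3 : ∀ m ∈ (Finset.range (o + 1)).filter (fun m => ¬ M ≤ m), ‖y ^ m * z ^ (o - m) * (o.choose m : A)‖ ≤
      t ^ o * (1 / 8) ^ (2 * M + 1) * ((2 : ℝ) ^ m * 1 ^ (o - m) * (o.choose m : ℝ)) := by
    intro m hm
    rw [Finset.mem_filter, Finset.mem_range, not_le] at hm
    have hmo : m < o := by omega
    have e1 : ‖y ^ m‖ ≤ (2 * t) ^ m := (norm_pow_le y m).trans (pow_le_pow_left₀ (norm_nonneg _) hy m)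
    have e2 : ‖z ^ (o - m)‖ ≤ (t / 8) ^ (o - m) := (norm_pow_le z _).trans (pow_le_pow_left₀ (norm_nonneg _) hz _)
    have e3 : ‖y ^ m * z ^ (o - m) * (o.choose m : A)‖ ≤ (o.choose m : ℝ) * ((2 * t) ^ m * (t / 8) ^ (o - m)) := by
      rw [mul_comm _ (o.choose m : A), ← nsmul_eq_mul]
      refine (norm_nsmul_le (n := o.choose m) (a := y ^ m * z ^ (o - m))).trans ?_
      apply mul_le_mul_of_nonneg_left _ (Nat.cast_nonneg _)
      exact (norm_mul_le _ _).trans (mul_le_mul e1 e2 (norm_nonneg _) (by positivity))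
    have e4 : (2 * t) ^ m * (t / 8) ^ (o - m) = t ^ o * (2 ^ m * (1 / 8) ^ (o - m)) := by
      have : t ^ o = t ^ m * t ^ (o - m) := by rw [← pow_add, Nat.add_sub_cancel' hmo.le]
      rw [this, mul_pow, div_eq_mul_one_div t 8, mul_pow]; ring
    have e5 : ((1 : ℝ) / 8) ^ (o - m) ≤ (1 / 8) ^ (2 * M + 1) :=
      pow_le_pow_of_le_one (by norm_num) (by norm_num) (by omega)
    refine e3.trans ?_
    rw [e4, one_pow, mul_one]
    have e6 : 0 ≤ (o.choose m : ℝ) * t ^ o * 2 ^ m := by positivity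
    calc (o.choose m : ℝ) * (t ^ o * (2 ^ m * (1 / 8) ^ (o - m))) = ((o.choose m : ℝ) * t ^ o * 2 ^ m) * (1 / 8) ^ (o - m) := by ring
      _ ≤ ((o.choose m : ℝ) * t ^ o * 2 ^ m) * (1 / 8) ^ (2 * M + 1) := mul_le_mul_of_nonneg_left e5 e6
      _ = _ := by ring
  have h4 : ‖x ^ o - g‖ ≤ t ^ o * (1 / 8) ^ (2 * M + 1) * 3 ^ o := by
    rw [h2]
    refine (norm_sum_le _ _).trans ((Finset.sum_le_sum h3).trans ?_)
    rw [← Finset.mul_sum]
    apply mul_le_mul_of_nonneg_left _ (by positivity)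
    have e7 : (3 : ℝ) ^ o = ∑ m ∈ Finset.range (o + 1), (2 : ℝ) ^ m * 1 ^ (o - m) * (o.choose m : ℝ) := by
      rw [← add_pow]; norm_num
    rw [e7]
    exact Finset.sum_le_sum_of_subset_of_nonneg (Finset.filter_subset _ _) fun m _ _ => by positivity
  have h5 : ((1 : ℝ) / 8) ^ (2 * M + 1) * 3 ^ o ≤ 3 / 8 := by
    have e8 : ((1 : ℝ) / 8) ^ (2 * M + 1) * 3 ^ o = (27 / 64) ^ M * (3 / 8) := by
      rw [ho, pow_succ, pow_succ, pow_mul, pow_mul]
      have : ((27 : ℝ) / 64) ^ M = ((1 / 8) ^ 2) ^ M * ((3 : ℝ) ^ 3) ^ M := by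
        rw [← mul_pow]; norm_num
      rw [this]; ring
    rw [e8]
    have : ((27 : ℝ) / 64) ^ M ≤ 1 := pow_le_one₀ (by norm_num) (by norm_num)
    linarith
  have h6 : 0 < t ^ o := by positivity
  have h7 : t ^ o ≤ t ^ o * (3 / 8) := by
    calc t ^ o ≤ _ := h1
      _ ≤ _ := h4
      _ = t ^ o * ((1 / 8) ^ (2 * M + 1) * 3 ^ o) := by ring
      _ ≤ _ := mul_le_mul_of_nonneg_left h5 h6.le
  linarith

variable [MeasurableSpace G] [BorelSpace G]

theorem sum_act_norm_le {m : ℕ} {p : Fin m → (G →ᵇ ℂ)} (hp : ∀ x, ∑ i, ‖p i x‖ ≤ 2) (ρ : Meas G) :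
    ∑ i, ‖p i • ρ‖ ≤ 2 * ‖ρ‖ := by
  have key : ∀ ε > 0, ∑ i, ‖p i • ρ‖ ≤ 2 * ‖ρ‖ + ε := by
    intro ε hε
    have h1 : ∀ i, ∃ f : C₀(G, ℂ), ‖f‖ ≤ 1 ∧ 0 ≤ (p i • ρ) f ∧ ‖p i • ρ‖ - ε / (m + 1) ≤ ((p i • ρ) f).re :=
      fun i => (p i • ρ).exists_near (by positivity)
    choose f hf1 _ hf3 using h1
    have h2 : ‖∑ i, bm (p i) (f i)‖ ≤ 2 := by
      rw [c0_norm_le (by norm_num)]
      intro x
      rw [c0_sum_apply]
      refine (norm_sum_le _ _).trans (le_trans (Finset.sum_le_sum fun i _ => ?_) (hp x))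
      rw [bm_apply, norm_mul]
      have := (c0_apply_le (f i) x).trans (hf1 i)
      nlinarith [norm_nonneg (p i x)]
    have h3 : ∑ i, (p i • ρ) (f i) = ρ (∑ i, bm (p i) (f i)) := by
      rw [map_sum]; rfl
    have h4 := (Complex.re_le_norm _).trans (Meas.le_of (le_refl ‖ρ‖) h2)
    rw [← h3, Complex.re_sum] at h4
    have h5 : ∑ i, (‖p i • ρ‖ - ε / (m + 1)) ≤ ∑ i, ((p i • ρ) (f i)).re := Finset.sum_le_sum fun i _ => hf3 i
    rw [Finset.sum_sub_distrib, Finset.sum_const, Finset.card_univ, Fintype.card_fin, nsmul_eq_mul] at h5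
    have h6 : (m : ℝ) * (ε / (m + 1)) ≤ ε := by
      rw [mul_div_assoc', div_le_iff₀ (by positivity)]
      nlinarith
    linarith
  by_contra hcon
  push Not at hcon
  have := key ((∑ i, ‖p i • ρ‖ - 2 * ‖ρ‖) / 2) (by linarith)
  linarith

theorem sum_smul_fin {m : ℕ} (u : Fin m → (G →ᵇ ℂ)) (s : Finset (Fin m)) (μ : Meas G) : (∑ i ∈ s, u i) • μ = ∑ i ∈ s, u i • μ :=
  Finset.sum_smul

theorem parts_eq {u0 : C₀(G, ℂ)} {μ : Meas G} (hin : bc u0 • μ = μ) {m : ℕ} {u : Fin m → (G →ᵇ ℂ)}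
    (hs : ∀ x ∈ tsupport u0, ∑ i, u i x = 1) : ∑ i, u i • μ = μ := by
  rw [← sum_smul_fin]
  have h1 : (∑ i, u i) • μ = (1 : G →ᵇ ℂ) • μ := by
    have hsupp : Supp (tsupport u0) μ := by
      have h := supp_of_act (K := tsupport u0) (b := bc u0) (fun x hx => by
        rw [bc_apply]; exact image_eq_zero_of_notMem_tsupport hx) μ
      rwa [hin] at h
    apply hsupp.act_eq
    intro x hx
    rw [BoundedContinuousFunction.sum_apply, hs x hx]; rfl
  rw [h1, one_smul]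

theorem final_nil {u0 : C₀(G, ℂ)} {μ : Meas G} (hin : bc u0 • μ = μ) (hn : 3 / 4 ≤ ‖μ‖)
    (h : ∀ k, ∃ (m : ℕ) (u p : Fin m → (G →ᵇ ℂ)) (N : ℕ), (∀ i, U01 (u i)) ∧ (∀ x ∈ tsupport u0, ∑ i, u i x = 1) ∧
      (∀ i, ∀ n, 1 ≤ n → ∀ ν : Meas G, ν ^ n ∈ L1c G → (p i • ν) ^ (N * n) ∈ L1c G) ∧
      (∀ x, ∑ i, ‖p i x‖ ≤ 2) ∧ (∀ i, ∀ x ∈ tsupport u0, ‖p i x - u i x‖ ≤ 1 / (100 * (m + 1))) ∧
      ∀ i, ∀ g ∈ L1c G, ‖u i • μ‖ ^ (3 * (N * k) + 1) ≤ ‖(u i • μ) ^ (3 * (N * k) + 1) - g‖)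
    {ν : Meas G} {n : ℕ} (hn1 : 1 ≤ n) (hν : ν ^ n ∈ L1c G) : 1 / 50 ≤ ‖μ - ν‖ := by
  by_contra hlt
  push Not at hlt
  obtain ⟨m, u, p, N, u1, us, n1, p2, pu, hlow⟩ := h n
  have hsupp : Supp (tsupport u0) μ := by
    have h := supp_of_act (K := tsupport u0) (b := bc u0) (fun x hx => by
      rw [bc_apply]; exact image_eq_zero_of_notMem_tsupport hx) μ
    rwa [hin] at h
  set ρ : Fin m → Meas G := fun i => u i • μ - p i • ν with hρ
  have hρn : ∀ i, ‖ρ i‖ ≤ 1 / (100 * (m + 1)) * ‖μ‖ + ‖p i • (μ - ν)‖ := by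
    intro i
    have h1 : ρ i = (u i - p i) • μ + p i • (μ - ν) := by
      rw [sub_smul, smul_sub, sub_add_sub_cancel]
    rw [h1]
    refine (norm_add_le _ _).trans (add_le_add ?_ le_rfl)
    apply hsupp.act_bound (by positivity)
    intro x hx
    have := pu i x hx
    rw [← norm_neg, neg_sub] at this
    exact this
  have hsumρ : ∑ i, ‖ρ i‖ ≤ 1 / 100 * ‖μ‖ + 2 * ‖μ - ν‖ := by
    refine (Finset.sum_le_sum fun i _ => hρn i).trans ?_
    rw [Finset.sum_add_distrib, Finset.sum_const, Finset.card_univ, Fintype.card_fin, nsmul_eq_mul]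
    apply add_le_add _ (sum_act_norm_le p2 _)
    rw [← mul_assoc]
    apply mul_le_mul_of_nonneg_right _ (norm_nonneg _)
    rw [mul_one_div, div_le_iff₀ (by positivity)]
    linarith
  have hsumu : ‖μ‖ ≤ ∑ i, ‖u i • μ‖ := by
    have := norm_sum_le Finset.univ (fun i => u i • μ)
    rwa [parts_eq hin us] at this
  have hex : ∃ i, ‖ρ i‖ < 1 / 8 * ‖u i • μ‖ := by
    by_contra hcon
    push Not at hcon
    have h1 : ∑ i, 1 / 8 * ‖u i • μ‖ ≤ ∑ i, ‖ρ i‖ := Finset.sum_le_sum fun i _ => hcon i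
    rw [← Finset.mul_sum] at h1
    linarith
  obtain ⟨i, hi⟩ := hex
  have ht : 0 < ‖u i • μ‖ := by
    by_contra h0
    push Not at h0
    have := norm_nonneg (ρ i)
    linarith
  refine ring_est ((L1c G).toAddSubgroup) (fun x hx a => mul_mem hx a) ht (x := u i • μ) (y := p i • ν) (z := ρ i)
    (by rw [hρ]; simp) ?_ (by linarith) (n1 i n hn1 ν hν) (hlow i)
  have h1 : p i • ν = u i • μ - ρ i := by rw [hρ]; simp
  rw [h1]
  have := norm_sub_le (u i • μ) (ρ i)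
  linarith

theorem final_hom {u0 : C₀(G, ℂ)} {μ : Meas G} (hin : bc u0 • μ = μ)
    (h : ∀ ε > 0, ∃ (m : ℕ) (u : Fin m → (G →ᵇ ℂ)) (R : Fin m → Finset (Fin m)) (J : ℕ), (∀ i, U01 (u i)) ∧
      (∀ x ∈ tsupport u0, ∑ i, u i x = 1) ∧ (∀ i, ‖(∑ j ∈ R i, u j) • μ‖ ≤ ε) ∧
      ∀ i j, j ∉ R i → (u i • μ) * ((u j • μ) * μ ^ J) ∈ L1c G)
    (φ : Meas G →ₐ[ℂ] ℂ) (hφ : ∀ ξ ∈ L1c G, φ ξ = 0) : φ μ = 0 := by
  by_contra hne
  have hpos : 0 < ‖φ μ‖ := norm_pos_iff.2 hne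
  obtain ⟨m, u, R, J, u1, us, hR, hP⟩ := h (‖φ μ‖ / 2) (half_pos hpos)
  have hsum : ∑ i, φ (u i • μ) = φ μ := by rw [← map_sum, parts_eq hin us]
  have hex : ∃ i, φ (u i • μ) ≠ 0 := by
    by_contra hcon
    push Not at hcon
    apply hne
    rw [← hsum]
    exact Finset.sum_eq_zero fun i _ => hcon i
  obtain ⟨i, hi⟩ := hex
  have hz : ∀ j, j ∉ R i → φ (u j • μ) = 0 := by
    intro j hj
    have h1 := hφ _ (hP i j hj)
    rw [map_mul, map_mul, map_pow] at h1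
    rcases mul_eq_zero.1 h1 with h1 | h1
    · exact absurd h1 hi
    rcases mul_eq_zero.1 h1 with h1 | h1
    · exact h1
    · exact absurd h1 (pow_ne_zero J hne)
  have h2 : φ ((∑ j ∈ R i, u j) • μ) = φ μ := by
    rw [sum_smul_fin, map_sum, ← hsum]
    exact Finset.sum_subset (Finset.subset_univ _) fun j _ hj => hz j hj
  have h3 := hom_le φ ((∑ j ∈ R i, u j) • μ)
  rw [h2] at h3
  linarith [hR i]

end a26


end
end Pool.Agent.Helper550.Rad
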