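import Mathlib
set_option autoImplicit false

namespace Pool.Agent.Helper550.Semi

section v1
open scoped ENNReal
/-! ### `ℓ¹(ι)` -/

/-- `ℓ¹(ι)`. -/
noncomputable abbrev L (ι : Type) := lp (fun _ : ι => ℂ) 1

section l1
variable {ι κ : Type}

theorem l1_norm (a : L ι) : ‖a‖ = ∑' k, ‖a k‖ := by
  rw [lp.norm_eq_tsum_rpow (by simp)]
  simp

theorem l1_summable (a : L ι) : Summable fun k => ‖a k‖ := by
  have := lp.memℓp a
  rw [memℓp_gen_iff (by simp)] at this
  simpa using this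

theorem l1_mem {g : ι → ℂ} (h : Summable fun k => ‖g k‖) : Memℓp g 1 := by
  rw [memℓp_gen_iff (by simp)]
  simpa using h

/-- coordinates -/
def co (j : ι) : L ι →ₗ[ℂ] ℂ where
  toFun := fun a => a j
  map_add' := fun _ _ => rfl
  map_smul' := fun _ _ => rfl

theorem co_ext {a b : L ι} (h : ∀ j, co j a = co j b) : a = b := by
  ext j
  exact h j

theorem norm_eq_tsum (a : L ι) : ‖a‖ = ∑' k, ‖co k a‖ := l1_norm a

theorem summable_co (a : L ι) : Summable fun k => ‖co k a‖ := l1_summable a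

theorem norm_co_le (a : L ι) (j : ι) : ‖co j a‖ ≤ ‖a‖ := lp.norm_apply_le_norm (by simp) a j

/-- construct an element from coordinates -/
def mk (g : ι → ℂ) (h : Summable fun k => ‖g k‖) : L ι := ⟨g, l1_mem h⟩

theorem co_mk (g : ι → ℂ) (h : Summable fun k => ‖g k‖) (j : ι) : co j (mk g h) = g j := rfl

open Classical in
/-- unit vectors -/
noncomputable def sg (k : ι) : L ι := lp.single 1 k 1

open Classical in
theorem co_sg (j k : ι) : co j (sg k) = if j = k then 1 else 0 := by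
  change (Pi.single k (1 : ℂ) : ι → ℂ) j = _
  rw [Pi.single_apply]

theorem co_sg_self (j : ι) : co j (sg j) = 1 := by rw [co_sg, if_pos rfl]

theorem co_sg_ne {j k : ι} (h : j ≠ k) : co j (sg k) = 0 := by rw [co_sg, if_neg h]

open Classical in
theorem norm_sg (k : ι) : ‖sg k‖ = 1 := by
  have := lp.norm_single (E := fun _ : ι => ℂ) (p := 1) (by simp) k (1 : ℂ)
  rw [norm_one] at this
  exact this

/-- the continuous coordinate functional -/
noncomputable def coL (j : ι) : L ι →L[ℂ] ℂ :=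
  (co j).mkContinuous 1 (fun a => by rw [one_mul]; exact norm_co_le a j)

theorem coL_apply (j : ι) (a : L ι) : coL j a = co j a := rfl

variable {V : Type} [NormedAddCommGroup V] [NormedSpace ℂ V] [CompleteSpace V]

theorem summable_synth (β : ι → V) (hβ : ∀ i, ‖β i‖ ≤ 1) (t : L ι) : Summable fun i => co i t • β i := by
  apply Summable.of_norm_bounded (summable_co t)
  intro i
  rw [norm_smul]
  exact mul_le_of_le_one_right (norm_nonneg _) (hβ i)

/-- the synthesis operator `t ↦ ∑ t i • β i` -/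
noncomputable def synth (β : ι → V) (hβ : ∀ i, ‖β i‖ ≤ 1) : L ι →L[ℂ] V :=
  LinearMap.mkContinuous
    { toFun := fun t => ∑' i, co i t • β i
      map_add' := fun s t => by
        simp only [map_add, add_smul]
        exact (summable_synth β hβ s).tsum_add (summable_synth β hβ t)
      map_smul' := fun c t => by
        simp only [map_smul, smul_eq_mul, mul_smul, RingHom.id_apply]
        exact (summable_synth β hβ t).tsum_const_smul c } 1
    (fun t => by
      rw [one_mul, norm_eq_tsum]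
      apply tsum_of_norm_bounded (summable_co t).hasSum
      intro i
      rw [norm_smul]
      exact mul_le_of_le_one_right (norm_nonneg _) (hβ i))

theorem synth_apply (β : ι → V) (hβ : ∀ i, ‖β i‖ ≤ 1) (t : L ι) : synth β hβ t = ∑' i, co i t • β i := rfl

theorem co_synth (β : ι → L κ) (hβ : ∀ i, ‖β i‖ ≤ 1) (t : L ι) (j : κ) :
    co j (synth β hβ t) = ∑' i, co i t * co j (β i) := by
  have h := (coL j).map_tsum (summable_synth β hβ t)
  rw [coL_apply] at h
  rw [synth_apply, h]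
  apply tsum_congr
  intro i
  rw [coL_apply, map_smul, smul_eq_mul]

/-- outer product -/
noncomputable def outer : L ι →ₗ[ℂ] L ι →ₗ[ℂ] L (ι × ι) :=
  LinearMap.mk₂ ℂ (fun a b => mk (fun q => co q.1 a * co q.2 b) (by
      have := (summable_co a).mul_of_nonneg (summable_co b) (fun _ => norm_nonneg _) (fun _ => norm_nonneg _)
      simpa [norm_mul] using this))
    (fun a b c => by apply co_ext; intro q; simp [co_mk, add_mul])
    (fun c a b => by apply co_ext; intro q; simp [co_mk, mul_assoc])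
    (fun a b c => by apply co_ext; intro q; simp [co_mk, mul_add])
    (fun c a b => by apply co_ext; intro q; simp [co_mk, mul_left_comm])

theorem co_outer (a b : L ι) (q : ι × ι) : co q (outer a b) = co q.1 a * co q.2 b := rfl

theorem norm_outer (a b : L ι) : ‖outer a b‖ = ‖a‖ * ‖b‖ := by
  rw [norm_eq_tsum, norm_eq_tsum a, norm_eq_tsum b]
  have h := (summable_co a).mul_of_nonneg (summable_co b) (fun _ => norm_nonneg _) (fun _ => norm_nonneg _)
  rw [(summable_co a).tsum_mul_tsum (summable_co b) h]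
  apply tsum_congr
  intro q
  rw [co_outer, norm_mul]

theorem norm_synth_le (β : ι → V) (hβ : ∀ i, ‖β i‖ ≤ 1) (t : L ι) : ‖synth β hβ t‖ ≤ ‖t‖ := by
  rw [norm_eq_tsum]
  apply tsum_of_norm_bounded (summable_co t).hasSum
  intro i
  rw [norm_smul]
  exact mul_le_of_le_one_right (norm_nonneg _) (hβ i)

theorem synth_sg (β : ι → V) (hβ : ∀ i, ‖β i‖ ≤ 1) (i : ι) : synth β hβ (sg i) = β i := by
  rw [synth_apply, tsum_eq_single i]
  · rw [co_sg_self, one_smul]
  · intro k hk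
    rw [co_sg_ne hk, zero_smul]

theorem outer_sg (j k : ι) : outer (sg j) (sg k) = sg (j, k) := by
  apply co_ext
  intro q
  rw [co_outer]
  by_cases h : q = (j, k)
  · rw [h, co_sg_self, co_sg_self, co_sg_self, mul_one]
  · rw [co_sg_ne h]
    by_cases h1 : q.1 = j
    · have h2 : q.2 ≠ k := fun h2 => h (Prod.ext h1 h2)
      rw [co_sg_ne h2, mul_zero]
    · rw [co_sg_ne h1, zero_mul]

theorem hasSum_sg (x : L ι) : HasSum (fun k => co k x • (sg k : L ι)) x := by
  classical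
  have h := lp.hasSum_single (E := fun _ : ι => ℂ) (p := 1) (by simp) x
  have h0 : (fun k => co k x • (sg k : L ι)) = fun k => lp.single 1 k (x k) := by
    ext1 k
    apply co_ext
    intro j
    rw [map_smul, co_sg, smul_eq_mul]
    change co k x * _ = (Pi.single k (x k) : ι → ℂ) j
    rw [Pi.single_apply]
    by_cases h : j = k
    · rw [if_pos h, if_pos h, mul_one]; rfl
    · rw [if_neg h, if_neg h, mul_zero]
  rw [h0]
  exact h

omit [CompleteSpace V] in
theorem clm_ext {T T' : L ι →L[ℂ] V} (h : ∀ k, T (sg k) = T' (sg k)) : T = T' := by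
  apply ContinuousLinearMap.ext
  intro x
  have h1 := (hasSum_sg x).mapL T
  have h2 := (hasSum_sg x).mapL T'
  have h3 : (fun k => T (co k x • (sg k : L ι))) = fun k => T' (co k x • (sg k : L ι)) := by
    ext1 k
    rw [map_smul, map_smul, h]
  rw [h3] at h1
  exact h1.unique h2

omit [CompleteSpace V] in
theorem clm_bound (T : L ι →L[ℂ] V) {κ : ℝ} (h : ∀ k, ‖T (sg k)‖ ≤ κ) (x : L ι) :
    ‖T x‖ ≤ κ * ‖x‖ := by
  have h1 := (hasSum_sg x).mapL T
  have h2 : HasSum (fun k => κ * ‖co k x‖) (κ * ‖x‖) := by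
    rw [norm_eq_tsum]
    exact (summable_co x).hasSum.mul_left κ
  rw [← h1.tsum_eq]
  apply tsum_of_norm_bounded h2
  intro k
  rw [map_smul, norm_smul, mul_comm]
  exact mul_le_mul_of_nonneg_right (h k) (norm_nonneg _)

omit [CompleteSpace V] in
theorem bil_bound (D : L ι →L[ℂ] L κ →L[ℂ] V) {c : ℝ} (h : ∀ s t, ‖D (sg s) (sg t)‖ ≤ c)
    (x : L ι) (y : L κ) : ‖D x y‖ ≤ c * ‖x‖ * ‖y‖ := by
  have h1 : ∀ s, ‖D (sg s) y‖ ≤ c * ‖y‖ := fun s => clm_bound (D (sg s)) (h s) y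
  have h2 := clm_bound ((ContinuousLinearMap.flip D) y) (κ := c * ‖y‖) (fun s => h1 s) x
  rw [ContinuousLinearMap.flip_apply] at h2
  calc ‖D x y‖ ≤ c * ‖y‖ * ‖x‖ := h2
    _ = c * ‖x‖ * ‖y‖ := by ring

omit [CompleteSpace V] in
theorem bil_ext {D D' : L ι →L[ℂ] L κ →L[ℂ] V} (h : ∀ s t, D (sg s) (sg t) = D' (sg s) (sg t)) :
    D = D' := by
  apply clm_ext
  intro s
  apply clm_ext
  intro t
  exact h s t

end l1

end v1

section v2
open scoped ENNReal
/-! ### Weighted convolution algebras -/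

/-- A submultiplicative weight with value one at zero. -/
structure IsWeight {ι : Type} [AddCommMonoid ι] (ω : ι → ℝ) : Prop where
  pos : ∀ s, 0 < ω s
  add_le : ∀ s t, ω (s + t) ≤ ω s * ω t
  zero : ω 0 = 1

section weight
variable {ι : Type} [AddCommMonoid ι] {ω : ι → ℝ}

/-- structure constant -/
noncomputable def sc (ω : ι → ℝ) (s t : ι) : ℂ := ((ω (s + t) / (ω s * ω t) : ℝ) : ℂ)

theorem norm_sc_le (h : IsWeight ω) (s t : ι) : ‖sc ω s t‖ ≤ 1 := by
  unfold sc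
  have h1 := h.pos (s + t)
  have h2 := h.pos s
  have h3 := h.pos t
  rw [Complex.norm_real, Real.norm_of_nonneg (by positivity), div_le_one (by positivity)]
  exact h.add_le s t

theorem norm_cb_le (h : IsWeight ω) (p : ι × ι) : ‖sc ω p.1 p.2 • (sg (p.1 + p.2) : L ι)‖ ≤ 1 := by
  rw [norm_smul, norm_sg, mul_one]
  exact norm_sc_le h _ _

/-- the product -/
noncomputable def cvl (h : IsWeight ω) : L ι →ₗ[ℂ] L ι →ₗ[ℂ] L ι :=
  outer.compr₂ (synth (fun p : ι × ι => sc ω p.1 p.2 • (sg (p.1 + p.2) : L ι)) (norm_cb_le h) :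
    L (ι × ι) →ₗ[ℂ] L ι)

theorem cvl_apply (h : IsWeight ω) (x y : L ι) : cvl h x y =
    synth (fun p : ι × ι => sc ω p.1 p.2 • (sg (p.1 + p.2) : L ι)) (norm_cb_le h) (outer x y) := rfl

theorem norm_cvl_le (h : IsWeight ω) (x y : L ι) : ‖cvl h x y‖ ≤ ‖x‖ * ‖y‖ := by
  rw [cvl_apply]
  refine (norm_synth_le _ _ _).trans ?_
  rw [norm_outer]

/-- the product as a continuous bilinear map -/
noncomputable def cv (h : IsWeight ω) : L ι →L[ℂ] L ι →L[ℂ] L ι :=
  LinearMap.mkContinuous₂ (cvl h) 1 (fun x y => by rw [one_mul]; exact norm_cvl_le h x y)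

theorem cv_apply (h : IsWeight ω) (x y : L ι) : cv h x y = cvl h x y := rfl

theorem norm_cv_le (h : IsWeight ω) (x y : L ι) : ‖cv h x y‖ ≤ ‖x‖ * ‖y‖ := norm_cvl_le h x y

theorem cv_sg (h : IsWeight ω) (s t : ι) : cv h (sg s) (sg t) = sc ω s t • sg (s + t) := by
  rw [cv_apply, cvl_apply, outer_sg, synth_sg]

theorem cv_comm (h : IsWeight ω) (x y : L ι) : cv h x y = cv h y x := by
  have h1 : cv h = (cv h).flip := by
    apply bil_ext
    intro s t
    rw [ContinuousLinearMap.flip_apply, cv_sg, cv_sg, add_comm t s]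
    congr 1
    unfold sc
    rw [add_comm t s, mul_comm (ω t)]
  conv_lhs => rw [h1]
  rw [ContinuousLinearMap.flip_apply]

theorem cv_one (h : IsWeight ω) (x : L ι) : cv h (sg 0) x = x := by
  have h1 : cv h (sg 0) = ContinuousLinearMap.id ℂ (L ι) := by
    apply clm_ext
    intro t
    rw [cv_sg, zero_add]
    have h2 : sc ω 0 t = 1 := by
      unfold sc
      rw [zero_add, h.zero, one_mul, div_self (h.pos t).ne', Complex.ofReal_one]
    rw [h2, one_smul]
    rfl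
  rw [h1]
  rfl

theorem cv_assoc (h : IsWeight ω) (x y z : L ι) : cv h (cv h x y) z = cv h x (cv h y z) := by
  -- basis vectors
  have h0 : ∀ s t u : ι, cv h (cv h (sg s) (sg t)) (sg u) = cv h (sg s) (cv h (sg t) (sg u)) := by
    intro s t u
    rw [cv_sg, cv_sg, map_smul, map_smul, smul_apply, cv_sg, cv_sg, smul_smul,
      smul_smul, add_assoc]
    congr 1
    unfold sc
    rw [← Complex.ofReal_mul, ← Complex.ofReal_mul, add_assoc]
    congr 1
    have h1 := (h.pos s).ne'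
    have h2 := (h.pos t).ne'
    have h3 := (h.pos u).ne'
    have h4 := (h.pos (s + t)).ne'
    have h5 := (h.pos (t + u)).ne'
    field_simp
  have h1 : ∀ s t : ι, ∀ z, cv h (cv h (sg s) (sg t)) z = cv h (sg s) (cv h (sg t) z) := by
    intro s t z
    have h2 : cv h (cv h (sg s) (sg t)) = (cv h (sg s)).comp (cv h (sg t)) := by
      apply clm_ext
      intro u
      exact h0 s t u
    rw [h2]
    rfl
  have h2 : ∀ s : ι, ∀ y z, cv h (cv h (sg s) y) z = cv h (sg s) (cv h y z) := by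
    intro s y z
    have h3 : ((cv h).flip z).comp (cv h (sg s)) = (cv h (sg s)).comp ((cv h).flip z) := by
      apply clm_ext
      intro t
      exact h1 s t z
    exact DFunLike.congr_fun h3 y
  have h3 : ((cv h).flip z).comp ((cv h).flip y) = (cv h).flip (cv h y z) := by
    apply clm_ext
    intro s
    exact h2 s y z
  exact DFunLike.congr_fun h3 x

/-- The weighted convolution algebra, normalised. -/
theorem exists_alg (h : IsWeight ω) :
    ∃ (A : Type) (_ : NormedCommRing A) (_ : NormedAlgebra ℂ A) (_ : CompleteSpace A) (e : A ≃ₗ[ℂ] L ι),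
      (∀ x, ‖x‖ = ‖e x‖) ∧ e 1 = sg 0 ∧ ∀ x y, e (x * y) = cv h (e x) (e y) := by
  let inst : NormedCommRing (L ι) :=
    { (inferInstance : NormedAddCommGroup (L ι)) with
      mul := fun x y => cv h x y
      one := sg 0
      one_mul := fun x => cv_one h x
      mul_one := fun x => (cv_comm h x (sg 0)).trans (cv_one h x)
      mul_comm := fun x y => cv_comm h x y
      mul_assoc := fun x y z => cv_assoc h x y z
      left_distrib := fun x y z => by
        change cv h x (y + z) = cv h x y + cv h x z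
        rw [map_add]
      right_distrib := fun x y z => by
        change cv h (x + y) z = cv h x z + cv h y z
        rw [map_add]
        rfl
      zero_mul := fun x => by
        change cv h 0 x = 0
        rw [map_zero]
        rfl
      mul_zero := fun x => by
        change cv h x 0 = 0
        rw [map_zero]
      norm_mul_le := fun x y => norm_cv_le h x y }
  let alg : Algebra ℂ (L ι) := Algebra.ofModule
    (fun c x y => by
      change cv h (c • x) y = c • cv h x y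
      rw [map_smul]
      rfl)
    (fun c x y => by
      change cv h x (c • y) = c • cv h x y
      rw [map_smul])
  let na : NormedAlgebra ℂ (L ι) :=
    { alg with
      norm_smul_le := fun c x => by
        exact (norm_smul_le c (x : L ι)) }
  exact ⟨L ι, inst, na, (inferInstance : CompleteSpace (L ι)), LinearEquiv.refl ℂ (L ι), fun x => rfl, rfl,
    fun x y => rfl⟩

end weight

end v2

section v3
open scoped ENNReal Nat NNRat
/-! ### The level of a rational number and the weight -/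

/-- `s` is a multiple of `1 / n!`. -/
def In (n : ℕ) (s : ℚ≥0) : Prop := ∃ k : ℕ, s * (n ! : ℚ≥0) = k

theorem In.mono {n m : ℕ} (h : n ≤ m) {s : ℚ≥0} (hs : In n s) : In m s := by
  obtain ⟨k, hk⟩ := hs
  obtain ⟨l, hl⟩ := Nat.factorial_dvd_factorial h
  refine ⟨k * l, ?_⟩
  rw [hl, Nat.cast_mul, ← mul_assoc, hk, Nat.cast_mul]

theorem In.add {n : ℕ} {s t : ℚ≥0} (hs : In n s) (ht : In n t) : In n (s + t) := by
  obtain ⟨k, hk⟩ := hs
  obtain ⟨l, hl⟩ := ht
  refine ⟨k + l, ?_⟩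
  rw [add_mul, hk, hl, Nat.cast_add]

theorem In.of_add {n : ℕ} {s t : ℚ≥0} (hs : In n s) (hst : In n (s + t)) : In n t := by
  obtain ⟨k, hk⟩ := hs
  obtain ⟨l, hl⟩ := hst
  rw [add_mul, hk] at hl
  have h1 : k ≤ l := by
    have h2 : (k : ℚ≥0) ≤ l := by
      rw [← hl]
      exact le_self_add
    exact_mod_cast h2
  refine ⟨l - k, ?_⟩
  have h3 : (l : ℚ≥0) = k + ((l - k : ℕ) : ℚ≥0) := by
    rw [← Nat.cast_add, Nat.add_sub_cancel' h1]
  rw [h3] at hl
  exact add_left_cancel hl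

theorem In.zero (n : ℕ) : In n 0 := ⟨0, by simp⟩

theorem exists_In (s : ℚ≥0) : ∃ n, In n s := by
  refine ⟨s.den, s.num * (s.den - 1)!, ?_⟩
  have h : s.den ! = s.den * (s.den - 1)! := (Nat.mul_factorial_pred s.den_pos.ne').symm
  rw [h, Nat.cast_mul, Nat.cast_mul, ← mul_assoc, NNRat.mul_den_eq_num]

open Classical in
/-- the level -/
noncomputable def lev (s : ℚ≥0) : ℕ := Nat.find (exists_In s)

theorem lev_le_iff {s : ℚ≥0} {n : ℕ} : lev s ≤ n ↔ In n s := by
  classical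
  constructor
  · intro h
    exact (Nat.find_spec (exists_In s)).mono h
  · intro h
    exact Nat.find_min' (exists_In s) h

theorem lev_add_le (s t : ℚ≥0) : lev (s + t) ≤ max (lev s) (lev t) := by
  rw [lev_le_iff]
  exact ((lev_le_iff.mp (le_max_left _ _))).add (lev_le_iff.mp (le_max_right _ _))

theorem lev_zero : lev 0 = 0 := Nat.le_zero.mp (lev_le_iff.mpr (In.zero 0))

theorem lev_nsmul_le (k : ℕ) (s : ℚ≥0) : lev (k • s) ≤ lev s := by
  rw [lev_le_iff]
  induction k with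
  | zero => rw [zero_smul]; exact In.zero _
  | succ k ih => rw [succ_nsmul]; exact ih.add (lev_le_iff.mp le_rfl)

/-- the weight -/
noncomputable def wt (W : ℕ → ℝ) (s : ℚ≥0) : ℝ := W (lev s) * Real.exp (-(s : ℝ) ^ 2)

theorem one_le_W {W : ℕ → ℝ} (h0 : W 0 = 1) (hm : Monotone W) (n : ℕ) : 1 ≤ W n := by
  rw [← h0]
  exact hm (Nat.zero_le n)

theorem isWeight_wt {W : ℕ → ℝ} (h0 : W 0 = 1) (hm : Monotone W) : IsWeight (wt W) where
  pos := fun s => mul_pos (zero_lt_one.trans_le (one_le_W h0 hm _)) (Real.exp_pos _)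
  add_le := fun s t => by
    unfold wt
    have h1 : W (lev (s + t)) ≤ W (lev s) * W (lev t) := by
      have h2 := hm (lev_add_le s t)
      have h3 := one_le_W h0 hm (lev s)
      have h4 := one_le_W h0 hm (lev t)
      rcases max_cases (lev s) (lev t) with h | h
      · rw [h.1] at h2
        nlinarith
      · rw [h.1] at h2
        nlinarith
    have h5 : Real.exp (-((s + t : ℚ≥0) : ℝ) ^ 2) ≤ Real.exp (-(s : ℝ) ^ 2) * Real.exp (-(t : ℝ) ^ 2) := by
      rw [← Real.exp_add]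
      apply Real.exp_le_exp.mpr
      have h6 : ((s + t : ℚ≥0) : ℝ) = (s : ℝ) + (t : ℝ) := by push_cast; ring
      rw [h6]
      have h7 : (0 : ℝ) ≤ s := by positivity
      have h8 : (0 : ℝ) ≤ t := by positivity
      nlinarith [mul_nonneg h7 h8]
    calc W (lev (s + t)) * Real.exp (-((s + t : ℚ≥0) : ℝ) ^ 2)
        ≤ (W (lev s) * W (lev t)) * (Real.exp (-(s : ℝ) ^ 2) * Real.exp (-(t : ℝ) ^ 2)) :=
          mul_le_mul h1 h5 (Real.exp_pos _).le (mul_nonneg
            (zero_le_one.trans (one_le_W h0 hm _)) (zero_le_one.trans (one_le_W h0 hm _)))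
      _ = _ := by ring
  zero := by
    unfold wt
    rw [lev_zero, h0]
    simp

end v3

section v4
open scoped ENNReal Nat NNRat
/-! ### The algebra -/

/-- `A` is the weighted algebra of the weight `wt W`, through the normalised coordinates `e`. -/
structure IsAlg (W : ℕ → ℝ) {A : Type} [NormedCommRing A] [NormedAlgebra ℂ A] (e : A ≃ₗ[ℂ] L ℚ≥0) : Prop where
  W0 : W 0 = 1
  mono : Monotone W
  norm_eq : ∀ x, ‖x‖ = ‖e x‖
  e_one : e 1 = sg 0
  e_mul : ∀ x y (h : IsWeight (wt W)), e (x * y) = cv h (e x) (e y)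

theorem exists_isAlg {W : ℕ → ℝ} (h0 : W 0 = 1) (hm : Monotone W) :
    ∃ (A : Type) (_ : NormedCommRing A) (_ : NormedAlgebra ℂ A) (_ : CompleteSpace A) (e : A ≃ₗ[ℂ] L ℚ≥0),
      IsAlg W e := by
  obtain ⟨A, i1, i2, i3, e, h1, h2, h3⟩ := exists_alg (isWeight_wt h0 hm)
  exact ⟨A, i1, i2, i3, e, ⟨h0, hm, h1, h2, fun x y _ => h3 x y⟩⟩

section alg
variable {W : ℕ → ℝ} {A : Type} [NormedCommRing A] [NormedAlgebra ℂ A] {e : A ≃ₗ[ℂ] L ℚ≥0}

theorem IsAlg.weight (h : IsAlg W e) : IsWeight (wt W) := isWeight_wt h.W0 h.mono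

/-- the inverse coordinate map as a continuous linear map -/
noncomputable def IsAlg.eL (h : IsAlg W e) : L ℚ≥0 →L[ℂ] A :=
  LinearMap.mkContinuous (e.symm : L ℚ≥0 →ₗ[ℂ] A) 1 (fun x => by
    rw [one_mul]
    apply le_of_eq
    change ‖e.symm x‖ = ‖x‖
    rw [h.norm_eq, e.apply_symm_apply])

theorem IsAlg.eL_apply (h : IsAlg W e) (x : L ℚ≥0) : h.eL x = e.symm x := rfl

/-- the elements `δ_s` -/
noncomputable def dl (W : ℕ → ℝ) (e : A ≃ₗ[ℂ] L ℚ≥0) (s : ℚ≥0) : A := ((wt W s : ℝ) : ℂ) • e.symm (sg s)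

theorem IsAlg.e_dl (_h : IsAlg W e) (s : ℚ≥0) : e (dl W e s) = ((wt W s : ℝ) : ℂ) • sg s := by
  unfold dl
  rw [map_smul, e.apply_symm_apply]

theorem IsAlg.norm_dl (h : IsAlg W e) (s : ℚ≥0) : ‖dl W e s‖ = wt W s := by
  rw [h.norm_eq, h.e_dl, norm_smul, norm_sg, mul_one, Complex.norm_real,
    Real.norm_of_nonneg (h.weight.pos s).le]

theorem IsAlg.dl_add (h : IsAlg W e) (s t : ℚ≥0) : dl W e (s + t) = dl W e s * dl W e t := by
  apply e.injective
  rw [h.e_mul _ _ h.weight, h.e_dl, h.e_dl, h.e_dl, map_smul, map_smul, smul_apply, cv_sg, smul_smul,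
    smul_smul]
  congr 1
  unfold sc
  rw [← Complex.ofReal_mul, ← Complex.ofReal_mul]
  congr 1
  have h1 := (h.weight.pos s).ne'
  have h2 := (h.weight.pos t).ne'
  field_simp

theorem IsAlg.dl_zero (h : IsAlg W e) : dl W e 0 = 1 := by
  apply e.injective
  rw [h.e_dl, h.weight.zero, h.e_one, Complex.ofReal_one, one_smul]

theorem IsAlg.dl_ne_zero (h : IsAlg W e) (s : ℚ≥0) : dl W e s ≠ 0 := by
  rw [← norm_ne_zero_iff, h.norm_dl]
  exact (h.weight.pos s).ne'

theorem IsAlg.dl_nsmul (h : IsAlg W e) (k : ℕ) (s : ℚ≥0) : dl W e (k • s) = dl W e s ^ k := by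
  induction k with
  | zero => rw [zero_smul, pow_zero, h.dl_zero]
  | succ k ih => rw [succ_nsmul, h.dl_add, ih, pow_succ]

theorem co_zero_cv (hw : IsWeight (wt W)) (x y : L ℚ≥0) : co 0 (cv hw x y) = co 0 x * co 0 y := by
  have h1 : (ContinuousLinearMap.compL ℂ (L ℚ≥0) (L ℚ≥0) ℂ (coL 0)).comp (cv hw) =
      (ContinuousLinearMap.mul ℂ ℂ).bilinearComp (coL 0) (coL 0) := by
    apply bil_ext
    intro s t
    change co 0 (cv hw (sg s) (sg t)) = co 0 (sg s) * co 0 (sg t)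
    rw [cv_sg, map_smul, smul_eq_mul]
    by_cases hs : s = 0
    · by_cases ht : t = 0
      · rw [hs, ht, add_zero, co_sg_self]
        unfold sc
        rw [add_zero, hw.zero]
        simp
      · have h2 : (0 : ℚ≥0) ≠ s + t := by
          intro h
          exact ht (add_eq_zero.mp h.symm).2
        rw [co_sg_ne h2, co_sg_ne (Ne.symm ht), mul_zero, mul_zero]
    · have h2 : (0 : ℚ≥0) ≠ s + t := by
        intro h
        exact hs (add_eq_zero.mp h.symm).1
      rw [co_sg_ne h2, co_sg_ne (Ne.symm hs), mul_zero, zero_mul]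
  have h2 := DFunLike.congr_fun (DFunLike.congr_fun h1 x) y
  exact h2

/-- the trivial character -/
noncomputable def IsAlg.chi (h : IsAlg W e) : A →ₐ[ℂ] ℂ :=
  AlgHom.ofLinearMap ((co 0).comp (e : A →ₗ[ℂ] L ℚ≥0)) (by
    change co 0 (e 1) = 1
    rw [h.e_one, co_sg_self]) (fun x y => by
    change co 0 (e (x * y)) = co 0 (e x) * co 0 (e y)
    rw [h.e_mul x y h.weight, co_zero_cv])

theorem IsAlg.chi_apply (h : IsAlg W e) (x : A) : h.chi x = co 0 (e x) := rfl

theorem IsAlg.chi_dl (h : IsAlg W e) {s : ℚ≥0} (hs : s ≠ 0) : h.chi (dl W e s) = 0 := by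
  rw [h.chi_apply, h.e_dl, map_smul, co_sg_ne (Ne.symm hs), smul_zero]

theorem IsAlg.chi_norm_le (h : IsAlg W e) (x : A) : ‖h.chi x‖ ≤ ‖x‖ := by
  rw [h.chi_apply, h.norm_eq]
  exact norm_co_le _ _

theorem IsAlg.chi_continuous (h : IsAlg W e) : Continuous h.chi :=
  AddMonoidHomClass.continuous_of_bound h.chi 1 (fun x => by rw [one_mul]; exact h.chi_norm_le x)

/-- Every character vanishes on `δ_s`, `s ≠ 0`. -/
theorem IsAlg.char_dl (h : IsAlg W e) [CompleteSpace A] (f : WeakDual.characterSpace ℂ A) {s : ℚ≥0}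
    (hs : s ≠ 0) : f (dl W e s) = 0 := by
  by_contra hne
  have hc : 0 < ‖f (dl W e s)‖ := norm_pos_iff.mpr hne
  set c := ‖f (dl W e s)‖ with hcdef
  have hone : ‖(1 : A)‖ = 1 := by rw [h.norm_eq, h.e_one, norm_sg]
  have hspos : (0 : ℝ) < (s : ℝ) := by
    have : 0 < s := pos_iff_ne_zero.mpr hs
    exact_mod_cast this
  have hk : ∀ k : ℕ, c ^ k ≤ W (lev s) * Real.exp (-((k : ℝ) * s) ^ 2) := by
    intro k
    calc c ^ k = ‖f (dl W e (k • s))‖ := by
          rw [h.dl_nsmul, map_pow, norm_pow]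
      _ ≤ ‖dl W e (k • s)‖ * ‖(1 : A)‖ := AlgHom.norm_apply_le_self_mul_norm_one f _
      _ = wt W (k • s) := by rw [hone, mul_one, h.norm_dl]
      _ ≤ W (lev s) * Real.exp (-((k : ℝ) * s) ^ 2) := by
          unfold wt
          have h1 : ((k • s : ℚ≥0) : ℝ) = (k : ℝ) * s := by
            rw [nsmul_eq_mul]
            push_cast
            ring
          rw [h1]
          exact mul_le_mul_of_nonneg_right (h.mono (lev_nsmul_le k s)) (Real.exp_pos _).le
  have hW : 0 < W (lev s) := zero_lt_one.trans_le (one_le_W h.W0 h.mono _)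
  obtain ⟨k, hk1⟩ := exists_nat_gt ((W (lev s) + 1) / (c * (s : ℝ) ^ 2))
  have hk2 : W (lev s) + 1 < c * ((k : ℝ) * (s : ℝ) ^ 2) := by
    rw [div_lt_iff₀ (by positivity)] at hk1
    linarith
  have hkpos : k ≠ 0 := by
    rintro rfl
    simp at hk2
    linarith
  have h2 : W (lev s) + 1 ≤ c * Real.exp ((k : ℝ) * (s : ℝ) ^ 2) := by
    have h3 := Real.add_one_le_exp ((k : ℝ) * (s : ℝ) ^ 2)
    nlinarith
  have h4 : (c * Real.exp ((k : ℝ) * (s : ℝ) ^ 2)) ^ k ≤ W (lev s) := by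
    rw [mul_pow, ← Real.exp_nat_mul]
    calc c ^ k * Real.exp ((k : ℝ) * ((k : ℝ) * (s : ℝ) ^ 2))
        ≤ (W (lev s) * Real.exp (-((k : ℝ) * s) ^ 2)) * Real.exp ((k : ℝ) * ((k : ℝ) * (s : ℝ) ^ 2)) :=
          mul_le_mul_of_nonneg_right (hk k) (Real.exp_pos _).le
      _ = W (lev s) := by
          rw [mul_assoc, ← Real.exp_add]
          have : -((k : ℝ) * s) ^ 2 + (k : ℝ) * ((k : ℝ) * (s : ℝ) ^ 2) = 0 := by ring
          rw [this, Real.exp_zero, mul_one]
  have h5 : W (lev s) + 1 ≤ (c * Real.exp ((k : ℝ) * (s : ℝ) ^ 2)) ^ k := by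
    calc W (lev s) + 1 ≤ c * Real.exp ((k : ℝ) * (s : ℝ) ^ 2) := h2
      _ ≤ (c * Real.exp ((k : ℝ) * (s : ℝ) ^ 2)) ^ k := le_self_pow₀ (by linarith) hkpos
  linarith

theorem IsAlg.char_eq (h : IsAlg W e) [CompleteSpace A] (f : WeakDual.characterSpace ℂ A) (x : A) :
    f x = h.chi x := by
  let F : A →L[ℂ] ℂ := ⟨((WeakDual.CharacterSpace.toAlgHom f : A →ₐ[ℂ] ℂ) : A →ₗ[ℂ] ℂ),
    by exact map_continuous f⟩
  have hF : ∀ y, F y = f y := fun _ => rfl
  have h1 : F.comp h.eL = coL 0 := by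
    apply clm_ext
    intro s
    rw [ContinuousLinearMap.comp_apply, hF, h.eL_apply, coL_apply]
    by_cases hs : s = 0
    · rw [hs, co_sg_self, ← h.e_one, e.symm_apply_apply, map_one]
    · rw [co_sg_ne (Ne.symm hs)]
      have h2 := h.char_dl f hs
      unfold dl at h2
      rw [map_smul, smul_eq_mul, mul_eq_zero] at h2
      rcases h2 with h2 | h2
      · exact absurd (Complex.ofReal_eq_zero.mp h2) (h.weight.pos s).ne'
      · exact h2
  have h2 := DFunLike.congr_fun h1 (e x)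
  rw [ContinuousLinearMap.comp_apply, hF, h.eL_apply, e.symm_apply_apply, coL_apply] at h2
  exact h2

theorem IsAlg.isUnit_iff (h : IsAlg W e) [CompleteSpace A] (x : A) : IsUnit x ↔ h.chi x ≠ 0 := by
  constructor
  · intro hx
    exact (hx.map h.chi).ne_zero
  · intro hx
    by_contra hno
    obtain ⟨f, hf⟩ := WeakDual.CharacterSpace.exists_apply_eq_zero hno
    rw [h.char_eq] at hf
    exact hx hf

end alg

end v4

section v5
open scoped ENNReal Nat NNRat
section ideal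

theorem exists_sub {A : Type} [NormedCommRing A] [NormedAlgebra ℂ A] [CompleteSpace A] (χ : A →ₐ[ℂ] ℂ)
    (hχ : Continuous χ) :
    ∃ (R : Type) (_ : NonUnitalNormedCommRing R) (_ : NormedSpace ℂ R) (_ : IsScalarTower ℂ R R)
      (_ : SMulCommClass ℂ R R) (_ : CompleteSpace R) (j : R →ₙₐ[ℂ] A),
      (∀ x, ‖x‖ = ‖j x‖) ∧ ∀ y, (∃ x, j x = y) ↔ χ y = 0 := by
  let S : NonUnitalSubalgebra ℂ A :=
    { carrier := {y | χ y = 0}
      add_mem' := fun {a b} ha hb => by
        change χ (a + b) = 0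
        have ha' : χ a = 0 := ha
        have hb' : χ b = 0 := hb
        rw [map_add, ha', hb', add_zero]
      zero_mem' := map_zero χ
      mul_mem' := fun {a b} ha _ => by
        change χ (a * b) = 0
        have ha' : χ a = 0 := ha
        rw [map_mul, ha', zero_mul]
      smul_mem' := fun c a ha => by
        change χ (c • a) = 0
        have ha' : χ a = 0 := ha
        rw [map_smul, ha', smul_zero] }
  have hS : ∀ y, y ∈ S ↔ χ y = 0 := fun _ => Iff.rfl
  have hcl : IsClosed (S : Set A) := by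
    have : (S : Set A) = {y | χ y = 0} := rfl
    rw [this]
    exact isClosed_eq hχ continuous_const
  let _ : NonUnitalNormedCommRing S := NonUnitalSubalgebra.nonUnitalNormedCommRing S
  let _ : NormedSpace ℂ S :=
    { norm_smul_le := fun c x => by
        change ‖(c • x : A)‖ ≤ ‖c‖ * ‖(x : A)‖
        exact norm_smul_le c (x : A) }
  have : CompleteSpace S := hcl.completeSpace_coe
  refine ⟨S, inferInstance, inferInstance, inferInstance, inferInstance, inferInstance,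
    NonUnitalSubalgebraClass.subtype S, fun a => rfl, fun y => ⟨?_, ?_⟩⟩
  · rintro ⟨x, rfl⟩
    exact (hS _).mp x.2
  · intro hy
    exact ⟨⟨y, (hS y).mpr hy⟩, rfl⟩

/-- In the kernel of the only character all spectra are trivial. -/
theorem spectrum_subset {A R : Type} [NormedCommRing A] [NormedAlgebra ℂ A] [NonUnitalNormedCommRing R]
    [NormedSpace ℂ R] [IsScalarTower ℂ R R] [SMulCommClass ℂ R R] (χ : A →ₐ[ℂ] ℂ)
    (hunit : ∀ x : A, IsUnit x ↔ χ x ≠ 0) (j : R →ₙₐ[ℂ] A) (hinj : Function.Injective j)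
    (hj : ∀ y, (∃ x, j x = y) ↔ χ y = 0) (x : R) :
    spectrum ℂ (Unitization.inr x : Unitization ℂ R) ⊆ {0} := by
  intro μ hμ
  by_contra hne
  have hne' : μ ≠ 0 := hne
  rw [spectrum.mem_iff] at hμ
  apply hμ
  have hχj : ∀ z, χ (j z) = 0 := fun z => (hj _).mp ⟨z, rfl⟩
  have hu : IsUnit (algebraMap ℂ A μ - j x) := by
    rw [hunit, map_sub, hχj, sub_zero, AlgHom.commutes]
    exact hne'
  obtain ⟨y, hy⟩ := hu.exists_right_inv
  obtain ⟨z, hz⟩ := (hj (y - algebraMap ℂ A (χ y))).mpr (by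
    rw [map_sub, AlgHom.commutes]
    exact sub_self _)
  let F : Unitization ℂ R →ₐ[ℂ] A := Unitization.lift j
  have hF : ∀ a : Unitization ℂ R, F a = algebraMap ℂ A a.fst + j a.snd := by
    intro a
    conv_lhs => rw [← Unitization.inl_fst_add_inr_snd_eq a]
    rw [map_add]
    congr 1
    · change F (algebraMap ℂ _ a.fst) = _
      rw [AlgHom.commutes]
    · simp [F]
  have hFinj : Function.Injective F := by
    intro a b hab
    rw [hF, hF] at hab
    have h1 := congrArg χ hab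
    rw [map_add, map_add, hχj, hχj, add_zero, add_zero, AlgHom.commutes, AlgHom.commutes] at h1
    have h2 : a.fst = b.fst := h1
    rw [h2] at hab
    have h3 := hinj (add_left_cancel hab)
    exact Unitization.ext h2 h3
  have hmul : (algebraMap ℂ (Unitization ℂ R) μ - Unitization.inr x) *
      (algebraMap ℂ (Unitization ℂ R) (χ y) + Unitization.inr z) = 1 := by
    apply hFinj
    rw [map_mul, map_one, map_sub, map_add, AlgHom.commutes, AlgHom.commutes]
    have h4 : ∀ w : R, F (Unitization.inr w) = j w := by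
      intro w
      rw [hF]
      simp
    rw [h4, h4, hz, add_sub_cancel]
    exact hy
  exact IsUnit.of_mul_eq_one _ hmul

end ideal

end v5

section v6
open scoped ENNReal Nat NNRat Real
open Polynomial Complex Metric
/-! ### Counting zeros of polynomials -/

section rou

/-- number of zeros in the open disc of radius `r` -/
noncomputable def nz (r : ℝ) (f : ℂ[X]) : ℕ := by
  classical
  exact (f.roots.filter (fun z => ‖z‖ < r)).card

theorem integral_inv_out {r : ℝ} {w : ℂ} (hr : 0 < r) (hw : r < ‖w‖) :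
    (∮ z in C(0, r), (z - w)⁻¹) = 0 := by
  apply DiffContOnCl.circleIntegral_eq_zero hr.le
  have hne : ∀ z ∈ closedBall (0 : ℂ) r, z - w ≠ 0 := by
    intro z hz h
    rw [sub_eq_zero] at h
    rw [mem_closedBall_zero_iff, h] at hz
    linarith
  apply DifferentiableOn.diffContOnCl
  intro z hz
  rw [closure_ball (0 : ℂ) hr.ne'] at hz
  exact ((differentiableAt_id.sub_const w).inv (hne z hz)).differentiableWithinAt

theorem circleIntegrable_inv {r : ℝ} {w : ℂ} (hr : 0 < r) (hw : ‖w‖ ≠ r) :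
    CircleIntegrable (fun z => (z - w)⁻¹) 0 r := by
  apply ContinuousOn.circleIntegrable hr.le
  apply ContinuousOn.inv₀
  · fun_prop
  · intro z hz h
    rw [sub_eq_zero] at h
    rw [mem_sphere_zero_iff_norm, h] at hz
    exact hw hz

theorem integral_multiset {r : ℝ} (hr : 0 < r) (s : Multiset ℂ) (hs : ∀ w ∈ s, ‖w‖ ≠ r) :
    CircleIntegrable (fun z => (s.map (fun w => (z - w)⁻¹)).sum) 0 r ∧
    (∮ z in C(0, r), (s.map (fun w => (z - w)⁻¹)).sum) =
      (2 * π * I) * ((by classical exact (s.filter (fun z => ‖z‖ < r)).card : ℕ) : ℂ) := by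
  classical
  induction s using Multiset.induction_on with
  | empty =>
    constructor
    · simp only [Multiset.map_zero, Multiset.sum_zero]
      exact circleIntegrable_const 0 0 r
    · simp [circleIntegral]
  | cons a s ih =>
    obtain ⟨ih1, ih2⟩ := ih (fun w hw => hs w (Multiset.mem_cons_of_mem hw))
    have ha := hs a (Multiset.mem_cons_self a s)
    have hai := circleIntegrable_inv hr ha
    simp only [Multiset.map_cons, Multiset.sum_cons]
    refine ⟨hai.add ih1, ?_⟩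
    rw [circleIntegral.integral_add hai ih1, ih2]
    by_cases hlt : ‖a‖ < r
    · rw [Multiset.filter_cons_of_pos (p := fun z : ℂ => ‖z‖ < r) s hlt, Multiset.card_cons,
        circleIntegral.integral_sub_inv_of_mem_ball (by rw [mem_ball_zero_iff]; exact hlt)]
      push_cast
      ring
    · rw [Multiset.filter_cons_of_neg (p := fun z : ℂ => ‖z‖ < r) s hlt, integral_inv_out hr (lt_of_le_of_ne (not_lt.mp hlt) (Ne.symm ha)),
        zero_add]

theorem logDeriv_eq {f : ℂ[X]} {z : ℂ} (hz : f.eval z ≠ 0) :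
    f.derivative.eval z / f.eval z = (f.roots.map (fun w => (z - w)⁻¹)).sum := by
  rw [(IsAlgClosed.splits f).eval_derivative_div_eval_of_ne_zero hz]
  simp only [one_div]

theorem integral_logDeriv {r : ℝ} (hr : 0 < r) {f : ℂ[X]} (hf : ∀ z : ℂ, ‖z‖ = r → f.eval z ≠ 0) :
    CircleIntegrable (fun z => f.derivative.eval z / f.eval z) 0 r ∧
    (∮ z in C(0, r), f.derivative.eval z / f.eval z) = (2 * π * I) * (nz r f : ℂ) := by
  classical
  have hs : ∀ w ∈ f.roots, ‖w‖ ≠ r := by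
    intro w hw hwr
    have hf0 : f ≠ 0 := by
      rintro rfl
      simp at hw
    exact hf w hwr ((mem_roots hf0).mp hw)
  obtain ⟨h1, h2⟩ := integral_multiset hr f.roots hs
  constructor
  · apply ContinuousOn.circleIntegrable hr.le
    apply ContinuousOn.div
    · fun_prop
    · fun_prop
    · intro z hz
      exact hf z (mem_sphere_zero_iff_norm.mp hz)
  · have h3 : (∮ z in C(0, r), f.derivative.eval z / f.eval z) =
        ∮ z in C(0, r), (f.roots.map (fun w => (z - w)⁻¹)).sum := by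
      apply circleIntegral.integral_congr hr.le
      intro z hz
      exact logDeriv_eq (hf z (mem_sphere_zero_iff_norm.mp hz))
    rw [h3, h2]
    rfl

/-- Rouche's theorem for polynomials on circles centred at the origin. -/
theorem rouche {r : ℝ} (hr : 0 < r) {f g : ℂ[X]}
    (h : ∀ z : ℂ, ‖z‖ = r → ‖f.eval z - g.eval z‖ < ‖f.eval z‖) : nz r f = nz r g := by
  have hf : ∀ z : ℂ, ‖z‖ = r → f.eval z ≠ 0 := by
    intro z hz h0
    have := h z hz
    rw [h0, norm_zero] at this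
    exact absurd this (not_lt.mpr (norm_nonneg _))
  have hg : ∀ z : ℂ, ‖z‖ = r → g.eval z ≠ 0 := by
    intro z hz h0
    have := h z hz
    rw [h0, sub_zero] at this
    exact lt_irrefl _ this
  obtain ⟨f1, f2⟩ := integral_logDeriv hr hf
  obtain ⟨g1, g2⟩ := integral_logDeriv hr hg
  have h0 : (∮ z in C(0, r), (g.derivative.eval z / g.eval z - f.derivative.eval z / f.eval z)) = 0 := by
    apply circleIntegral.integral_eq_zero_of_hasDerivWithinAt (f := fun z => Complex.log (g.eval z / f.eval z)) hr.le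
    intro z hz
    have hz' : ‖z‖ = r := mem_sphere_zero_iff_norm.mp hz
    have hfz := hf z hz'
    have hgz := hg z hz'
    have hslit : g.eval z / f.eval z ∈ Complex.slitPlane := by
      have h1 : ‖g.eval z / f.eval z - 1‖ < 1 := by
        have h2 : g.eval z / f.eval z - 1 = (g.eval z - f.eval z) / f.eval z := by
          field_simp
        rw [h2, norm_div, div_lt_one (norm_pos_iff.mpr hfz), norm_sub_rev]
        exact h z hz'
      have h3 : 0 < (g.eval z / f.eval z).re := by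
        have h4 := (abs_le.mp ((Complex.abs_re_le_norm (g.eval z / f.eval z - 1)).trans h1.le)).1
        have h5 : |(g.eval z / f.eval z - 1).re| < 1 := (Complex.abs_re_le_norm _).trans_lt h1
        rw [Complex.sub_re, Complex.one_re] at h5
        have h6 := (abs_lt.mp h5).1
        linarith
      exact Or.inl h3
    have hd1 : HasDerivAt (fun w => g.eval w / f.eval w)
        ((g.derivative.eval z * f.eval z - g.eval z * f.derivative.eval z) / (f.eval z) ^ 2) z :=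
      (g.hasDerivAt z).div (f.hasDerivAt z) hfz
    have hd2 := hd1.clog hslit
    have h7 : g.derivative.eval z / g.eval z - f.derivative.eval z / f.eval z =
        (g.derivative.eval z * f.eval z - g.eval z * f.derivative.eval z) / (f.eval z) ^ 2 /
          (g.eval z / f.eval z) := by
      field_simp
    rw [h7]
    exact hd2.hasDerivWithinAt
  rw [circleIntegral.integral_sub g1 f1, f2, g2, ← mul_sub, mul_eq_zero] at h0
  have h8 : (2 * π * I : ℂ) ≠ 0 := by
    simp [Real.pi_ne_zero]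
  have h9 := h0.resolve_left h8
  rw [sub_eq_zero] at h9
  exact_mod_cast h9.symm

theorem nz_mul {r : ℝ} {f g : ℂ[X]} (h : f * g ≠ 0) : nz r (f * g) = nz r f + nz r g := by
  classical
  unfold nz
  rw [roots_mul h, Multiset.filter_add, Multiset.card_add]

theorem nz_pos {r : ℝ} (hr : 0 < r) {f : ℂ[X]} (hf : f ≠ 0) (h0 : f.eval 0 = 0) : 0 < nz r f := by
  classical
  unfold nz
  rw [Multiset.card_pos_iff_exists_mem]
  refine ⟨0, ?_⟩
  rw [Multiset.mem_filter]
  exact ⟨(mem_roots hf).mpr h0, by rw [norm_zero]; exact hr⟩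

end rou

end v6

section v7
open scoped ENNReal Nat NNRat
/-! ### Good circles -/

section good
variable {d : ℕ}

/-- evaluation of the polynomial with the given coefficients -/
noncomputable def ev (c : Fin d → ℂ) (ζ : ℂ) : ℂ := ∑ j, c j * ζ ^ (j : ℕ)

theorem ev_sub (c c' : Fin d → ℂ) (ζ : ℂ) : ev (c - c') ζ = ev c ζ - ev c' ζ := by
  unfold ev
  rw [← Finset.sum_sub_distrib]
  apply Finset.sum_congr rfl
  intro j _
  rw [Pi.sub_apply, sub_mul]

theorem norm_ev_le (c : Fin d → ℂ) {ζ : ℂ} (hζ : ‖ζ‖ ≤ 1) : ‖ev c ζ‖ ≤ d * ‖c‖ := by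
  unfold ev
  calc ‖∑ j, c j * ζ ^ (j : ℕ)‖ ≤ ∑ j : Fin d, ‖c j * ζ ^ (j : ℕ)‖ := norm_sum_le _ _
    _ ≤ ∑ j : Fin d, ‖c‖ := by
        apply Finset.sum_le_sum
        intro j _
        rw [norm_mul, norm_pow]
        calc ‖c j‖ * ‖ζ‖ ^ (j : ℕ) ≤ ‖c‖ * 1 :=
              mul_le_mul (norm_le_pi_norm c j) (pow_le_one₀ (norm_nonneg _) hζ) (by positivity)
                (norm_nonneg _)
          _ = ‖c‖ := mul_one _
    _ = d * ‖c‖ := by simp

theorem good_point (c : Fin d → ℂ) (hne : c ≠ 0) (M : ℝ) :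
    ∃ r ∈ Set.Ioo (0 : ℝ) 1, ∃ η > 0, ∀ ζ : ℂ, ‖ζ‖ = r → M * r ^ d + η ≤ ‖ev c ζ‖ := by
  classical
  -- the lowest term
  have hex : ∃ j : ℕ, ∃ h : j < d, c ⟨j, h⟩ ≠ 0 := by
    by_contra hno
    push Not at hno
    apply hne
    funext j
    exact hno j.1 j.2
  obtain ⟨hd, hj0⟩ := Nat.find_spec hex
  set j0 := Nat.find hex with hj0def
  have hmin : ∀ j : Fin d, (j : ℕ) < j0 → c j = 0 := by
    intro j hj
    by_contra hcj
    exact Nat.find_min hex hj ⟨j.2, hcj⟩
  set δ := ‖c ⟨j0, hd⟩‖ with hδdef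
  have hδ : 0 < δ := norm_pos_iff.mpr hj0
  let G : ℂ → ℂ := fun ζ => ∑ j : Fin d, (if j0 ≤ (j : ℕ) then c j * ζ ^ ((j : ℕ) - j0) else 0)
  have hG : Continuous G := by
    apply continuous_finsetSum
    intro j _
    split_ifs
    · fun_prop
    · exact continuous_const
  have hG0 : G 0 = c ⟨j0, hd⟩ := by
    simp only [G]
    rw [Finset.sum_eq_single (⟨j0, hd⟩ : Fin d)]
    · simp
    · intro j _ hj
      by_cases hle : j0 ≤ (j : ℕ)
      · have hlt : j0 < (j : ℕ) := lt_of_le_of_ne hle (fun h => hj (Fin.ext h.symm))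
        rw [if_pos hle, zero_pow (by omega), mul_zero]
      · rw [if_neg hle]
    · intro h
      exact absurd (Finset.mem_univ _) h
  have hev : ∀ ζ, ev c ζ = ζ ^ j0 * G ζ := by
    intro ζ
    simp only [G, ev]
    rw [Finset.mul_sum]
    apply Finset.sum_congr rfl
    intro j _
    by_cases hle : j0 ≤ (j : ℕ)
    · rw [if_pos hle]
      have : (j : ℕ) = j0 + ((j : ℕ) - j0) := by omega
      conv_lhs => rw [this, pow_add]
      ring
    · rw [if_neg hle, hmin j (by omega)]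
      ring
  have hGc : ∀ᶠ ζ in nhds (0 : ℂ), δ / 2 < ‖G ζ‖ := by
    have h1 : Filter.Tendsto (fun ζ => ‖G ζ‖) (nhds 0) (nhds ‖G 0‖) := (hG.norm).tendsto 0
    apply h1.eventually (lt_mem_nhds _)
    rw [hG0]
    linarith
  obtain ⟨ρ, hρ, hρG⟩ := Metric.eventually_nhds_iff.mp hGc
  set r := min (ρ / 2) (min (1 / 2) (δ / (4 * (|M| + 1)))) with hr
  have hr0 : 0 < r := by
    rw [hr]
    apply lt_min (by linarith)
    apply lt_min (by norm_num)
    positivity
  have hr1 : r ≤ ρ / 2 := min_le_left _ _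
  have hr2 : r ≤ 1 / 2 := (min_le_right _ _).trans (min_le_left _ _)
  have hr3 : r ≤ δ / (4 * (|M| + 1)) := (min_le_right _ _).trans (min_le_right _ _)
  have hMr : |M| * r ≤ δ / 4 := by
    have h1 : (|M| + 1) * r ≤ δ / 4 := by
      rw [le_div_iff₀ (by positivity)] at hr3
      linarith
    nlinarith
  refine ⟨r, ⟨hr0, by linarith⟩, r ^ j0 * (δ / 4), by positivity, ?_⟩
  intro ζ hζ
  have h1 : δ / 2 < ‖G ζ‖ := by
    apply hρG
    rw [dist_zero_right, hζ]
    linarith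
  have h2 : M * r ^ d ≤ r ^ j0 * (δ / 4) := by
    have h3 : r ^ d = r ^ j0 * r ^ (d - j0) := by
      rw [← pow_add]
      congr 1
      omega
    have h4 : r ^ (d - j0) ≤ r := by
      have : r ^ (d - j0) ≤ r ^ 1 := pow_le_pow_of_le_one hr0.le (by linarith) (by omega)
      rwa [pow_one] at this
    calc M * r ^ d ≤ |M| * r ^ d := mul_le_mul_of_nonneg_right (le_abs_self M) (by positivity)
      _ = r ^ j0 * (|M| * r ^ (d - j0)) := by rw [h3]; ring
      _ ≤ r ^ j0 * (|M| * r) := by gcongr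
      _ ≤ r ^ j0 * (δ / 4) := by gcongr
  rw [hev, norm_mul, norm_pow, hζ]
  have h5 : r ^ j0 * (δ / 2) ≤ r ^ j0 * ‖G ζ‖ := by gcongr
  nlinarith

/-- Uniformity by compactness. -/
theorem exists_eta (d : ℕ) (M B ε0 : ℝ) (hε0 : 0 < ε0) : ∃ η > 0, ∀ c : Fin d → ℂ, ‖c‖ ≤ B →
    (∃ j, ε0 ≤ ‖c j‖) → ∃ r ∈ Set.Ioo (0 : ℝ) 1, ∀ ζ : ℂ, ‖ζ‖ = r → M * r ^ d + η ≤ ‖ev c ζ‖ := by
  have hK : IsCompact {c : Fin d → ℂ | ‖c‖ ≤ B ∧ ∃ j, ε0 ≤ ‖c j‖} := by
    apply Metric.isCompact_of_isClosed_isBounded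
    · have h1 : {c : Fin d → ℂ | ‖c‖ ≤ B ∧ ∃ j, ε0 ≤ ‖c j‖} =
          {c : Fin d → ℂ | ‖c‖ ≤ B} ∩ ⋃ j : Fin d, {c : Fin d → ℂ | ε0 ≤ ‖c j‖} := by
        ext c
        simp
      rw [h1]
      apply IsClosed.inter
      · exact isClosed_le continuous_norm continuous_const
      · apply isClosed_iUnion_of_finite
        intro j
        exact isClosed_le continuous_const (by fun_prop)
    · rw [isBounded_iff_forall_norm_le]
      exact ⟨B, fun c hc => hc.1⟩
  have h := hK.induction_on (p := fun S => ∃ η > 0, ∀ c ∈ S, ∃ r ∈ Set.Ioo (0 : ℝ) 1,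
    ∀ ζ : ℂ, ‖ζ‖ = r → M * r ^ d + η ≤ ‖ev c ζ‖) ?_ ?_ ?_ ?_
  · obtain ⟨η, hη, h⟩ := h
    exact ⟨η, hη, fun c h1 h2 => h c ⟨h1, h2⟩⟩
  · exact ⟨1, one_pos, fun c hc => absurd hc (Set.notMem_empty c)⟩
  · rintro S T hST ⟨η, hη, h⟩
    exact ⟨η, hη, fun c hc => h c (hST hc)⟩
  · rintro S T ⟨η, hη, h⟩ ⟨η', hη', h'⟩
    refine ⟨min η η', lt_min hη hη', ?_⟩
    rintro c (hc | hc)
    · obtain ⟨r, hr, hrr⟩ := h c hc
      exact ⟨r, hr, fun ζ hζ => (add_le_add_right (min_le_left _ _) _).trans (hrr ζ hζ)⟩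
    · obtain ⟨r, hr, hrr⟩ := h' c hc
      exact ⟨r, hr, fun ζ hζ => (add_le_add_right (min_le_right _ _) _).trans (hrr ζ hζ)⟩
  · rintro c ⟨_, j, hj⟩
    have hne : c ≠ 0 := by
      rintro rfl
      rw [Pi.zero_apply, norm_zero] at hj
      linarith
    obtain ⟨r, hr, η, hη, h⟩ := good_point c hne M
    refine ⟨Metric.ball c (η / (2 * (d + 1))), mem_nhdsWithin_of_mem_nhds
      (Metric.ball_mem_nhds c (by positivity)), η / 2, by positivity, ?_⟩
    intro c' hc'
    refine ⟨r, hr, fun ζ hζ => ?_⟩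
    have h1 := h ζ hζ
    have h2 : ‖ev c' ζ - ev c ζ‖ ≤ η / 2 := by
      rw [← ev_sub]
      refine (norm_ev_le _ (by rw [hζ]; exact hr.2.le)).trans ?_
      rw [Metric.mem_ball, dist_eq_norm, lt_div_iff₀ (by positivity)] at hc'
      nlinarith [norm_nonneg (c' - c)]
    have h3 : ‖ev c ζ‖ ≤ ‖ev c' ζ‖ + ‖ev c' ζ - ev c ζ‖ := by
      have := norm_sub_norm_le (ev c ζ) (ev c' ζ)
      rw [norm_sub_rev] at this
      linarith
    linarith

end good

/-- the constant -/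
noncomputable def Kc (n : ℕ) : ℝ := (n : ℝ) ^ 2 * Real.exp (2 * (n : ℝ) ^ 2)

theorem Kc_nonneg (n : ℕ) : 0 ≤ Kc n := by unfold Kc; positivity

/-- the property of the weight sequence -/
def Qp (n : ℕ) (w : ℝ) : Prop :=
  Kc n + 2 * Kc n ^ 2 + 1 ≤ w ∧ ∀ c : Fin (n * n !) → ℂ, ‖c‖ ≤ n * Real.exp ((n : ℝ) ^ 2) →
    (∃ j, 1 / ((n : ℝ) + 1) ≤ ‖c j‖) → ∃ r ∈ Set.Ioo (0 : ℝ) 1, ∀ ζ : ℂ, ‖ζ‖ = r →
      (Kc n + 2 * Kc n ^ 2) * r ^ (n * n !) + 1 / w < ‖ev c ζ‖

theorem exists_Qp (n : ℕ) : ∃ w, ∀ w', w ≤ w' → Qp n w' := by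
  obtain ⟨η, hη, h⟩ := exists_eta (n * n !) (Kc n + 2 * Kc n ^ 2) (n * Real.exp ((n : ℝ) ^ 2))
    (1 / ((n : ℝ) + 1)) (by positivity)
  refine ⟨max (Kc n + 2 * Kc n ^ 2 + 1) (2 / η), fun w' hw' => ⟨(le_max_left _ _).trans hw', ?_⟩⟩
  intro c hc1 hc2
  obtain ⟨r, hr, hrr⟩ := h c hc1 hc2
  refine ⟨r, hr, fun ζ hζ => ?_⟩
  have h1 := hrr ζ hζ
  have h2 : 2 / η ≤ w' := (le_max_right _ _).trans hw'
  have hw0 : 0 < w' := lt_of_lt_of_le (by positivity) h2
  have h3 : 1 / w' < η := by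
    rw [div_lt_iff₀ hw0]
    rw [div_le_iff₀ hη] at h2
    linarith
  linarith

theorem exists_W : ∃ W : ℕ → ℝ, W 0 = 1 ∧ Monotone W ∧ ∀ n, Qp n (W (n + 1)) := by
  choose w hw using exists_Qp
  refine ⟨fun n => 1 + ∑ k ∈ Finset.range n, |w k|, by simp, ?_, ?_⟩
  · apply monotone_nat_of_le_succ
    intro n
    rw [Finset.sum_range_succ]
    have := abs_nonneg (w n)
    linarith
  · intro n
    apply hw
    change w n ≤ 1 + ∑ k ∈ Finset.range (n + 1), |w k|
    rw [Finset.sum_range_succ]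
    have h1 : 0 ≤ ∑ k ∈ Finset.range n, |w k| := Finset.sum_nonneg (fun _ _ => abs_nonneg _)
    have h2 := le_abs_self (w n)
    linarith

end v7

section v8
open scoped ENNReal Nat NNRat
/-! ### Approximate evaluation -/

section psi

/-- numerator with respect to `n!` -/
noncomputable def kk (n : ℕ) (s : ℚ≥0) : ℕ := by
  classical
  exact if h : In n s then h.choose else 0

theorem kk_spec {n : ℕ} {s : ℚ≥0} (h : In n s) : s * (n ! : ℚ≥0) = kk n s := by
  unfold kk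
  rw [dif_pos h]
  exact h.choose_spec

theorem fact_ne (n : ℕ) : (n ! : ℚ≥0) ≠ 0 := by
  exact_mod_cast n.factorial_ne_zero

/-- `j / n!` -/
noncomputable def pt (n j : ℕ) : ℚ≥0 := (j : ℚ≥0) / (n ! : ℚ≥0)

theorem pt_eq_iff {n j : ℕ} {s : ℚ≥0} : pt n j = s ↔ In n s ∧ j = kk n s := by
  unfold pt
  rw [div_eq_iff (fact_ne n)]
  constructor
  · intro h
    have h1 : In n s := ⟨j, h.symm⟩
    refine ⟨h1, ?_⟩
    have h2 := kk_spec h1
    rw [← h] at h2
    exact_mod_cast h2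
  · rintro ⟨h, rfl⟩
    exact (kk_spec h).symm

theorem kk_add {n : ℕ} {s t : ℚ≥0} (hs : In n s) (ht : In n t) : kk n (s + t) = kk n s + kk n t := by
  have h1 := kk_spec hs
  have h2 := kk_spec ht
  have h3 := kk_spec (hs.add ht)
  rw [add_mul, h1, h2] at h3
  exact_mod_cast h3.symm

theorem lt_of_kk_lt {n : ℕ} {s : ℚ≥0} (hs : In n s) (h : kk n s < n * n !) : (s : ℝ) < n := by
  have h1 := kk_spec hs
  have h2 : s * (n ! : ℚ≥0) < n * (n ! : ℚ≥0) := by
    rw [h1]
    exact_mod_cast h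
  have h3 : s < n := lt_of_mul_lt_mul_right h2 (zero_le)
  exact_mod_cast h3

variable {n : ℕ} {ζ : ℂ}

open Classical in
/-- the symbol -/
noncomputable def psi (n : ℕ) (ζ : ℂ) (s : ℚ≥0) : ℂ :=
  if In n s ∧ kk n s < n * n ! then ζ ^ kk n s else 0

theorem psi_pos {s : ℚ≥0} (h1 : In n s) (h2 : kk n s < n * n !) : psi n ζ s = ζ ^ kk n s := by
  unfold psi
  rw [if_pos ⟨h1, h2⟩]

theorem psi_neg {s : ℚ≥0} (h : ¬ (In n s ∧ kk n s < n * n !)) : psi n ζ s = 0 := by
  unfold psi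
  rw [if_neg h]

theorem norm_psi_le (hζ : ‖ζ‖ ≤ 1) (s : ℚ≥0) : ‖psi n ζ s‖ ≤ 1 := by
  by_cases h : (In n s ∧ kk n s < n * n !)
  · rw [psi_pos h.1 h.2, norm_pow]
    exact pow_le_one₀ (norm_nonneg _) hζ
  · rw [psi_neg h, norm_zero]
    exact zero_le_one

variable {W : ℕ → ℝ}

theorem wt_ge_one {s : ℚ≥0} (hw : W 0 = 1) (hm : Monotone W) (hs : (s : ℝ) < n) :
    1 ≤ Real.exp ((n : ℝ) ^ 2) * wt W s := by
  unfold wt
  have h0 : (0 : ℝ) ≤ s := by positivity
  have h1 := one_le_W hw hm (lev s)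
  have h2 : 1 ≤ Real.exp ((n : ℝ) ^ 2) * Real.exp (-(s : ℝ) ^ 2) := by
    rw [← Real.exp_add]
    apply Real.one_le_exp
    nlinarith
  have h3 : 0 < Real.exp ((n : ℝ) ^ 2) * Real.exp (-(s : ℝ) ^ 2) := by positivity
  nlinarith

theorem wt_ge_W {s : ℚ≥0} (hm : Monotone W) (hs : (s : ℝ) < n) (hin : ¬ In n s)
    (hW : 0 < W (n + 1)) :
    W (n + 1) ≤ Real.exp ((n : ℝ) ^ 2) * wt W s := by
  unfold wt
  have h0 : (0 : ℝ) ≤ s := by positivity
  have h1 : W (n + 1) ≤ W (lev s) := by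
    apply hm
    rw [← lev_le_iff, not_le] at hin
    exact hin
  have h2 : 1 ≤ Real.exp ((n : ℝ) ^ 2) * Real.exp (-(s : ℝ) ^ 2) := by
    rw [← Real.exp_add]
    apply Real.one_le_exp
    nlinarith
  have h3 : 0 < W (lev s) := hW.trans_le h1
  nlinarith

/-- The pointwise estimate. -/
theorem psi_bound (hw : W 0 = 1) (hm : Monotone W) {r : ℝ} (hr : r ∈ Set.Ioo (0 : ℝ) 1) (hζ : ‖ζ‖ = r)
    (s t : ℚ≥0) : ‖psi n ζ s * psi n ζ t - psi n ζ (s + t)‖ ≤
      (Real.exp (2 * (n : ℝ) ^ 2) * (r ^ (n * n !) + (W (n + 1))⁻¹ ^ 2)) * (wt W s * wt W t) := by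
  have hwt : ∀ u, 0 < wt W u := (isWeight_wt hw hm).pos
  have hW1 : 0 < W (n + 1) := zero_lt_one.trans_le (one_le_W hw hm _)
  have hexp : Real.exp (2 * (n : ℝ) ^ 2) = Real.exp ((n : ℝ) ^ 2) * Real.exp ((n : ℝ) ^ 2) := by
    rw [← Real.exp_add]; ring_nf
  have hr0 := hr.1
  have hrhs : 0 ≤ (Real.exp (2 * (n : ℝ) ^ 2) * (r ^ (n * n !) + (W (n + 1))⁻¹ ^ 2)) *
      (wt W s * wt W t) := by
    have := hwt s
    have := hwt t
    positivity
  by_cases hs : In n s
  · by_cases ht : In n t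
    · -- both are multiples
      by_cases hlt : (kk n s + kk n t < n * n !)
      · rw [psi_pos hs (by omega), psi_pos ht (by omega), psi_pos (hs.add ht) (by rw [kk_add hs ht]; exact hlt),
          kk_add hs ht, pow_add, sub_self, norm_zero]
        exact hrhs
      · rw [psi_neg (s := s + t) (by rw [kk_add hs ht]; exact fun h => hlt h.2), sub_zero]
        by_cases hks : (kk n s < n * n !)
        · by_cases hkt : (kk n t < n * n !)
          · rw [psi_pos hs hks, psi_pos ht hkt, ← pow_add, norm_pow, hζ]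
            have h1 : r ^ (kk n s + kk n t) ≤ r ^ (n * n !) :=
              pow_le_pow_of_le_one hr0.le hr.2.le (not_lt.mp hlt)
            have h2 := wt_ge_one hw hm (lt_of_kk_lt hs hks)
            have h3 := wt_ge_one hw hm (lt_of_kk_lt ht hkt)
            have h4 : 1 ≤ (Real.exp ((n : ℝ) ^ 2) * wt W s) * (Real.exp ((n : ℝ) ^ 2) * wt W t) := by
              nlinarith
            calc r ^ (kk n s + kk n t) ≤ r ^ (n * n !) := h1
              _ ≤ (r ^ (n * n !) + (W (n + 1))⁻¹ ^ 2) := le_add_of_nonneg_right (by positivity)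
              _ ≤ (r ^ (n * n !) + (W (n + 1))⁻¹ ^ 2) *
                  ((Real.exp ((n : ℝ) ^ 2) * wt W s) * (Real.exp ((n : ℝ) ^ 2) * wt W t)) :=
                  le_mul_of_one_le_right (by positivity) h4
              _ = _ := by rw [hexp]; ring
          · rw [psi_neg (s := t) (fun h => hkt h.2), mul_zero, norm_zero]
            exact hrhs
        · rw [psi_neg (s := s) (fun h => hks h.2), zero_mul, norm_zero]
          exact hrhs
    · rw [psi_neg (s := t) (fun h => ht h.1), psi_neg (s := s + t) (fun h => ht (hs.of_add h.1)),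
        mul_zero, sub_zero, norm_zero]
      exact hrhs
  · rw [psi_neg (s := s) (fun h => hs h.1), zero_mul, zero_sub, norm_neg]
    by_cases hst : (In n (s + t) ∧ kk n (s + t) < n * n !)
    · have ht : ¬ In n t := by
        intro ht
        apply hs
        rw [add_comm] at hst
        exact ht.of_add hst.1
      have h1 := lt_of_kk_lt hst.1 hst.2
      have h2 : ((s + t : ℚ≥0) : ℝ) = (s : ℝ) + (t : ℝ) := by push_cast; ring
      rw [h2] at h1
      have h3 : (0 : ℝ) ≤ s := by positivity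
      have h4 : (0 : ℝ) ≤ t := by positivity
      have h5 := wt_ge_W hm (by linarith : (s : ℝ) < n) hs hW1
      have h6 := wt_ge_W hm (by linarith : (t : ℝ) < n) ht hW1
      have h7 : W (n + 1) * W (n + 1) ≤ (Real.exp ((n : ℝ) ^ 2) * wt W s) * (Real.exp ((n : ℝ) ^ 2) * wt W t) :=
        mul_le_mul h5 h6 hW1.le (hW1.le.trans h5)
      calc ‖psi n ζ (s + t)‖ ≤ 1 := norm_psi_le (by rw [hζ]; exact hr.2.le) _
        _ = (W (n + 1))⁻¹ ^ 2 * (W (n + 1) * W (n + 1)) := by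
            field_simp
        _ ≤ (W (n + 1))⁻¹ ^ 2 * ((Real.exp ((n : ℝ) ^ 2) * wt W s) * (Real.exp ((n : ℝ) ^ 2) * wt W t)) :=
            mul_le_mul_of_nonneg_left h7 (by positivity)
        _ ≤ (r ^ (n * n !) + (W (n + 1))⁻¹ ^ 2) *
            ((Real.exp ((n : ℝ) ^ 2) * wt W s) * (Real.exp ((n : ℝ) ^ 2) * wt W t)) := by
            apply mul_le_mul_of_nonneg_right (le_add_of_nonneg_left (by positivity))
            have := hwt s
            have := hwt t
            positivity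
        _ = _ := by rw [hexp]; ring
    · rw [psi_neg hst, norm_zero]
      exact hrhs

end psi

end v8

section v9
open scoped ENNReal Nat NNRat
/-! ### Nonexistence of continuous semigroups -/

section functional
variable (W : ℕ → ℝ) (n : ℕ)

/-- low order coefficients -/
noncomputable def cvec (x : L ℚ≥0) : Fin (n * n !) → ℂ :=
  fun j => co (pt n j) x / ((wt W (pt n j) : ℝ) : ℂ)

/-- approximate evaluation -/
noncomputable def Psi (ζ : ℂ) : L ℚ≥0 →L[ℂ] ℂ :=
  ∑ j : Fin (n * n !), (ζ ^ (j : ℕ) / ((wt W (pt n j) : ℝ) : ℂ)) • coL (pt n j)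

theorem Psi_apply (ζ : ℂ) (x : L ℚ≥0) : Psi W n ζ x = ev (cvec W n x) ζ := by
  unfold Psi ev cvec
  rw [sum_apply]
  apply Finset.sum_congr rfl
  intro j _
  rw [smul_apply, coL_apply, smul_eq_mul]
  ring

theorem Psi_sg (ζ : ℂ) (s : ℚ≥0) : Psi W n ζ (sg s) = psi n ζ s / ((wt W s : ℝ) : ℂ) := by
  classical
  unfold Psi
  rw [sum_apply]
  have h0 : ∀ j : Fin (n * n !), ((ζ ^ (j : ℕ) / ((wt W (pt n j) : ℝ) : ℂ)) • coL (pt n j)) (sg s) =
      if pt n j = s then ζ ^ (j : ℕ) / ((wt W (pt n j) : ℝ) : ℂ) else 0 := by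
    intro j
    rw [smul_apply, coL_apply, smul_eq_mul, co_sg]
    split_ifs
    · rw [mul_one]
    · rw [mul_zero]
  rw [Finset.sum_congr rfl (fun j _ => h0 j)]
  by_cases h : (In n s ∧ kk n s < n * n !)
  · rw [psi_pos h.1 h.2, Finset.sum_eq_single (⟨kk n s, h.2⟩ : Fin (n * n !))]
    · have h1 : pt n (kk n s) = s := pt_eq_iff.mpr ⟨h.1, rfl⟩
      simp only [h1, if_true]
    · intro j _ hj
      rw [if_neg]
      intro hjs
      apply hj
      exact Fin.ext (pt_eq_iff.mp hjs).2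
    · intro hh
      exact absurd (Finset.mem_univ _) hh
  · rw [psi_neg h, zero_div]
    apply Finset.sum_eq_zero
    intro j _
    rw [if_neg]
    intro hjs
    obtain ⟨h1, h2⟩ := pt_eq_iff.mp hjs
    exact h ⟨h1, h2 ▸ j.2⟩

variable {W n}

theorem pt_lt {j : ℕ} (hj : j < n * n !) : ((pt n j : ℚ≥0) : ℝ) < n := by
  obtain ⟨h1, h2⟩ := pt_eq_iff.mp (rfl : pt n j = pt n j)
  exact lt_of_kk_lt h1 (by rw [← h2]; exact hj)

theorem norm_div_wt_le (hw : W 0 = 1) (hm : Monotone W) {s : ℚ≥0} (hs : (s : ℝ) < n) (a : ℂ) :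
    ‖a / ((wt W s : ℝ) : ℂ)‖ ≤ Real.exp ((n : ℝ) ^ 2) * ‖a‖ := by
  have h1 := wt_ge_one hw hm hs
  have h2 := (isWeight_wt hw hm).pos s
  rw [norm_div, Complex.norm_real, Real.norm_of_nonneg h2.le, div_le_iff₀ h2]
  calc ‖a‖ = ‖a‖ * 1 := (mul_one _).symm
    _ ≤ ‖a‖ * (Real.exp ((n : ℝ) ^ 2) * wt W s) := mul_le_mul_of_nonneg_left h1 (norm_nonneg _)
    _ = _ := by ring

theorem norm_cvec_le (hw : W 0 = 1) (hm : Monotone W) (x : L ℚ≥0) :
    ‖cvec W n x‖ ≤ Real.exp ((n : ℝ) ^ 2) * ‖x‖ := by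
  rw [pi_norm_le_iff_of_nonneg (by positivity)]
  intro j
  unfold cvec
  refine (norm_div_wt_le hw hm (pt_lt j.2) _).trans ?_
  exact mul_le_mul_of_nonneg_left (norm_co_le _ _) (Real.exp_pos _).le

theorem norm_Psi_le (hw : W 0 = 1) (hm : Monotone W) {ζ : ℂ} (hζ : ‖ζ‖ ≤ 1) (x : L ℚ≥0) :
    ‖Psi W n ζ x‖ ≤ Real.exp ((n : ℝ) ^ 2) * ‖x‖ := by
  apply clm_bound
  intro s
  rw [Psi_sg]
  by_cases h : (In n s ∧ kk n s < n * n !)
  · refine (norm_div_wt_le hw hm (lt_of_kk_lt h.1 h.2) _).trans ?_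
    calc Real.exp ((n : ℝ) ^ 2) * ‖psi n ζ s‖ ≤ Real.exp ((n : ℝ) ^ 2) * 1 :=
          mul_le_mul_of_nonneg_left (norm_psi_le hζ s) (Real.exp_pos _).le
      _ = Real.exp ((n : ℝ) ^ 2) := mul_one _
  · rw [psi_neg h, zero_div, norm_zero]
    exact (Real.exp_pos _).le

theorem Psi_mul_bound (hw : W 0 = 1) (hm : Monotone W) {r : ℝ} (hr : r ∈ Set.Ioo (0 : ℝ) 1) {ζ : ℂ}
    (hζ : ‖ζ‖ = r) (h : IsWeight (wt W)) (x y : L ℚ≥0) :
    ‖Psi W n ζ x * Psi W n ζ y - Psi W n ζ (cv h x y)‖ ≤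
      (Real.exp (2 * (n : ℝ) ^ 2) * (r ^ (n * n !) + (W (n + 1))⁻¹ ^ 2)) * ‖x‖ * ‖y‖ := by
  let D : L ℚ≥0 →L[ℂ] L ℚ≥0 →L[ℂ] ℂ :=
    (ContinuousLinearMap.mul ℂ ℂ).bilinearComp (Psi W n ζ) (Psi W n ζ) -
      (ContinuousLinearMap.compL ℂ (L ℚ≥0) (L ℚ≥0) ℂ (Psi W n ζ)).comp (cv h)
  have hD : ∀ x y, D x y = Psi W n ζ x * Psi W n ζ y - Psi W n ζ (cv h x y) := fun _ _ => rfl
  rw [← hD]
  apply bil_bound
  intro s t
  rw [hD, cv_sg, map_smul, Psi_sg, Psi_sg, Psi_sg]
  have h1 := h.pos s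
  have h2 := h.pos t
  have h3 := h.pos (s + t)
  have h4 : psi n ζ s / ((wt W s : ℝ) : ℂ) * (psi n ζ t / ((wt W t : ℝ) : ℂ)) -
      sc (wt W) s t • (psi n ζ (s + t) / ((wt W (s + t) : ℝ) : ℂ)) =
      (psi n ζ s * psi n ζ t - psi n ζ (s + t)) / ((wt W s * wt W t : ℝ) : ℂ) := by
    have h1' : ((wt W s : ℝ) : ℂ) ≠ 0 := Complex.ofReal_ne_zero.mpr h1.ne'
    have h2' : ((wt W t : ℝ) : ℂ) ≠ 0 := Complex.ofReal_ne_zero.mpr h2.ne'
    have h3' : ((wt W (s + t) : ℝ) : ℂ) ≠ 0 := Complex.ofReal_ne_zero.mpr h3.ne'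
    unfold sc
    rw [smul_eq_mul]
    push_cast
    field_simp
  rw [h4, norm_div, Complex.norm_real, Real.norm_of_nonneg (by positivity), div_le_iff₀ (by positivity)]
  exact psi_bound hw hm hr hζ s t

end functional

section nonex
open Polynomial

/-- the polynomial with given coefficients -/
noncomputable def pol {d : ℕ} (c : Fin d → ℂ) : ℂ[X] := ∑ j : Fin d, C (c j) * X ^ (j : ℕ)

theorem eval_pol {d : ℕ} (c : Fin d → ℂ) (ζ : ℂ) : (pol c).eval ζ = ev c ζ := by
  unfold pol ev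
  rw [eval_finsetSum]
  apply Finset.sum_congr rfl
  intro j _
  simp

theorem ev_zero {d : ℕ} (c : Fin d → ℂ) (hc : ∀ j : Fin d, (j : ℕ) = 0 → c j = 0) : ev c 0 = 0 := by
  unfold ev
  apply Finset.sum_eq_zero
  intro j _
  by_cases hj : (j : ℕ) = 0
  · rw [hc j hj, zero_mul]
  · rw [zero_pow hj, mul_zero]

theorem no_semigroup {W : ℕ → ℝ} {A : Type} [NormedCommRing A] [NormedAlgebra ℂ A] {e : A ≃ₗ[ℂ] L ℚ≥0}
    (h : IsAlg W e) (hQ : ∀ n, Qp n (W (n + 1))) (a : ℝ → A)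
    (hmul : ∀ s t : ℝ, 0 < s → 0 < t → a (s + t) = a s * a t)
    (hcont : ContinuousOn a (Set.Ioi 0)) (hchi : ∀ t, 0 < t → h.chi (a t) = 0) : a 2 = 0 := by
  classical
  by_contra hne
  have hw := h.W0
  have hm := h.mono
  -- bound
  obtain ⟨C, hC⟩ : ∃ C, ∀ t ∈ Set.Icc (1 / 2 : ℝ) 2, ‖a t‖ ≤ C := by
    have h1 : ContinuousOn (fun t => ‖a t‖) (Set.Icc (1 / 2 : ℝ) 2) :=
      (hcont.mono (fun t ht => lt_of_lt_of_le (by norm_num) ht.1)).norm
    obtain ⟨C, hC⟩ := isCompact_Icc.bddAbove_image h1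
    exact ⟨C, fun t ht => hC ⟨t, ht, rfl⟩⟩
  have hC0 : 0 ≤ C := (norm_nonneg _).trans (hC 1 ⟨by norm_num, by norm_num⟩)
  -- a nonzero coefficient
  obtain ⟨s0, hs0⟩ : ∃ s0, co s0 (e (a 2)) ≠ 0 := by
    by_contra hno
    push Not at hno
    apply hne
    apply e.injective
    rw [map_zero]
    apply co_ext
    intro j
    rw [hno, map_zero]
  have hwt := (isWeight_wt hw hm).pos
  obtain ⟨q, hq⟩ : ∃ q : ℝ, q = ‖co s0 (e (a 2)) / ((wt W s0 : ℝ) : ℂ)‖ := ⟨_, rfl⟩
  have hqpos : 0 < q := by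
    rw [hq, norm_pos_iff]
    exact div_ne_zero hs0 (Complex.ofReal_ne_zero.mpr (hwt s0).ne')
  -- the level
  obtain ⟨n, hn⟩ : ∃ n : ℕ, C ≤ n ∧ lev s0 ≤ n ∧ (s0 : ℝ) < n ∧ 1 / ((n : ℝ) + 1) ≤ q := by
    obtain ⟨n1, h1⟩ := exists_nat_gt C
    obtain ⟨n2, h2⟩ := exists_nat_gt (s0 : ℝ)
    obtain ⟨n3, h3⟩ := exists_nat_gt (1 / q)
    refine ⟨n1 + n2 + n3 + lev s0, ?_, by omega, ?_, ?_⟩
    · push_cast
      have : (0 : ℝ) ≤ n2 := by positivity
      have : (0 : ℝ) ≤ n3 := by positivity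
      have : (0 : ℝ) ≤ lev s0 := by positivity
      linarith
    · push_cast
      have : (0 : ℝ) ≤ n1 := by positivity
      have : (0 : ℝ) ≤ n3 := by positivity
      have : (0 : ℝ) ≤ lev s0 := by positivity
      linarith
    · push_cast
      have e1 : (0 : ℝ) ≤ n1 := by positivity
      have e2 : (0 : ℝ) ≤ n2 := by positivity
      have e3 : (0 : ℝ) ≤ lev s0 := by positivity
      have e4 : (0 : ℝ) < 1 / q := by positivity
      rw [div_le_iff₀ (by positivity)]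
      rw [div_lt_iff₀ hqpos] at h3
      nlinarith [mul_nonneg hqpos.le e1, mul_nonneg hqpos.le e2, mul_nonneg hqpos.le e3]
  obtain ⟨hn1, hn2, hn3, hn4⟩ := hn
  have hin : In n s0 := lev_le_iff.mp hn2
  have hkk : kk n s0 < n * n ! := by
    have h1 := kk_spec hin
    have h2 : s0 < n := by exact_mod_cast hn3
    have h3 : s0 * (n ! : ℚ≥0) < n * (n ! : ℚ≥0) :=
      mul_lt_mul_of_pos_right h2 (by exact_mod_cast n.factorial_pos)
    rw [h1] at h3
    exact_mod_cast h3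
  obtain ⟨hW1, hgood⟩ := hQ n
  set w := W (n + 1) with hwdef
  have hK0 := Kc_nonneg n
  have hw1 : 1 ≤ w := by nlinarith [sq_nonneg (Kc n)]
  have hw0 : 0 < w := zero_lt_one.trans_le hw1
  obtain ⟨r, hr, hrr⟩ := hgood (cvec W n (e (a 2))) (by
    refine (norm_cvec_le hw hm _).trans ?_
    rw [← h.norm_eq, mul_comm]
    exact mul_le_mul_of_nonneg_right ((hC 2 ⟨by norm_num, le_rfl⟩).trans hn1) (Real.exp_pos _).le)
    ⟨⟨kk n s0, hkk⟩, by
      have h1 : pt n (kk n s0) = s0 := pt_eq_iff.mpr ⟨hin, rfl⟩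
      unfold cvec
      simp only [h1]
      rw [← hq]
      exact hn4⟩
  have hr0 := hr.1
  -- the functions
  let f : ℝ → ℂ[X] := fun t => pol (cvec W n (e (a t)))
  have hf : ∀ t ζ, (f t).eval ζ = Psi W n ζ (e (a t)) := by
    intro t ζ
    rw [Psi_apply]
    exact eval_pol _ _
  obtain ⟨E, hE⟩ : ∃ E : ℝ, E = Kc n * (r ^ (n * n !) + w⁻¹ ^ 2) := ⟨_, rfl⟩
  have hprod : ∀ s t : ℝ, s ∈ Set.Icc (1 / 2 : ℝ) 2 → t ∈ Set.Icc (1 / 2 : ℝ) 2 → ∀ ζ : ℂ, ‖ζ‖ = r →
      ‖(f s).eval ζ * (f t).eval ζ - (f (s + t)).eval ζ‖ ≤ E := by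
    intro s t hs ht ζ hζ
    rw [hf, hf, hf, hmul s t (lt_of_lt_of_le (by norm_num) hs.1) (lt_of_lt_of_le (by norm_num) ht.1),
      h.e_mul _ _ h.weight]
    refine (Psi_mul_bound hw hm hr hζ h.weight _ _).trans ?_
    rw [← h.norm_eq, ← h.norm_eq, hE]
    have h1 := (hC s hs).trans hn1
    have h2 := (hC t ht).trans hn1
    have h3 : ‖a s‖ * ‖a t‖ ≤ (n : ℝ) ^ 2 := by
      rw [sq]
      exact mul_le_mul h1 h2 (norm_nonneg _) (by positivity)
    unfold Kc
    calc Real.exp (2 * (n : ℝ) ^ 2) * (r ^ (n * n !) + w⁻¹ ^ 2) * ‖a s‖ * ‖a t‖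
        = (Real.exp (2 * (n : ℝ) ^ 2) * (r ^ (n * n !) + w⁻¹ ^ 2)) * (‖a s‖ * ‖a t‖) := by ring
      _ ≤ (Real.exp (2 * (n : ℝ) ^ 2) * (r ^ (n * n !) + w⁻¹ ^ 2)) * (n : ℝ) ^ 2 :=
          mul_le_mul_of_nonneg_left h3 (by positivity)
      _ = _ := by ring
  have h2big : ∀ ζ : ℂ, ‖ζ‖ = r → (Kc n + 2 * Kc n ^ 2) * r ^ (n * n !) + 1 / w < ‖(f 2).eval ζ‖ := by
    intro ζ hζ
    rw [hf, Psi_apply]
    exact hrr ζ hζ
  have hrd : 0 < r ^ (n * n !) := by positivity
  have hrd1 : r ^ (n * n !) ≤ 1 := pow_le_one₀ hr0.le hr.2.le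
  have hinv : 0 < w⁻¹ := by positivity
  have hinv1 : w⁻¹ ≤ 1 := inv_le_one_of_one_le₀ hw1
  have hwi : w⁻¹ * w = 1 := inv_mul_cancel₀ hw0.ne'
  -- `(2K^2 + K) / w^2 <= 1 / w`
  have hkey : (Kc n + 2 * Kc n ^ 2) * w⁻¹ ^ 2 ≤ 1 / w := by
    rw [one_div]
    calc (Kc n + 2 * Kc n ^ 2) * w⁻¹ ^ 2 ≤ w * w⁻¹ ^ 2 :=
          mul_le_mul_of_nonneg_right (by linarith) (by positivity)
      _ = w⁻¹ := by rw [sq, ← mul_assoc, mul_comm w, hwi, one_mul]
  have hEle : E ≤ (Kc n + 2 * Kc n ^ 2) * r ^ (n * n !) + 1 / w := by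
    rw [hE]
    have h1 : Kc n * (w⁻¹ ^ 2) ≤ (Kc n + 2 * Kc n ^ 2) * w⁻¹ ^ 2 :=
      mul_le_mul_of_nonneg_right (by nlinarith) (by positivity)
    have h2 : Kc n * r ^ (n * n !) ≤ (Kc n + 2 * Kc n ^ 2) * r ^ (n * n !) :=
      mul_le_mul_of_nonneg_right (by nlinarith) hrd.le
    nlinarith
  -- nonvanishing
  have hnz : ∀ t : ℝ, t ∈ Set.Icc (1 / 2 : ℝ) 1 → ∀ ζ : ℂ, ‖ζ‖ = r → (f t).eval ζ ≠ 0 := by
    intro t ht ζ hζ h0
    have h1 := hprod t (2 - t) ⟨ht.1, by linarith [ht.2]⟩ ⟨by linarith [ht.2], by linarith [ht.1]⟩ ζ hζ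
    rw [h0, zero_mul, zero_sub, norm_neg, add_sub_cancel] at h1
    have h2 := h2big ζ hζ
    linarith
  -- `f 1` is large
  have h1big : ∀ ζ : ℂ, ‖ζ‖ = r → E < ‖(f 1).eval ζ‖ := by
    intro ζ hζ
    by_contra hle
    rw [not_lt] at hle
    have h1 := hprod 1 1 ⟨by norm_num, by norm_num⟩ ⟨by norm_num, by norm_num⟩ ζ hζ
    have h2 : (1 : ℝ) + 1 = 2 := by norm_num
    rw [h2] at h1
    have h3 := h2big ζ hζ
    have h4 : ‖(f 2).eval ζ‖ ≤ ‖(f 1).eval ζ‖ * ‖(f 1).eval ζ‖ + E := by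
      calc ‖(f 2).eval ζ‖ = ‖(f 1).eval ζ * (f 1).eval ζ -
            ((f 1).eval ζ * (f 1).eval ζ - (f 2).eval ζ)‖ := by rw [sub_sub_cancel]
        _ ≤ ‖(f 1).eval ζ * (f 1).eval ζ‖ + ‖(f 1).eval ζ * (f 1).eval ζ - (f 2).eval ζ‖ :=
            norm_sub_le _ _
        _ ≤ ‖(f 1).eval ζ‖ * ‖(f 1).eval ζ‖ + E := by
            rw [norm_mul]
            linarith
    have hE0 : 0 ≤ E := by rw [hE]; positivity
    have h5 : ‖(f 1).eval ζ‖ * ‖(f 1).eval ζ‖ ≤ E * E :=
      mul_le_mul hle hle (norm_nonneg _) hE0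
    have h6 : E * E ≤ 2 * Kc n ^ 2 * (r ^ (n * n !) + w⁻¹ ^ 2) := by
      rw [hE]
      have h7 : (r ^ (n * n !) + w⁻¹ ^ 2) ≤ 2 := by nlinarith
      have h8 : 0 ≤ (r ^ (n * n !) + w⁻¹ ^ 2) := by positivity
      calc Kc n * (r ^ (n * n !) + w⁻¹ ^ 2) * (Kc n * (r ^ (n * n !) + w⁻¹ ^ 2))
          = Kc n ^ 2 * ((r ^ (n * n !) + w⁻¹ ^ 2) * (r ^ (n * n !) + w⁻¹ ^ 2)) := by ring
        _ ≤ Kc n ^ 2 * (2 * (r ^ (n * n !) + w⁻¹ ^ 2)) := by gcongr
        _ = _ := by ring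
    have h9 : E * E + E ≤ (Kc n + 2 * Kc n ^ 2) * r ^ (n * n !) + 1 / w := by
      calc E * E + E ≤ 2 * Kc n ^ 2 * (r ^ (n * n !) + w⁻¹ ^ 2) + Kc n * (r ^ (n * n !) + w⁻¹ ^ 2) := by
            rw [← hE]; linarith
        _ = (Kc n + 2 * Kc n ^ 2) * r ^ (n * n !) + (Kc n + 2 * Kc n ^ 2) * w⁻¹ ^ 2 := by ring
        _ ≤ _ := by linarith
    linarith
  -- number of zeros: squares
  have hsq : nz r (f 1) = nz r (f (1 / 2)) + nz r (f (1 / 2)) := by
    have h1 : nz r (f 1) = nz r (f (1 / 2) * f (1 / 2)) := by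
      apply rouche hr0
      intro ζ hζ
      rw [eval_mul]
      have h2 := hprod (1 / 2) (1 / 2) ⟨le_rfl, by norm_num⟩ ⟨le_rfl, by norm_num⟩ ζ hζ
      have h3 : (1 / 2 : ℝ) + 1 / 2 = 1 := by norm_num
      rw [h3, norm_sub_rev] at h2
      exact h2.trans_lt (h1big ζ hζ)
    rw [h1]
    apply nz_mul
    have h4 : f (1 / 2) ≠ 0 := by
      intro h0
      have h5 := hnz (1 / 2) ⟨le_rfl, by norm_num⟩ (r : ℂ) (by simp [abs_of_pos hr0])
      rw [h0] at h5
      simp at h5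
    exact mul_ne_zero h4 h4
  -- number of zeros: constancy
  have hconst : nz r (f 1) = nz r (f (1 / 2)) := by
    have hcn : ContinuousOn (fun t => nz r (f t)) (Set.Icc (1 / 2 : ℝ) 1) := by
      intro t0 ht0
      -- minimum on the circle
      obtain ⟨m0, hm0, hm0'⟩ : ∃ m0 > 0, ∀ ζ : ℂ, ‖ζ‖ = r → m0 ≤ ‖(f t0).eval ζ‖ := by
        have hcomp : IsCompact (Metric.sphere (0 : ℂ) r) := isCompact_sphere 0 r
        have hne' : (Metric.sphere (0 : ℂ) r).Nonempty := ⟨(r : ℂ), by simp [abs_of_pos hr0]⟩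
        obtain ⟨z, hz, hmin⟩ := hcomp.exists_isMinOn hne'
          (f := fun ζ => ‖(f t0).eval ζ‖) (by fun_prop)
        refine ⟨‖(f t0).eval z‖, norm_pos_iff.mpr (hnz t0 ht0 z (mem_sphere_zero_iff_norm.mp hz)), ?_⟩
        intro ζ hζ
        exact hmin (mem_sphere_zero_iff_norm.mpr hζ)
      have hca : ContinuousWithinAt a (Set.Icc (1 / 2 : ℝ) 1) t0 :=
        (hcont t0 (lt_of_lt_of_le (by norm_num) ht0.1)).mono
          (fun t ht => lt_of_lt_of_le (by norm_num) ht.1)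
      have hev : ∀ᶠ t in nhdsWithin t0 (Set.Icc (1 / 2 : ℝ) 1),
          ‖a t - a t0‖ < m0 * Real.exp (-(n : ℝ) ^ 2) := by
        have h1 := Metric.tendsto_nhds.mp hca (m0 * Real.exp (-(n : ℝ) ^ 2)) (by positivity)
        refine h1.mono (fun t ht => ?_)
        rwa [dist_eq_norm] at ht
      apply ContinuousWithinAt.congr_of_eventuallyEq (continuousWithinAt_const (b := nz r (f t0)))
      · refine hev.mono (fun t ht => ?_)
        symm
        apply rouche hr0
        intro ζ hζ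
        rw [hf, hf, ← map_sub, ← map_sub]
        refine (norm_Psi_le hw hm (by rw [hζ]; exact hr.2.le) _).trans_lt ?_
        rw [← h.norm_eq, norm_sub_rev, ← hf]
        calc Real.exp ((n : ℝ) ^ 2) * ‖a t - a t0‖
            < Real.exp ((n : ℝ) ^ 2) * (m0 * Real.exp (-(n : ℝ) ^ 2)) :=
              mul_lt_mul_of_pos_left ht (Real.exp_pos _)
          _ = m0 := by
              rw [mul_left_comm, ← Real.exp_add, add_neg_cancel, Real.exp_zero, mul_one]
          _ ≤ ‖(f t0).eval ζ‖ := hm0' ζ hζ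
      · rfl
    exact isPreconnected_Icc.constant hcn ⟨by norm_num, le_rfl⟩ ⟨le_rfl, by norm_num⟩
  -- a zero at the origin
  have hf1 : f 1 ≠ 0 := by
    intro h0
    have h5 := hnz 1 ⟨by norm_num, le_rfl⟩ (r : ℂ) (by simp [abs_of_pos hr0])
    rw [h0] at h5
    simp at h5
  have hpos := nz_pos hr0 hf1 (by
    change (pol (cvec W n (e (a 1)))).eval 0 = 0
    rw [eval_pol]
    apply ev_zero
    intro j hj
    have h1 : pt n j = 0 := by
      unfold pt
      rw [hj]
      simp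
    unfold cvec
    rw [h1]
    have h2 := hchi 1 one_pos
    rw [h.chi_apply] at h2
    rw [h2, zero_div])
  omega

end nonex

end v9

section v10
open scoped ENNReal Nat NNRat
/-! ### An element `a` with `a ∈ [a² R]⁻` -/

section classV
variable {W : ℕ → ℝ} {A : Type} [NormedCommRing A] [NormedAlgebra ℂ A] {e : A ≃ₗ[ℂ] L ℚ≥0}

/-- `δ` at `2 ^ (-k)` -/
noncomputable def qk (W : ℕ → ℝ) (e : A ≃ₗ[ℂ] L ℚ≥0) (k : ℕ) : A := dl W e ((1 / 2) ^ k)

theorem IsAlg.qk_sq (h : IsAlg W e) (k : ℕ) : qk W e (k + 1) * qk W e (k + 1) = qk W e k := by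
  unfold qk
  rw [← h.dl_add]
  congr 1
  rw [pow_succ, ← mul_add]
  norm_num

theorem IsAlg.qk_ne (h : IsAlg W e) (k : ℕ) : qk W e k ≠ 0 := h.dl_ne_zero _

theorem IsAlg.chi_qk (h : IsAlg W e) (k : ℕ) : h.chi (qk W e k) = 0 := by
  apply h.chi_dl
  positivity

theorem IsAlg.qk_dvd (h : IsAlg W e) {k l : ℕ} (hkl : k ≤ l) : ∃ z, qk W e k = qk W e l * z := by
  unfold qk
  have h1 : ((1 / 2 : ℚ≥0)) ^ l ≤ (1 / 2) ^ k := by
    apply pow_le_pow_of_le_one (by positivity) _ hkl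
    rw [div_le_one (by norm_num)]
    norm_num
  refine ⟨dl W e ((1 / 2) ^ k - (1 / 2) ^ l), ?_⟩
  rw [← h.dl_add, add_tsub_cancel_of_le h1]

theorem IsAlg.exists_classV (h : IsAlg W e) [CompleteSpace A] :
    ∃ a : A, a ≠ 0 ∧ h.chi a = 0 ∧ ∀ ε > 0, ∃ z : A, h.chi z = 0 ∧ ‖a - a * a * z‖ < ε := by
  let S0 : Set A := {x | ∃ k y, x = qk W e k * y}
  have hcomp : CompleteSpace (closure S0) := isClosed_closure.completeSpace_coe
  have hzero : (0 : A) ∈ closure S0 := subset_closure ⟨0, 0, by rw [mul_zero]⟩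
  have hne : Nonempty (closure S0) := ⟨⟨0, hzero⟩⟩
  let U : ℕ × ℕ → Set (closure S0) := fun p => {x | ∃ b : A, ‖qk W e p.1 - x.1 * b‖ < 1 / ((p.2 : ℝ) + 1)}
  have hUo : ∀ p, IsOpen (U p) := by
    intro p
    have h1 : U p = ⋃ b : A, {x : closure S0 | ‖qk W e p.1 - x.1 * b‖ < 1 / ((p.2 : ℝ) + 1)} := by
      ext x
      simp only [U, Set.mem_iUnion]
      rfl
    rw [h1]
    apply isOpen_iUnion
    intro b
    apply isOpen_lt _ continuous_const
    fun_prop
  have hUd : ∀ p, Dense (U p) := by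
    intro p
    rw [Metric.dense_iff]
    intro x ε hε
    obtain ⟨x0, hx0, hdist⟩ := Metric.mem_closure_iff.mp x.2 (ε / 2) (by positivity)
    obtain ⟨k0, y0, hxy⟩ := hx0
    -- a common level
    obtain ⟨z0, hz0⟩ := h.qk_dvd (le_max_left k0 p.1)
    obtain ⟨z1, hz1⟩ := h.qk_dvd (le_max_right k0 p.1)
    set N := max k0 p.1
    have hxy' : x0 = qk W e N * (z0 * y0) := by rw [hxy, hz0, mul_assoc]
    -- perturb
    obtain ⟨η, hη1, hη2⟩ : ∃ η : ℂ, h.chi (z0 * y0) + η ≠ 0 ∧ ‖qk W e N‖ * ‖η‖ * ‖(1 : A)‖ < ε / 2 := by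
      by_cases hc : h.chi (z0 * y0) = 0
      · have hpos : 0 < ε / (4 * (‖qk W e N‖ * ‖(1 : A)‖ + 1)) := by positivity
        refine ⟨((ε / (4 * (‖qk W e N‖ * ‖(1 : A)‖ + 1)) : ℝ) : ℂ), ?_, ?_⟩
        · rw [hc, zero_add]
          exact Complex.ofReal_ne_zero.mpr hpos.ne'
        · rw [Complex.norm_real, Real.norm_of_nonneg hpos.le]
          have h2 : ‖qk W e N‖ * (ε / (4 * (‖qk W e N‖ * ‖(1 : A)‖ + 1))) * ‖(1 : A)‖ =
              (‖qk W e N‖ * ‖(1 : A)‖) / (‖qk W e N‖ * ‖(1 : A)‖ + 1) * (ε / 4) := by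
            field_simp
          have h3 : (‖qk W e N‖ * ‖(1 : A)‖) / (‖qk W e N‖ * ‖(1 : A)‖ + 1) ≤ 1 := by
            rw [div_le_one (by positivity)]
            linarith
          rw [h2]
          calc (‖qk W e N‖ * ‖(1 : A)‖) / (‖qk W e N‖ * ‖(1 : A)‖ + 1) * (ε / 4) ≤ 1 * (ε / 4) :=
                mul_le_mul_of_nonneg_right h3 (by positivity)
            _ < ε / 2 := by linarith
      · exact ⟨0, by rwa [add_zero], by rw [norm_zero, mul_zero, zero_mul]; positivity⟩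
    obtain ⟨y', hy'⟩ : ∃ y', y' = z0 * y0 + algebraMap ℂ A η := ⟨_, rfl⟩
    have hunit : IsUnit y' := by
      rw [h.isUnit_iff, hy', map_add, AlgHom.commutes]
      exact hη1
    have hmem : qk W e N * y' ∈ closure S0 := subset_closure ⟨N, y', rfl⟩
    refine ⟨⟨qk W e N * y', hmem⟩, ?_, ?_⟩
    · rw [Metric.mem_ball, dist_comm]
      change dist x.1 (qk W e N * y') < ε
      have h4 : dist x0 (qk W e N * y') < ε / 2 := by
        rw [dist_eq_norm, hxy', hy', mul_add, sub_add_cancel_left, norm_neg]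
        calc ‖qk W e N * algebraMap ℂ A η‖ ≤ ‖qk W e N‖ * ‖algebraMap ℂ A η‖ := norm_mul_le _ _
          _ = ‖qk W e N‖ * ‖η‖ * ‖(1 : A)‖ := by rw [norm_algebraMap, mul_assoc]
          _ < ε / 2 := hη2
      calc dist x.1 (qk W e N * y') ≤ dist x.1 x0 + dist x0 (qk W e N * y') := dist_triangle _ _ _
        _ < ε / 2 + ε / 2 := add_lt_add hdist h4
        _ = ε := by ring
    · obtain ⟨y'', hy''⟩ := hunit.exists_right_inv
      refine ⟨y'' * z1, ?_⟩
      have h5 : qk W e p.1 - qk W e N * y' * (y'' * z1) = 0 := by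
        rw [hz1]
        calc qk W e N * z1 - qk W e N * y' * (y'' * z1) = qk W e N * z1 - qk W e N * z1 * (y' * y'') := by ring
          _ = 0 := by rw [hy'', mul_one, sub_self]
      change ‖qk W e p.1 - qk W e N * y' * (y'' * z1)‖ < _
      rw [h5, norm_zero]
      positivity
  obtain ⟨a, ha⟩ := (dense_iInter_of_isOpen hUo hUd).nonempty
  have ha' : ∀ k, ∀ ε > 0, ∃ b : A, ‖qk W e k - a.1 * b‖ < ε := by
    intro k ε hε
    obtain ⟨m, hm⟩ := exists_nat_one_div_lt hε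
    have h1 := Set.mem_iInter.mp ha (k, m)
    obtain ⟨b, hb⟩ := h1
    exact ⟨b, lt_trans hb hm⟩
  -- the approximating set
  let T : Set A := {x | ∃ z, h.chi z = 0 ∧ x = a.1 * a.1 * z}
  have hqT : ∀ k, qk W e k ∈ closure T := by
    intro k
    have hq1 : qk W e k = qk W e (k + 2) * qk W e (k + 2) * qk W e (k + 1) := by
      rw [h.qk_sq, h.qk_sq]
    have hcl : qk W e (k + 2) ∈ closure (Set.range fun b : A => a.1 * b) := by
      rw [Metric.mem_closure_iff]
      intro ε hε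
      obtain ⟨b, hb⟩ := ha' (k + 2) ε hε
      exact ⟨a.1 * b, ⟨b, rfl⟩, by rw [dist_eq_norm]; exact hb⟩
    have hcont : Continuous (fun x : A => x * x * qk W e (k + 1)) := by fun_prop
    have h2 := hcont.continuousAt.continuousWithinAt.mem_closure (s := Set.range fun b : A => a.1 * b)
      (t := T) hcl (by
        rintro x ⟨b, rfl⟩
        refine ⟨b * b * qk W e (k + 1), ?_, by ring⟩
        rw [map_mul, h.chi_qk, mul_zero])
    rw [hq1]
    exact h2
  have hST : S0 ⊆ closure T := by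
    rintro x ⟨k, y, rfl⟩
    have hcont : Continuous (fun x : A => x * y) := by fun_prop
    exact hcont.continuousAt.continuousWithinAt.mem_closure (s := T) (t := T) (hqT k) (by
      rintro x ⟨z, hz, rfl⟩
      refine ⟨z * y, ?_, by ring⟩
      rw [map_mul, hz, zero_mul])
  refine ⟨a.1, ?_, ?_, ?_⟩
  · intro h0
    apply h.qk_ne 0
    rw [← norm_eq_zero]
    by_contra hne'
    have hpos : 0 < ‖qk W e 0‖ := lt_of_le_of_ne (norm_nonneg _) (Ne.symm hne')
    obtain ⟨b, hb⟩ := ha' 0 _ hpos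
    rw [h0, zero_mul, sub_zero] at hb
    exact lt_irrefl _ hb
  · have hcl : IsClosed {x : A | h.chi x = 0} := isClosed_eq h.chi_continuous continuous_const
    have hsub : closure S0 ⊆ {x : A | h.chi x = 0} := by
      apply closure_minimal _ hcl
      rintro x ⟨k, y, rfl⟩
      change h.chi _ = 0
      rw [map_mul, h.chi_qk, zero_mul]
    exact hsub a.2
  · intro ε hε
    have h1 : a.1 ∈ closure T := closure_minimal hST isClosed_closure a.2
    obtain ⟨x, ⟨z, hz, hx⟩, hd⟩ := Metric.mem_closure_iff.mp h1 ε hε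
    exact ⟨z, hz, by rw [← hx, ← dist_eq_norm]; exact hd⟩

end classV

end v10

section v11
open scoped ENNReal Nat NNRat

/-- The algebra `R` with all the properties that are needed later. -/
theorem exists_R : ∃ (W : ℕ → ℝ) (A : Type) (_ : NormedCommRing A) (_ : NormedAlgebra ℂ A) (_ : CompleteSpace A)
    (e : A ≃ₗ[ℂ] L ℚ≥0) (h : IsAlg W e) (R : Type) (_ : NonUnitalNormedCommRing R) (_ : NormedSpace ℂ R)
    (_ : IsScalarTower ℂ R R) (_ : SMulCommClass ℂ R R) (_ : CompleteSpace R) (j : R →ₙₐ[ℂ] A),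
    (∀ n, Qp n (W (n + 1))) ∧ (∀ x, ‖x‖ = ‖j x‖) ∧ (∀ y, (∃ x, j x = y) ↔ h.chi y = 0) ∧
    Function.Injective j ∧
    (∀ x : R, spectrum ℂ (Unitization.inr x : Unitization ℂ R) ⊆ {0}) ∧
    ¬ ∃ b : ℝ → R, (∀ s t : ℝ, 0 < s → 0 < t → b (s + t) = b s * b t) ∧
      (∃ t : ℝ, 0 < t ∧ b t ≠ 0) ∧ ContinuousOn b (Set.Ioi 0) := by
  obtain ⟨W, hW0, hWm, hQ⟩ := exists_W
  obtain ⟨A, i1, i2, i3, e, h⟩ := exists_isAlg hW0 hWm
  obtain ⟨R, r1, r2, r3, r4, r5, j, hj1, hj2⟩ := exists_sub h.chi h.chi_continuous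
  have hinj : Function.Injective j := by
    intro x y hxy
    rw [← sub_eq_zero, ← norm_eq_zero, hj1, map_sub, hxy, sub_self, norm_zero]
  refine ⟨W, A, i1, i2, i3, e, h, R, r1, r2, r3, r4, r5, j, hQ, hj1, hj2, hinj,
    spectrum_subset h.chi h.isUnit_iff j hinj hj2, ?_⟩
  rintro ⟨b, hb, ⟨t0, ht0, hbt0⟩, hcont⟩
  have hjc : Continuous j := AddMonoidHomClass.continuous_of_bound j 1 (fun x => by
    rw [one_mul, hj1])
  have key := no_semigroup h hQ (fun t => j (b (t * (t0 / 2)))) (fun s t hs ht => by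
      rw [add_mul, hb _ _ (by positivity) (by positivity), map_mul])
    (by
      apply hjc.comp_continuousOn
      apply hcont.comp (by fun_prop)
      intro t ht
      have ht' : (0 : ℝ) < t := ht
      exact Set.mem_Ioi.mpr (by positivity))
    (fun t _ => (hj2 _).mp ⟨_, rfl⟩)
  apply hbt0
  apply hinj
  rw [map_zero]
  have h2 : (2 : ℝ) * (t0 / 2) = t0 := by ring
  rw [← h2]
  exact key

end v11

end Pool.Agent.Helper550.Semi
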