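import Mathlib
import Pool.Agent.Helper550.Semi
set_option autoImplicit false

namespace Pool.Agent.Helper550.Semi

section v12
open scoped ENNReal Nat NNRat
section logs
variable {A : Type} [NormedCommRing A] [NormedAlgebra ℂ A] [CompleteSpace A]

theorem nexp_add (x y : A) : NormedSpace.exp (x + y) = NormedSpace.exp x * NormedSpace.exp y := by
  let _ : NormedAlgebra ℚ A := NormedAlgebra.restrictScalars ℚ ℂ A
  exact NormedSpace.exp_add

theorem nexp_nsmul (n : ℕ) (x : A) : NormedSpace.exp (n • x) = NormedSpace.exp x ^ n := by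
  let _ : NormedAlgebra ℚ A := NormedAlgebra.restrictScalars ℚ ℂ A
  exact NormedSpace.exp_nsmul n x

theorem nexp_algebraMap (c : ℂ) : NormedSpace.exp (algebraMap ℂ A c) = algebraMap ℂ A (Complex.exp c) := by
  rw [Complex.exp_eq_exp_ℂ]
  let _ : NormedAlgebra ℚ A := NormedAlgebra.restrictScalars ℚ ℂ A
  exact (NormedSpace.algebraMap_exp_comm c).symm

theorem exists_log_one_add (χ : A →ₐ[ℂ] ℂ) (hunit : ∀ x : A, IsUnit x ↔ χ x ≠ 0) (r : A) (hr : χ r = 0) :
    ∃ y : A, NormedSpace.exp y = 1 + r := by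
  let u : ℝ → A := fun τ => 1 + ((τ : ℝ) : ℂ) • r
  have hu : ∀ τ, IsUnit (u τ) := by
    intro τ
    rw [hunit]
    simp only [u]
    rw [map_add, map_one, map_smul, hr, smul_zero, add_zero]
    exact one_ne_zero
  have huc : Continuous u := by
    simp only [u]
    fun_prop
  let g : ℝ → A := fun τ => r * Ring.inverse (u τ)
  have hgc : Continuous g := by
    apply continuous_const.mul
    rw [continuous_iff_continuousAt]
    intro τ
    obtain ⟨v, hv⟩ := hu τ
    have h1 : ContinuousAt Ring.inverse (u τ) := by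
      rw [← hv]
      exact NormedRing.inverse_continuousAt v
    exact ContinuousAt.comp h1 huc.continuousAt
  let Lg : ℝ → A := fun s => ∫ τ in (0 : ℝ)..s, g τ
  have hL : ∀ s, HasDerivAt Lg (g s) s := fun s => (hgc.integral_hasStrictDerivAt 0 s).hasDerivAt
  have hud : ∀ s, HasDerivAt u r s := by
    intro s
    have h1 : HasDerivAt (fun s : ℝ => ((s : ℝ) : ℂ)) 1 s := Complex.ofRealCLM.hasDerivAt
    have h2 := (h1.smul_const r).const_add (1 : A)
    rw [one_smul] at h2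
    exact h2
  have hE : ∀ s, HasDerivAt (fun s => NormedSpace.exp (-Lg s)) (NormedSpace.exp (-Lg s) * (-g s)) s := by
    intro s
    have h1 := (hasFDerivAt_exp (𝕂 := ℝ) (x := -Lg s)).comp_hasDerivAt s (hL s).neg
    exact h1
  have hf : ∀ s, HasDerivAt (fun s => NormedSpace.exp (-Lg s) * u s) 0 s := by
    intro s
    have h1 := (hE s).mul (hud s)
    have h2 : NormedSpace.exp (-Lg s) * (-g s) * u s + NormedSpace.exp (-Lg s) * r = 0 := by
      simp only [g]
      have h3 : Ring.inverse (u s) * u s = 1 := Ring.inverse_mul_cancel _ (hu s)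
      calc NormedSpace.exp (-Lg s) * (-(r * Ring.inverse (u s))) * u s + NormedSpace.exp (-Lg s) * r
          = NormedSpace.exp (-Lg s) * (r - r * (Ring.inverse (u s) * u s)) := by ring
        _ = 0 := by rw [h3, mul_one, sub_self, mul_zero]
    rw [h2] at h1
    exact h1
  have hconst := is_const_of_deriv_eq_zero (fun s => (hf s).differentiableAt) (fun s => (hf s).deriv) 1 0
  have h0 : NormedSpace.exp (-Lg 0) * u 0 = 1 := by
    simp [Lg, u]
  rw [h0] at hconst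
  refine ⟨Lg 1, ?_⟩
  have h1 : NormedSpace.exp (Lg 1) * NormedSpace.exp (-Lg 1) = 1 := by
    rw [← nexp_add, add_neg_cancel, NormedSpace.exp_zero]
  have h2 : u 1 = 1 + r := by simp [u]
  calc NormedSpace.exp (Lg 1) = NormedSpace.exp (Lg 1) * (NormedSpace.exp (-Lg 1) * u 1) := by
        rw [hconst, mul_one]
    _ = 1 + r := by rw [← mul_assoc, h1, one_mul, h2]

theorem exists_log (χ : A →ₐ[ℂ] ℂ) (hunit : ∀ x : A, IsUnit x ↔ χ x ≠ 0) (u : A) (hu : χ u ≠ 0) :
    ∃ y : A, NormedSpace.exp y = u := by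
  obtain ⟨y, hy⟩ := exists_log_one_add χ hunit ((χ u)⁻¹ • u - 1) (by
    rw [map_sub, map_smul, map_one, smul_eq_mul, inv_mul_cancel₀ hu, sub_self])
  refine ⟨algebraMap ℂ A (Complex.log (χ u)) + y, ?_⟩
  rw [nexp_add, hy, add_sub_cancel, nexp_algebraMap, Complex.exp_log hu, ← Algebra.smul_def, smul_smul, mul_inv_cancel₀ hu, one_smul]

/-- rational powers -/
noncomputable def rp (y : A) (m : ℚ) : A := NormedSpace.exp ((m : ℂ) • y)

theorem rp_add (y : A) (m m' : ℚ) : rp y (m + m') = rp y m * rp y m' := by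
  unfold rp
  rw [← nexp_add, ← add_smul]
  push_cast
  rfl

theorem rp_zero (y : A) : rp y 0 = 1 := by
  unfold rp
  rw [Rat.cast_zero, zero_smul, NormedSpace.exp_zero]

theorem rp_nat (y : A) (m : ℕ) : rp y m = NormedSpace.exp y ^ m := by
  unfold rp
  rw [← nexp_nsmul, Rat.cast_natCast, Nat.cast_smul_eq_nsmul]

end logs

end v12

section v13
open scoped ENNReal Nat NNRat
/-! ### The construction of a real semigroup: one step -/

/-- common denominator at stage `k` -/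
def den (k : ℕ) : ℚ := (k ! : ℚ) * 8 ^ (k + 1)

theorem den_pos (k : ℕ) : 0 < den k := by
  unfold den
  have : (0 : ℚ) < (k ! : ℚ) := by exact_mod_cast k.factorial_pos
  positivity

/-- multiplicities -/
def mm (k : ℕ) (w : ℕ → ℚ) : ℚ := (w k - w (k + 1)) * den k

theorem mm_add (k : ℕ) (w w' : ℕ → ℚ) : mm k (w + w') = mm k w + mm k w' := by
  unfold mm
  simp only [Pi.add_apply]
  ring

/-- good sequences at stage `k` -/
def Good (k : ℕ) (w : ℕ → ℚ) : Prop :=
  0 < w k ∧ 0 < w (k + 1) ∧ (∃ m : ℕ, mm k w = m) ∧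
    ∀ j ≤ k + 1, (∃ z : ℤ, w j * den k = z) ∧ |w j| ≤ k

theorem Good.congr {k : ℕ} {w w' : ℕ → ℚ} (h : Good k w) (hw : ∀ j ≤ k + 1, w j = w' j) : Good k w' := by
  obtain ⟨h1, h2, ⟨m, hm⟩, h4⟩ := h
  refine ⟨by rw [← hw k (by omega)]; exact h1, by rw [← hw (k + 1) le_rfl]; exact h2, ⟨m, ?_⟩, ?_⟩
  · rw [← hm]
    unfold mm
    rw [hw k (by omega), hw (k + 1) le_rfl]
  · intro j hj
    rw [← hw j hj]
    exact h4 j hj

/-- extension of a finite tuple by zero -/
def ext (k : ℕ) (τ : Fin (k + 2) → ℚ) : ℕ → ℚ := fun j => if h : j < k + 2 then τ ⟨j, h⟩ else 0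

theorem ext_apply (k : ℕ) (w : ℕ → ℚ) {j : ℕ} (hj : j ≤ k + 1) :
    w j = ext k (fun i => w i) j := by
  unfold ext
  rw [dif_pos (by omega)]

theorem finite_tuples (k : ℕ) :
    {τ : Fin (k + 2) → ℚ | ∀ j, (∃ z : ℤ, τ j * den k = z) ∧ |τ j| ≤ k}.Finite := by
  have h1 : {q : ℚ | (∃ z : ℤ, q * den k = z) ∧ |q| ≤ k}.Finite := by
    have hd := den_pos k
    obtain ⟨N, hN⟩ := exists_nat_gt ((k : ℚ) * den k)
    apply Set.Finite.subset ((Set.finite_Icc (-(N : ℤ)) N).image (fun z : ℤ => (z : ℚ) / den k))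
    rintro q ⟨⟨z, hz⟩, hq⟩
    refine ⟨z, ?_, ?_⟩
    · have h2 : |(z : ℚ)| < N := by
        rw [← hz, abs_mul, abs_of_pos hd]
        exact (mul_le_mul_of_nonneg_right hq hd.le).trans_lt hN
      rw [abs_lt] at h2
      constructor
      · have : (-(N : ℚ)) ≤ z := h2.1.le
        exact_mod_cast this
      · have : (z : ℚ) ≤ N := h2.2.le
        exact_mod_cast this
    · change (z : ℚ) / den k = q
      rw [← hz, mul_div_assoc, div_self hd.ne', mul_one]
  have h2 := Set.Finite.pi' (fun _ : Fin (k + 2) => h1)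
  exact h2

section stage
variable {W : ℕ → ℝ} {A : Type} [NormedCommRing A] [NormedAlgebra ℂ A] {e : A ≃ₗ[ℂ] L ℚ≥0}

/-- invariants of a stage -/
structure St (k : ℕ) (Q : (ℕ → ℚ) → A) : Prop where
  add : ∀ w w', Q (w + w') = Q w * Q w'
  zero : Q 0 = 1
  dep : ∀ w w' : ℕ → ℚ, (∀ j ≤ k, w j = w' j) → Q w = Q w'

/-- the element at a stage -/
noncomputable def Xe (W : ℕ → ℝ) (e : A ≃ₗ[ℂ] L ℚ≥0) (k : ℕ) (Q : (ℕ → ℚ) → A) (w : ℕ → ℚ) : A :=
  dl W e (w k).toNNRat * Q w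

theorem St.ne_zero {k : ℕ} {Q : (ℕ → ℚ) → A} (h : St k Q) (hA : IsAlg W e) (w : ℕ → ℚ) : Xe W e k Q w ≠ 0 := by
  intro h0
  apply hA.dl_ne_zero (w k).toNNRat
  have h1 : Q w * Q (-w) = 1 := by rw [← h.add, add_neg_cancel, h.zero]
  calc dl W e (w k).toNNRat = Xe W e k Q w * Q (-w) := by
        unfold Xe
        rw [mul_assoc, h1, mul_one]
    _ = 0 := by rw [h0, zero_mul]

/-- closeness of two consecutive stages -/
def Step (W : ℕ → ℝ) (e : A ≃ₗ[ℂ] L ℚ≥0) (k : ℕ) (Q Q' : (ℕ → ℚ) → A) : Prop :=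
  ∀ w, Good k w → ‖Xe W e (k + 1) Q' w - Xe W e k Q w‖ ≤ (1 / 8) * (1 / 2) ^ k * ‖Xe W e k Q w‖

theorem exists_step (hA : IsAlg W e) [CompleteSpace A] (k : ℕ) (Q : (ℕ → ℚ) → A) (hQ : St k Q) :
    ∃ Q', St (k + 1) Q' ∧ Step W e k Q Q' := by
  have hd := den_pos k
  -- the step
  obtain ⟨dk, hdk⟩ : ∃ dk : ℚ≥0, (dk : ℚ) = 1 / den k :=
    ⟨⟨1 / den k, by positivity⟩, rfl⟩
  have hdk0 : dk ≠ 0 := by
    intro h
    rw [h] at hdk
    have : (0 : ℚ) < 1 / den k := by positivity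
    rw [← hdk] at this
    simp at this
  -- relation between consecutive exponents
  have hrel : ∀ w, Good k w → ∀ m : ℕ, mm k w = m → (w k).toNNRat = (w (k + 1)).toNNRat + m • dk := by
    intro w hw m hm
    apply NNRat.coe_injective
    rw [NNRat.coe_add, Rat.coe_toNNRat _ hw.1.le, Rat.coe_toNNRat _ hw.2.1.le, nsmul_eq_mul, NNRat.coe_mul,
      NNRat.coe_natCast, hdk]
    unfold mm at hm
    field_simp
    linarith
  let g : (ℕ → ℚ) → ℕ → ℝ → A := fun w m ε =>
    dl W e (w (k + 1)).toNNRat * (((ε : ℝ) : ℂ) • (1 : A) + dl W e dk) ^ m * Q w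
  have hlim : ∀ w, Good k w → ∀ᶠ ε in nhdsWithin (0 : ℝ) (Set.Ioi 0), ∀ m : ℕ, mm k w = m →
      ‖g w m ε - Xe W e k Q w‖ ≤ (1 / 8) * (1 / 2) ^ k * ‖Xe W e k Q w‖ := by
    intro w hw
    obtain ⟨m, hm⟩ := hw.2.2.1
    have hcont : Continuous (g w m) := by
      simp only [g]
      fun_prop
    have h0 : g w m 0 = Xe W e k Q w := by
      simp only [g]
      unfold Xe
      rw [Complex.ofReal_zero, zero_smul, zero_add, ← hA.dl_nsmul, ← hA.dl_add, ← hrel w hw m hm]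
    have hpos : 0 < (1 / 8) * (1 / 2) ^ k * ‖Xe W e k Q w‖ := by
      have := norm_pos_iff.mpr (hQ.ne_zero hA w)
      positivity
    have h1 := hcont.tendsto 0
    rw [h0] at h1
    have h2 := Metric.tendsto_nhds.mp h1 _ hpos
    refine (h2.filter_mono nhdsWithin_le_nhds).mono (fun ε hε m' hm' => ?_)
    have hmm : m' = m := by
      have : (m' : ℚ) = m := hm'.symm.trans hm
      exact_mod_cast this
    rw [hmm, ← dist_eq_norm]
    exact hε.le
  have hall : ∀ᶠ ε in nhdsWithin (0 : ℝ) (Set.Ioi 0),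
      ∀ τ ∈ {τ : Fin (k + 2) → ℚ | ∀ j, (∃ z : ℤ, τ j * den k = z) ∧ |τ j| ≤ k},
        Good k (ext k τ) → ∀ m : ℕ, mm k (ext k τ) = m →
        ‖g (ext k τ) m ε - Xe W e k Q (ext k τ)‖ ≤ (1 / 8) * (1 / 2) ^ k * ‖Xe W e k Q (ext k τ)‖ := by
    rw [Filter.eventually_all_finite (finite_tuples k)]
    intro τ _
    by_cases hg : Good k (ext k τ)
    · exact (hlim _ hg).mono (fun ε h _ => h)
    · exact Filter.Eventually.of_forall (fun ε h => absurd h hg)
  obtain ⟨ε, hε, hε0⟩ := (hall.and self_mem_nhdsWithin).exists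
  have hε0' : (0 : ℝ) < ε := hε0
  obtain ⟨y, hy⟩ := exists_log hA.chi hA.isUnit_iff (((ε : ℝ) : ℂ) • (1 : A) + dl W e dk) (by
    rw [map_add, map_smul, map_one, hA.chi_dl hdk0, add_zero, smul_eq_mul, mul_one]
    exact Complex.ofReal_ne_zero.mpr hε0'.ne')
  refine ⟨fun w => Q w * rp y (mm k w), ⟨?_, ?_, ?_⟩, ?_⟩
  · intro w w'
    change Q (w + w') * rp y (mm k (w + w')) = Q w * rp y (mm k w) * (Q w' * rp y (mm k w'))
    rw [hQ.add, mm_add, rp_add]
    ring
  · change Q 0 * rp y (mm k 0) = 1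
    have h1 : mm k 0 = 0 := by unfold mm; simp
    rw [h1, rp_zero, hQ.zero, mul_one]
  · intro w w' hww
    change Q w * rp y (mm k w) = Q w' * rp y (mm k w')
    rw [hQ.dep w w' (fun j hj => hww j (by omega))]
    congr 2
    unfold mm
    rw [hww k (by omega), hww (k + 1) le_rfl]
  · intro w hw
    obtain ⟨m, hm⟩ := hw.2.2.1
    have hagree : ∀ j ≤ k + 1, w j = ext k (fun i => w i) j := fun j hj => ext_apply k w hj
    have hg' := hw.congr hagree
    have hQe : Q (ext k (fun i => w i)) = Q w := (hQ.dep _ _ (fun j hj => (hagree j (by omega)).symm))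
    have h1 : Xe W e k Q (ext k (fun i => w i)) = Xe W e k Q w := by
      unfold Xe
      rw [hQe, ← hagree k (by omega)]
    have hmm : mm k (ext k (fun i => w i)) = m := by
      rw [← hm]
      unfold mm
      rw [← hagree k (by omega), ← hagree (k + 1) le_rfl]
    have h2 := hε (fun i => w i) (fun j => hw.2.2.2 j (by omega)) hg' m hmm
    rw [h1] at h2
    have h3 : g (ext k (fun i => w i)) m ε = Xe W e (k + 1) (fun w => Q w * rp y (mm k w)) w := by
      change dl W e (ext k (fun i => w i) (k + 1)).toNNRat *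
        (((ε : ℝ) : ℂ) • (1 : A) + dl W e dk) ^ m * Q (ext k (fun i => w i)) =
        dl W e (w (k + 1)).toNNRat * (Q w * rp y (mm k w))
      rw [hQe, ← hagree (k + 1) le_rfl, hm, rp_nat, hy]
      ring
    rw [h3] at h2
    exact h2

theorem exists_seq_of {α : Type} (P : ℕ → α → Prop) (R : ℕ → α → α → Prop) (h0 : ∃ x, P 0 x)
    (hs : ∀ n x, P n x → ∃ y, P (n + 1) y ∧ R n x y) :
    ∃ f : ℕ → α, (∀ n, P n (f n)) ∧ ∀ n, R n (f n) (f (n + 1)) := by
  choose! nx hnx using hs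
  obtain ⟨x0, hx0⟩ := h0
  let f : ℕ → α := fun n => Nat.rec x0 (fun n x => nx n x) n
  have hf : ∀ n, f (n + 1) = nx n (f n) := fun _ => rfl
  have hP : ∀ n, P n (f n) := by
    intro n
    induction n with
    | zero => exact hx0
    | succ n ih => rw [hf]; exact (hnx n _ ih).1
  exact ⟨f, hP, fun n => by rw [hf]; exact (hnx n _ (hP n)).2⟩

theorem exists_stages (hA : IsAlg W e) [CompleteSpace A] :
    ∃ Q : ℕ → (ℕ → ℚ) → A, (∀ k, St k (Q k)) ∧ ∀ k, Step W e k (Q k) (Q (k + 1)) :=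
  exists_seq_of (fun k Q => St k Q) (fun k Q Q' => Step W e k Q Q')
    ⟨fun _ => 1, ⟨fun _ _ => (mul_one _).symm, rfl, fun _ _ _ => rfl⟩⟩
    (fun k Q hQ => exists_step hA k Q hQ)

/-- convergence of the stages for eventually good sequences -/
theorem exists_limit (hA : IsAlg W e) [CompleteSpace A] {Q : ℕ → (ℕ → ℚ) → A} (hQ : ∀ k, St k (Q k))
    (hstep : ∀ k, Step W e k (Q k) (Q (k + 1))) {w : ℕ → ℚ} {K : ℕ} (hw : ∀ k ≥ K, Good k w) :
    ∃ x : A, x ≠ 0 ∧ Filter.Tendsto (fun k => Xe W e k (Q k) w) Filter.atTop (nhds x) := by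
  obtain ⟨a, ha⟩ : ∃ a : ℝ, a = ‖Xe W e K (Q K) w‖ := ⟨_, rfl⟩
  have hapos : 0 < a := by
    rw [ha]
    exact norm_pos_iff.mpr ((hQ K).ne_zero hA w)
  let f : ℕ → A := fun n => Xe W e (K + n) (Q (K + n)) w
  have hf : ∀ n, f n = Xe W e (K + n) (Q (K + n)) w := fun _ => rfl
  have hstep' : ∀ n, ‖f (n + 1) - f n‖ ≤ (1 / 8) * (1 / 2) ^ n * ‖f n‖ := by
    intro n
    have h1 := hstep (K + n) w (hw _ (by omega))
    refine h1.trans ?_
    apply mul_le_mul_of_nonneg_right _ (norm_nonneg _)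
    apply mul_le_mul_of_nonneg_left _ (by norm_num)
    exact pow_le_pow_of_le_one (by norm_num) (by norm_num) (by omega)
  have hH : ∀ n, ‖f n - f 0‖ ≤ a / 2 * (1 - (1 / 2) ^ n) ∧ ‖f n‖ ≤ 2 * a := by
    intro n
    induction n with
    | zero =>
      constructor
      · simp
      · rw [hf]; simp only [add_zero]; rw [← ha]; linarith
    | succ n ih =>
      have hp : (0 : ℝ) < (1 / 2) ^ n := by positivity
      have h1 : ‖f (n + 1) - f 0‖ ≤ a / 2 * (1 - (1 / 2) ^ (n + 1)) := by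
        calc ‖f (n + 1) - f 0‖ ≤ ‖f (n + 1) - f n‖ + ‖f n - f 0‖ := by
              have := norm_add_le (f (n + 1) - f n) (f n - f 0)
              rwa [sub_add_sub_cancel] at this
          _ ≤ (1 / 8) * (1 / 2) ^ n * (2 * a) + a / 2 * (1 - (1 / 2) ^ n) := by
              apply add_le_add _ ih.1
              exact (hstep' n).trans (mul_le_mul_of_nonneg_left ih.2 (by positivity))
          _ = a / 2 * (1 - (1 / 2) ^ (n + 1)) := by rw [pow_succ]; ring
      refine ⟨h1, ?_⟩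
      have h2 : ‖f (n + 1)‖ ≤ ‖f (n + 1) - f 0‖ + ‖f 0‖ := by
        have := norm_add_le (f (n + 1) - f 0) (f 0)
        rwa [sub_add_cancel] at this
      have h3 : ‖f 0‖ = a := by rw [hf, ha]; simp only [add_zero]
      have hp' : (0 : ℝ) < (1 / 2) ^ (n + 1) := by positivity
      rw [h3] at h2
      nlinarith
  have hdist : ∀ n, dist (f n) (f (n + 1)) ≤ (a / 2) / 2 / 2 ^ n := by
    intro n
    rw [dist_comm, dist_eq_norm]
    refine (hstep' n).trans ?_
    calc (1 / 8) * (1 / 2) ^ n * ‖f n‖ ≤ (1 / 8) * (1 / 2) ^ n * (2 * a) :=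
          mul_le_mul_of_nonneg_left (hH n).2 (by positivity)
      _ = (a / 2) / 2 / 2 ^ n := by rw [one_div, one_div, inv_pow]; field_simp; norm_num
  have hcs := cauchySeq_of_le_geometric_two hdist
  obtain ⟨x, hx⟩ := cauchySeq_tendsto_of_complete hcs
  refine ⟨x, ?_, ?_⟩
  · rintro rfl
    have h1 := dist_le_of_le_geometric_two_of_tendsto₀ hdist hx
    rw [dist_zero_right] at h1
    have h3 : ‖f 0‖ = a := by rw [hf, ha]; simp only [add_zero]
    rw [h3] at h1
    linarith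
  · have h1 : Filter.Tendsto (fun n => Xe W e (n + K) (Q (n + K)) w) Filter.atTop (nhds x) := by
      refine hx.congr (fun n => ?_)
      rw [hf, add_comm]
    exact (Filter.tendsto_add_atTop_iff_nat K).mp h1

end stage

end v13

section v14
open scoped ENNReal Nat NNRat
/-! ### Rational approximation along a Hamel basis -/

section hamel

/-- a Hamel basis of the reals -/
noncomputable abbrev hb := Module.Basis.ofVectorSpace ℚ ℝ

/-- the approximating functionals -/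
noncomputable def lw (k : ℕ) : ℝ →ₗ[ℚ] ℚ :=
  hb.constr ℚ (fun i => (⌊(4 : ℝ) ^ k * hb i⌋ : ℚ) / 8 ^ k)

/-- the sequence of a real number -/
noncomputable def sq (t : ℝ) : ℕ → ℚ := fun k => lw k t

theorem sq_add (s t : ℝ) : sq (s + t) = sq s + sq t := by
  funext k
  unfold sq
  rw [map_add]
  rfl

theorem lw_apply (k : ℕ) (t : ℝ) :
    lw k t = ∑ i ∈ (hb.repr t).support, hb.repr t i * ((⌊(4 : ℝ) ^ k * hb i⌋ : ℚ) / 8 ^ k) := by
  unfold lw
  rw [Module.Basis.constr_apply]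
  rfl

theorem repr_sum (t : ℝ) : t = ∑ i ∈ (hb.repr t).support, ((hb.repr t i : ℚ) : ℝ) * hb i := by
  conv_lhs => rw [← hb.linearCombination_repr t]
  rw [Finsupp.linearCombination_apply, Finsupp.sum]
  apply Finset.sum_congr rfl
  intro i _
  rw [Rat.smul_def]

/-- approximation -/
theorem lw_approx (t : ℝ) : ∃ C : ℝ, 0 ≤ C ∧ ∀ k : ℕ, |((lw k t : ℚ) : ℝ) - t / 2 ^ k| ≤ C / 8 ^ k := by
  refine ⟨∑ i ∈ (hb.repr t).support, |((hb.repr t i : ℚ) : ℝ)|, Finset.sum_nonneg (fun _ _ => abs_nonneg _),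
    fun k => ?_⟩
  have h1 : ((lw k t : ℚ) : ℝ) - t / 2 ^ k = ∑ i ∈ (hb.repr t).support, ((hb.repr t i : ℚ) : ℝ) *
      ((⌊(4 : ℝ) ^ k * hb i⌋ : ℝ) - (4 : ℝ) ^ k * hb i) / 8 ^ k := by
    rw [lw_apply]
    conv_lhs =>
      enter [2, 1]
      rw [repr_sum t]
    rw [Finset.sum_div]
    push_cast
    rw [← Finset.sum_sub_distrib]
    apply Finset.sum_congr rfl
    intro i _
    have h8 : (8 : ℝ) ^ k = 2 ^ k * 4 ^ k := by rw [← mul_pow]; norm_num
    rw [h8]
    field_simp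
  rw [h1, Finset.sum_div]
  apply (Finset.abs_sum_le_sum_abs _ _).trans
  apply Finset.sum_le_sum
  intro i _
  rw [abs_div, abs_mul, abs_of_pos (by positivity : (0 : ℝ) < 8 ^ k)]
  apply div_le_div_of_nonneg_right _ (by positivity)
  have h2 : |(⌊(4 : ℝ) ^ k * hb i⌋ : ℝ) - (4 : ℝ) ^ k * hb i| ≤ 1 := by
    have h3 := Int.floor_le ((4 : ℝ) ^ k * hb i)
    have h4 := Int.lt_floor_add_one ((4 : ℝ) ^ k * hb i)
    rw [abs_le]
    constructor <;> linarith
  calc |((hb.repr t i : ℚ) : ℝ)| * |(⌊(4 : ℝ) ^ k * hb i⌋ : ℝ) - (4 : ℝ) ^ k * hb i|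
      ≤ |((hb.repr t i : ℚ) : ℝ)| * 1 := mul_le_mul_of_nonneg_left h2 (abs_nonneg _)
    _ = _ := mul_one _

/-- common denominators -/
theorem exists_level (t : ℝ) : ∃ K : ℕ, ∀ k ≥ K, ∀ i ∈ (hb.repr t).support,
    ∃ z : ℤ, (k ! : ℚ) * hb.repr t i = z := by
  refine ⟨(hb.repr t).support.sup (fun i => (hb.repr t i).den), fun k hk i hi => ?_⟩
  have h1 : (hb.repr t i).den ≤ k := (Finset.le_sup (f := fun i => (hb.repr t i).den) hi).trans hk
  obtain ⟨c, hc⟩ := Nat.dvd_factorial (hb.repr t i).den_pos h1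
  refine ⟨c * (hb.repr t i).num, ?_⟩
  rw [hc]
  push_cast
  have h2 := Rat.den_mul_eq_num (hb.repr t i)
  calc ((hb.repr t i).den : ℚ) * (c : ℚ) * hb.repr t i = c * ((hb.repr t i).den * hb.repr t i) := by ring
    _ = c * (hb.repr t i).num := by rw [h2]

theorem sq_good {t : ℝ} (ht : 0 < t) : ∃ K : ℕ, ∀ k ≥ K, Good k (sq t) := by
  obtain ⟨C, hC0, hC⟩ := lw_approx t
  obtain ⟨K1, hK1⟩ := exists_level t
  obtain ⟨K2, hK2⟩ := exists_nat_gt (4 * (C + 1) / t)
  obtain ⟨K3, hK3⟩ := exists_nat_gt (t + C)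
  refine ⟨max K1 (max K2 K3), fun k hk => ?_⟩
  have hk1 : K1 ≤ k := (le_max_left _ _).trans hk
  have hk2 : K2 ≤ k := ((le_max_left _ _).trans (le_max_right _ _)).trans hk
  have hk3 : K3 ≤ k := ((le_max_right _ _).trans (le_max_right _ _)).trans hk
  -- `4 (C + 1) < 4 ^ k t`
  have h4 : ∀ l ≥ k, 4 * (C + 1) < 4 ^ l * t := by
    intro l hl
    have h5 : (l : ℝ) ≤ 4 ^ l := by
      have h6 : l < 4 ^ l := Nat.lt_pow_self (by norm_num)
      exact_mod_cast h6.le
    have h7 : (K2 : ℝ) ≤ l := by exact_mod_cast hk2.trans hl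
    rw [div_lt_iff₀ ht] at hK2
    calc 4 * (C + 1) < K2 * t := hK2
      _ ≤ 4 ^ l * t := mul_le_mul_of_nonneg_right (h7.trans h5) ht.le
  have hlow : ∀ l ≥ k, 3 / 4 * (t / 2 ^ l) < ((lw l t : ℚ) : ℝ) ∧ ((lw l t : ℚ) : ℝ) < 5 / 4 * (t / 2 ^ l) := by
    intro l hl
    have h5 := abs_le.mp (hC l)
    have h6 : C / 8 ^ l < 1 / 4 * (t / 2 ^ l) := by
      have h8 : (8 : ℝ) ^ l = 2 ^ l * 4 ^ l := by rw [← mul_pow]; norm_num
      rw [h8, div_lt_iff₀ (by positivity)]
      have h7 := h4 l hl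
      have h9 : 1 / 4 * (t / 2 ^ l) * (2 ^ l * 4 ^ l) = 4 ^ l * t / 4 := by field_simp
      rw [h9]
      linarith
    constructor <;> linarith [h5.1, h5.2]
  have hpos : ∀ l ≥ k, 0 < lw l t := by
    intro l hl
    have h5 := (hlow l hl).1
    have h6 : 0 < t / 2 ^ l := by positivity
    have h7 : (0 : ℝ) < ((lw l t : ℚ) : ℝ) := by linarith
    exact_mod_cast h7
  -- integrality
  have hint : ∀ j ≤ k + 1, ∃ z : ℤ, lw j t * den k = z := by
    intro j hj
    choose! z hz using hK1 k hk1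
    refine ⟨∑ i ∈ (hb.repr t).support, z i * (⌊(4 : ℝ) ^ j * hb i⌋ * 8 ^ (k + 1 - j)), ?_⟩
    rw [lw_apply, Finset.sum_mul]
    push_cast
    apply Finset.sum_congr rfl
    intro i hi
    rw [← hz i hi]
    unfold den
    have h8 : (8 : ℚ) ^ (k + 1) = 8 ^ j * 8 ^ (k + 1 - j) := by
      rw [← pow_add]
      congr 1
      omega
    rw [h8]
    field_simp
  refine ⟨hpos k le_rfl, hpos (k + 1) (by omega), ?_, ?_⟩
  · -- the multiplicity
    obtain ⟨z1, hz1⟩ := hint k (by omega)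
    obtain ⟨z2, hz2⟩ := hint (k + 1) le_rfl
    have h5 : mm k (sq t) = ((z1 - z2 : ℤ) : ℚ) := by
      unfold mm sq
      rw [sub_mul, hz1, hz2]
      push_cast
      rfl
    have h6 : 0 ≤ mm k (sq t) := by
      unfold mm
      apply mul_nonneg _ (den_pos k).le
      have h7 := (hlow k le_rfl).1
      have h8 := (hlow (k + 1) (by omega)).2
      have h9 : t / 2 ^ (k + 1) = t / 2 ^ k / 2 := by rw [pow_succ]; field_simp
      have h10 : 0 < t / 2 ^ k := by positivity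
      rw [h9] at h8
      have h11 : ((lw (k + 1) t : ℚ) : ℝ) ≤ ((lw k t : ℚ) : ℝ) := by linarith
      have h12 : lw (k + 1) t ≤ lw k t := by exact_mod_cast h11
      exact sub_nonneg.mpr h12
    rw [h5] at h6
    have h13 : 0 ≤ z1 - z2 := by exact_mod_cast h6
    refine ⟨(z1 - z2).toNat, ?_⟩
    rw [h5]
    have h14 : (((z1 - z2).toNat : ℤ) : ℚ) = ((z1 - z2 : ℤ) : ℚ) := by rw [Int.toNat_of_nonneg h13]
    rw [← h14]
    push_cast
    rfl
  · intro j hj
    refine ⟨hint j hj, ?_⟩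
    have h5 := abs_le.mp (hC j)
    have h6 : t / 2 ^ j ≤ t := div_le_self ht.le (one_le_pow₀ (by norm_num))
    have h7 : C / 8 ^ j ≤ C := div_le_self hC0 (one_le_pow₀ (by norm_num))
    have h8 : (K3 : ℝ) ≤ k := by exact_mod_cast hk3
    have h9 : 0 ≤ t / 2 ^ j := by positivity
    have h10 : |((lw j t : ℚ) : ℝ)| ≤ k := by
      rw [abs_le]
      constructor <;> linarith [h5.1, h5.2]
    have h11 : ((|lw j t| : ℚ) : ℝ) ≤ ((k : ℚ) : ℝ) := by
      push_cast
      exact h10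
    exact_mod_cast h11

end hamel

/-- Existence of a nonzero real semigroup. -/
theorem exists_real {W : ℕ → ℝ} {A : Type} [NormedCommRing A] [NormedAlgebra ℂ A] {e : A ≃ₗ[ℂ] L ℚ≥0}
    (hA : IsAlg W e) [CompleteSpace A] :
    ∃ a : ℝ → A, (∀ s t : ℝ, 0 < s → 0 < t → a (s + t) = a s * a t) ∧ (∀ t, 0 < t → a t ≠ 0) ∧
      ∀ t, 0 < t → hA.chi (a t) = 0 := by
  obtain ⟨Q, hQ, hstep⟩ := exists_stages hA
  have hlim : ∀ t : ℝ, ∃ x : A, 0 < t → (x ≠ 0 ∧
      Filter.Tendsto (fun k => Xe W e k (Q k) (sq t)) Filter.atTop (nhds x)) := by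
    intro t
    by_cases ht : 0 < t
    · obtain ⟨K, hK⟩ := sq_good ht
      obtain ⟨x, hx⟩ := exists_limit hA hQ hstep hK
      exact ⟨x, fun _ => hx⟩
    · exact ⟨0, fun h => absurd h ht⟩
  choose a ha using hlim
  refine ⟨a, ?_, fun t ht => (ha t ht).1, ?_⟩
  · intro s t hs ht
    obtain ⟨K1, hK1⟩ := sq_good hs
    obtain ⟨K2, hK2⟩ := sq_good ht
    have h1 := (ha s hs).2.mul (ha t ht).2
    have h2 := (ha (s + t) (add_pos hs ht)).2
    refine tendsto_nhds_unique h2 (h1.congr' ?_)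
    filter_upwards [Filter.eventually_ge_atTop (max K1 K2)] with k hk
    have h3 := (hK1 k ((le_max_left _ _).trans hk)).1
    have h4 := (hK2 k ((le_max_right _ _).trans hk)).1
    unfold Xe
    rw [sq_add, (hQ k).add, Pi.add_apply, Rat.toNNRat_add h3.le h4.le, hA.dl_add]
    ring
  · intro t ht
    obtain ⟨K, hK⟩ := sq_good ht
    have h1 := (hA.chi_continuous.tendsto _).comp (ha t ht).2
    refine tendsto_nhds_unique h1 (tendsto_const_nhds.congr' ?_)
    filter_upwards [Filter.eventually_ge_atTop K] with k hk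
    have h3 := (hK k hk).1
    unfold Xe
    rw [Function.comp_apply, map_mul, hA.chi_dl (Rat.toNNRat_pos.mpr h3).ne', zero_mul]

end v14

end Pool.Agent.Helper550.Semi
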